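import Mathlib
import Pool.Agent.Work.MP_b0c12c_nt_shift.Interface
import Pool.Agent.Work.MP_b0c12c_nt_shift.Interface2

/-!
# Sparse random shifts of the sieve of Eratosthenes: definitions and interface
-/

set_option autoImplicit false

namespace Pool.Agent.Work.MP_b0c12c_nt_sparse

open Finset Filter
open Pool.Agent.Work.MP_b0c12c_nt_shift

/-- The law of sparse shifts: `P(u p = 1), P(u p = -1) ≥ exp (-lam (log p))`, the moved mass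
`∑ P(u p ≠ 0) / p` is finite, `lam (log p) ≤ α log p` with `α < 1`. -/
structure SLaw (π : ℕ → ℤ → ℝ) (lam : ℝ → ℝ) (α : ℝ) : Prop where
  nonneg : ∀ p s, 0 ≤ π p s
  sum_one : ∀ p, π p (-1) + π p 0 + π p 1 = 1
  half : ∃ P : ℕ, ∀ p : ℕ, p.Prime → P ≤ p → 1 / 2 ≤ π p 0
  low : ∃ P : ℕ, ∀ p : ℕ, p.Prime → P ≤ p →
    Real.exp (-lam (Real.log p)) ≤ π p 1 ∧ Real.exp (-lam (Real.log p)) ≤ π p (-1)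
  mass : Summable fun p : ℕ => if p.Prime then ep π p / p else 0
  one_le : ∀ u : ℝ, 1 ≤ u → 1 ≤ lam u
  mono : ∀ u v : ℝ, 1 ≤ u → u ≤ v → lam u ≤ lam v
  sub : ∀ t u : ℝ, 1 ≤ t → 1 ≤ u → lam (t * u) ≤ t * lam u
  lt : 0 ≤ α ∧ α < 1 ∧ ∃ u0 : ℝ, ∀ u : ℝ, u0 ≤ u → lam u ≤ α * u

/-- the least prime of `A` which divides `m` (`1` if there is none) -/
noncomputable def lp (A : Finset ℕ) (m : ℕ) : ℕ :=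
  if h : (A.filter (· ∣ m)).Nonempty then (A.filter (· ∣ m)).min' h else 1

/-- the probability that no prime of `A` which divides `n` keeps the shift `0` -/
noncomputable def VV (e : ℕ → ℝ) (A : Finset ℕ) (n : ℕ) : ℝ := ∏ p ∈ A, if p ∣ n then e p else 1

/-- Block K1. The mean of the logarithm of the least killer. -/
def Stmt_K1 : Prop :=
  ∃ C : ℝ, 0 < C ∧ ∀ κ : ℝ, 0 < κ → κ ≤ 1 / 50 → ∀ B : ℕ, 2 ≤ B → ∃ z0 : ℕ, ∀ z : ℕ, z0 ≤ z →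
    ∀ x : ℕ, InR κ z x → ∀ v : ℕ → ℤ, (∀ p, v p ∈ sgn) → ∀ a : ℕ, ∀ S : Finset ℕ,
      (∀ n ∈ S, n ∈ Ioc x (2 * x) ∧ n ≡ a [MOD qq z 0] ∧ SurvF v (AA κ B z 0) x n ∧
        ∀ p ∈ AA κ B z 0, ¬ p ∣ n) →
      ∑ n ∈ S, Real.log (lp (AA κ B z 0) (n ^ 2 - 1)) ≤
        C * (B * Real.log z) * (x * Real.log z / (qq z 0 * Real.log x))

/-- Block K2. The mean of `VV`. -/
def Stmt_K2 : Prop :=
  ∃ C : ℝ, 0 < C ∧ ∀ κ : ℝ, 0 < κ → κ ≤ 1 / 50 → ∀ B : ℕ, 2 ≤ B → ∃ z0 : ℕ, ∀ z : ℕ, z0 ≤ z →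
    ∀ x : ℕ, InR κ z x → ∀ v : ℕ → ℤ, (∀ p, v p ∈ sgn) → ∀ (e : ℕ → ℝ) (m : ℝ),
      (∀ p ∈ AA κ B z 0, 0 ≤ e p ∧ e p ≤ 1) → ∑ p ∈ AA κ B z 0, e p / p ≤ m →
      ∀ a : ℕ, ∀ S : Finset ℕ,
      (∀ n ∈ S, n ∈ Ioc x (2 * x) ∧ n ≡ a [MOD qq z 0] ∧ SurvF v (AA κ B z 0) x n) →
      ∑ n ∈ S, VV e (AA κ B z 0) n ≤
        C * Real.exp m * (x * Real.log z / (qq z 0 * Real.log x))

/-- Block K3. Twins. -/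
def Stmt_K3 : Prop :=
  ∃ C : ℝ, 0 < C ∧ ∀ κ : ℝ, 0 < κ → κ ≤ 1 / 50 → ∀ B : ℕ, 2 ≤ B → ∃ z0 : ℕ, ∀ z : ℕ, z0 ≤ z →
    ∀ x : ℕ, InR κ z x → ∀ v : ℕ → ℤ, (∀ p, v p ∈ sgn) → ∀ a : ℕ, ∀ S : Finset ℕ,
      (∀ n ∈ S, n ∈ Ioc x (2 * x) ∧ n ≡ a [MOD qq z 0] ∧ SurvF v (AA κ B z 0) x n ∧
        SurvF v (AA κ B z 0) x (n + 2) ∧ ∀ p ∈ AA κ B z 0, ¬ p ∣ n ∧ ¬ p ∣ n + 2) →
      ∑ n ∈ S, (Real.log (lp (AA κ B z 0) (n - 1)) + Real.log (lp (AA κ B z 0) (n + 3))) ≤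
        C * B * Real.log z ^ 4 * (x / (qq z 0 * Real.log x ^ 2))

/-- Block COL. The number of columns. -/
def Stmt_COL : Prop :=
  ∃ C : ℝ, 0 < C ∧ ∃ z0 : ℕ, ∀ z : ℕ, z0 ≤ z → ∀ U : ℕ, z ≤ U →
    (((Icc 1 U).filter fun j => j.Coprime (qq z 0)).card : ℝ) ≤ C * (U / Real.log z)

open Classical in
/-- the logarithmic cost of killing all members of `S` (the survivors of a window) -/
noncomputable def cost (π : ℕ → ℤ → ℝ) (c : ℕ → ℝ) (A S : Finset ℕ) : ℝ :=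
  ∑ n ∈ S, (if ∃ p ∈ A, p ∣ n then 2 * VV (ep π) A n else c (lp A (n ^ 2 - 1))) +
  ∑ n ∈ S.filter (fun n => n + 2 ∈ S ∧ ∀ p ∈ A, ¬ p ∣ n ∧ ¬ p ∣ n + 2),
    (c (lp A (n - 1)) + c (lp A (n + 3)))

/-- all survivors have killers -/
def HasKillers (A S : Finset ℕ) : Prop :=
  (∀ n ∈ S, (∃ p ∈ A, p ∣ n) ∨ ∃ p ∈ A, p ∣ n ^ 2 - 1) ∧
  (∀ n ∈ S, n + 2 ∈ S → (∀ p ∈ A, ¬ p ∣ n ∧ ¬ p ∣ n + 2) →
    (∃ p ∈ A, p ∣ n - 1) ∧ ∃ p ∈ A, p ∣ n + 3)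

/-- Block CLS. Lower bound for the probability that a row is empty. -/
def Stmt_CLS : Prop :=
  ∀ (π : ℕ → ℤ → ℝ), (∀ p s, 0 ≤ π p s) → (∀ p, π p (-1) + π p 0 + π p 1 = 1) →
    ∀ (c : ℕ → ℝ) (A : Finset ℕ) (x U N : ℕ) (v : ℕ → ℤ), 9 ≤ x → 0 < N → (∀ p, v p ∈ sgn) →
    (∀ p ∈ A, p.Prime ∧ U + 6 < p ∧ p * p ≤ x ∧ 1 / 2 ≤ π p 0 ∧ 0 ≤ c p ∧
      Real.exp (-c p) ≤ π p 1 ∧ Real.exp (-c p) ≤ π p (-1)) →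
    (2 : ℤ) ∣ (N : ℤ) - v 2 → (3 : ℤ) ∣ (N : ℤ) - v 3 →
    HasKillers A (Sur v A x U N) →
    Real.exp (-cost π c A (Sur v A x U N)) ≤ EA π A (ind (Emp x U N)) v

/-- Block ROWS (assembly of K1, K2, K3, COL, H1, H2). A positive proportion of the rows is
cheap. -/
def Stmt_ROWS : Prop :=
  ∀ (π : ℕ → ℤ → ℝ) (lam : ℝ → ℝ) (α : ℝ), SLaw π lam α → ∀ κ : ℝ, 0 < κ → κ ≤ 1 / 50 →
    ∀ B : ℕ, 3 ≤ B → ∀ τ : ℝ, 0 < τ → ∃ g : ℝ, 0 < g ∧ g ≤ 1 ∧ ∃ z0 : ℕ, ∀ z : ℕ, z0 ≤ z →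
    ∀ x U : ℕ, InR κ z x → z ≤ U → (U : ℝ) * lam (Real.log z) ≤ g * Real.log x ^ 2 →
    ∀ v : ℕ → ℤ, (∀ p, v p ∈ sgn) → ∀ b : ℕ, IsB v z 0 b →
    ∃ R : Finset ℕ, R ⊆ rows x (qq z 0) b U ∧ (x : ℝ) / qq z 0 / 4 ≤ R.card ∧ ∀ r ∈ R,
      cost π (fun p => lam (Real.log p)) (AA κ B z 0)
        (Sur v (AA κ B z 0) x U (r * qq z 0 + b)) ≤ τ * Real.log x ∧
      HasKillers (AA κ B z 0) (Sur v (AA κ B z 0) x U (r * qq z 0 + b))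

/-- Block SCS (assembly of ROWS, CLS, SMG, PCG). At arbitrarily large scales the probability
that there is no empty window is small. -/
def Stmt_SCS : Prop :=
  ∀ (π : ℕ → ℤ → ℝ) (lam : ℝ → ℝ) (α : ℝ), SLaw π lam α → ∃ c : ℝ, 0 < c ∧
    ∀ δ : ℝ, 0 < δ → ∀ x0 : ℕ, ∃ x U : ℕ, x0 ≤ x ∧
      c * Real.log x ^ 2 / lam (Real.log (Real.log x)) + 1 ≤ U ∧
      EA π (PX x) (ind {w | ∀ N : ℕ, x ≤ N → N + U ≤ 2 * x → w ∉ Emp x U N}) 0 ≤ δ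

/-- Block BT. Brun–Titchmarsh for `t m ≡ s (mod p)`, `m` prime in `(X, 2X]`. -/
def Stmt_BT : Prop :=
  ∃ C : ℝ, 0 < C ∧ ∀ t : ℕ, 0 < t → ∃ X0 : ℕ, ∀ X : ℕ, X0 ≤ X → ∀ p : ℕ, p.Prime → ¬ p ∣ t →
    p * p ≤ 4 * t * X → ∀ s ∈ sgn, s ≠ 0 →
      ((((Ioc X (2 * X)).filter fun m : ℕ => m.Prime ∧ (p : ℤ) ∣ (t : ℤ) * (m : ℤ) - s).card : ℕ) : ℝ) ≤
        C * (X / (p * Real.log X))

/-- Block INS (from BT and Chebyshev's lower bound). With probability tending to one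
`(x, 2x]` contains a member of the set. -/
def Stmt_INS : Prop :=
  ∀ (π : ℕ → ℤ → ℝ), (∀ p s, 0 ≤ π p s) → (∀ p, π p (-1) + π p 0 + π p 1 = 1) →
    (Summable fun p : ℕ => if p.Prime then ep π p / p else 0) →
    ∀ δ : ℝ, 0 < δ → ∃ x0 : ℕ, ∀ x : ℕ, x0 ≤ x →
      EA π (PX (2 * x)) (ind {w | ∀ n ∈ Ioc x (2 * x), n ∉ Shifted w}) 0 ≤ δ

end Pool.Agent.Work.MP_b0c12c_nt_sparse
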