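import Mathlib
import Pool.Agent.Work.MP_b0c12c_nt_sparse.Interface
import Pool.Agent.Work.MP_b0c12c_nt_shift.WS
import Pool.Agent.Work.MP_b0c12c_nt_shift.WSap

/-!
# A sieve bound for the integers of a residue class without small prime factors
-/

set_option autoImplicit false

namespace Pool.Agent.Work.MP_b0c12c_nt_sparse

open Finset
open Pool.Agent.Work.MP_b0c12c_nt_shift

namespace SV

theorem filter_dvd {p : ℕ} (hp : 0 < p) : ((range p).filter fun c => p ∣ c) = {0} := by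
  ext c
  rw [mem_filter, mem_range, mem_singleton]
  constructor
  · rintro ⟨h1, h2⟩
    exact Nat.eq_zero_of_dvd_of_lt h2 h1
  · rintro rfl
    exact ⟨hp, dvd_zero _⟩

theorem card_ne_one {p : ℕ} (hp : 0 < p) :
    ((range p).filter fun c => (if p ∣ c then (0 : ℝ) else 1) ≠ 1).card = 1 := by
  have : ((range p).filter fun c => (if p ∣ c then (0 : ℝ) else 1) ≠ 1) = {0} := by
    rw [← filter_dvd hp]
    apply filter_congr
    intro c _
    by_cases h : p ∣ c
    · simp [h]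
    · simp [h]
  rw [this, card_singleton]

theorem sum_one {p : ℕ} (hp : 0 < p) :
    (∑ c ∈ range p, (if p ∣ c then (0 : ℝ) else 1)) / p = 1 - 1 / p := by
  have hp' : (p : ℝ) ≠ 0 := by exact_mod_cast hp.ne'
  have h1 : ∑ c ∈ range p, (if p ∣ c then (0 : ℝ) else 1) =
      ∑ c ∈ range p, (1 - (if p ∣ c then (1 : ℝ) else 0)) := by
    apply sum_congr rfl
    intro c _
    by_cases h : p ∣ c
    · simp [h]
    · simp [h]
  rw [h1, sum_sub_distrib, ← sum_filter, filter_dvd hp]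
  simp only [sum_const, card_range, nsmul_eq_mul, mul_one, card_singleton, Nat.cast_one]
  field_simp

/-- the sieve bound -/
theorem sv : ∃ C : ℝ, 0 < C ∧ ∃ D : ℕ, 0 < D ∧ ∀ (W N X q b : ℕ) (T : Finset ℕ),
    3 ≤ W → W ^ D ≤ N → 0 < q → q ≤ X →
    (∀ p : ℕ, p.Prime → 2 < p → p ≤ W → p ≠ b → q.Coprime p) →
    (∀ m ∈ T, X < m ∧ m ≤ X + N * q) → (∀ m ∈ T, ∀ m' ∈ T, m ≡ m' [MOD q]) →
    (∀ m ∈ T, ∀ p : ℕ, p.Prime → 2 < p → p ≤ W → p ≠ b → ¬ p ∣ m) →
      (T.card : ℝ) ≤ C * (N / Real.log W) := by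
  obtain ⟨C, hC, D, hD⟩ := WSap.ws_ap stmt_WS 1 one_pos
  obtain ⟨C', hC', hM⟩ := WSap.mertens_prod
  have hl2 : 0 < Real.log 2 := Real.log_pos (by norm_num)
  refine ⟨C * C' * Real.log 2, by positivity, D + 1, by omega, ?_⟩
  intro W N X q b T hW hN hq hqX hcop hT hTq hTp
  set P : Finset ℕ := ((Ioc 2 W).filter Nat.Prime).erase b with hPdef
  have hPm : ∀ p ∈ P, p.Prime ∧ 2 < p ∧ p ≤ W ∧ p ≠ b := by
    intro p hp
    rw [hPdef, mem_erase, mem_filter, mem_Ioc] at hp
    exact ⟨hp.2.2, hp.2.1.1, hp.2.1.2, hp.1⟩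
  have hN' : W ^ D ≤ N := le_trans (Nat.pow_le_pow_right (by omega) (by omega)) hN
  have key := hD W N X q P (fun p m => if p ∣ m then 0 else 1) T hW
    (fun p hp => by
      obtain ⟨h1, h2, h3, h4⟩ := hPm p hp
      exact ⟨h1, by omega, h3, hcop p h1 h2 h3 h4⟩) hN' hq hqX
    (fun p _ m m' h => by
      have : p ∣ m ↔ p ∣ m' := h.dvd_iff (dvd_refl p)
      simp only [this])
    (fun p _ m => by
      by_cases h : p ∣ m
      · simp [h]
      · simp [h])
    (fun p hp => (card_ne_one (hPm p hp).1.pos).le) hT hTq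
  have h1 : ∑ m ∈ T, ∏ p ∈ P, (if p ∣ m then (0 : ℝ) else 1) = T.card := by
    rw [card_eq_sum_ones, Nat.cast_sum]
    apply sum_congr rfl
    intro m hm
    rw [Nat.cast_one]
    apply prod_eq_one
    intro p hp
    obtain ⟨h1, h2, h3, h4⟩ := hPm p hp
    rw [if_neg (hTp m hm p h1 h2 h3 h4)]
  have h2 : ∏ p ∈ P, ((∑ c ∈ range p, (if p ∣ c then (0 : ℝ) else 1)) / p) ≤
      C' * (Real.log 2 / Real.log W) := by
    have h3 := hM 2 W b le_rfl (by omega)
    refine le_trans (le_of_eq ?_) h3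
    apply prod_congr rfl
    intro p hp
    exact sum_one (hPm p hp).1.pos
  rw [← h1]
  refine key.trans ?_
  calc C * N * ∏ p ∈ P, ((∑ c ∈ range p, (if p ∣ c then (0 : ℝ) else 1)) / p) ≤
      C * N * (C' * (Real.log 2 / Real.log W)) := by
        apply mul_le_mul_of_nonneg_left h2
        positivity
    _ = C * C' * Real.log 2 * (N / Real.log W) := by ring

/-- an integral approximation of the `E`-th root -/
theorem root_scale (E : ℕ) (hE : 0 < E) (X : ℕ) (hX : 3 ^ E ≤ X) :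
    ∃ W : ℕ, 3 ≤ W ∧ W ^ E ≤ X ∧ Real.log X ≤ 2 * E * Real.log W := by
  refine ⟨Nat.findGreatest (fun W => W ^ E ≤ X) X, ?_, ?_, ?_⟩
  · refine Nat.le_findGreatest ?_ hX
    calc 3 = 3 ^ 1 := (pow_one 3).symm
      _ ≤ 3 ^ E := Nat.pow_le_pow_right (by norm_num) hE
      _ ≤ X := hX
  · have := Nat.findGreatest_spec (P := fun W => W ^ E ≤ X) (n := X) (m := 3) (by
      calc 3 = 3 ^ 1 := (pow_one 3).symm
        _ ≤ 3 ^ E := Nat.pow_le_pow_right (by norm_num) hE
        _ ≤ X := hX) hX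
    exact this
  · have h3X : 3 ≤ X := by
      calc 3 = 3 ^ 1 := (pow_one 3).symm
        _ ≤ 3 ^ E := Nat.pow_le_pow_right (by norm_num) hE
        _ ≤ X := hX
    have h3 : 3 ≤ Nat.findGreatest (fun W => W ^ E ≤ X) X := Nat.le_findGreatest h3X hX
    set W := Nat.findGreatest (fun W => W ^ E ≤ X) X with hW
    have h4 : X < (W + 1) ^ E := by
      by_contra hcon
      push Not at hcon
      have h5 : W + 1 ≤ X := by
        calc W + 1 = (W + 1) ^ 1 := (pow_one _).symm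
          _ ≤ (W + 1) ^ E := Nat.pow_le_pow_right (by omega) hE
          _ ≤ X := hcon
      have := Nat.le_findGreatest (P := fun W => W ^ E ≤ X) h5 hcon
      omega
    have h5 : X ≤ (W ^ 2) ^ E := by
      refine h4.le.trans (Nat.pow_le_pow_left ?_ E)
      nlinarith
    have h6 : (X : ℝ) ≤ ((W : ℝ) ^ 2) ^ E := by exact_mod_cast h5
    have h7 := Real.log_le_log (by exact_mod_cast (by omega : 0 < X)) h6
    rw [Real.log_pow, Real.log_pow] at h7
    push_cast at h7
    linarith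

end SV

end Pool.Agent.Work.MP_b0c12c_nt_sparse
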