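import Mathlib
import Pool.Agent.Work.MP_b0c12c_nt_sparse.Interface
import Pool.Agent.Work.MP_b0c12c_nt_sparse.SV

/-!
# Block BT: Brun–Titchmarsh for `t m ≡ s (mod p)`
-/

set_option autoImplicit false

namespace Pool.Agent.Work.MP_b0c12c_nt_sparse

open Finset
open Pool.Agent.Work.MP_b0c12c_nt_shift

theorem stmt_BT : Stmt_BT := by
  obtain ⟨C, hC, D, hD, h⟩ := SV.sv
  refine ⟨16 * D * C, by positivity, ?_⟩
  intro t ht
  refine ⟨max (16 * t ^ 2) (3 ^ (4 * D)), ?_⟩
  intro X hX p hp hpt hpX s _ _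
  have hX1 : 16 * t ^ 2 ≤ X := le_trans (le_max_left _ _) hX
  have hX2 : 3 ^ (4 * D) ≤ X := le_trans (le_max_right _ _) hX
  obtain ⟨W, hW3, hWX, hlog⟩ := SV.root_scale (4 * D) (by omega) X hX2
  have hX3 : 3 ≤ X := by
    calc 3 = 3 ^ 1 := (pow_one 3).symm
      _ ≤ 3 ^ (4 * D) := Nat.pow_le_pow_right (by norm_num) (by omega)
      _ ≤ X := hX2
  have hWX' : W ≤ X := by
    calc W = W ^ 1 := (pow_one W).symm
      _ ≤ W ^ (4 * D) := Nat.pow_le_pow_right (by omega) (by omega)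
      _ ≤ X := hWX
  have hWp : W ^ D * p ≤ X := by
    have h1 : (W ^ D * p) ^ 4 ≤ X ^ 4 := by
      calc (W ^ D * p) ^ 4 = W ^ (4 * D) * (p * p) ^ 2 := by ring
        _ ≤ X * (4 * t * X) ^ 2 := Nat.mul_le_mul hWX (Nat.pow_le_pow_left hpX 2)
        _ = X ^ 3 * (16 * t ^ 2) := by ring
        _ ≤ X ^ 3 * X := Nat.mul_le_mul_left _ hX1
        _ = X ^ 4 := by ring
    exact (Nat.pow_le_pow_iff_left (by norm_num)).mp h1
  have hW1 : 1 ≤ W ^ D := Nat.one_le_pow _ _ (by omega)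
  have hpX' : p ≤ X := by nlinarith
  have hp0 : 0 < p := hp.pos
  set T : Finset ℕ := (Ioc X (2 * X)).filter fun m : ℕ => m.Prime ∧ (p : ℤ) ∣ (t : ℤ) * (m : ℤ) - s
    with hT
  have hTm : ∀ m ∈ T, (X < m ∧ m ≤ 2 * X) ∧ m.Prime ∧ (p : ℤ) ∣ (t : ℤ) * (m : ℤ) - s := by
    intro m hm
    rwa [hT, mem_filter, mem_Ioc] at hm
  have hNp : X < (X / p + 1) * p := by
    have := Nat.lt_mul_div_succ X hp0
    rw [mul_comm]
    exact this
  have key := h W (X / p + 1) X p p T hW3
    (by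
      have : W ^ D ≤ X / p := by
        rw [Nat.le_div_iff_mul_le hp0]
        exact hWp
      omega) hp0 hpX'
    (fun p' hp' _ _ hne => (Nat.coprime_primes hp hp').mpr (Ne.symm hne))
    (fun m hm => by
      have := (hTm m hm).1
      omega)
    (fun m hm m' hm' => by
      have h1 := (hTm m hm).2.2
      have h2 := (hTm m' hm').2.2
      have h3 : (p : ℤ) ∣ (t : ℤ) * ((m' : ℤ) - m) := by
        have := dvd_sub h2 h1
        have h4 : (t : ℤ) * ((m' : ℤ) - m) = t * m' - s - (t * m - s) := by ring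
        rw [h4]
        exact this
      have hpZ : Prime (p : ℤ) := Nat.prime_iff_prime_int.mp hp
      rcases hpZ.dvd_or_dvd h3 with h5 | h5
      · exact absurd (by exact_mod_cast h5) hpt
      · exact (Nat.modEq_iff_dvd).mpr h5)
    (fun m hm p' hp' _ hpW _ hpm => by
      obtain ⟨h1, h2, _⟩ := hTm m hm
      have := (Nat.prime_dvd_prime_iff_eq hp' h2).mp hpm
      omega)
  have hXr : (3 : ℝ) ≤ X := by exact_mod_cast hX3
  have hlX : 0 < Real.log X := Real.log_pos (by linarith)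
  have hW0 : (3 : ℝ) ≤ W := by exact_mod_cast hW3
  have hlW : 0 < Real.log W := Real.log_pos (by linarith)
  have hpr : (0 : ℝ) < p := by exact_mod_cast hp0
  have hpXr : (p : ℝ) ≤ X := by exact_mod_cast hpX'
  have h1 : 1 ≤ (X : ℝ) / p := by
    rw [le_div_iff₀ hpr]
    linarith
  have h2 : ((X / p + 1 : ℕ) : ℝ) ≤ 2 * (X / p) := by
    have := Nat.cast_div_le (α := ℝ) (m := X) (n := p)
    push_cast
    linarith
  have h3 : 1 / Real.log W ≤ 8 * D * (1 / Real.log X) := by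
    rw [div_le_iff₀ hlW]
    have h4 : 8 * D * (1 / Real.log X) * Real.log W = (8 * D * Real.log W) / Real.log X := by ring
    rw [h4, le_div_iff₀ hlX]
    push_cast at hlog
    linarith
  calc (T.card : ℝ) ≤ C * (((X / p + 1 : ℕ) : ℝ) / Real.log W) := key
    _ = C * (((X / p + 1 : ℕ) : ℝ) * (1 / Real.log W)) := by ring
    _ ≤ C * ((2 * (X / p)) * (8 * D * (1 / Real.log X))) := by
        apply mul_le_mul_of_nonneg_left _ hC.le
        apply mul_le_mul h2 h3 (by positivity) (by positivity)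
    _ = 16 * D * C * (X / (p * Real.log X)) := by
        field_simp
        ring

end Pool.Agent.Work.MP_b0c12c_nt_sparse
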