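import Pool.Agent.Work.MP_b0c12c_nt_sparse.Interface
import Pool.Agent.Work.MP_b0c12c_nt_shift.CL

/-!
# Block CLS: lower bound for the probability that a row is empty (designated killers)
-/

set_option autoImplicit false

namespace Pool.Agent.Work.MP_b0c12c_nt_sparse

open Finset
open Pool.Agent.Work.MP_b0c12c_nt_shift
open Pool.Agent.Work.MP_b0c12c_nt_shift.CL (Hit Hit_dependsOn EA_hit dvd_nat_sub dvd_nat_add)

theorem lp_spec {A : Finset ℕ} {m : ℕ} (h : ∃ p ∈ A, p ∣ m) : lp A m ∈ A ∧ lp A m ∣ m := by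
  obtain ⟨p, hp, hpm⟩ := h
  have hne : (A.filter (· ∣ m)).Nonempty := ⟨p, mem_filter.2 ⟨hp, hpm⟩⟩
  unfold lp
  rw [dif_pos hne]
  have := (A.filter (· ∣ m)).min'_mem hne
  rw [mem_filter] at this
  exact this

theorem lp_le {A : Finset ℕ} {m p : ℕ} (hp : p ∈ A) (hpm : p ∣ m) : lp A m ≤ p := by
  have hne : (A.filter (· ∣ m)).Nonempty := ⟨p, mem_filter.2 ⟨hp, hpm⟩⟩
  unfold lp
  rw [dif_pos hne]
  exact min'_le _ _ (mem_filter.2 ⟨hp, hpm⟩)

namespace CLS

/-- free of `A` -/
def Fr (A : Finset ℕ) (n : ℕ) : Prop := ∀ p ∈ A, ¬ p ∣ n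

/-- the left members of the free twins -/
def Tw (A S : Finset ℕ) (n : ℕ) : Prop := n ∈ S ∧ n + 2 ∈ S ∧ Fr A n ∧ Fr A (n + 2)

open Classical in
/-- the primes used for `n` -/
noncomputable def TT (A S : Finset ℕ) (n : ℕ) : Finset ℕ :=
  if ∃ p ∈ A, p ∣ n then A.filter (· ∣ n)
  else if Tw A S n then {lp A (n - 1)}
  else if ∃ m, Tw A S m ∧ m + 2 = n then {lp A (n + 1)}
  else {lp A (n ^ 2 - 1)}

open Classical in
/-- the shift used for `n` -/
noncomputable def ss (A S : Finset ℕ) (n : ℕ) : ℤ :=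
  if ∃ p ∈ A, p ∣ n then 0
  else if Tw A S n then 1
  else if ∃ m, Tw A S m ∧ m + 2 = n then -1
  else if lp A (n ^ 2 - 1) ∣ n - 1 then 1 else -1

open Classical in
/-- the cost of `n` -/
noncomputable def cc (π : ℕ → ℤ → ℝ) (c : ℕ → ℝ) (A S : Finset ℕ) (n : ℕ) : ℝ :=
  if ∃ p ∈ A, p ∣ n then 2 * VV (ep π) A n
  else if Tw A S n then c (lp A (n - 1))
  else if ∃ m, Tw A S m ∧ m + 2 = n then c (lp A (n + 1))
  else c (lp A (n ^ 2 - 1))

variable {π : ℕ → ℤ → ℝ} {c : ℕ → ℝ} {A S : Finset ℕ}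

/-- the designated primes divide `n - s` -/
theorem TT_spec (hk : HasKillers A S) (hpr : ∀ p ∈ A, p.Prime) {n : ℕ} (hn : n ∈ S) (hn0 : 0 < n) :
    TT A S n ⊆ A ∧ ∀ p ∈ TT A S n, (p : ℤ) ∣ (n : ℤ) - ss A S n := by
  classical
  unfold TT ss
  by_cases h1 : ∃ p ∈ A, p ∣ n
  · rw [if_pos h1, if_pos h1]
    refine ⟨filter_subset _ _, fun p hp => ?_⟩
    rw [mem_filter] at hp
    rw [sub_zero]
    exact_mod_cast hp.2
  rw [if_neg h1, if_neg h1]
  have hfr : Fr A n := fun p hp hd => h1 ⟨p, hp, hd⟩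
  by_cases h2 : Tw A S n
  · rw [if_pos h2, if_pos h2]
    have h3 := lp_spec (hk.2 n hn h2.2.1 fun p hp => ⟨h2.2.2.1 p hp, h2.2.2.2 p hp⟩).1
    refine ⟨singleton_subset_iff.2 h3.1, fun p hp => ?_⟩
    rw [mem_singleton] at hp
    rw [hp, dvd_nat_sub hn0]
    exact h3.2
  rw [if_neg h2, if_neg h2]
  by_cases h4 : ∃ m, Tw A S m ∧ m + 2 = n
  · rw [if_pos h4, if_pos h4]
    obtain ⟨m, hm, rfl⟩ := h4
    have h3 := lp_spec (hk.2 m hm.1 hm.2.1 fun p hp => ⟨hm.2.2.1 p hp, hm.2.2.2 p hp⟩).2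
    have e : m + 2 + 1 = m + 3 := rfl
    rw [e]
    refine ⟨singleton_subset_iff.2 h3.1, fun p hp => ?_⟩
    rw [mem_singleton] at hp
    rw [hp, dvd_nat_add]
    exact h3.2
  rw [if_neg h4, if_neg h4]
  have h5 := lp_spec ((hk.1 n hn).resolve_left h1)
  refine ⟨singleton_subset_iff.2 h5.1, fun p hp => ?_⟩
  rw [mem_singleton] at hp
  split_ifs with h6
  · rw [hp, dvd_nat_sub hn0]
    exact h6
  · rw [hp, dvd_nat_add]
    have h7 : lp A (n ^ 2 - 1) ∣ (n + 1) * (n - 1) := by
      have e : (n + 1) * (n - 1) = n ^ 2 - 1 := by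
        have := Nat.sq_sub_sq n 1
        simpa using this.symm
      rw [e]
      exact h5.2
    rcases (hpr _ h5.1).dvd_mul.1 h7 with h8 | h8
    · exact h8
    · exact absurd h8 h6

theorem ss_sgn (n : ℕ) : ss A S n ∈ sgn := by
  classical
  unfold ss
  split_ifs <;> decide

theorem ss_zero {n : ℕ} (h : ss A S n ≠ 0) : Fr A n := by
  classical
  intro p hp hd
  apply h
  unfold ss
  rw [if_pos ⟨p, hp, hd⟩]

/-- the designated probability -/
theorem prob_ge (hπ : ∀ p s, 0 ≤ π p s) (hs : ∀ p, π p (-1) + π p 0 + π p 1 = 1)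
    (hk : HasKillers A S) (hpr : ∀ p ∈ A, p.Prime)
    (hA : ∀ p ∈ A, 1 / 2 ≤ π p 0 ∧ Real.exp (-c p) ≤ π p 1 ∧ Real.exp (-c p) ≤ π p (-1))
    {n : ℕ} (hn : n ∈ S) (hn0 : 0 < n) (v : ℕ → ℤ) :
    Real.exp (-cc π c A S n) ≤ EA π A (ind (Hit (TT A S n) (fun _ => {ss A S n}))) v := by
  classical
  obtain ⟨hT, hTd⟩ := TT_spec hk hpr hn hn0
  have hsg := ss_sgn (A := A) (S := S) n
  rw [EA_hit hs hT _ (fun _ => singleton_subset_iff.2 hsg)]
  simp only [sum_singleton]
  by_cases h1 : ∃ p ∈ A, p ∣ n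
  · have e1 : cc π c A S n = 2 * VV (ep π) A n := by unfold cc; rw [if_pos h1]
    have e2 : TT A S n = A.filter (· ∣ n) := by unfold TT; rw [if_pos h1]
    have e3 : ss A S n = 0 := by unfold ss; rw [if_pos h1]
    rw [e1, e2, e3]
    have e4 : ∏ p ∈ A.filter (· ∣ n), (1 - π p 0) = VV (ep π) A n := by
      unfold VV
      rw [prod_filter]
      apply prod_congr rfl
      intro p _
      split_ifs
      · unfold ep
        have := hs p
        linarith
      · rfl
    rw [e4]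
    have hV0 : 0 ≤ VV (ep π) A n := by
      unfold VV
      apply prod_nonneg
      intro p _
      split_ifs
      · exact add_nonneg (hπ _ _) (hπ _ _)
      · exact zero_le_one
    have hV1 : VV (ep π) A n ≤ 1 / 2 := by
      obtain ⟨p, hp, hpn⟩ := h1
      unfold VV
      rw [← mul_prod_erase A _ hp, if_pos hpn]
      have h5 : ∏ x ∈ A.erase p, (if x ∣ n then ep π x else 1) ≤ 1 := by
        apply prod_le_one
        · intro q _
          split_ifs
          · exact add_nonneg (hπ _ _) (hπ _ _)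
          · exact zero_le_one
        · intro q _
          split_ifs
          · unfold ep
            have := hs q
            have := hπ q 0
            linarith
          · exact le_rfl
      have h6 : ep π p ≤ 1 / 2 := by
        unfold ep
        have := hs p
        have := (hA p hp).1
        linarith
      have h7 : 0 ≤ ep π p := add_nonneg (hπ _ _) (hπ _ _)
      calc ep π p * ∏ x ∈ A.erase p, (if x ∣ n then ep π x else 1) ≤ ep π p * 1 :=
            mul_le_mul_of_nonneg_left h5 h7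
        _ ≤ 1 / 2 := by linarith
    -- exp(-2V) ≤ 1 - V for V ≤ 1/2
    set V := VV (ep π) A n with hV
    have h8 : (1 : ℝ) ≤ (1 - V) * Real.exp (2 * V) := by
      have := Real.add_one_le_exp (2 * V)
      nlinarith
    rw [Real.exp_neg, inv_le_iff_one_le_mul₀ (Real.exp_pos _)]
    linarith
  · -- one prime
    have key : ∀ p : ℕ, TT A S n = {p} → cc π c A S n = c p → (ss A S n = 1 ∨ ss A S n = -1) →
        Real.exp (-cc π c A S n) ≤ 1 - ∏ p ∈ TT A S n, (1 - π p (ss A S n)) := by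
      intro p e1 e2 e3
      have hpA : p ∈ A := hT (by rw [e1]; exact mem_singleton_self p)
      rw [e1, e2, prod_singleton, sub_sub_cancel]
      rcases e3 with e3 | e3 <;> rw [e3]
      · exact (hA p hpA).2.1
      · exact (hA p hpA).2.2
    by_cases h2 : Tw A S n
    · refine key (lp A (n - 1)) ?_ ?_ ?_
      · unfold TT; rw [if_neg h1, if_pos h2]
      · unfold cc; rw [if_neg h1, if_pos h2]
      · left; unfold ss; rw [if_neg h1, if_pos h2]
    by_cases h4 : ∃ m, Tw A S m ∧ m + 2 = n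
    · refine key (lp A (n + 1)) ?_ ?_ ?_
      · unfold TT; rw [if_neg h1, if_neg h2, if_pos h4]
      · unfold cc; rw [if_neg h1, if_neg h2, if_pos h4]
      · right; unfold ss; rw [if_neg h1, if_neg h2, if_pos h4]
    · refine key (lp A (n ^ 2 - 1)) ?_ ?_ ?_
      · unfold TT; rw [if_neg h1, if_neg h2, if_neg h4]
      · unfold cc; rw [if_neg h1, if_neg h2, if_neg h4]
      · unfold ss; rw [if_neg h1, if_neg h2, if_neg h4]
        split_ifs
        · exact Or.inl rfl
        · exact Or.inr rfl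

/-- the total cost -/
theorem sum_cc_le (hc : ∀ p ∈ A, 0 ≤ c p) (hk : HasKillers A S) :
    ∑ n ∈ S, cc π c A S n ≤ cost π c A S := by
  classical
  have h1 : ∀ n ∈ S, cc π c A S n ≤
      (if ∃ p ∈ A, p ∣ n then 2 * VV (ep π) A n else c (lp A (n ^ 2 - 1))) +
      ((if Tw A S n then c (lp A (n - 1)) else 0) +
       (if ∃ m, Tw A S m ∧ m + 2 = n then c (lp A (n + 1)) else 0)) := by
    intro n hn
    have b2 : 0 ≤ (if Tw A S n then c (lp A (n - 1)) else 0) := by
      split_ifs with h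
      · exact hc _ (lp_spec (hk.2 n hn h.2.1 fun p hp => ⟨h.2.2.1 p hp, h.2.2.2 p hp⟩).1).1
      · exact le_rfl
    have b3 : 0 ≤ (if ∃ m, Tw A S m ∧ m + 2 = n then c (lp A (n + 1)) else 0) := by
      split_ifs with h
      · obtain ⟨m, hm, rfl⟩ := h
        exact hc _ (lp_spec (hk.2 m hm.1 hm.2.1 fun p hp => ⟨hm.2.2.1 p hp, hm.2.2.2 p hp⟩).2).1
      · exact le_rfl
    unfold cc
    by_cases h1 : ∃ p ∈ A, p ∣ n
    · rw [if_pos h1, if_pos h1]
      linarith
    · have b1 : 0 ≤ c (lp A (n ^ 2 - 1)) := hc _ (lp_spec ((hk.1 n hn).resolve_left h1)).1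
      rw [if_neg h1, if_neg h1]
      by_cases h2 : Tw A S n
      · rw [if_pos h2, if_pos h2]
        rw [if_pos h2] at b2
        linarith
      · rw [if_neg h2, if_neg h2]
        rw [if_neg h2] at b2
        by_cases h4 : ∃ m, Tw A S m ∧ m + 2 = n
        · rw [if_pos h4, if_pos h4]
          linarith
        · rw [if_neg h4, if_neg h4]
          linarith
  refine (sum_le_sum h1).trans ?_
  rw [sum_add_distrib, sum_add_distrib]
  unfold cost
  have e0 : ∑ n ∈ S, (if ∃ p ∈ A, p ∣ n then 2 * VV (ep π) A n else c (lp A (n ^ 2 - 1))) =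
    ∑ n ∈ S, (if ∃ p ∈ A, p ∣ n then 2 * VV (ep π) A n else c (lp A (n ^ 2 - 1))) := rfl
  have hP : S.filter (fun n => n + 2 ∈ S ∧ ∀ p ∈ A, ¬ p ∣ n ∧ ¬ p ∣ n + 2) =
      S.filter (fun n => Tw A S n) := by
    apply filter_congr
    intro n hn
    unfold Tw Fr
    constructor
    · rintro ⟨h1, h2⟩
      exact ⟨hn, h1, fun p hp => (h2 p hp).1, fun p hp => (h2 p hp).2⟩
    · rintro ⟨_, h1, h2, h3⟩
      exact ⟨h1, fun p hp => ⟨h2 p hp, h3 p hp⟩⟩
  rw [hP, sum_add_distrib]
  apply add_le_add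
  · exact le_rfl
  apply add_le_add
  · rw [sum_filter]
  · rw [← sum_filter]
    have e1 : S.filter (fun n => ∃ m, Tw A S m ∧ m + 2 = n) =
        (S.filter (fun n => Tw A S n)).image (fun m => m + 2) := by
      ext n
      simp only [mem_filter, mem_image]
      constructor
      · rintro ⟨hn, m, hm, rfl⟩
        exact ⟨m, ⟨hm.1, hm⟩, rfl⟩
      · rintro ⟨m, ⟨hm1, hm⟩, rfl⟩
        exact ⟨hm.2.1, m, hm, rfl⟩
    rw [e1, sum_image (by intro a _ b _ h; simpa using h)]

end CLS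

open CLS in
theorem stmt_CLS : Stmt_CLS := by
  classical
  intro π hπ hs c A x U N v hx hN hv hA h2 h3 hk
  set S := Sur v A x U N with hS
  have h2A : 2 ∉ A := fun h => by have := (hA 2 h).2.1; omega
  have h3A : 3 ∉ A := fun h => by have := (hA 3 h).2.1; omega
  have hpr : ∀ p ∈ A, p.Prime := fun p hp => (hA p hp).1
  -- position of the survivors
  have hpos : ∀ n ∈ S, N + 1 < n ∧ n ≤ N + U ∧ (n - N) % 2 ≠ 0 ∧ (n - N) % 3 ≠ 0 := by
    intro n hn
    rw [hS] at hn
    unfold Sur at hn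
    rw [mem_filter, mem_Ioc] at hn
    obtain ⟨⟨ha, hb⟩, hS⟩ := hn
    refine ⟨ha, hb, ?_, ?_⟩
    · intro h
      apply hS 2 Nat.prime_two (by omega) h2A
      push_cast
      omega
    · intro h
      apply hS 3 Nat.prime_three (by omega) h3A
      push_cast
      omega
  have hn0 : ∀ n ∈ S, 0 < n := fun n hn => by have := (hpos n hn).1; omega
  set G : ℕ → Set (ℕ → ℤ) := fun n => Hit (TT A S n) (fun _ => {ss A S n}) with hG
  -- the event
  have step1 : EA π A (fun w => ∏ n ∈ S, ind (G n) w) v ≤ EA π A (ind (Emp x U N)) v := by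
    apply EA_mono_on hπ
    intro w hw1 hw2
    rw [prod_ind]
    apply ind_mono
    intro hw n hn
    by_cases hsn : SurvF v A x n
    · have hnS : n ∈ S := by
        rw [hS]
        unfold Sur
        rw [mem_filter]
        exact ⟨hn, hsn⟩
      obtain ⟨p, hp, hwp⟩ := hw n hnS
      rw [mem_singleton] at hwp
      obtain ⟨hT, hTd⟩ := TT_spec hk hpr hnS (hn0 n hnS)
      exact ⟨p, (hA p (hT hp)).1, (hA p (hT hp)).2.2.1, by rw [hwp]; exact hTd p hp⟩
    · unfold SurvF at hsn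
      push Not at hsn
      obtain ⟨p, hp, hpx, hpA, hd⟩ := hsn
      exact ⟨p, hp, hpx, by rw [hw1 p hpA]; exact hd⟩
  refine le_trans ?_ step1
  rw [EA_prod_indep hs S (s := fun n => ((TT A S n : Finset ℕ) : Set ℕ))
    (fun n _ => Hit_dependsOn _ _)]
  · simp only
    calc Real.exp (-cost π c A S) ≤ Real.exp (-∑ n ∈ S, cc π c A S n) := by
          apply Real.exp_le_exp.2
          have := sum_cc_le (π := π) (c := c) (A := A) (S := S)
            (fun p hp => (hA p hp).2.2.2.2.1) hk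
          linarith
      _ = ∏ n ∈ S, Real.exp (-cc π c A S n) := by
          rw [← sum_neg_distrib, Real.exp_sum]
      _ ≤ ∏ n ∈ S, EA π A (ind (G n)) v := by
          apply prod_le_prod
          · intro n _; exact (Real.exp_pos _).le
          · intro n hn
            exact prob_ge hπ hs hk hpr (fun p hp => ⟨(hA p hp).2.2.2.1, (hA p hp).2.2.2.2.2.1,
              (hA p hp).2.2.2.2.2.2⟩) hn (hn0 n hn) v
  · intro n hn n' hn' hne p hp hp1 hp2
    simp only [mem_coe] at hp1 hp2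
    obtain ⟨-, hTd⟩ := TT_spec hk hpr hn (hn0 n hn)
    obtain ⟨-, hTd'⟩ := TT_spec hk hpr hn' (hn0 n' hn')
    have d1 := hTd p hp1
    have d2 := hTd' p hp2
    have g3 := dvd_sub d1 d2
    have g4 := (hA p hp).2.1
    obtain ⟨a1, a2, a3, a4⟩ := hpos n hn
    obtain ⟨b1, b2, b3, b4⟩ := hpos n' hn'
    have g1 : ss A S n = -1 ∨ ss A S n = 0 ∨ ss A S n = 1 := by
      have := ss_sgn (A := A) (S := S) n
      simpa [sgn] using this
    have g2 : ss A S n' = -1 ∨ ss A S n' = 0 ∨ ss A S n' = 1 := by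
      have := ss_sgn (A := A) (S := S) n'
      simpa [sgn] using this
    have g5 : (n : ℤ) - ss A S n - ((n' : ℤ) - ss A S n') = 0 := by
      apply Int.eq_zero_of_abs_lt_dvd g3
      rw [abs_lt]
      rcases g1 with g1 | g1 | g1 <;> rcases g2 with g2 | g2 | g2 <;> rw [g1, g2] <;> omega
    -- the twin case
    have twin : ∀ m m' : ℕ, m ∈ S → m' ∈ S → m' = m + 2 → ss A S m = -1 → ss A S m' = 1 →
        False := by
      intro m m' hm hm' he h1 h2
      have f1 : Fr A m := ss_zero (by rw [h1]; decide)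
      have f2 : Fr A m' := ss_zero (by rw [h2]; decide)
      rw [he] at f2 hm'
      have ht : Tw A S m := ⟨hm, hm', f1, f2⟩
      unfold ss at h1
      rw [if_neg (by rintro ⟨p, hp, hd⟩; exact f1 p hp hd), if_pos ht] at h1
      norm_num at h1
    rcases g1 with g1 | g1 | g1 <;> rcases g2 with g2 | g2 | g2 <;> rw [g1, g2] at g5
    · omega
    · omega
    · exact twin n n' hn hn' (by omega) g1 g2
    · omega
    · omega
    · omega
    · exact twin n' n hn' hn (by omega) g2 g1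
    · omega
    · omega

end Pool.Agent.Work.MP_b0c12c_nt_sparse
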