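import Mathlib
import Pool.Agent.Work.MP_b0c12c_nt_sparse.Interface
import Pool.Agent.Work.MP_b0c12c_nt_sparse.SV

/-!
# Block COL: the number of columns
-/

set_option autoImplicit false

namespace Pool.Agent.Work.MP_b0c12c_nt_sparse

open Finset
open Pool.Agent.Work.MP_b0c12c_nt_shift

theorem stmt_COL : Stmt_COL := by
  obtain ⟨C, hC, D, hD, h⟩ := SV.sv
  refine ⟨2 * D * C + 1, by positivity, 3 ^ D, ?_⟩
  intro z hz U hU
  obtain ⟨W, hW3, hWz, hlog⟩ := SV.root_scale D hD z hz
  have h3z : 3 ≤ z := by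
    calc 3 = 3 ^ 1 := (pow_one 3).symm
      _ ≤ 3 ^ D := Nat.pow_le_pow_right (by norm_num) hD
      _ ≤ z := hz
  have hWz' : W ≤ z := by
    calc W = W ^ 1 := (pow_one W).symm
      _ ≤ W ^ D := Nat.pow_le_pow_right (by omega) hD
      _ ≤ z := hWz
  set T : Finset ℕ := (Icc 2 U).filter fun j => j.Coprime (qq z 0) with hT
  have hdvd : ∀ p : ℕ, p.Prime → p ≤ z → p ∣ qq z 0 := by
    intro p hp hpz
    unfold qq
    apply dvd_prod_of_mem (fun p => p)
    rw [mem_erase, mem_filter, mem_Icc]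
    exact ⟨hp.ne_zero, ⟨hp.one_lt.le, hpz⟩, hp⟩
  have key := h W U 1 1 0 T hW3 (hWz.trans hU) one_pos le_rfl
    (fun p _ _ _ _ => Nat.coprime_one_left p)
    (fun m hm => by
      rw [hT, mem_filter, mem_Icc] at hm
      omega)
    (fun m _ m' _ => Nat.modEq_one)
    (fun m hm p hp _ hpW _ hpm => by
      rw [hT, mem_filter] at hm
      have h1 : p ∣ Nat.gcd m (qq z 0) := Nat.dvd_gcd hpm (hdvd p hp (hpW.trans hWz'))
      rw [Nat.Coprime.gcd_eq_one hm.2] at h1
      exact hp.one_lt.ne' (Nat.dvd_one.mp h1))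
  have hsub : (Icc 1 U).filter (fun j => j.Coprime (qq z 0)) ⊆ insert 1 T := by
    intro j hj
    rw [mem_filter, mem_Icc] at hj
    rw [mem_insert, hT, mem_filter, mem_Icc]
    by_cases h1 : j = 1
    · exact Or.inl h1
    · exact Or.inr ⟨by omega, hj.2⟩
  have hcard : (((Icc 1 U).filter fun j => j.Coprime (qq z 0)).card : ℝ) ≤ T.card + 1 := by
    exact_mod_cast (card_le_card hsub).trans (card_insert_le _ _)
  have hz0 : (3 : ℝ) ≤ z := by exact_mod_cast h3z
  have hlz : 0 < Real.log z := Real.log_pos (by linarith)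
  have hW0 : (3 : ℝ) ≤ W := by exact_mod_cast hW3
  have hlW : 0 < Real.log W := Real.log_pos (by linarith)
  have hUr : (z : ℝ) ≤ U := by exact_mod_cast hU
  have hlzU : Real.log z ≤ U := (Real.log_le_self (by linarith)).trans hUr
  have h1 : 1 ≤ U / Real.log z := by
    rw [le_div_iff₀ hlz]
    linarith
  have h2 : (U : ℝ) / Real.log W ≤ 2 * D * (U / Real.log z) := by
    rw [div_le_iff₀ hlW]
    have h3 : 2 * D * ((U : ℝ) / Real.log z) * Real.log W =
        U * ((2 * D * Real.log W) / Real.log z) := by ring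
    rw [h3]
    have h4 : 1 ≤ (2 * D * Real.log W) / Real.log z := by
      rw [le_div_iff₀ hlz]
      linarith
    nlinarith [Nat.cast_nonneg (α := ℝ) U]
  calc (((Icc 1 U).filter fun j => j.Coprime (qq z 0)).card : ℝ) ≤ T.card + 1 := hcard
    _ ≤ C * (U / Real.log W) + U / Real.log z := by linarith
    _ ≤ C * (2 * D * (U / Real.log z)) + U / Real.log z := by
        have := mul_le_mul_of_nonneg_left h2 hC.le
        linarith
    _ = (2 * D * C + 1) * (U / Real.log z) := by ring

end Pool.Agent.Work.MP_b0c12c_nt_sparse
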