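import Pool.Agent.Work.MP_b0c12c_nt_sparse.GapDef

/-!
# From empty windows to the limsup (deterministic part)
-/

set_option autoImplicit false

namespace Pool.Agent.Work.MP_b0c12c_nt_sparse

open Filter Finset

/-- comparison of the scales -/
theorem scale_le {lam : ℝ → ℝ} (h1 : ∀ u : ℝ, 1 ≤ u → 1 ≤ lam u)
    (hm : ∀ u v : ℝ, 1 ≤ u → u ≤ v → lam u ≤ lam v)
    (hs : ∀ t u : ℝ, 1 ≤ t → 1 ≤ u → lam (t * u) ≤ t * lam u) {a b : ℝ}
    (ha : 1 ≤ Real.log a) (ha0 : 0 < a) (hb : 1 ≤ Real.log b) (hb0 : 0 < b) (hab : a ≤ 2 * b) :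
    lam (Real.log b) * a ^ 2 ≤ 4 * (b ^ 2 * lam (Real.log a)) := by
  have hla : 0 < lam (Real.log a) := lt_of_lt_of_le one_pos (h1 _ ha)
  have hlb : 0 < lam (Real.log b) := lt_of_lt_of_le one_pos (h1 _ hb)
  rcases le_total a b with h | h
  · -- `lam (log b) ≤ (log b / log a) lam (log a)`
    have hlog : Real.log a ≤ Real.log b := Real.log_le_log ha0 h
    have ht : 1 ≤ Real.log b / Real.log a := by
      rw [le_div_iff₀ (by linarith)]; linarith
    have e1 := hs (Real.log b / Real.log a) (Real.log a) ht ha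
    have e2 : Real.log b / Real.log a * Real.log a = Real.log b := by
      field_simp
    rw [e2] at e1
    have e3 : Real.log b / Real.log a ≤ b / a := by
      rw [div_le_div_iff₀ (by linarith) ha0]
      have e4 : Real.log (b / a) ≤ b / a - 1 := by
        have := Real.add_one_le_exp (Real.log (b / a))
        rw [Real.exp_log (by positivity)] at this
        linarith
      rw [Real.log_div hb0.ne' ha0.ne'] at e4
      have e5 : 1 ≤ b / a := by rw [le_div_iff₀ ha0]; linarith
      have e6 : Real.log b * a ≤ (Real.log a + (b / a - 1)) * a := by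
        apply mul_le_mul_of_nonneg_right _ ha0.le
        linarith
      have e7 : (Real.log a + (b / a - 1)) * a = Real.log a * a + (b - a) := by
        field_simp
      have e8 : b - a ≤ Real.log a * (b - a) := by nlinarith
      nlinarith
    have e9 : lam (Real.log b) ≤ b / a * lam (Real.log a) :=
      e1.trans (mul_le_mul_of_nonneg_right e3 hla.le)
    have e10 : b / a * a ^ 2 = b * a := by field_simp
    calc lam (Real.log b) * a ^ 2 ≤ (b / a * lam (Real.log a)) * a ^ 2 :=
          mul_le_mul_of_nonneg_right e9 (by positivity)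
      _ = (b * a) * lam (Real.log a) := by rw [← e10]; ring
      _ ≤ (4 * b ^ 2) * lam (Real.log a) := by
          apply mul_le_mul_of_nonneg_right _ hla.le
          nlinarith
      _ = _ := by ring
  · have hlog : Real.log b ≤ Real.log a := Real.log_le_log hb0 h
    have e1 := hm _ _ hb hlog
    calc lam (Real.log b) * a ^ 2 ≤ lam (Real.log a) * (2 * b) ^ 2 := by
          apply mul_le_mul e1 _ (by positivity) hla.le
          exact pow_le_pow_left₀ ha0.le hab 2
      _ = _ := by ring

theorem one_le_loglog {x : ℝ} (hx : 16 ≤ x) : 1 ≤ Real.log (Real.log x) := by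
  have h1 : Real.exp 1 ≤ Real.log x := by
    rw [Real.le_log_iff_exp_le (by linarith)]
    have h2 := Real.exp_one_lt_d9
    have h3 : Real.exp (Real.exp 1) ≤ Real.exp 2.72 := Real.exp_le_exp.2 (by linarith)
    have h4 : Real.exp 2.72 = Real.exp 0.68 ^ 4 := by
      rw [← Real.exp_nat_mul]; norm_num
    have h5 : Real.exp 0.68 ≤ 1.98 := by
      have := Real.exp_bound' (x := 0.68) (by norm_num) (by norm_num) (n := 4) (by norm_num)
      refine this.trans ?_
      norm_num [Finset.sum_range_succ, Nat.factorial]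
    have h6 : Real.exp 0.68 ^ 4 ≤ 1.98 ^ 4 := pow_le_pow_left₀ (Real.exp_pos _).le h5 4
    have h7 : (1.98 : ℝ) ^ 4 ≤ 16 := by norm_num
    linarith
  rw [Real.le_log_iff_exp_le (lt_of_lt_of_le (Real.exp_pos 1) h1)]
  exact h1

/-- Empty windows at arbitrarily large scales give the lower bound for the limsup. -/
theorem gapW_ge {lam : ℝ → ℝ} (h1 : ∀ u : ℝ, 1 ≤ u → 1 ≤ lam u)
    (hm : ∀ u v : ℝ, 1 ≤ u → u ≤ v → lam u ≤ lam v)
    (hs : ∀ t u : ℝ, 1 ≤ t → 1 ≤ u → lam (t * u) ≤ t * lam u) {Q : Set ℕ} (hQ : Q.Infinite)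
    {c : ℝ} (hc : 0 < c)
    (hw : ∀ X0 : ℕ, ∃ x U N : ℕ, X0 ≤ x ∧ x ≤ N ∧ N + U ≤ 2 * x ∧
      c * Real.log x ^ 2 / lam (Real.log (Real.log x)) + 1 ≤ U ∧
      ∀ n ∈ Ioc (N + 1) (N + U), n ∉ Q) :
    ((c / 4 : ℝ) : EReal) ≤ gapW lam Q := by
  classical
  unfold gapW
  apply le_limsup_of_frequently_le
  swap
  · exact isBounded_le_of_top
  rw [frequently_atTop]
  intro K
  have hQ' : (Set.ofPred (· ∈ Q)).Infinite := hQ
  set K0 := K + 16 with hK0
  obtain ⟨x, U, N, hx, hN, hNU, hU, hfree⟩ := hw (Nat.nth (· ∈ Q) K0 + 16)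
  have hxr : (16 : ℝ) ≤ x := by exact_mod_cast (by omega : 16 ≤ x)
  have hlx := one_le_loglog hxr
  have hlx1 : 1 ≤ Real.log x := by
    have := Real.add_one_le_exp (1 : ℝ)
    by_contra h
    push Not at h
    have h2 : Real.log (Real.log x) ≤ Real.log 1 := by
      apply Real.log_le_log _ h.le
      exact Real.log_pos (by linarith)
    rw [Real.log_one] at h2
    linarith
  have hlam : 0 < lam (Real.log (Real.log x)) := lt_of_lt_of_le one_pos (h1 _ hlx)
  -- the index
  set m := Nat.count (· ∈ Q) (N + 2) with hm'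
  have hm1 : K0 < m := by
    rw [hm', Nat.lt_nth_iff_count_lt hQ']
    omega
  obtain ⟨k, hk⟩ : ∃ k, m = k + 1 := ⟨m - 1, by omega⟩
  refine ⟨k, by omega, ?_⟩
  set s := Nat.nth (· ∈ Q) k with hs'
  have hsN : s < N + 2 := by
    apply Nat.nth_lt_of_lt_count
    omega
  have hsK : 16 ≤ s := by
    have h3 : K0 ≤ k := by omega
    have h4 : k ≤ s := by
      rw [hs']
      have := (Nat.nth_strictMono hQ').le_apply (x := k)
      exact this
    omega
  have hnext : N + 2 ≤ Nat.nth (· ∈ Q) (k + 1) := by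
    rw [← hk, hm']
    exact Nat.le_nth_count hQ' _
  have hmem : Nat.nth (· ∈ Q) (k + 1) ∈ Q := Nat.nth_mem_of_infinite hQ' _
  have hnext2 : N + U + 1 ≤ Nat.nth (· ∈ Q) (k + 1) := by
    by_contra h
    push Not at h
    exact hfree _ (by rw [mem_Ioc]; omega) hmem
  have hU0 : (1 : ℝ) ≤ U := by
    have : 0 ≤ c * Real.log x ^ 2 / lam (Real.log (Real.log x)) := by positivity
    linarith
  have hU1 : 1 ≤ U := by exact_mod_cast hU0
  have hgap : (U : ℝ) ≤ (Nat.nth (· ∈ Q) (k + 1) : ℝ) - (s : ℝ) := by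
    have h5 : (N : ℝ) + U + 1 ≤ (Nat.nth (· ∈ Q) (k + 1) : ℝ) := by exact_mod_cast hnext2
    have h6 : (s : ℝ) + 1 ≤ N + 2 := by exact_mod_cast hsN
    linarith
  have hsr : (16 : ℝ) ≤ s := by exact_mod_cast hsK
  have hls := one_le_loglog hsr
  have hlogs : 0 < Real.log s := Real.log_pos (by linarith)
  have hs2x : (s : ℝ) ≤ 2 * x := by
    exact_mod_cast (by omega : s ≤ 2 * x)
  have hlog2 : Real.log s ≤ 2 * Real.log x := by
    have h7 : Real.log s ≤ Real.log (2 * x) := Real.log_le_log (by linarith) hs2x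
    rw [Real.log_mul (by norm_num) (by linarith)] at h7
    have := Real.log_two_lt_d9
    linarith
  have key := scale_le h1 hm hs hls hlogs hlx (by linarith : 0 < Real.log x) hlog2
  rw [EReal.coe_le_coe_iff, le_div_iff₀ (by positivity)]
  have hlams : 0 < lam (Real.log (Real.log s)) := lt_of_lt_of_le one_pos (h1 _ hls)
  calc c / 4 * Real.log s ^ 2 = (c / 4) * (Real.log s ^ 2 * lam (Real.log (Real.log x)) /
        lam (Real.log (Real.log x))) := by field_simp
    _ ≤ (c / 4) * (4 * (Real.log x ^ 2 * lam (Real.log (Real.log s))) /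
        lam (Real.log (Real.log x))) := by
        apply mul_le_mul_of_nonneg_left _ (by positivity)
        apply div_le_div_of_nonneg_right _ hlam.le
        linarith
    _ = (c * Real.log x ^ 2 / lam (Real.log (Real.log x))) * lam (Real.log (Real.log s)) := by
        ring
    _ ≤ ((Nat.nth (· ∈ Q) (k + 1) : ℝ) - (s : ℝ)) * lam (Real.log (Real.log s)) := by
        apply mul_le_mul_of_nonneg_right _ hlams.le
        linarith

end Pool.Agent.Work.MP_b0c12c_nt_sparse
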