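import Pool.Agent.Work.MP_b0c12c_nt_sparse.Det

/-!
# From empty windows to the limsup (deterministic part), general scale function
-/

set_option autoImplicit false

namespace Pool.Agent.Work.MP_b0c12c_nt_sparse

open Filter Finset

/-- comparison of the scales -/
theorem scale_leY {L : ℝ → ℝ} {t0 K : ℝ} (hK : 1 ≤ K) (h1 : ∀ t : ℝ, t0 ≤ t → 1 ≤ L t)
    (hm : ∀ t t' : ℝ, t0 ≤ t → t ≤ t' → L t ≤ L t' ∧ L t' ≤ K * (Real.exp (t' - t) * L t))
    {a b : ℝ} (ha : t0 ≤ Real.log a) (ha0 : 0 < a) (hb : t0 ≤ Real.log b) (hb0 : 0 < b)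
    (hab : a ≤ 2 * b) :
    L (Real.log b) * a ^ 2 ≤ 4 * K * (b ^ 2 * L (Real.log a)) := by
  have hla : 0 < L (Real.log a) := lt_of_lt_of_le one_pos (h1 _ ha)
  have hlb : 0 < L (Real.log b) := lt_of_lt_of_le one_pos (h1 _ hb)
  rcases le_total a b with h | h
  · have hlog : Real.log a ≤ Real.log b := Real.log_le_log ha0 h
    have e1 := (hm _ _ ha hlog).2
    have e2 : Real.exp (Real.log b - Real.log a) = b / a := by
      rw [Real.exp_sub, Real.exp_log hb0, Real.exp_log ha0]
    rw [e2] at e1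
    have e10 : b / a * a ^ 2 = b * a := by field_simp
    calc L (Real.log b) * a ^ 2 ≤ (K * (b / a * L (Real.log a))) * a ^ 2 :=
          mul_le_mul_of_nonneg_right e1 (by positivity)
      _ = K * (b * a) * L (Real.log a) := by rw [← e10]; ring
      _ ≤ K * (4 * b ^ 2) * L (Real.log a) := by
          apply mul_le_mul_of_nonneg_right _ hla.le
          apply mul_le_mul_of_nonneg_left _ (by linarith)
          nlinarith
      _ = _ := by ring
  · have hlog : Real.log b ≤ Real.log a := Real.log_le_log hb0 h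
    have e1 := (hm _ _ hb hlog).1
    calc L (Real.log b) * a ^ 2 ≤ L (Real.log a) * (2 * b) ^ 2 := by
          apply mul_le_mul e1 _ (by positivity) hla.le
          exact pow_le_pow_left₀ ha0.le hab 2
      _ = 1 * (4 * (b ^ 2 * L (Real.log a))) := by ring
      _ ≤ K * (4 * (b ^ 2 * L (Real.log a))) := by
          apply mul_le_mul_of_nonneg_right hK (by positivity)
      _ = _ := by ring

/-- Empty windows at arbitrarily large scales give the lower bound for the limsup. -/
theorem gapW_geY {L : ℝ → ℝ} {t0 K : ℝ} (hK : 1 ≤ K) (h1 : ∀ t : ℝ, t0 ≤ t → 1 ≤ L t)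
    (hm : ∀ t t' : ℝ, t0 ≤ t → t ≤ t' → L t ≤ L t' ∧ L t' ≤ K * (Real.exp (t' - t) * L t))
    {Q : Set ℕ} (hQ : Q.Infinite) {c : ℝ} (hc : 0 < c)
    (hw : ∀ X0 : ℕ, ∃ x U N : ℕ, X0 ≤ x ∧ x ≤ N ∧ N + U ≤ 2 * x ∧
      c * Real.log x ^ 2 / L (Real.log (Real.log x)) + 1 ≤ U ∧
      ∀ n ∈ Ioc (N + 1) (N + U), n ∉ Q) :
    ((c / (4 * K) : ℝ) : EReal) ≤ gapW L Q := by
  classical
  unfold gapW
  apply le_limsup_of_frequently_le
  swap
  · exact isBounded_le_of_top
  rw [frequently_atTop]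
  intro K1
  have hQ' : (Set.ofPred (· ∈ Q)).Infinite := hQ
  obtain ⟨T0, hT0⟩ : ∃ T0 : ℕ, ∀ n : ℕ, T0 ≤ n → t0 ≤ Real.log (Real.log n) := by
    have h : Tendsto (fun n : ℕ => Real.log (Real.log n)) atTop atTop :=
      Real.tendsto_log_atTop.comp (Real.tendsto_log_atTop.comp tendsto_natCast_atTop_atTop)
    exact eventually_atTop.1 (h.eventually_ge_atTop t0)
  set K0 := K1 + T0 + 16 with hK0
  obtain ⟨x, U, N, hx, hN, hNU, hU, hfree⟩ := hw (Nat.nth (· ∈ Q) K0 + T0 + 16)
  have hxr : (16 : ℝ) ≤ x := by exact_mod_cast (by omega : 16 ≤ x)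
  have hlx := hT0 x (by omega)
  have hlogx : 0 < Real.log x := Real.log_pos (by linarith)
  have hlx1 : 1 ≤ Real.log x := by
    rw [Real.le_log_iff_exp_le (by linarith)]
    have := Real.exp_one_lt_d9
    linarith
  have hlam : 0 < L (Real.log (Real.log x)) := lt_of_lt_of_le one_pos (h1 _ hlx)
  -- the index
  set m := Nat.count (· ∈ Q) (N + 2) with hm'
  have hm1 : K0 < m := by
    rw [hm', Nat.lt_nth_iff_count_lt hQ']
    omega
  obtain ⟨k, hk⟩ : ∃ k, m = k + 1 := ⟨m - 1, by omega⟩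
  refine ⟨k, by omega, ?_⟩
  set s := Nat.nth (· ∈ Q) k with hs'
  have hsN : s < N + 2 := by
    apply Nat.nth_lt_of_lt_count
    omega
  have hks : k ≤ s := by
    rw [hs']
    exact (Nat.nth_strictMono hQ').le_apply (x := k)
  have hnext : N + 2 ≤ Nat.nth (· ∈ Q) (k + 1) := by
    rw [← hk, hm']
    exact Nat.le_nth_count hQ' _
  have hmem : Nat.nth (· ∈ Q) (k + 1) ∈ Q := Nat.nth_mem_of_infinite hQ' _
  have hnext2 : N + U + 1 ≤ Nat.nth (· ∈ Q) (k + 1) := by
    by_contra h
    push Not at h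
    exact hfree _ (by rw [mem_Ioc]; omega) hmem
  have hU0 : (1 : ℝ) ≤ U := by
    have : 0 ≤ c * Real.log x ^ 2 / L (Real.log (Real.log x)) := by positivity
    linarith
  have hU1 : 1 ≤ U := by exact_mod_cast hU0
  have hgap : (U : ℝ) ≤ (Nat.nth (· ∈ Q) (k + 1) : ℝ) - (s : ℝ) := by
    have h5 : (N : ℝ) + U + 1 ≤ (Nat.nth (· ∈ Q) (k + 1) : ℝ) := by exact_mod_cast hnext2
    have h6 : (s : ℝ) + 1 ≤ N + 2 := by exact_mod_cast hsN
    linarith
  have hsr : (16 : ℝ) ≤ s := by exact_mod_cast (by omega : 16 ≤ s)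
  have hls := hT0 s (by omega)
  have hlogs : 0 < Real.log s := Real.log_pos (by linarith)
  have hs2x : (s : ℝ) ≤ 2 * x := by
    exact_mod_cast (by omega : s ≤ 2 * x)
  have hlog2 : Real.log s ≤ 2 * Real.log x := by
    have h7 : Real.log s ≤ Real.log (2 * x) := Real.log_le_log (by linarith) hs2x
    rw [Real.log_mul (by norm_num) (by linarith)] at h7
    have := Real.log_two_lt_d9
    linarith
  have key := scale_leY hK h1 hm hls hlogs hlx hlogx hlog2
  rw [EReal.coe_le_coe_iff, le_div_iff₀ (by positivity)]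
  have hlams : 0 < L (Real.log (Real.log s)) := lt_of_lt_of_le one_pos (h1 _ hls)
  have hK0' : 0 < K := by linarith
  calc c / (4 * K) * Real.log s ^ 2 =
        (c / (4 * K)) * (L (Real.log (Real.log x)) * Real.log s ^ 2 /
        L (Real.log (Real.log x))) := by field_simp
    _ ≤ (c / (4 * K)) * (4 * K * (Real.log x ^ 2 * L (Real.log (Real.log s))) /
        L (Real.log (Real.log x))) := by
        apply mul_le_mul_of_nonneg_left _ (by positivity)
        apply div_le_div_of_nonneg_right _ hlam.le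
        exact key
    _ = (c * Real.log x ^ 2 / L (Real.log (Real.log x))) * L (Real.log (Real.log s)) := by
        field_simp
    _ ≤ ((Nat.nth (· ∈ Q) (k + 1) : ℝ) - (s : ℝ)) * L (Real.log (Real.log s)) := by
        apply mul_le_mul_of_nonneg_right _ hlams.le
        linarith

end Pool.Agent.Work.MP_b0c12c_nt_sparse
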