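import Pool.Agent.Work.MP_b0c12c_nt_sparse.Interface
import Pool.Agent.Work.MP_b0c12c_nt_sparse.Det
import Pool.Agent.Work.MP_b0c12c_nt_shift.Op
import Pool.Agent.Work.MP_b0c12c_nt_shift.PR

/-!
# Final theorem for sparse shifts
-/

set_option autoImplicit false
set_option linter.unusedSectionVars false

namespace Pool.Agent.Work.MP_b0c12c_nt_sparse

open Filter Finset MeasureTheory ProbabilityTheory
open Pool.Agent.Work.MP_b0c12c_nt_shift

/-- Block PR, in any universe. -/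
theorem pr_gen {Ω : Type*} [MeasurableSpace Ω] (μ : Measure Ω) [IsProbabilityMeasure μ]
    (u : ℕ → Ω → ℤ) (hu : ∀ p, Measurable (u p)) (hI : iIndepFun u μ) (π : ℕ → ℤ → ℝ)
    (T : Finset ℕ) (hsg : ∀ p ∈ T, ∀ᵐ ω ∂μ, u p ω ∈ sgn)
    (hπ : ∀ p ∈ T, ∀ s ∈ sgn, μ.real {ω | u p ω = s} = π p s)
    (S : Set (ℕ → ℤ)) (hS : DependsOn (ind S) (T : Set ℕ)) :
    MeasurableSet {ω | (fun p => u p ω) ∈ S} ∧
      μ.real {ω | (fun p => u p ω) ∈ S} = EA π T (ind S) 0 := by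
  refine ⟨PR.meas hu T S hS, ?_⟩
  have h := PR.claim hu hI π T ∅ (by simpa using hsg) (by simpa using hπ)
    (Finset.disjoint_empty_right T) 0 (by simp) S (by simpa using hS)
  simpa using h

namespace FINS

/-- the law used: at non primes the shift is `0` -/
noncomputable def law {Ω : Type*} [MeasurableSpace Ω] (μ : Measure Ω) (u : ℕ → Ω → ℤ) :
    ℕ → ℤ → ℝ := fun p s => if p.Prime then μ.real {ω | u p ω = s} else if s = 0 then 1 else 0

variable {Ω : Type*} [MeasurableSpace Ω] {μ : Measure Ω} [IsProbabilityMeasure μ] {u : ℕ → Ω → ℤ}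

theorem law_nonneg (p : ℕ) (s : ℤ) : 0 ≤ law μ u p s := by
  unfold law
  split_ifs
  · exact measureReal_nonneg
  · exact zero_le_one
  · exact le_rfl

theorem law_prime {p : ℕ} (hp : p.Prime) (s : ℤ) : law μ u p s = μ.real {ω | u p ω = s} := by
  unfold law
  rw [if_pos hp]

theorem law_sum (hm : ∀ p, Measurable (u p)) (hsg : ∀ p : ℕ, p.Prime → ∀ᵐ ω ∂μ, u p ω ∈ sgn)
    (p : ℕ) : law μ u p (-1) + law μ u p 0 + law μ u p 1 = 1 := by
  by_cases hp : p.Prime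
  · rw [law_prime hp, law_prime hp, law_prime hp]
    have hms : ∀ s : ℤ, MeasurableSet {ω | u p ω = s} := fun s => hm p (measurableSet_singleton s)
    have hd1 : Disjoint {ω | u p ω = -1} {ω | u p ω = 0} := by
      rw [Set.disjoint_left]
      intro ω h1 h2
      simp only [Set.mem_ofPred_eq] at h1 h2
      omega
    have hd2 : Disjoint ({ω | u p ω = -1} ∪ {ω | u p ω = 0}) {ω | u p ω = 1} := by
      rw [Set.disjoint_left]
      intro ω h1 h2
      simp only [Set.mem_union, Set.mem_ofPred_eq] at h1 h2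
      omega
    rw [← measureReal_union hd1 (hms 0), ← measureReal_union hd2 (hms 1)]
    have h3 : (Set.univ : Set Ω) =ᵐ[μ] ({ω | u p ω = -1} ∪ {ω | u p ω = 0} ∪ {ω | u p ω = 1} : Set Ω) := by
      filter_upwards [hsg p hp] with ω hω
      have h4 : u p ω = -1 ∨ u p ω = 0 ∨ u p ω = 1 := by simpa [sgn] using hω
      apply propext
      show (ω ∈ (Set.univ : Set Ω)) ↔ (ω ∈ ({ω | u p ω = -1} ∪ {ω | u p ω = 0} ∪ {ω | u p ω = 1} : Set Ω))
      simp only [Set.mem_univ, Set.mem_union, Set.mem_ofPred_eq, true_iff]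
      tauto
    rw [← measureReal_congr h3]
    exact probReal_univ
  · unfold law
    rw [if_neg hp, if_neg hp, if_neg hp]
    norm_num

theorem Shifted_dependsOn (x : ℕ) :
    DependsOn (ind {w | ∀ n ∈ Ioc x (2 * x), n ∉ Shifted w}) ((PX (2 * x) : Finset ℕ) : Set ℕ) := by
  apply ind_dependsOn
  intro v w hvw hv n hn hnw
  apply hv n hn
  refine ⟨hnw.1, fun p hp hpn hd => hnw.2 p hp hpn ?_⟩
  rw [← hvw p]
  · exact hd
  · rw [mem_coe]
    unfold PX
    rw [mem_filter, mem_Icc]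
    rw [mem_Ioc] at hn
    refine ⟨⟨hp.one_lt.le, ?_⟩, hp⟩
    rw [Nat.le_sqrt]
    omega

theorem Emp_dependsOn (x U : ℕ) :
    DependsOn (ind {w | ∀ N : ℕ, x ≤ N → N + U ≤ 2 * x → w ∉ Emp x U N})
      ((PX x : Finset ℕ) : Set ℕ) := by
  apply ind_dependsOn
  intro v w hvw hv N hN hNU hw
  apply hv N hN hNU
  intro n hn
  obtain ⟨p, hp, hpx, hd⟩ := hw n hn
  refine ⟨p, hp, hpx, ?_⟩
  rw [hvw p]
  · exact hd
  · rw [mem_coe]
    unfold PX
    rw [mem_filter, mem_Icc]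
    exact ⟨⟨hp.one_lt.le, by rw [Nat.le_sqrt]; exact hpx⟩, hp⟩

theorem PX_prime {x p : ℕ} (hp : p ∈ PX x) : p.Prime := by
  unfold PX at hp
  rw [mem_filter] at hp
  exact hp.2

/-- the general probabilistic conclusion -/
theorem conclude (hm : ∀ p, Measurable (u p)) (hi : iIndepFun u μ)
    (hsg : ∀ p : ℕ, p.Prime → ∀ᵐ ω ∂μ, u p ω ∈ sgn) {lam : ℝ → ℝ}
    (h1 : ∀ u : ℝ, 1 ≤ u → 1 ≤ lam u)
    (hmo : ∀ u v : ℝ, 1 ≤ u → u ≤ v → lam u ≤ lam v)
    (hsu : ∀ t u : ℝ, 1 ≤ t → 1 ≤ u → lam (t * u) ≤ t * lam u) {c : ℝ} (hc : 0 < c)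
    (hw : ∀ δ : ℝ, 0 < δ → ∀ x0 : ℕ, ∃ x U : ℕ, x0 ≤ x ∧
      c * Real.log x ^ 2 / lam (Real.log (Real.log x)) + 1 ≤ U ∧
      EA (law μ u) (PX x) (ind {w | ∀ N : ℕ, x ≤ N → N + U ≤ 2 * x → w ∉ Emp x U N}) 0 ≤ δ)
    (hin : ∀ δ : ℝ, 0 < δ → ∃ x0 : ℕ, ∀ x : ℕ, x0 ≤ x →
      EA (law μ u) (PX (2 * x)) (ind {w | ∀ n ∈ Ioc x (2 * x), n ∉ Shifted w}) 0 ≤ δ) :
    ∀ᵐ ω ∂μ, (Shifted (fun p => u p ω)).Infinite ∧
      ((c / 4 : ℝ) : EReal) ≤ gapW lam (Shifted (fun p => u p ω)) := by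
  -- infinitude
  have hinf : ∀ᵐ ω ∂μ, (Shifted (fun p => u p ω)).Infinite := by
    have hall : ∀ M : ℕ, ∀ᵐ ω ∂μ, ∃ x, M ≤ x ∧ ∃ n ∈ Ioc x (2 * x), n ∈ Shifted (fun p => u p ω) := by
      intro M
      set E : ℕ → Set Ω := fun x => {ω | (fun p => u p ω) ∈
        ({w | ∀ n ∈ Ioc x (2 * x), n ∉ Shifted w} : Set (ℕ → ℤ))} with hE
      have hsub : {ω | ¬ ∃ x, M ≤ x ∧ ∃ n ∈ Ioc x (2 * x), n ∈ Shifted (fun p => u p ω)} ⊆
          ⋂ x ∈ {x : ℕ | M ≤ x}, E x := by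
        intro ω hω
        simp only [Set.mem_iInter, Set.mem_ofPred_eq]
        intro x hx n hn hnS
        exact hω ⟨x, hx, n, hn, hnS⟩
      have hzero : μ (⋂ x ∈ {x : ℕ | M ≤ x}, E x) = 0 := by
        have hr : μ.real (⋂ x ∈ {x : ℕ | M ≤ x}, E x) ≤ 0 := by
          apply le_of_forall_pos_le_add
          intro δ hδ
          obtain ⟨x0, hx0⟩ := hin δ hδ
          have h2 := hx0 (max x0 M) (le_max_left _ _)
          have h3 := pr_gen μ u hm hi (law μ u) (PX (2 * max x0 M))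
            (fun p hp => hsg p (PX_prime hp)) (fun p hp s _ => (law_prime (PX_prime hp) s).symm)
            _ (Shifted_dependsOn (max x0 M))
          rw [zero_add]
          refine le_trans ?_ h2
          rw [← h3.2]
          apply measureReal_mono _ (measure_ne_top _ _)
          intro ω hω
          simp only [Set.mem_iInter, Set.mem_ofPred_eq] at hω
          exact hω (max x0 M) (le_max_right _ _)
        have h4 : μ.real (⋂ x ∈ {x : ℕ | M ≤ x}, E x) = 0 := le_antisymm hr measureReal_nonneg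
        rwa [measureReal_eq_zero_iff] at h4
      exact measure_mono_null hsub hzero
    have hall' := ae_all_iff.2 hall
    filter_upwards [hall'] with ω hω
    rw [Set.infinite_iff_exists_gt]
    intro a
    obtain ⟨x, hx, n, hn, hnS⟩ := hω a
    rw [mem_Ioc] at hn
    exact ⟨n, hnS, by omega⟩
  -- windows
  choose x U hx hU hP using fun m : ℕ => hw ((1 / 2 : ℝ) ^ m) (by positivity) m
  set F : ℕ → Set Ω := fun m => {ω | (fun p => u p ω) ∈
    ({w | ∀ N : ℕ, x m ≤ N → N + U m ≤ 2 * x m → w ∉ Emp (x m) (U m) N} : Set (ℕ → ℤ))} with hF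
  have hFle : ∀ m, μ (F m) ≤ ENNReal.ofReal ((1 / 2 : ℝ) ^ m) := by
    intro m
    have h3 := pr_gen μ u hm hi (law μ u) (PX (x m))
      (fun p hp => hsg p (PX_prime hp)) (fun p hp s _ => (law_prime (PX_prime hp) s).symm)
      _ (Emp_dependsOn (x m) (U m))
    have h4 : μ.real (F m) ≤ (1 / 2 : ℝ) ^ m := by
      rw [hF]
      simp only
      rw [h3.2]
      exact hP m
    rw [← ENNReal.ofReal_toReal (measure_ne_top μ (F m))]
    exact ENNReal.ofReal_le_ofReal h4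
  have hsum : ∑' m, μ (F m) ≠ ⊤ := by
    apply ne_top_of_le_ne_top _ (ENNReal.tsum_le_tsum hFle)
    rw [← ENNReal.ofReal_tsum_of_nonneg (fun m => by positivity)
      (summable_geometric_of_lt_one (by norm_num) (by norm_num))]
    exact ENNReal.ofReal_ne_top
  have hev := ae_eventually_notMem hsum
  filter_upwards [hinf, hev] with ω h2 h3
  refine ⟨h2, gapW_ge h1 hmo hsu h2 hc ?_⟩
  intro X0
  obtain ⟨m, hm1, hm2⟩ := (h3.and (eventually_ge_atTop X0)).exists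
  have h4 : ∃ N : ℕ, x m ≤ N ∧ N + U m ≤ 2 * x m ∧ (fun p => u p ω) ∈ Emp (x m) (U m) N := by
    by_contra h
    apply hm1
    intro N hN hNU hw'
    exact h ⟨N, hN, hNU, hw'⟩
  obtain ⟨N, hN, hNU, hE⟩ := h4
  refine ⟨x m, U m, N, hm2.trans (hx m), hN, hNU, hU m, ?_⟩
  intro n hn hnS
  obtain ⟨p, hp, hpx, hd⟩ := hE n hn
  rw [mem_Ioc] at hn
  exact hnS.2 p hp (by omega) hd

end FINS

open FINS

/-- The final theorem, assuming the blocks. -/
theorem final (hSCS : Stmt_SCS) (hINS : Stmt_INS)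
    {Ω : Type*} [MeasurableSpace Ω] (μ : Measure Ω) [IsProbabilityMeasure μ] (u : ℕ → Ω → ℤ)
    (hm : ∀ p, Measurable (u p)) (hi : iIndepFun u μ)
    (hsg : ∀ p : ℕ, p.Prime → ∀ᵐ ω ∂μ, u p ω ∈ sgn) (lam : ℝ → ℝ) (α : ℝ) (hα : α < 1)
    (hone : ∀ u : ℝ, 1 ≤ u → 1 ≤ lam u) (hmono : ∀ u v : ℝ, 1 ≤ u → u ≤ v → lam u ≤ lam v)
    (hsub : ∀ t u : ℝ, 1 ≤ t → 1 ≤ u → lam (t * u) ≤ t * lam u)
    (hlin : ∀ᶠ t in atTop, lam t ≤ α * t)
    (hlow : ∀ᶠ p : ℕ in atTop, p.Prime → 1 / 2 ≤ μ.real {ω | u p ω = 0} ∧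
      Real.exp (-lam (Real.log p)) ≤ μ.real {ω | u p ω = 1} ∧
      Real.exp (-lam (Real.log p)) ≤ μ.real {ω | u p ω = -1})
    (hmass : Summable fun p : ℕ => if p.Prime then μ.real {ω | u p ω ≠ 0} / p else 0) :
    ∃ c : ℝ, 0 < c ∧ ∀ᵐ ω ∂μ, (Shifted (fun p => u p ω)).Infinite ∧
      ((c : ℝ) : EReal) ≤ gapW lam (Shifted (fun p => u p ω)) := by
  have hs := law_sum hm hsg
  obtain ⟨P, hP⟩ := eventually_atTop.1 hlow
  have hmass' : Summable fun p : ℕ => if p.Prime then ep (law μ u) p / p else 0 := by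
    refine hmass.congr fun p => ?_
    split_ifs with hp
    · congr 1
      unfold ep
      have h1 := hs p
      rw [law_prime hp, law_prime hp, law_prime hp] at h1
      have h2 : μ.real {ω | u p ω ≠ 0} = 1 - μ.real {ω | u p ω = 0} := by
        have h3 : {ω | u p ω ≠ 0} = {ω | u p ω = 0}ᶜ := rfl
        have hms : MeasurableSet {ω | u p ω = 0} := hm p (measurableSet_singleton 0)
        rw [h3, measureReal_compl hms]
        simp
      rw [law_prime hp, law_prime hp, h2]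
      linarith
    · rfl
  have hα0 : 0 ≤ α := by
    by_contra h
    push Not at h
    obtain ⟨t, ht1, ht2⟩ := (hlin.and (eventually_ge_atTop (1 : ℝ))).exists
    have := hone t ht2
    nlinarith
  have hlaw : SLaw (law μ u) lam α :=
    { nonneg := law_nonneg
      sum_one := hs
      half := ⟨P, fun p hp hpP => by rw [law_prime hp]; exact (hP p hpP hp).1⟩
      low := ⟨P, fun p hp hpP => by
        rw [law_prime hp, law_prime hp]; exact (hP p hpP hp).2⟩
      mass := hmass'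
      one_le := hone
      mono := hmono
      sub := hsub
      lt := ⟨hα0, hα, eventually_atTop.1 hlin⟩ }
  obtain ⟨c, hc, hw⟩ := hSCS _ lam α hlaw
  exact ⟨c / 4, by positivity, conclude hm hi hsg hone hmono hsub hc hw
    (hINS _ law_nonneg hs hmass')⟩

end Pool.Agent.Work.MP_b0c12c_nt_sparse
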