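import Pool.Agent.Work.MP_b0c12c_nt_sparse.V2
import Pool.Agent.Work.MP_b0c12c_nt_sparse.FINS
import Pool.Agent.Work.MP_b0c12c_nt_sparse.DetY

/-!
# Final theorem for sparse shifts, version 2
-/

set_option autoImplicit false
set_option linter.unusedSectionVars false

namespace Pool.Agent.Work.MP_b0c12c_nt_sparse

open Filter Finset MeasureTheory ProbabilityTheory
open Pool.Agent.Work.MP_b0c12c_nt_shift
open FINS

namespace FINSY

variable {Ω : Type*} [MeasurableSpace Ω] {μ : Measure Ω} [IsProbabilityMeasure μ] {u : ℕ → Ω → ℤ}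

/-- the general probabilistic conclusion -/
theorem conclude (hm : ∀ p, Measurable (u p)) (hi : iIndepFun u μ)
    (hsg : ∀ p : ℕ, p.Prime → ∀ᵐ ω ∂μ, u p ω ∈ sgn) {W : ℕ → ℕ → Prop}
    (hw : ∀ δ : ℝ, 0 < δ → ∀ x0 : ℕ, ∃ x U : ℕ, x0 ≤ x ∧ W x U ∧
      EA (law μ u) (PX x) (ind {w | ∀ N : ℕ, x ≤ N → N + U ≤ 2 * x → w ∉ Emp x U N}) 0 ≤ δ)
    (hin : ∀ δ : ℝ, 0 < δ → ∃ x0 : ℕ, ∀ x : ℕ, x0 ≤ x →
      EA (law μ u) (PX (2 * x)) (ind {w | ∀ n ∈ Ioc x (2 * x), n ∉ Shifted w}) 0 ≤ δ) :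
    ∀ᵐ ω ∂μ, (Shifted (fun p => u p ω)).Infinite ∧
      ∀ X0 : ℕ, ∃ x U N : ℕ, X0 ≤ x ∧ x ≤ N ∧ N + U ≤ 2 * x ∧ W x U ∧
        ∀ n ∈ Ioc (N + 1) (N + U), n ∉ Shifted (fun p => u p ω) := by
  -- infinitude
  have hinf : ∀ᵐ ω ∂μ, (Shifted (fun p => u p ω)).Infinite := by
    have hall : ∀ M : ℕ, ∀ᵐ ω ∂μ, ∃ x, M ≤ x ∧ ∃ n ∈ Ioc x (2 * x), n ∈ Shifted (fun p => u p ω) := by
      intro M
      set E : ℕ → Set Ω := fun x => {ω | (fun p => u p ω) ∈
        ({w | ∀ n ∈ Ioc x (2 * x), n ∉ Shifted w} : Set (ℕ → ℤ))} with hE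
      have hsub : {ω | ¬ ∃ x, M ≤ x ∧ ∃ n ∈ Ioc x (2 * x), n ∈ Shifted (fun p => u p ω)} ⊆
          ⋂ x ∈ {x : ℕ | M ≤ x}, E x := by
        intro ω hω
        simp only [Set.mem_iInter, Set.mem_ofPred_eq]
        intro x hx n hn hnS
        exact hω ⟨x, hx, n, hn, hnS⟩
      have hzero : μ (⋂ x ∈ {x : ℕ | M ≤ x}, E x) = 0 := by
        have hr : μ.real (⋂ x ∈ {x : ℕ | M ≤ x}, E x) ≤ 0 := by
          apply le_of_forall_pos_le_add
          intro δ hδ
          obtain ⟨x0, hx0⟩ := hin δ hδ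
          have h2 := hx0 (max x0 M) (le_max_left _ _)
          have h3 := pr_gen μ u hm hi (law μ u) (PX (2 * max x0 M))
            (fun p hp => hsg p (PX_prime hp)) (fun p hp s _ => (law_prime (PX_prime hp) s).symm)
            _ (Shifted_dependsOn (max x0 M))
          rw [zero_add]
          refine le_trans ?_ h2
          rw [← h3.2]
          apply measureReal_mono _ (measure_ne_top _ _)
          intro ω hω
          simp only [Set.mem_iInter, Set.mem_ofPred_eq] at hω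
          exact hω (max x0 M) (le_max_right _ _)
        have h4 : μ.real (⋂ x ∈ {x : ℕ | M ≤ x}, E x) = 0 := le_antisymm hr measureReal_nonneg
        rwa [measureReal_eq_zero_iff] at h4
      exact measure_mono_null hsub hzero
    have hall' := ae_all_iff.2 hall
    filter_upwards [hall'] with ω hω
    rw [Set.infinite_iff_exists_gt]
    intro a
    obtain ⟨x, hx, n, hn, hnS⟩ := hω a
    rw [mem_Ioc] at hn
    exact ⟨n, hnS, by omega⟩
  -- windows
  choose x U hx hU hP using fun m : ℕ => hw ((1 / 2 : ℝ) ^ m) (by positivity) m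
  set F : ℕ → Set Ω := fun m => {ω | (fun p => u p ω) ∈
    ({w | ∀ N : ℕ, x m ≤ N → N + U m ≤ 2 * x m → w ∉ Emp (x m) (U m) N} : Set (ℕ → ℤ))} with hF
  have hFle : ∀ m, μ (F m) ≤ ENNReal.ofReal ((1 / 2 : ℝ) ^ m) := by
    intro m
    have h3 := pr_gen μ u hm hi (law μ u) (PX (x m))
      (fun p hp => hsg p (PX_prime hp)) (fun p hp s _ => (law_prime (PX_prime hp) s).symm)
      _ (Emp_dependsOn (x m) (U m))
    have h4 : μ.real (F m) ≤ (1 / 2 : ℝ) ^ m := by
      rw [hF]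
      simp only
      rw [h3.2]
      exact hP m
    rw [← ENNReal.ofReal_toReal (measure_ne_top μ (F m))]
    exact ENNReal.ofReal_le_ofReal h4
  have hsum : ∑' m, μ (F m) ≠ ⊤ := by
    apply ne_top_of_le_ne_top _ (ENNReal.tsum_le_tsum hFle)
    rw [← ENNReal.ofReal_tsum_of_nonneg (fun m => by positivity)
      (summable_geometric_of_lt_one (by norm_num) (by norm_num))]
    exact ENNReal.ofReal_ne_top
  have hev := ae_eventually_notMem hsum
  filter_upwards [hinf, hev] with ω h2 h3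
  refine ⟨h2, ?_⟩
  intro X0
  obtain ⟨m, hm1, hm2⟩ := (h3.and (eventually_ge_atTop X0)).exists
  have h4 : ∃ N : ℕ, x m ≤ N ∧ N + U m ≤ 2 * x m ∧ (fun p => u p ω) ∈ Emp (x m) (U m) N := by
    by_contra h
    apply hm1
    intro N hN hNU hw'
    exact h ⟨N, hN, hNU, hw'⟩
  obtain ⟨N, hN, hNU, hE⟩ := h4
  refine ⟨x m, U m, N, hm2.trans (hx m), hN, hNU, hU m, ?_⟩
  intro n hn hnS
  obtain ⟨p, hp, hpx, hd⟩ := hE n hn
  rw [mem_Ioc] at hn
  exact hnS.2 p hp (by omega) hd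

end FINSY

open FINSY

/-- The final theorem (version 2), assuming the blocks. -/
theorem finalY (hSCS : Stmt_SCSY) (hINS : Stmt_INS)
    {Ω : Type*} [MeasurableSpace Ω] (μ : Measure Ω) [IsProbabilityMeasure μ] (u : ℕ → Ω → ℤ)
    (hm : ∀ p, Measurable (u p)) (hi : iIndepFun u μ)
    (hsg : ∀ p : ℕ, p.Prime → ∀ᵐ ω ∂μ, u p ω ∈ sgn) (lam ell : ℝ → ℝ) (K δ u0 t0 : ℝ)
    (hlam : LamOk lam u0 K) (hell : EllOk lam ell u0 δ t0)
    (hlow : ∀ᶠ p : ℕ in atTop, p.Prime → 1 / 2 ≤ μ.real {ω | u p ω = 0} ∧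
      Real.exp (-lam (Real.log p)) ≤ μ.real {ω | u p ω = 1} ∧
      Real.exp (-lam (Real.log p)) ≤ μ.real {ω | u p ω = -1})
    (hmass : Summable fun p : ℕ => if p.Prime then μ.real {ω | u p ω ≠ 0} / p else 0) :
    ∃ c : ℝ, 0 < c ∧ ∀ᵐ ω ∂μ, (Shifted (fun p => u p ω)).Infinite ∧
      ((c : ℝ) : EReal) ≤ gapW (fun t => lam (ell t)) (Shifted (fun p => u p ω)) := by
  have hs := law_sum hm hsg
  obtain ⟨P, hP⟩ := eventually_atTop.1 hlow
  have hmass' : Summable fun p : ℕ => if p.Prime then ep (law μ u) p / p else 0 := by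
    refine hmass.congr fun p => ?_
    split_ifs with hp
    · congr 1
      unfold ep
      have h1 := hs p
      rw [law_prime hp, law_prime hp, law_prime hp] at h1
      have h2 : μ.real {ω | u p ω ≠ 0} = 1 - μ.real {ω | u p ω = 0} := by
        have h3 : {ω | u p ω ≠ 0} = {ω | u p ω = 0}ᶜ := rfl
        have hms : MeasurableSet {ω | u p ω = 0} := hm p (measurableSet_singleton 0)
        rw [h3, measureReal_compl hms]
        simp
      rw [law_prime hp, law_prime hp, h2]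
      linarith
    · rfl
  have hlaw : PiOk (law μ u) lam :=
    { nonneg := law_nonneg
      sum_one := hs
      half := ⟨P, fun p hp hpP => by rw [law_prime hp]; exact (hP p hpP hp).1⟩
      low := ⟨P, fun p hp hpP => by
        rw [law_prime hp, law_prime hp]; exact (hP p hpP hp).2⟩
      mass := hmass' }
  obtain ⟨c, hc, hw⟩ := hSCS _ lam ell u0 K δ t0 hlam hlaw hell
  have hK := hlam.K_ge
  refine ⟨c / (4 * K), by positivity, ?_⟩
  have hcon := conclude (u := u) (μ := μ) hm hi hsg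
    (W := fun x U => c * Real.log x ^ 2 / lam (ell (Real.log (Real.log x))) + 1 ≤ U) hw
    (hINS _ law_nonneg hs hmass')
  filter_upwards [hcon] with ω hω
  refine ⟨hω.1, gapW_geY (L := fun t => lam (ell t)) (t0 := t0) (K := K) hK ?_ ?_ hω.1 hc hω.2⟩
  · intro t ht
    exact hlam.one_le _ (hell.ge t ht)
  · intro t t' ht htt
    obtain ⟨h1, h2⟩ := hell.mono t t' ht htt
    have h3 := hell.ge t ht
    have hu0 := hlam.u0_ge
    refine ⟨hlam.mono _ _ h3 h1, ?_⟩
    -- `ell t' = r * ell t` with `1 ≤ r ≤ exp (t' - t)`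
    have hl0 : 0 < ell t := by linarith
    have h4 := hlam.sub (ell t' / ell t) (ell t) (by rw [le_div_iff₀ hl0]; linarith) h3
    rw [div_mul_cancel₀ _ hl0.ne'] at h4
    refine h4.trans ?_
    apply mul_le_mul_of_nonneg_left _ (by linarith)
    apply mul_le_mul_of_nonneg_right _ (by have := hlam.one_le _ h3; linarith)
    rw [div_le_iff₀ hl0]
    exact h2

end Pool.Agent.Work.MP_b0c12c_nt_sparse
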