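import Mathlib

/-!
# Weighted gap constant
-/

set_option autoImplicit false

namespace Pool.Agent.Work.MP_b0c12c_nt_sparse

open Filter

/-- For a set `Q = {q_0 < q_1 < ...}` of natural numbers:
`limsup (q_{k+1} - q_k) * lam (log log q_k) / (log q_k)^2` in the extended reals. -/
noncomputable def gapW (lam : ℝ → ℝ) (Q : Set ℕ) : EReal :=
  limsup (fun k : ℕ =>
      ((((Nat.nth (· ∈ Q) (k + 1) : ℝ) - (Nat.nth (· ∈ Q) k : ℝ)) *
        lam (Real.log (Real.log (Nat.nth (· ∈ Q) k))) /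
        Real.log (Nat.nth (· ∈ Q) k) ^ 2 : ℝ) : EReal)) atTop

end Pool.Agent.Work.MP_b0c12c_nt_sparse
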