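import Mathlib
import Pool.Agent.Work.MP_b0c12c_nt_sparse.Interface
import Pool.Agent.Work.MP_b0c12c_nt_sparse.BT
import Pool.Agent.Work.MP_b0c12c_nt_shift.Op
import Pool.Agent.Work.PNT70.PNT

/-!
# Block INS: with probability tending to one `(x, 2x]` contains a member of the set
-/

set_option autoImplicit false

namespace Pool.Agent.Work.MP_b0c12c_nt_sparse

open Finset Filter
open Pool.Agent.Work.MP_b0c12c_nt_shift

namespace INS

/-- the number of primes in `(X, 2X]` -/
theorem primes_ge : ∃ X1 : ℕ, 3 ≤ X1 ∧ ∀ X : ℕ, X1 ≤ X →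
    (X : ℝ) / (4 * Real.log X) ≤ (((Ioc X (2 * X)).filter Nat.Prime).card : ℝ) := by
  have h := Pool.Agent.Work.PNT70.theta_sub_tendsto (ε := 1 / 2) (by norm_num)
  have h1 := h.eventually_const_lt (show (1 / 4 : ℝ) < 1 / 2 by norm_num)
  rw [eventually_atTop] at h1
  obtain ⟨y, hy⟩ := h1
  refine ⟨⌈|y|⌉₊ + 3, by omega, fun X hX => ?_⟩
  have hXy : y ≤ 2 * X := by
    have h2 : (⌈|y|⌉₊ : ℝ) + 3 ≤ X := by exact_mod_cast hX
    have h3 := Nat.le_ceil |y|
    have h4 := le_abs_self y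
    have h5 := abs_nonneg y
    linarith
  have hX3 : (3 : ℝ) ≤ X := by exact_mod_cast (by omega : 3 ≤ X)
  have h2 := hy (2 * X) hXy
  rw [lt_div_iff₀ (by positivity)] at h2
  have e1 : (1 - 1 / 2 : ℝ) * (2 * X) = X := by ring
  rw [e1] at h2
  have h3 : Chebyshev.theta (2 * (X : ℝ)) - Chebyshev.theta X =
      ∑ p ∈ (Ioc X (2 * X)).filter Nat.Prime, Real.log p := by
    unfold Chebyshev.theta
    have e2 : ⌊2 * (X : ℝ)⌋₊ = 2 * X := by
      have : (2 * (X : ℝ)) = ((2 * X : ℕ) : ℝ) := by push_cast; ring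
      rw [this, Nat.floor_natCast]
    rw [e2, Nat.floor_natCast]
    have e3 : (Ioc 0 (2 * X)).filter Nat.Prime =
        (Ioc 0 X).filter Nat.Prime ∪ (Ioc X (2 * X)).filter Nat.Prime := by
      rw [← filter_union, Ioc_union_Ioc_eq_Ioc (Nat.zero_le _) (by omega)]
    have e4 : Disjoint ((Ioc 0 X).filter Nat.Prime) ((Ioc X (2 * X)).filter Nat.Prime) := by
      rw [disjoint_left]
      intro p h1 h2
      rw [mem_filter, mem_Ioc] at h1 h2
      omega
    rw [e3, sum_union e4]
    ring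
  have hlX : 0 < Real.log X := Real.log_pos (by linarith)
  have h4 : ∑ p ∈ (Ioc X (2 * X)).filter Nat.Prime, Real.log p ≤
      (((Ioc X (2 * X)).filter Nat.Prime).card : ℝ) * (2 * Real.log X) := by
    rw [← nsmul_eq_mul]
    apply sum_le_card_nsmul
    intro p hp
    rw [mem_filter, mem_Ioc] at hp
    have h5 : (p : ℝ) ≤ X ^ 2 := by
      have : p ≤ X ^ 2 := by nlinarith [hp.1.2, (by omega : 3 ≤ X)]
      exact_mod_cast this
    have h6 := Real.log_le_log (by exact_mod_cast hp.2.pos) h5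
    rw [Real.log_pow] at h6
    push_cast at h6
    exact h6
  rw [div_le_iff₀ (by positivity)]
  rw [h3] at h2
  nlinarith

/-- the tail of the moved mass -/
theorem tail (π : ℕ → ℤ → ℝ)
    (hsum : Summable fun p : ℕ => if p.Prime then ep π p / p else 0) {δ : ℝ} (hδ : 0 < δ) :
    ∃ M : ℕ, ∀ A : Finset ℕ, (∀ p ∈ A, p.Prime ∧ M < p) → ∑ p ∈ A, ep π p / p ≤ δ := by
  obtain ⟨s, hs⟩ := summable_iff_vanishing_norm.mp hsum δ hδ
  refine ⟨s.sup id, fun A hA => ?_⟩
  have h1 := hs A (by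
    rw [disjoint_left]
    intro p hp hps
    have h2 := (hA p hp).2
    have h3 : id p ≤ s.sup id := le_sup hps
    simp only [id] at h3
    omega)
  have h2 : ∑ p ∈ A, (if p.Prime then ep π p / p else 0) = ∑ p ∈ A, ep π p / p :=
    sum_congr rfl fun p hp => by rw [if_pos (hA p hp).1]
  rw [h2] at h1
  exact (le_abs_self _).trans h1.le

/-- the probability of one value -/
theorem EA_val {π : ℕ → ℤ → ℝ} (hs : ∀ p, π p (-1) + π p 0 + π p 1 = 1) {A : Finset ℕ} {p : ℕ}
    (hp : p ∈ A) {s : ℤ} (hsg : s ∈ sgn) (v : ℕ → ℤ) :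
    EA π A (ind {w | w p = s}) v = π p s := by
  have hdep : DependsOn (ind {w : ℕ → ℤ | w p = s}) ({p} : Set ℕ) := by
    apply ind_dependsOn
    intro v w h hv
    simp only [Set.mem_setOf_eq] at hv ⊢
    rw [← h p (Set.mem_singleton p)]
    exact hv
  rw [EA_restrict hs hdep (A' := {p}) (by simpa using hp) (by simp), EA_singleton]
  unfold E1
  rw [sum_eq_single s]
  · rw [ind_of_mem (by simp), mul_one]
  · intro b _ hb
    rw [ind_of_not_mem (by simpa using hb), mul_zero]
  · intro h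
    exact absurd hsg h

end INS

theorem stmt_INS : Stmt_INS := by
  classical
  intro π hπ hs hsum δ hδ
  obtain ⟨C, hC, hBT⟩ := stmt_BT
  obtain ⟨X1, hX13, hX1⟩ := INS.primes_ge
  obtain ⟨M, hM⟩ := INS.tail π hsum (δ := δ / (4 * C)) (by positivity)
  choose! X0 hX0 using hBT
  set Q : ℕ := ∏ p ∈ (Icc 1 M).filter Nat.Prime, p with hQ
  have hQ1 : 1 ≤ Q := Nat.succ_le_of_lt (prod_pos fun p hp => (mem_filter.mp hp).2.pos)
  set Y : ℕ := (Icc 1 Q).sup X0 + X1 + M + Q with hY
  refine ⟨Q * Y, fun x hx => ?_⟩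
  set S : Set (ℕ → ℤ) := {w | ∀ n ∈ Ioc x (2 * x), n ∉ Shifted w} with hS
  set A0 : Finset ℕ := (PX (2 * x)).filter (· ≤ M) with hA0
  set A1 : Finset ℕ := PX (2 * x) \ A0 with hA1
  have hmemP : ∀ p, p ∈ PX (2 * x) ↔ p.Prime ∧ p * p ≤ 2 * x := by
    intro p
    unfold PX
    rw [mem_filter, mem_Icc, Nat.le_sqrt]
    constructor
    · rintro ⟨⟨_, h1⟩, h2⟩
      exact ⟨h2, h1⟩
    · rintro ⟨h1, h2⟩
      exact ⟨⟨h1.pos, h2⟩, h1⟩
  have hmem1 : ∀ p, p ∈ A1 ↔ p.Prime ∧ p * p ≤ 2 * x ∧ M < p := by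
    intro p
    rw [hA1, Finset.mem_sdiff, hA0, mem_filter, hmemP]
    constructor
    · rintro ⟨h1, h2⟩
      refine ⟨h1.1, h1.2, ?_⟩
      by_contra hcon
      exact h2 ⟨h1, not_lt.mp hcon⟩
    · rintro ⟨h1, h2, h3⟩
      exact ⟨⟨h1, h2⟩, fun h => by omega⟩
  have hmem0 : ∀ p, p ∈ A0 ↔ p.Prime ∧ p * p ≤ 2 * x ∧ p ≤ M := by
    intro p
    rw [hA0, mem_filter, hmemP, and_assoc]
  rw [EA_sdiff' (filter_subset (· ≤ M) (PX (2 * x)))]
  rw [← hA0, ← hA1]
  -- it is enough to bound the conditional probabilities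
  suffices hmain : ∀ v : ℕ → ℤ, (∀ p ∈ A0, v p ∈ sgn) → EA π A1 (ind S) v ≤ δ by
    have h1 := EA_mono_on (π := π) hπ A0 (f := EA π A1 (ind S)) (g := fun _ => δ) 0
      (fun w _ hw => hmain w hw)
    rwa [EA_const hs] at h1
  intro v hv
  set T : Finset ℕ := A0.filter (fun p => v p ≠ 0) with hT
  set t : ℕ := ∏ p ∈ T, p with ht
  have hTp : ∀ p ∈ T, p.Prime ∧ p ≤ M ∧ v p ≠ 0 := by
    intro p hp
    rw [hT, mem_filter, hmem0] at hp
    exact ⟨hp.1.1, hp.1.2.2, hp.2⟩
  have ht1 : 1 ≤ t := Nat.succ_le_of_lt (prod_pos fun p hp => (hTp p hp).1.pos)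
  have htQ : t ≤ Q := by
    apply prod_le_prod_of_subset_of_one_le'
    · intro p hp
      obtain ⟨h1, h2, _⟩ := hTp p hp
      rw [mem_filter, mem_Icc]
      exact ⟨⟨h1.pos, h2⟩, h1⟩
    · intro p hp _
      exact (mem_filter.mp hp).2.one_lt.le
  -- the prime factors of `t`
  have htdvd : ∀ p : ℕ, p.Prime → p ∣ t → p ∈ T := by
    intro p hp hpt
    rw [ht, (Nat.prime_iff.mp hp).dvd_finset_prod_iff] at hpt
    obtain ⟨r, hr, hpr⟩ := hpt
    have := (Nat.prime_dvd_prime_iff_eq hp (hTp r hr).1).mp hpr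
    rwa [this]
  set X : ℕ := x / t with hX
  have hXY : Y ≤ X := by
    rw [hX, Nat.le_div_iff_mul_le ht1]
    calc Y * t ≤ Y * Q := Nat.mul_le_mul_left _ htQ
      _ = Q * Y := mul_comm _ _
      _ ≤ x := hx
  have hXX0 : X0 t ≤ X := by
    have : X0 t ≤ (Icc 1 Q).sup X0 := le_sup (f := X0) (mem_Icc.mpr ⟨ht1, htQ⟩)
    omega
  have hXX1 : X1 ≤ X := by omega
  have hXM : M ≤ X := by omega
  have hXt : t ≤ X := by omega
  have hxX : x < t * (X + 1) := by
    rw [hX]
    exact Nat.lt_mul_div_succ x ht1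
  have hXx : t * X ≤ x := by
    rw [hX]
    exact Nat.mul_div_le x t
  have hx2 : 2 * x ≤ 4 * t * X := by
    have h1 : 1 ≤ X := by omega
    have h2 : t * (X + 1) ≤ 2 * (t * X) := by nlinarith
    nlinarith
  set R : Finset ℕ := (Ioc X (2 * X)).filter Nat.Prime with hR
  have hRm : ∀ m ∈ R, X < m ∧ m ≤ 2 * X ∧ m.Prime := by
    intro m hm
    rw [hR, mem_filter, mem_Ioc] at hm
    exact ⟨hm.1.1, hm.1.2, hm.2⟩
  have hnm : ∀ m ∈ R, t * m ∈ Ioc x (2 * x) := by
    intro m hm
    obtain ⟨h1, h2, _⟩ := hRm m hm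
    rw [mem_Ioc]
    constructor
    · have : t * (X + 1) ≤ t * m := Nat.mul_le_mul_left _ h1
      omega
    · have : t * m ≤ t * (2 * X) := Nat.mul_le_mul_left _ h2
      nlinarith
  -- the union bound
  have hub : ∀ w : ℕ → ℤ, (∀ p ∉ A1, w p = v p) → (∀ p ∈ A1, w p ∈ sgn) →
      (R.card : ℝ) * ind S w ≤ ∑ m ∈ R, ∑ p ∈ A1, ∑ s ∈ ({1, -1} : Finset ℤ),
        (if (p : ℤ) ∣ (t : ℤ) * (m : ℤ) - s then (1 : ℝ) else 0) * ind {w | w p = s} w := by
    intro w hw1 hw2
    have hterm : ∀ m ∈ R, ∀ p ∈ A1, ∀ s ∈ ({1, -1} : Finset ℤ),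
        0 ≤ (if (p : ℤ) ∣ (t : ℤ) * (m : ℤ) - s then (1 : ℝ) else 0) *
          ind {w : ℕ → ℤ | w p = s} w := by
      intro m _ p _ s _
      apply mul_nonneg _ (ind_nonneg _ _)
      split_ifs <;> norm_num
    by_cases hwS : w ∈ S
    · rw [ind_of_mem hwS, mul_one, card_eq_sum_ones, Nat.cast_sum]
      apply sum_le_sum
      intro m hm
      rw [Nat.cast_one]
      obtain ⟨hm1, hm2, hmp⟩ := hRm m hm
      have hn := hwS (t * m) (hnm m hm)
      have h2n : 2 ≤ t * m := by nlinarith [hmp.two_le]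
      have h3 : ∃ p : ℕ, p.Prime ∧ p * p ≤ t * m ∧ (p : ℤ) ∣ ((t * m : ℕ) : ℤ) - w p := by
        by_contra hcon
        push Not at hcon
        exact hn ⟨h2n, hcon⟩
      obtain ⟨p, hp, hpn, hpd⟩ := h3
      push_cast at hpd
      have hp2x : p * p ≤ 2 * x := hpn.trans (mem_Ioc.mp (hnm m hm)).2
      -- `p` is large
      have hMp : M < p := by
        by_contra hcon
        push Not at hcon
        have hpA0 : p ∈ A0 := (hmem0 p).mpr ⟨hp, hp2x, hcon⟩
        have hpA1 : p ∉ A1 := fun h => by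
          have := (hmem1 p).mp h
          omega
        rw [hw1 p hpA1] at hpd
        by_cases h0 : v p = 0
        · rw [h0, sub_zero] at hpd
          have h4 : p ∣ t * m := by exact_mod_cast hpd
          rcases (Nat.Prime.dvd_mul hp).mp h4 with h5 | h5
          · exact (hTp p (htdvd p hp h5)).2.2 h0
          · have := (Nat.prime_dvd_prime_iff_eq hp hmp).mp h5
            omega
        · have hpT : p ∈ T := by
            rw [hT, mem_filter]
            exact ⟨hpA0, h0⟩
          have h4 : (p : ℤ) ∣ (t : ℤ) * m := by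
            have : p ∣ t := by
              rw [ht]
              exact dvd_prod_of_mem (fun p => p) hpT
            exact Dvd.dvd.mul_right (by exact_mod_cast this) _
          have h5 : (p : ℤ) ∣ v p := by
            have := dvd_sub h4 hpd
            simpa using this
          have h6 := hv p hpA0
          unfold sgn at h6
          have h7 : v p = -1 ∨ v p = 1 := by
            simp only [mem_insert, mem_singleton] at h6
            rcases h6 with h6 | h6 | h6
            · exact Or.inl h6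
            · exact absurd h6 h0
            · exact Or.inr h6
          have h8 : (p : ℤ) ∣ 1 := by
            rcases h7 with h7 | h7
            · rw [h7] at h5
              exact (dvd_neg).mp h5
            · rwa [h7] at h5
          have h9 : p ∣ 1 := by exact_mod_cast h8
          exact hp.one_lt.ne' (Nat.dvd_one.mp h9)
      have hpA1 : p ∈ A1 := (hmem1 p).mpr ⟨hp, hp2x, hMp⟩
      have hws := hw2 p hpA1
      have hw0 : w p ≠ 0 := by
        intro h0
        rw [h0, sub_zero] at hpd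
        have h4 : p ∣ t * m := by exact_mod_cast hpd
        rcases (Nat.Prime.dvd_mul hp).mp h4 with h5 | h5
        · have := (hTp p (htdvd p hp h5)).2.1
          omega
        · have h6 := (Nat.prime_dvd_prime_iff_eq hp hmp).mp h5
          rw [h6] at hpn
          have := Nat.le_of_mul_le_mul_right hpn hmp.pos
          omega
      have hws' : w p ∈ ({1, -1} : Finset ℤ) := by
        unfold sgn at hws
        simp only [mem_insert, mem_singleton] at hws ⊢
        rcases hws with h | h | h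
        · exact Or.inr h
        · exact absurd h hw0
        · exact Or.inl h
      calc (1 : ℝ) = (if (p : ℤ) ∣ (t : ℤ) * (m : ℤ) - w p then (1 : ℝ) else 0) *
            ind {w' : ℕ → ℤ | w' p = w p} w := by
              rw [if_pos hpd, ind_of_mem (by simp), one_mul]
        _ ≤ ∑ s ∈ ({1, -1} : Finset ℤ), (if (p : ℤ) ∣ (t : ℤ) * (m : ℤ) - s then (1 : ℝ) else 0) *
            ind {w' : ℕ → ℤ | w' p = s} w :=
              single_le_sum (f := fun s => (if (p : ℤ) ∣ (t : ℤ) * (m : ℤ) - s then (1 : ℝ) else 0) *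
                ind {w' : ℕ → ℤ | w' p = s} w) (fun s hs => hterm m hm p hpA1 s hs) hws'
        _ ≤ _ := single_le_sum (f := fun p : ℕ => ∑ s ∈ ({1, -1} : Finset ℤ),
              (if (p : ℤ) ∣ (t : ℤ) * (m : ℤ) - s then (1 : ℝ) else 0) *
                ind {w' : ℕ → ℤ | w' p = s} w)
              (fun p hp => sum_nonneg fun s hs => hterm m hm p hp s hs) hpA1
    · rw [ind_of_not_mem hwS, mul_zero]
      exact sum_nonneg fun m hm => sum_nonneg fun p hp => sum_nonneg fun s hs => hterm m hm p hp s hs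
  have hlX : 0 < Real.log X := by
    apply Real.log_pos
    exact_mod_cast (by omega : 1 < X)
  have hX0r : (0 : ℝ) < X := by exact_mod_cast (by omega : 0 < X)
  -- the average of the union bound
  have hE : (R.card : ℝ) * EA π A1 (ind S) v ≤ ∑ m ∈ R, ∑ p ∈ A1, ∑ s ∈ ({1, -1} : Finset ℤ),
      (if (p : ℤ) ∣ (t : ℤ) * (m : ℤ) - s then (1 : ℝ) else 0) * π p s := by
    have h1 := EA_mono_on (π := π) hπ A1 v hub
    rw [EA_const_mul, EA_sum] at h1
    refine h1.trans (le_of_eq ?_)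
    apply sum_congr rfl
    intro m _
    rw [EA_sum]
    apply sum_congr rfl
    intro p hp
    rw [EA_sum]
    apply sum_congr rfl
    intro s hs'
    rw [EA_const_mul]
    have hsg : s ∈ sgn := by
      unfold sgn
      simp only [mem_insert, mem_singleton] at hs' ⊢
      rcases hs' with h | h
      · exact Or.inr (Or.inr h)
      · exact Or.inl h
    simp only [INS.EA_val hs hp hsg]
  have hE2 : ∑ m ∈ R, ∑ p ∈ A1, ∑ s ∈ ({1, -1} : Finset ℤ),
      (if (p : ℤ) ∣ (t : ℤ) * (m : ℤ) - s then (1 : ℝ) else 0) * π p s ≤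
      ∑ p ∈ A1, C * (X / Real.log X) * (ep π p / p) := by
    rw [sum_comm]
    apply sum_le_sum
    intro p hp
    obtain ⟨hpp, hp2x, hMp⟩ := (hmem1 p).mp hp
    have hpt : ¬ p ∣ t := fun h => by
      have := (hTp p (htdvd p hpp h)).2.1
      omega
    rw [sum_comm]
    have h1 : ∀ s ∈ ({1, -1} : Finset ℤ), ∑ m ∈ R,
        (if (p : ℤ) ∣ (t : ℤ) * (m : ℤ) - s then (1 : ℝ) else 0) * π p s ≤
        C * (X / (p * Real.log X)) * π p s := by
      intro s hs'
      rw [← sum_mul]
      apply mul_le_mul_of_nonneg_right _ (hπ p s)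
      have hsg : s ∈ sgn ∧ s ≠ 0 := by
        unfold sgn
        simp only [mem_insert, mem_singleton] at hs' ⊢
        rcases hs' with h | h
        · subst h; simp
        · subst h; simp
      have h2 := hX0 t ht1 X hXX0 p hpp hpt (hp2x.trans hx2) s hsg.1 hsg.2
      refine le_trans (le_of_eq ?_) h2
      rw [← sum_filter, sum_const, nsmul_eq_mul, mul_one, hR, filter_filter]
    refine (sum_le_sum h1).trans (le_of_eq ?_)
    rw [sum_pair (by norm_num)]
    have hpr : (p : ℝ) ≠ 0 := by exact_mod_cast hpp.ne_zero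
    unfold ep
    field_simp
  have hE3 : ∑ p ∈ A1, C * (X / Real.log X) * (ep π p / p) ≤ C * (X / Real.log X) * (δ / (4 * C)) := by
    rw [← mul_sum]
    apply mul_le_mul_of_nonneg_left _ (by positivity)
    apply hM
    intro p hp
    obtain ⟨hpp, _, hMp⟩ := (hmem1 p).mp hp
    exact ⟨hpp, hMp⟩
  have hcard := hX1 X hXX1
  have hpos : 0 < (X : ℝ) / (4 * Real.log X) := by positivity
  have hRpos : 0 < (R.card : ℝ) := lt_of_lt_of_le hpos hcard
  have h5 : (R.card : ℝ) * EA π A1 (ind S) v ≤ (R.card : ℝ) * δ := by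
    calc (R.card : ℝ) * EA π A1 (ind S) v ≤ C * (X / Real.log X) * (δ / (4 * C)) :=
          hE.trans (hE2.trans hE3)
      _ = (X / (4 * Real.log X)) * δ := by
          field_simp
      _ ≤ (R.card : ℝ) * δ := mul_le_mul_of_nonneg_right hcard hδ.le
  exact le_of_mul_le_mul_left h5 hRpos

end Pool.Agent.Work.MP_b0c12c_nt_sparse
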