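import Pool.Agent.Work.MP_b0c12c_nt_sparse.KTools

/-! Blocks K1, K2, K3 of the sparse theorem, in a form which does not depend on the definition of
the least killer. -/

set_option autoImplicit false

namespace Pool.Agent.Work.MP_b0c12c_nt_shift

open Finset

/-- `l` is the least member of `A` dividing `m`, or `1` -/
def IsLp (A : Finset ℕ) (m l : ℕ) : Prop := (l = 1 ∨ l ∈ A) ∧ ∀ p ∈ A, p ∣ m → l ≤ p

open Classical in
theorem kcount (hWS : Stmt_WS) : ∃ C : ℝ, 0 < C ∧ ∃ D : ℕ, 2 ≤ D ∧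
    ∀ κ : ℝ, 0 < κ → κ ≤ 1 / 10 → ∀ B : ℕ, 2 ≤ B → ∃ z0 : ℕ, 16 ≤ z0 ∧ ∀ z : ℕ, z0 ≤ z →
    ∀ x : ℕ, InR κ z x → ∀ p0 : ℕ, AA κ B z p0 ⊆ PW D z x ∧ W0 D x * W0 D x ≤ x ∧
      0 < Real.log x ∧
      ∀ (a i j y : ℕ), z ^ B ≤ y → y ≤ w1 κ z → ∀ T : ℕ → Finset ℤ,
        (∀ p ∈ PW D z x, (T p).card ≤ 3 ∧ (∀ s ∈ T p, -3 ≤ s ∧ s ≤ 3) ∧ j ≤ (T p).card ∧
          (p ∈ AA κ B z p0 → p ≤ y → j + i ≤ (T p).card)) →
        ∀ S : Finset ℕ, (∀ n ∈ S, n ∈ Ioc x (2 * x) ∧ n ≡ a [MOD qq z p0] ∧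
          ∀ p ∈ PW D z x, ∀ s ∈ T p, ¬ cl p s n) →
          (S.card : ℝ) ≤ C * (x / qq z p0) * (C * (Real.log z / Real.log x)) ^ j *
            (C * (B * Real.log z / Real.log y)) ^ i := by
  obtain ⟨C, hC, D, hD2, hk⟩ := ktools hWS
  refine ⟨C, hC, D, hD2, ?_⟩
  intro κ hκ hκ1 B hB
  obtain ⟨z0, hz016, hz0⟩ := hk κ hκ hκ1 B hB
  refine ⟨z0, hz016, ?_⟩
  intro z hz x hx p0
  obtain ⟨hAP, hWW, hlx, hsieve, hm1, hm2⟩ := hz0 z hz x hx p0
  refine ⟨hAP, hWW, hlx, ?_⟩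
  intro a i j y hzy hyw T hT S hS
  have h1 := hsieve a T (fun _ _ => 1) (fun p hp => ⟨(hT p hp).1, fun s hs =>
    ⟨((hT p hp).2.1 s hs).1, ((hT p hp).2.1 s hs).2, by norm_num, le_rfl⟩⟩) S
    (fun n hn => ⟨(hS n hn).1, (hS n hn).2.1⟩)
  have h2 : (S.card : ℝ) = ∑ n ∈ S, ∏ p ∈ PW D z x, lw T (fun _ _ => 1) p n := by
    rw [card_eq_sum_ones, Nat.cast_sum]
    apply sum_congr rfl
    intro n hn
    rw [Nat.cast_one]
    symm
    apply prod_eq_one
    intro p hp
    unfold lw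
    rw [sum_eq_zero, sub_zero]
    intro s hs'
    rw [if_neg]
    exact (hS n hn).2.2 p hp s hs'
  rw [h2]
  refine h1.trans ?_
  rw [mul_assoc (C * (x / qq z p0 : ℝ))]
  apply mul_le_mul_of_nonneg_left _ (by positivity)
  set R : Finset ℕ := (AA κ B z p0).filter (fun p => p ≤ y) with hR
  have hRP : R ⊆ PW D z x := (filter_subset _ _).trans hAP
  have h3 : (j : ℝ) * ∑ p ∈ PW D z x, 1 / (p : ℝ) + i * ∑ p ∈ R, 1 / (p : ℝ) ≤
      ∑ p ∈ PW D z x, (∑ s ∈ T p, (1 : ℝ)) / p := by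
    have h4 : (i : ℝ) * ∑ p ∈ R, 1 / (p : ℝ) =
        ∑ p ∈ PW D z x, if p ∈ R then (i : ℝ) * (1 / (p : ℝ)) else 0 := by
      rw [← sum_filter, mul_sum]
      have h5 : (PW D z x).filter (fun p => p ∈ R) = R := by
        ext p
        constructor
        · intro h
          exact (mem_filter.mp h).2
        · intro h
          exact mem_filter.mpr ⟨hRP h, h⟩
      rw [h5]
    rw [h4, mul_sum, ← sum_add_distrib]
    apply sum_le_sum
    intro p hp
    obtain ⟨-, -, g1, g2⟩ := hT p hp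
    have g3 : (∑ s ∈ T p, (1 : ℝ)) = ((T p).card : ℝ) := by
      rw [sum_const, nsmul_eq_mul, mul_one]
    rw [g3]
    by_cases hpR : p ∈ R
    · rw [if_pos hpR]
      have hpR' := mem_filter.mp hpR
      have g4 : (j : ℝ) + i ≤ ((T p).card : ℝ) := by exact_mod_cast g2 hpR'.1 hpR'.2
      calc (j : ℝ) * (1 / (p : ℝ)) + i * (1 / (p : ℝ)) = ((j : ℝ) + i) / p := by ring
        _ ≤ _ := div_le_div_of_nonneg_right g4 (Nat.cast_nonneg _)
    · rw [if_neg hpR, add_zero]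
      have g4 : (j : ℝ) ≤ ((T p).card : ℝ) := by exact_mod_cast g1
      calc (j : ℝ) * (1 / (p : ℝ)) = (j : ℝ) / p := by ring
        _ ≤ _ := div_le_div_of_nonneg_right g4 (Nat.cast_nonneg _)
  calc Real.exp (-∑ p ∈ PW D z x, (∑ s ∈ T p, (1 : ℝ)) / p) ≤
      Real.exp ((j : ℝ) * (-∑ p ∈ PW D z x, 1 / (p : ℝ)) + i * (-∑ p ∈ R, 1 / (p : ℝ))) := by
        apply Real.exp_le_exp.mpr
        linarith
    _ = Real.exp (-∑ p ∈ PW D z x, 1 / (p : ℝ)) ^ j * Real.exp (-∑ p ∈ R, 1 / (p : ℝ)) ^ i := by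
        rw [Real.exp_add, Real.exp_nat_mul, Real.exp_nat_mul]
    _ ≤ (C * (Real.log z / Real.log x)) ^ j * (C * (B * Real.log z / Real.log y)) ^ i := by
        apply mul_le_mul
        · exact pow_le_pow_left₀ (Real.exp_pos _).le hm1 j
        · exact pow_le_pow_left₀ (Real.exp_pos _).le (hm2 y hzy hyw) i
        · positivity
        · have := hm1
          have h7 : 0 ≤ C * (Real.log z / Real.log x) := le_trans (Real.exp_pos _).le hm1
          positivity

/-- the thresholds -/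
noncomputable def KS (κ : ℝ) (B z : ℕ) : Finset ℕ :=
  (range (z + 1)).filter fun k => z ^ (B * 2 ^ k) ≤ w1 κ z

theorem two_pow_le {κ : ℝ} {B z k : ℕ} (hκ : 0 < κ) (hB : 2 ≤ B) (hz : 16 ≤ z)
    (h : z ^ (B * 2 ^ k) ≤ w1 κ z) : 2 ^ k ≤ z := by
  have hz0 : (0 : ℝ) < z := by exact_mod_cast (by omega : 0 < z)
  have h1 : ((z ^ (B * 2 ^ k) : ℕ) : ℝ) ≤ Real.exp ((z : ℝ) ^ (1 - κ)) := by
    calc ((z ^ (B * 2 ^ k) : ℕ) : ℝ) ≤ (w1 κ z : ℝ) := by exact_mod_cast h
      _ ≤ _ := Nat.floor_le (Real.exp_pos _).le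
  have h2 := Real.log_le_log (by positivity) h1
  rw [Real.log_exp] at h2
  push_cast at h2
  rw [Real.log_pow] at h2
  push_cast at h2
  have h3 : (z : ℝ) ^ (1 - κ) ≤ z := by
    calc (z : ℝ) ^ (1 - κ) ≤ (z : ℝ) ^ (1 : ℝ) :=
          Real.rpow_le_rpow_of_exponent_le (by exact_mod_cast (by omega : 1 ≤ z)) (by linarith)
      _ = z := Real.rpow_one _
  have hlz : 1 ≤ Real.log z := by
    have h1 : (3 : ℝ) ≤ z := by exact_mod_cast (by omega : 3 ≤ z)
    have h2 : Real.exp 1 ≤ z := by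
      have := Real.exp_one_lt_d9
      linarith
    have := Real.log_le_log (Real.exp_pos _) h2
    rwa [Real.log_exp] at this
  have hB' : (1 : ℝ) ≤ B := by exact_mod_cast (by omega : 1 ≤ B)
  have h4 : (2 : ℝ) ^ k ≤ B * 2 ^ k * Real.log z := by
    have h5 : (0 : ℝ) < 2 ^ k := by positivity
    calc (2 : ℝ) ^ k = 1 * 2 ^ k * 1 := by ring
      _ ≤ B * 2 ^ k * Real.log z := by gcongr
  have h5 : (2 : ℝ) ^ k ≤ z := by linarith
  exact_mod_cast h5

open Classical in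
theorem log_lp_le {κ : ℝ} {B z : ℕ} (hκ : 0 < κ) (hB : 2 ≤ B) (hz : 16 ≤ z) (p0 m l : ℕ)
    (hl : IsLp (AA κ B z p0) m l) :
    Real.log l ≤ ∑ k ∈ KS κ B z, 2 ^ (k + 1) * (B * Real.log z) *
      (if ∀ p ∈ AA κ B z p0, p ≤ z ^ (B * 2 ^ k) → ¬ p ∣ m then (1 : ℝ) else 0) := by
  have hnn : ∀ k ∈ KS κ B z, (0 : ℝ) ≤ 2 ^ (k + 1) * (B * Real.log z) *
      (if ∀ p ∈ AA κ B z p0, p ≤ z ^ (B * 2 ^ k) → ¬ p ∣ m then (1 : ℝ) else 0) := by
    intro k _
    have : 0 ≤ Real.log z := Real.log_natCast_nonneg z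
    split_ifs <;> positivity
  rcases hl.1 with h1 | h1
  · rw [h1, Nat.cast_one, Real.log_one]
    exact sum_nonneg hnn
  · obtain ⟨g1, g2, -, g3, -⟩ := mem_AA hB h1
    have hlB : z ^ B < l := by
      unfold AA at h1
      rw [mem_erase, mem_filter, mem_Ioc] at h1
      exact h1.2.1.1
    have hex : ∃ j, l ≤ z ^ (B * 2 ^ j) := by
      refine ⟨l, ?_⟩
      have e1 : l ≤ B * 2 ^ l := by
        have := (Nat.lt_two_pow_self (n := l)).le
        calc l ≤ 2 ^ l := this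
          _ = 1 * 2 ^ l := (one_mul _).symm
          _ ≤ B * 2 ^ l := Nat.mul_le_mul_right _ (by omega)
      calc l ≤ 2 ^ l := (Nat.lt_two_pow_self (n := l)).le
        _ ≤ z ^ l := Nat.pow_le_pow_left (by omega) l
        _ ≤ z ^ (B * 2 ^ l) := Nat.pow_le_pow_right (by omega) e1
    set j := Nat.find hex with hj
    have hj1 : l ≤ z ^ (B * 2 ^ j) := Nat.find_spec hex
    have hj0 : j ≠ 0 := by
      intro h0
      rw [h0, pow_zero, mul_one] at hj1
      omega
    obtain ⟨k, hk⟩ := Nat.exists_eq_succ_of_ne_zero hj0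
    have hk1 : z ^ (B * 2 ^ k) < l := by
      have := Nat.find_min hex (m := k) (by omega)
      omega
    have hkw : z ^ (B * 2 ^ k) ≤ w1 κ z := by omega
    have hkz := two_pow_le hκ hB hz hkw
    have hkK : k ∈ KS κ B z := by
      unfold KS
      rw [mem_filter, mem_range]
      refine ⟨?_, hkw⟩
      have := Nat.lt_two_pow_self (n := k)
      omega
    refine le_trans ?_ (single_le_sum hnn hkK)
    rw [if_pos, mul_one]
    · have h2 : ((l : ℕ) : ℝ) ≤ (z : ℝ) ^ (B * 2 ^ (k + 1)) := by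
        rw [← Nat.succ_eq_add_one, ← hk]
        exact_mod_cast hj1
      have h3 := Real.log_le_log (by exact_mod_cast g1.pos) h2
      rw [Real.log_pow] at h3
      push_cast at h3
      linarith
    · intro p hp hpk hpm
      have := hl.2 p hp hpm
      omega

theorem sum_half (K : Finset ℕ) : ∑ k ∈ K, ((1 : ℝ) / 2) ^ k ≤ 2 := by
  have h1 : Summable fun k : ℕ => ((1 : ℝ) / 2) ^ k := summable_geometric_two
  calc ∑ k ∈ K, ((1 : ℝ) / 2) ^ k ≤ ∑' k : ℕ, ((1 : ℝ) / 2) ^ k :=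
        h1.sum_le_tsum K fun k _ => by positivity
    _ = 2 := tsum_geometric_two

/-- K1 -/
theorem K1_gen (hWS : Stmt_WS) : ∃ C : ℝ, 0 < C ∧ ∀ κ : ℝ, 0 < κ → κ ≤ 1 / 10 →
    ∀ B : ℕ, 2 ≤ B → ∃ z0 : ℕ, ∀ z : ℕ, z0 ≤ z → ∀ p0 : ℕ,
    ∀ x : ℕ, InR κ z x → ∀ v : ℕ → ℤ, (∀ p, v p ∈ sgn) → ∀ a : ℕ, ∀ S : Finset ℕ,
      (∀ n ∈ S, n ∈ Ioc x (2 * x) ∧ n ≡ a [MOD qq z p0] ∧ SurvF v (AA κ B z p0) x n ∧
        (∀ p ∈ AA κ B z p0, ¬ p ∣ n)) → ∀ l : ℕ → ℕ,
      (∀ n ∈ S, IsLp (AA κ B z p0) (n ^ 2 - 1) (l n)) →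
      ∑ n ∈ S, Real.log (l n) ≤ C * (B * Real.log z) *
        (x * Real.log z / (qq z p0 * Real.log x)) := by
  classical
  obtain ⟨C, hC, D, hD2, hk⟩ := kcount hWS
  refine ⟨4 * C ^ 4, by positivity, ?_⟩
  intro κ hκ hκ1 B hB
  obtain ⟨z0, hz016, hz0⟩ := hk κ hκ hκ1 B hB
  refine ⟨z0, ?_⟩
  intro z hz p0 x hx v hv a S hS l hl
  obtain ⟨hAP, hWW, hlx, hcount⟩ := hz0 z hz x hx p0
  set A : Finset ℕ := AA κ B z p0 with hA
  set q : ℕ := qq z p0 with hq
  have hz16 : 16 ≤ z := le_trans hz016 hz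
  have hlz : 0 < Real.log z := Real.log_pos (by exact_mod_cast (by omega : 1 < z))
  have hqpos : (0 : ℝ) < q := by exact_mod_cast qq_pos z p0
  have hBpos : (0 : ℝ) < B := by exact_mod_cast (by omega : 0 < B)
  have hsg : ∀ s ∈ sgn, -3 ≤ s ∧ s ≤ 3 := by
    intro s hs
    unfold sgn at hs
    rw [mem_insert, mem_insert, mem_singleton] at hs
    omega
  -- one threshold
  have hone : ∀ k ∈ KS κ B z,
      (((S.filter fun n => ∀ p ∈ A, p ≤ z ^ (B * 2 ^ k) → ¬ p ∣ n ^ 2 - 1).card : ℕ) : ℝ) ≤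
        C ^ 4 * (x * Real.log z / (q * Real.log x)) * ((1 / 2) ^ k * (1 / 2) ^ k) := by
    intro k hk'
    unfold KS at hk'
    rw [mem_filter] at hk'
    set y : ℕ := z ^ (B * 2 ^ k) with hy
    have hzy : z ^ B ≤ y := by
      apply Nat.pow_le_pow_right (by omega)
      exact Nat.le_mul_of_pos_right B (by positivity)
    set T : ℕ → Finset ℤ := fun p => if p ∈ A ∧ p ≤ y then sgn else if p ∈ A then {0} else {v p}
      with hT
    have h1 := hcount a 2 1 y hzy hk'.2 T (fun p hp => by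
      by_cases hpR : p ∈ A ∧ p ≤ y
      · have e1 : T p = sgn := by rw [hT]; simp only [hpR, if_true, and_self]
        rw [e1]
        exact ⟨by decide, hsg, by decide, fun _ _ => by decide⟩
      · by_cases hpA : p ∈ A
        · have e1 : T p = {0} := by
            rw [hT]
            show (if p ∈ A ∧ p ≤ y then sgn else if p ∈ A then {0} else {v p}) = _
            rw [if_neg hpR, if_pos hpA]
          rw [e1]
          exact ⟨by simp, by simp, by simp, fun _ h => absurd ⟨hpA, h⟩ hpR⟩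
        · have e1 : T p = {v p} := by
            rw [hT]
            show (if p ∈ A ∧ p ≤ y then sgn else if p ∈ A then {0} else {v p}) = _
            rw [if_neg hpR, if_neg hpA]
          rw [e1]
          refine ⟨by simp, ?_, by simp, fun h => absurd h hpA⟩
          intro s hs
          rw [mem_singleton] at hs
          rw [hs]
          exact hsg _ (hv p))
      (S.filter fun n => ∀ p ∈ A, p ≤ y → ¬ p ∣ n ^ 2 - 1) (fun n hn => by
        rw [mem_filter] at hn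
        obtain ⟨hn0, hn4⟩ := hn
        obtain ⟨hn1, hn1', hn2, hn3⟩ := hS n hn0
        refine ⟨hn1, hn1', ?_⟩
        intro p hp s hs hcl
        rw [mem_Ioc] at hn1
        rw [mem_PW] at hp
        have h0 : cl p 0 n → p ∣ n := by
          intro h
          unfold cl at h
          rw [sub_zero] at h
          exact_mod_cast h
        by_cases hpR : p ∈ A ∧ p ≤ y
        · have e1 : T p = sgn := by rw [hT]; simp only [hpR, if_true, and_self]
          rw [e1] at hs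
          unfold sgn at hs
          rw [mem_insert, mem_insert, mem_singleton] at hs
          have hn0 : 1 ≤ n ^ 2 := Nat.one_le_pow _ _ (by omega)
          have hfac : ((n ^ 2 - 1 : ℕ) : ℤ) = (n - 1) * (n - (-1)) := by
            rw [Nat.cast_sub hn0]; push_cast; ring
          rcases hs with rfl | rfl | rfl
          · apply hn4 p hpR.1 hpR.2
            rw [← Int.natCast_dvd_natCast, hfac]
            exact Dvd.dvd.mul_left hcl _
          · exact hn3 p hpR.1 (h0 hcl)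
          · apply hn4 p hpR.1 hpR.2
            rw [← Int.natCast_dvd_natCast, hfac]
            exact Dvd.dvd.mul_right hcl _
        · by_cases hpA : p ∈ A
          · have e1 : T p = {0} := by
              rw [hT]
              show (if p ∈ A ∧ p ≤ y then sgn else if p ∈ A then {0} else {v p}) = _
              rw [if_neg hpR, if_pos hpA]
            rw [e1, mem_singleton] at hs
            rw [hs] at hcl
            exact hn3 p hpA (h0 hcl)
          · have e1 : T p = {v p} := by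
              rw [hT]
              show (if p ∈ A ∧ p ≤ y then sgn else if p ∈ A then {0} else {v p}) = _
              rw [if_neg hpR, if_neg hpA]
            rw [e1, mem_singleton] at hs
            rw [hs] at hcl
            exact hn2 p hp.2 (le_trans (Nat.mul_le_mul hp.1.2 hp.1.2) hWW) hpA hcl)
    refine h1.trans (le_of_eq ?_)
    have e2 : Real.log (y : ℝ) = B * 2 ^ k * Real.log z := by
      rw [hy]; push_cast; rw [Real.log_pow]; push_cast; ring
    have e3 : (B : ℝ) * Real.log z / Real.log y = (1 / 2) ^ k := by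
      rw [e2, one_div, inv_pow]
      field_simp
    rw [e3]
    field_simp
  calc ∑ n ∈ S, Real.log (l n) ≤ ∑ n ∈ S, ∑ k ∈ KS κ B z, 2 ^ (k + 1) * (B * Real.log z) *
      (if ∀ p ∈ A, p ≤ z ^ (B * 2 ^ k) → ¬ p ∣ n ^ 2 - 1 then (1 : ℝ) else 0) :=
        sum_le_sum fun n hn => log_lp_le hκ hB hz16 p0 _ _ (hl n hn)
    _ = ∑ k ∈ KS κ B z, 2 ^ (k + 1) * (B * Real.log z) *
        (((S.filter fun n => ∀ p ∈ A, p ≤ z ^ (B * 2 ^ k) → ¬ p ∣ n ^ 2 - 1).card : ℕ) : ℝ) := by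
        rw [sum_comm]
        apply sum_congr rfl
        intro k _
        rw [← mul_sum, sum_boole]
    _ ≤ ∑ k ∈ KS κ B z, 2 ^ (k + 1) * (B * Real.log z) *
        (C ^ 4 * (x * Real.log z / (q * Real.log x)) * ((1 / 2) ^ k * (1 / 2) ^ k)) := by
        apply sum_le_sum
        intro k hk'
        exact mul_le_mul_of_nonneg_left (hone k hk') (by positivity)
    _ = 2 * C ^ 4 * (B * Real.log z) * (x * Real.log z / (q * Real.log x)) *
        ∑ k ∈ KS κ B z, ((1 : ℝ) / 2) ^ k := by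
        rw [mul_sum]
        apply sum_congr rfl
        intro k _
        have e4 : (2 : ℝ) ^ k * (1 / 2) ^ k = 1 := by
          rw [← mul_pow]; norm_num
        calc (2 : ℝ) ^ (k + 1) * (B * Real.log z) *
            (C ^ 4 * (x * Real.log z / (q * Real.log x)) * ((1 / 2) ^ k * (1 / 2) ^ k)) =
            2 * ((2 : ℝ) ^ k * (1 / 2) ^ k) * (C ^ 4 * (B * Real.log z) *
              (x * Real.log z / (q * Real.log x)) * (1 / 2) ^ k) := by ring
          _ = _ := by rw [e4]; ring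
    _ ≤ 2 * C ^ 4 * (B * Real.log z) * (x * Real.log z / (q * Real.log x)) * 2 := by
        apply mul_le_mul_of_nonneg_left (sum_half _)
        positivity
    _ = _ := by ring

end Pool.Agent.Work.MP_b0c12c_nt_shift
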