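import Pool.Agent.Work.MP_b0c12c_nt_sparse.Interface
import Pool.Agent.Work.MP_b0c12c_nt_sparse.K123

/-! Blocks K1, K2, K3 of the sparse theorem. -/

set_option autoImplicit false

namespace Pool.Agent.Work.MP_b0c12c_nt_sparse

open Finset
open Pool.Agent.Work.MP_b0c12c_nt_shift

theorem lp_isLp (A : Finset ℕ) (m : ℕ) : IsLp A m (lp A m) := by
  unfold lp
  by_cases h : (A.filter (· ∣ m)).Nonempty
  · rw [dif_pos h]
    refine ⟨Or.inr (mem_filter.mp (min'_mem _ h)).1, ?_⟩
    intro p hp hpm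
    exact min'_le _ _ (mem_filter.mpr ⟨hp, hpm⟩)
  · rw [dif_neg h]
    refine ⟨Or.inl rfl, ?_⟩
    intro p hp hpm
    exact absurd ⟨p, mem_filter.mpr ⟨hp, hpm⟩⟩ h

theorem stmt_K1 (hWS : Stmt_WS) : Stmt_K1 := by
  obtain ⟨C, hC, h⟩ := K1_gen hWS
  refine ⟨C, hC, ?_⟩
  intro κ hκ hκ1 B hB
  obtain ⟨z0, hz0⟩ := h κ hκ (by linarith) B hB
  refine ⟨z0, ?_⟩
  intro z hz x hx v hv a S hS
  exact hz0 z hz 0 x hx v hv a S hS _ fun n _ => lp_isLp _ _

theorem stmt_K2 (hWS : Stmt_WS) : Stmt_K2 := by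
  classical
  obtain ⟨C, hC, D, hD2, hk⟩ := ktools hWS
  refine ⟨C * C, by positivity, ?_⟩
  intro κ hκ hκ1 B hB
  obtain ⟨z0, hz016, hz0⟩ := hk κ hκ (by linarith) B hB
  refine ⟨z0, ?_⟩
  intro z hz x hx v hv e m he hm a S hS
  obtain ⟨hAP, hWW, hlx, hsieve, hm1, -⟩ := hz0 z hz x hx 0
  set A : Finset ℕ := AA κ B z 0 with hA
  set q : ℕ := qq z 0 with hq
  have hqpos : (0 : ℝ) < q := by exact_mod_cast qq_pos z 0
  set T : ℕ → Finset ℤ := fun p => if p ∈ A then {0} else {v p} with hT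
  set w : ℕ → ℤ → ℝ := fun p _ => if p ∈ A then 1 - e p else 1 with hw
  have hsg : ∀ s ∈ sgn, -3 ≤ s ∧ s ≤ 3 := by
    intro s hs
    unfold sgn at hs
    rw [mem_insert, mem_insert, mem_singleton] at hs
    omega
  have hTA : ∀ p, p ∈ A → T p = {0} := fun p hp => if_pos hp
  have hTn : ∀ p, p ∉ A → T p = {v p} := fun p hp => if_neg hp
  have hwA : ∀ p s, p ∈ A → w p s = 1 - e p := fun p s hp => if_pos hp
  have hwn : ∀ p s, p ∉ A → w p s = 1 := fun p s hp => if_neg hp
  have h1 := hsieve a T w (fun p hp => by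
    by_cases hpA : p ∈ A
    · rw [hTA p hpA]
      refine ⟨by simp, fun s hs => ?_⟩
      rw [mem_singleton] at hs
      rw [hs, hwA p 0 hpA]
      have := he p hpA
      exact ⟨by norm_num, by norm_num, by linarith, by linarith⟩
    · rw [hTn p hpA]
      refine ⟨by simp, fun s hs => ?_⟩
      rw [mem_singleton] at hs
      rw [hs, hwn p (v p) hpA]
      exact ⟨(hsg _ (hv p)).1, (hsg _ (hv p)).2, by norm_num, le_rfl⟩)
    S (fun n hn => ⟨(hS n hn).1, (hS n hn).2.1⟩)
  have h2 : ∑ n ∈ S, VV e A n = ∑ n ∈ S, ∏ p ∈ PW D z x, lw T w p n := by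
    apply sum_congr rfl
    intro n hn
    rw [← prod_sdiff hAP]
    have h3 : ∏ p ∈ PW D z x \ A, lw T w p n = 1 := by
      apply prod_eq_one
      intro p hp
      rw [mem_sdiff, mem_PW] at hp
      obtain ⟨hpP, hpA⟩ := hp
      unfold lw
      rw [hTn p hpA, sum_singleton, if_neg, sub_zero]
      exact (hS n hn).2.2 p hpP.2 (le_trans (Nat.mul_le_mul hpP.1.2 hpP.1.2) hWW) hpA
    rw [h3, one_mul]
    unfold VV
    apply prod_congr rfl
    intro p hp
    unfold lw
    rw [hTA p hp, sum_singleton, hwA p 0 hp]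
    have h4 : cl p 0 n ↔ p ∣ n := by
      unfold cl
      rw [sub_zero]
      exact Int.natCast_dvd_natCast
    by_cases h5 : p ∣ n
    · rw [if_pos h5, if_pos (h4.mpr h5)]; ring
    · rw [if_neg h5, if_neg (fun h => h5 (h4.mp h))]; ring
  rw [h2]
  refine h1.trans ?_
  have h3 : ∑ p ∈ PW D z x, 1 / (p : ℝ) - m ≤ ∑ p ∈ PW D z x, (∑ s ∈ T p, w p s) / p := by
    have h4 : ∑ p ∈ A, e p / (p : ℝ) = ∑ p ∈ PW D z x, if p ∈ A then e p / (p : ℝ) else 0 := by
      rw [← sum_filter]
      have h5 : (PW D z x).filter (fun p => p ∈ A) = A := by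
        ext p
        constructor
        · intro h
          exact (mem_filter.mp h).2
        · intro h
          exact mem_filter.mpr ⟨hAP h, h⟩
      rw [h5]
    have h5 : ∑ p ∈ PW D z x, 1 / (p : ℝ) - ∑ p ∈ A, e p / (p : ℝ) =
        ∑ p ∈ PW D z x, (∑ s ∈ T p, w p s) / p := by
      rw [h4, ← sum_sub_distrib]
      apply sum_congr rfl
      intro p _
      by_cases hpA : p ∈ A
      · rw [if_pos hpA, hTA p hpA, sum_singleton, hwA p 0 hpA]; ring
      · rw [if_neg hpA, hTn p hpA, sum_singleton, hwn p (v p) hpA]; ring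
    linarith
  have h4 : Real.exp (-∑ p ∈ PW D z x, (∑ s ∈ T p, w p s) / p) ≤
      C * (Real.log z / Real.log x) * Real.exp m := by
    calc Real.exp (-∑ p ∈ PW D z x, (∑ s ∈ T p, w p s) / p) ≤
        Real.exp (-∑ p ∈ PW D z x, 1 / (p : ℝ) + m) := by
          apply Real.exp_le_exp.mpr
          linarith
      _ = Real.exp (-∑ p ∈ PW D z x, 1 / (p : ℝ)) * Real.exp m := Real.exp_add _ _
      _ ≤ _ := mul_le_mul_of_nonneg_right hm1 (Real.exp_pos _).le
  calc C * ((x : ℝ) / q) * Real.exp (-∑ p ∈ PW D z x, (∑ s ∈ T p, w p s) / p) ≤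
      C * ((x : ℝ) / q) * (C * (Real.log z / Real.log x) * Real.exp m) := by gcongr
    _ = _ := by field_simp

theorem card_KS {κ : ℝ} {B z : ℕ} (hκ : 0 < κ) (hB : 2 ≤ B) (hz : 16 ≤ z) :
    ((KS κ B z).card : ℝ) ≤ 2 * Real.log z := by
  have hl2 := Real.log_two_gt_d9
  have hl2' := Real.log_two_lt_d9
  have hlz : 4 * Real.log 2 ≤ Real.log z := by
    have h1 : Real.log ((2 : ℝ) ^ 4) ≤ Real.log z := by
      apply Real.log_le_log (by norm_num)
      have : (16 : ℝ) ≤ z := by exact_mod_cast hz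
      norm_num
      linarith
    rw [Real.log_pow] at h1
    push_cast at h1
    exact h1
  have hsub : KS κ B z ⊆ range (⌊Real.log z / Real.log 2⌋₊ + 1) := by
    intro k hk
    unfold KS at hk
    rw [mem_filter] at hk
    have h1 := two_pow_le hκ hB hz hk.2
    rw [mem_range, Nat.lt_add_one_iff]
    apply Nat.le_floor
    rw [le_div_iff₀ (by linarith)]
    have h2 : Real.log ((2 : ℝ) ^ k) ≤ Real.log z := by
      apply Real.log_le_log (by positivity)
      exact_mod_cast h1
    rwa [Real.log_pow] at h2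
  have h1 : ((KS κ B z).card : ℝ) ≤ (⌊Real.log z / Real.log 2⌋₊ : ℝ) + 1 := by
    have := card_le_card hsub
    rw [card_range] at this
    exact_mod_cast this
  have h2 : (⌊Real.log z / Real.log 2⌋₊ : ℝ) ≤ Real.log z / Real.log 2 :=
    Nat.floor_le (by positivity)
  have h3 : Real.log z / Real.log 2 ≤ 3 / 2 * Real.log z := by
    rw [div_le_iff₀ (by linarith)]
    nlinarith
  linarith

/-- one kind of killers of twins -/
theorem K3_gen (hWS : Stmt_WS) : ∃ C : ℝ, 0 < C ∧ ∀ κ : ℝ, 0 < κ → κ ≤ 1 / 50 →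
    ∀ B : ℕ, 2 ≤ B → ∃ z0 : ℕ, ∀ z : ℕ, z0 ≤ z →
    ∀ x : ℕ, InR κ z x → ∀ v : ℕ → ℤ, (∀ p, v p ∈ sgn) → ∀ a : ℕ, ∀ S : Finset ℕ,
      (∀ n ∈ S, n ∈ Ioc x (2 * x) ∧ n ≡ a [MOD qq z 0] ∧ SurvF v (AA κ B z 0) x n ∧
        SurvF v (AA κ B z 0) x (n + 2) ∧ ∀ p ∈ AA κ B z 0, ¬ p ∣ n ∧ ¬ p ∣ n + 2) →
      ∀ (s0 : ℤ) (g : ℕ → ℕ), (s0 = 1 ∨ s0 = -3) →
      (∀ n ∈ S, ∀ p : ℕ, cl p s0 n → p ∣ g n) →
      ∑ n ∈ S, Real.log (lp (AA κ B z 0) (g n)) ≤
        C * B * Real.log z ^ 4 * (x / (qq z 0 * Real.log x ^ 2)) := by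
  classical
  obtain ⟨C, hC, D, hD2, hk⟩ := kcount hWS
  refine ⟨4 * C ^ 4, by positivity, ?_⟩
  intro κ hκ hκ1 B hB
  obtain ⟨z0, hz016, hz0⟩ := hk κ hκ (by linarith) B hB
  refine ⟨z0, ?_⟩
  intro z hz x hx v hv a S hS s0 g hs0 hg
  obtain ⟨hAP, hWW, hlx, hcount⟩ := hz0 z hz x hx 0
  set A : Finset ℕ := AA κ B z 0 with hA
  set q : ℕ := qq z 0 with hq
  have hz16 : 16 ≤ z := le_trans hz016 hz
  have hlz : 0 < Real.log z := Real.log_pos (by exact_mod_cast (by omega : 1 < z))
  have hqpos : (0 : ℝ) < q := by exact_mod_cast qq_pos z 0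
  have hBpos : (0 : ℝ) < B := by exact_mod_cast (by omega : 0 < B)
  have hsg : ∀ s ∈ sgn, -1 ≤ s ∧ s ≤ 1 := by
    intro s hs
    unfold sgn at hs
    rw [mem_insert, mem_insert, mem_singleton] at hs
    omega
  -- one threshold
  have hone : ∀ k ∈ KS κ B z,
      (((S.filter fun n => ∀ p ∈ A, p ≤ z ^ (B * 2 ^ k) → ¬ p ∣ g n).card : ℕ) : ℝ) ≤
        C ^ 4 * (x * Real.log z ^ 2 / (q * Real.log x ^ 2)) * (1 / 2) ^ k := by
    intro k hk'
    unfold KS at hk'
    rw [mem_filter] at hk'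
    set y : ℕ := z ^ (B * 2 ^ k) with hy
    have hzy : z ^ B ≤ y := by
      apply Nat.pow_le_pow_right (by omega)
      exact Nat.le_mul_of_pos_right B (by positivity)
    set T : ℕ → Finset ℤ := fun p => if p ∈ A ∧ p ≤ y then {0, -2, s0} else
      if p ∈ A then {0, -2} else {v p, v p - 2} with hT
    have hT1 : ∀ p, p ∈ A ∧ p ≤ y → T p = {0, -2, s0} := fun p hp => if_pos hp
    have hT2 : ∀ p, ¬ (p ∈ A ∧ p ≤ y) → p ∈ A → T p = {0, -2} := fun p hp hpA => by
      rw [hT]
      show (if p ∈ A ∧ p ≤ y then ({0, -2, s0} : Finset ℤ) else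
        if p ∈ A then {0, -2} else {v p, v p - 2}) = _
      rw [if_neg hp, if_pos hpA]
    have hT3 : ∀ p, ¬ (p ∈ A ∧ p ≤ y) → p ∉ A → T p = {v p, v p - 2} := fun p hp hpA => by
      rw [hT]
      show (if p ∈ A ∧ p ≤ y then ({0, -2, s0} : Finset ℤ) else
        if p ∈ A then {0, -2} else {v p, v p - 2}) = _
      rw [if_neg hp, if_neg hpA]
    have h1 := hcount a 1 2 y hzy hk'.2 T (fun p hp => by
      by_cases hpR : p ∈ A ∧ p ≤ y
      · rw [hT1 p hpR]
        rcases hs0 with rfl | rfl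
        · refine ⟨by decide, ?_, by decide, fun _ _ => by decide⟩
          intro s hs
          rw [mem_insert, mem_insert, mem_singleton] at hs
          omega
        · refine ⟨by decide, ?_, by decide, fun _ _ => by decide⟩
          intro s hs
          rw [mem_insert, mem_insert, mem_singleton] at hs
          omega
      · by_cases hpA : p ∈ A
        · rw [hT2 p hpR hpA]
          refine ⟨by decide, ?_, by decide, fun _ h => absurd ⟨hpA, h⟩ hpR⟩
          intro s hs
          rw [mem_insert, mem_singleton] at hs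
          omega
        · rw [hT3 p hpR hpA]
          have hne : v p ≠ v p - 2 := by omega
          have hc : ({v p, v p - 2} : Finset ℤ).card = 2 := card_pair hne
          refine ⟨by omega, ?_, by omega, fun h => absurd h hpA⟩
          intro s hs
          rw [mem_insert, mem_singleton] at hs
          have := hsg _ (hv p)
          omega)
      (S.filter fun n => ∀ p ∈ A, p ≤ y → ¬ p ∣ g n) (fun n hn => by
        rw [mem_filter] at hn
        obtain ⟨hn0, hn4⟩ := hn
        obtain ⟨hn1, hn1', hn2, hn2', hn3⟩ := hS n hn0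
        refine ⟨hn1, hn1', ?_⟩
        intro p hp s hs hcl
        rw [mem_PW] at hp
        have h0 : cl p 0 n → p ∣ n := by
          intro h
          unfold cl at h
          rw [sub_zero] at h
          exact_mod_cast h
        have h2 : cl p (-2) n → p ∣ n + 2 := by
          intro h
          unfold cl at h
          rw [sub_neg_eq_add] at h
          exact_mod_cast h
        by_cases hpR : p ∈ A ∧ p ≤ y
        · rw [hT1 p hpR, mem_insert, mem_insert, mem_singleton] at hs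
          rcases hs with h | h | h
          · rw [h] at hcl
            exact (hn3 p hpR.1).1 (h0 hcl)
          · rw [h] at hcl
            exact (hn3 p hpR.1).2 (h2 hcl)
          · rw [h] at hcl
            exact hn4 p hpR.1 hpR.2 (hg n hn0 p hcl)
        · by_cases hpA : p ∈ A
          · rw [hT2 p hpR hpA, mem_insert, mem_singleton] at hs
            rcases hs with h | h
            · rw [h] at hcl
              exact (hn3 p hpA).1 (h0 hcl)
            · rw [h] at hcl
              exact (hn3 p hpA).2 (h2 hcl)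
          · rw [hT3 p hpR hpA, mem_insert, mem_singleton] at hs
            have hpp : p * p ≤ x := le_trans (Nat.mul_le_mul hp.1.2 hp.1.2) hWW
            rcases hs with h | h
            · rw [h] at hcl
              exact hn2 p hp.2 hpp hpA hcl
            · rw [h] at hcl
              apply hn2' p hp.2 hpp hpA
              unfold cl at hcl
              have e : ((n + 2 : ℕ) : ℤ) - v p = (n : ℤ) - (v p - 2) := by push_cast; ring
              rw [e]
              exact hcl)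
    refine h1.trans (le_of_eq ?_)
    have e2 : Real.log (y : ℝ) = B * 2 ^ k * Real.log z := by
      rw [hy]; push_cast; rw [Real.log_pow]; push_cast; ring
    have e3 : (B : ℝ) * Real.log z / Real.log y = (1 / 2) ^ k := by
      rw [e2, one_div, inv_pow]
      field_simp
    rw [e3]
    field_simp
  calc ∑ n ∈ S, Real.log (lp A (g n)) ≤ ∑ n ∈ S, ∑ k ∈ KS κ B z, 2 ^ (k + 1) * (B * Real.log z) *
      (if ∀ p ∈ A, p ≤ z ^ (B * 2 ^ k) → ¬ p ∣ g n then (1 : ℝ) else 0) :=
        sum_le_sum fun n hn => log_lp_le hκ hB hz16 0 _ _ (lp_isLp _ _)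
    _ = ∑ k ∈ KS κ B z, 2 ^ (k + 1) * (B * Real.log z) *
        (((S.filter fun n => ∀ p ∈ A, p ≤ z ^ (B * 2 ^ k) → ¬ p ∣ g n).card : ℕ) : ℝ) := by
        rw [sum_comm]
        apply sum_congr rfl
        intro k _
        rw [← mul_sum, sum_boole]
    _ ≤ ∑ k ∈ KS κ B z, 2 ^ (k + 1) * (B * Real.log z) *
        (C ^ 4 * (x * Real.log z ^ 2 / (q * Real.log x ^ 2)) * (1 / 2) ^ k) := by
        apply sum_le_sum
        intro k hk'
        exact mul_le_mul_of_nonneg_left (hone k hk') (by positivity)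
    _ = 2 * C ^ 4 * (B * Real.log z) * (x * Real.log z ^ 2 / (q * Real.log x ^ 2)) *
        (KS κ B z).card := by
        have e5 : 2 * C ^ 4 * (B * Real.log z) * (x * Real.log z ^ 2 / (q * Real.log x ^ 2)) *
            (KS κ B z).card = ∑ k ∈ KS κ B z,
              2 * C ^ 4 * (B * Real.log z) * (x * Real.log z ^ 2 / (q * Real.log x ^ 2)) := by
          rw [sum_const, nsmul_eq_mul]; ring
        rw [e5]
        apply sum_congr rfl
        intro k _
        have e4 : (2 : ℝ) ^ k * (1 / 2) ^ k = 1 := by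
          rw [← mul_pow]; norm_num
        calc (2 : ℝ) ^ (k + 1) * (B * Real.log z) *
            (C ^ 4 * (x * Real.log z ^ 2 / (q * Real.log x ^ 2)) * (1 / 2) ^ k) =
            2 * ((2 : ℝ) ^ k * (1 / 2) ^ k) * (C ^ 4 * (B * Real.log z) *
              (x * Real.log z ^ 2 / (q * Real.log x ^ 2))) := by ring
          _ = _ := by rw [e4]; ring
    _ ≤ 2 * C ^ 4 * (B * Real.log z) * (x * Real.log z ^ 2 / (q * Real.log x ^ 2)) *
        (2 * Real.log z) := by
        apply mul_le_mul_of_nonneg_left (card_KS hκ hB hz16)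
        positivity
    _ = _ := by ring

theorem stmt_K3 (hWS : Stmt_WS) : Stmt_K3 := by
  obtain ⟨C, hC, h⟩ := K3_gen hWS
  refine ⟨2 * C, by positivity, ?_⟩
  intro κ hκ hκ1 B hB
  obtain ⟨z0, hz0⟩ := h κ hκ hκ1 B hB
  refine ⟨z0, ?_⟩
  intro z hz x hx v hv a S hS
  have h1 := hz0 z hz x hx v hv a S hS 1 (fun n => n - 1) (Or.inl rfl) (fun n hn p hcl => by
    obtain ⟨hn1, -⟩ := hS n hn
    rw [mem_Ioc] at hn1
    unfold cl at hcl
    rw [← Int.natCast_dvd_natCast, Nat.cast_sub (by omega)]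
    push_cast
    exact hcl)
  have h2 := hz0 z hz x hx v hv a S hS (-3) (fun n => n + 3) (Or.inr rfl) (fun n hn p hcl => by
    unfold cl at hcl
    rw [← Int.natCast_dvd_natCast]
    push_cast
    rw [sub_neg_eq_add] at hcl
    exact hcl)
  rw [sum_add_distrib]
  linarith

end Pool.Agent.Work.MP_b0c12c_nt_sparse
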