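import Pool.Agent.Work.MP_b0c12c_nt_sparse.V3

/-!
# Block KR: properties of the designated killers
-/

set_option autoImplicit false

namespace Pool.Agent.Work.MP_b0c12c_nt_sparse

open Finset
open Pool.Agent.Work.MP_b0c12c_nt_shift
open Pool.Agent.Work.MP_b0c12c_nt_shift.CL (dvd_nat_sub dvd_nat_add)

namespace KR

open CLS

variable {π : ℕ → ℤ → ℝ} {c : ℕ → ℝ} {A S : Finset ℕ}

/-- a free integer has exactly one designated killer -/
theorem free_single (π : ℕ → ℤ → ℝ) (c : ℕ → ℝ) {n : ℕ} (hf : Fr A n) :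
    ∃ p : ℕ, TT A S n = {p} ∧ cc π c A S n = c p ∧ (ss A S n = 1 ∨ ss A S n = -1) := by
  classical
  have h1 : ¬ ∃ p ∈ A, p ∣ n := fun ⟨p, hp, hd⟩ => hf p hp hd
  by_cases h2 : Tw A S n
  · refine ⟨lp A (n - 1), ?_, ?_, ?_⟩
    · unfold TT; rw [if_neg h1, if_pos h2]
    · unfold cc; rw [if_neg h1, if_pos h2]
    · left; unfold ss; rw [if_neg h1, if_pos h2]
  by_cases h4 : ∃ m, Tw A S m ∧ m + 2 = n
  · refine ⟨lp A (n + 1), ?_, ?_, ?_⟩
    · unfold TT; rw [if_neg h1, if_neg h2, if_pos h4]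
    · unfold cc; rw [if_neg h1, if_neg h2, if_pos h4]
    · right; unfold ss; rw [if_neg h1, if_neg h2, if_pos h4]
  · refine ⟨lp A (n ^ 2 - 1), ?_, ?_, ?_⟩
    · unfold TT; rw [if_neg h1, if_neg h2, if_neg h4]
    · unfold cc; rw [if_neg h1, if_neg h2, if_neg h4]
    · unfold ss; rw [if_neg h1, if_neg h2, if_neg h4]
      split_ifs
      · exact Or.inl rfl
      · exact Or.inr rfl

theorem cc_nonneg (hπ : ∀ p s, 0 ≤ π p s) (hc : ∀ p ∈ A, 0 ≤ c p) (hk : HasKillers A S)
    (hpr : ∀ p ∈ A, p.Prime) {n : ℕ} (hn : n ∈ S) (hn0 : 0 < n) : 0 ≤ cc π c A S n := by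
  classical
  by_cases h1 : ∃ p ∈ A, p ∣ n
  · unfold cc
    rw [if_pos h1]
    have : 0 ≤ VV (ep π) A n := by
      unfold VV
      apply prod_nonneg
      intro p _
      split_ifs
      · exact add_nonneg (hπ _ _) (hπ _ _)
      · exact zero_le_one
    linarith
  · have hf : Fr A n := fun p hp hd => h1 ⟨p, hp, hd⟩
    obtain ⟨p, e1, e2, -⟩ := free_single (S := S) π c hf
    rw [e2]
    have := (TT_spec hk hpr hn hn0).1
    rw [e1] at this
    exact hc p (this (mem_singleton_self p))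

/-- designated primes of different survivors are different -/
theorem TT_disj {x U N : ℕ} (hA : ∀ p ∈ A, p.Prime ∧ U + 6 < p ∧ p * p ≤ x)
    (hk : HasKillers A S)
    (hpos : ∀ n ∈ S, N + 1 < n ∧ n ≤ N + U ∧ (n - N) % 2 ≠ 0 ∧ (n - N) % 3 ≠ 0)
    {n n' p : ℕ} (hn : n ∈ S) (hn' : n' ∈ S) (hp1 : p ∈ TT A S n) (hp2 : p ∈ TT A S n') :
    n = n' := by
  classical
  by_contra hne
  have hpr : ∀ p ∈ A, p.Prime := fun p hp => (hA p hp).1
  have hn0 : ∀ n ∈ S, 0 < n := fun n hn => by have := (hpos n hn).1; omega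
  obtain ⟨hT, hTd⟩ := TT_spec hk hpr hn (hn0 n hn)
  obtain ⟨-, hTd'⟩ := TT_spec hk hpr hn' (hn0 n' hn')
  have hp := hT hp1
  have d1 := hTd p hp1
  have d2 := hTd' p hp2
  have g3 := dvd_sub d1 d2
  have g4 := (hA p hp).2.1
  obtain ⟨a1, a2, a3, a4⟩ := hpos n hn
  obtain ⟨b1, b2, b3, b4⟩ := hpos n' hn'
  have g1 : ss A S n = -1 ∨ ss A S n = 0 ∨ ss A S n = 1 := by
    have := ss_sgn (A := A) (S := S) n
    simpa [sgn] using this
  have g2 : ss A S n' = -1 ∨ ss A S n' = 0 ∨ ss A S n' = 1 := by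
    have := ss_sgn (A := A) (S := S) n'
    simpa [sgn] using this
  have g5 : (n : ℤ) - ss A S n - ((n' : ℤ) - ss A S n') = 0 := by
    apply Int.eq_zero_of_abs_lt_dvd g3
    rw [abs_lt]
    rcases g1 with g1 | g1 | g1 <;> rcases g2 with g2 | g2 | g2 <;> rw [g1, g2] <;> omega
  -- the twin case
  have twin : ∀ m m' : ℕ, m ∈ S → m' ∈ S → m' = m + 2 → ss A S m = -1 → ss A S m' = 1 →
      False := by
    intro m m' hm hm' he h1 h2
    have f1 : Fr A m := ss_zero (by rw [h1]; decide)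
    have f2 : Fr A m' := ss_zero (by rw [h2]; decide)
    rw [he] at f2 hm'
    have ht : Tw A S m := ⟨hm, hm', f1, f2⟩
    unfold ss at h1
    rw [if_neg (by rintro ⟨p, hp, hd⟩; exact f1 p hp hd), if_pos ht] at h1
    norm_num at h1
  rcases g1 with g1 | g1 | g1 <;> rcases g2 with g2 | g2 | g2 <;> rw [g1, g2] at g5
  · omega
  · omega
  · exact twin n n' hn hn' (by omega) g1 g2
  · omega
  · omega
  · omega
  · exact twin n' n hn' hn (by omega) g2 g1
  · omega
  · omega

end KR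

open CLS KR in
theorem stmt_KR : Stmt_KR := by
  classical
  intro π hπ A x U N v hx hN hv hA h2 h3 hk
  set S := Sur v A x U N with hS
  have h2A : 2 ∉ A := fun h => by have := (hA 2 h).2.1; omega
  have h3A : 3 ∉ A := fun h => by have := (hA 3 h).2.1; omega
  have hpr : ∀ p ∈ A, p.Prime := fun p hp => (hA p hp).1
  -- position of the survivors
  have hpos : ∀ n ∈ S, N + 1 < n ∧ n ≤ N + U ∧ (n - N) % 2 ≠ 0 ∧ (n - N) % 3 ≠ 0 := by
    intro n hn
    rw [hS] at hn
    unfold Sur at hn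
    rw [mem_filter, mem_Ioc] at hn
    obtain ⟨⟨ha, hb⟩, hS⟩ := hn
    refine ⟨ha, hb, ?_, ?_⟩
    · intro h
      apply hS 2 Nat.prime_two (by omega) h2A
      push_cast
      omega
    · intro h
      apply hS 3 Nat.prime_three (by omega) h3A
      push_cast
      omega
  have hn0 : ∀ n ∈ S, 0 < n := fun n hn => by have := (hpos n hn).1; omega
  have hdisj : ∀ {n n' p : ℕ}, n ∈ S → n' ∈ S → p ∈ TT A S n → p ∈ TT A S n' → n = n' :=
    fun {n n' p} a b c d => TT_disj hA hk hpos a b c d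
  -- the value of `wr`
  have hwr1 : ∀ n ∈ S, Fr A n → ∀ p ∈ TT A S n, wr A S p = ss A S n := by
    intro n hn hf p hp
    have hex : ∃ n ∈ S, Fr A n ∧ p ∈ TT A S n := ⟨n, hn, hf, hp⟩
    unfold wr
    rw [dif_pos hex]
    have hc := hex.choose_spec
    rw [hdisj hc.1 hn hc.2.2 hp]
  have hwr0 : ∀ n ∈ S, ∀ p ∈ A, p ∣ n → wr A S p = 0 := by
    intro n hn p hp hd
    unfold wr
    rw [dif_neg]
    rintro ⟨n', hn', hf, hp'⟩
    have hpT : p ∈ TT A S n := by
      unfold TT
      rw [if_pos ⟨p, hp, hd⟩]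
      exact mem_filter.2 ⟨hp, hd⟩
    have := hdisj hn hn' hpT hp'
    subst this
    exact hf p hp hd
  -- members of `Kr`
  have hKr : ∀ p ∈ Kr A S, ∃ n ∈ S, Fr A n ∧ TT A S n = {p} ∧ wr A S p = ss A S n ∧
      (ss A S n = 1 ∨ ss A S n = -1) ∧ cc π (fun p => Real.log p) A S n = Real.log p := by
    intro p hp
    unfold Kr at hp
    rw [mem_filter] at hp
    obtain ⟨hpA, hne⟩ := hp
    have hex : ∃ n ∈ S, Fr A n ∧ p ∈ TT A S n := by
      by_contra h
      apply hne
      unfold wr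
      rw [dif_neg h]
    obtain ⟨n, hn, hf, hpT⟩ := hex
    obtain ⟨q, e1, e2, e3⟩ := free_single (S := S) π (fun p : ℕ => Real.log p) hf
    have hq : p = q := by
      rw [e1] at hpT
      exact mem_singleton.1 hpT
    subst hq
    exact ⟨n, hn, hf, e1, hwr1 n hn hf p hpT, e3, e2⟩
  have hdvd : ∀ n ∈ S, ∀ p ∈ TT A S n, p ∈ Dset A U N := by
    intro n hn p hp
    obtain ⟨hT, hTd⟩ := TT_spec hk hpr hn (hn0 n hn)
    have d1 := hTd p hp
    simp only [Dset, mem_filter]
    refine ⟨hT hp, ?_⟩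
    obtain ⟨a1, a2, a3, a4⟩ := hpos n hn
    have g1 : ss A S n = -1 ∨ ss A S n = 0 ∨ ss A S n = 1 := by
      have := ss_sgn (A := A) (S := S) n
      simpa [sgn] using this
    rcases g1 with g1 | g1 | g1
    · refine ⟨n + 1, by rw [mem_Icc]; omega, ?_⟩
      rw [g1] at d1
      have e : (n : ℤ) - -1 = ((n + 1 : ℕ) : ℤ) := by push_cast; ring
      rw [e] at d1
      exact_mod_cast d1
    · refine ⟨n, by rw [mem_Icc]; omega, ?_⟩
      rw [g1, sub_zero] at d1
      exact_mod_cast d1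
    · refine ⟨n - 1, by rw [mem_Icc]; omega, ?_⟩
      rw [g1, dvd_nat_sub (hn0 n hn)] at d1
      exact d1
  refine ⟨?_, ?_, ?_, ?_, ?_⟩
  · -- the event implies `Emp`
    intro w hw1 hw2 n hn
    by_cases hsn : SurvF v A x n
    · have hnS : n ∈ S := by
        rw [hS]
        unfold Sur
        rw [mem_filter]
        exact ⟨hn, hsn⟩
      obtain ⟨hT, hTd⟩ := TT_spec hk hpr hnS (hn0 n hnS)
      by_cases hf : ∃ p ∈ A, p ∣ n
      · obtain ⟨p, hp, hd⟩ := hf
        have hpT : p ∈ TT A S n := by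
          unfold TT
          rw [if_pos ⟨p, hp, hd⟩]
          exact mem_filter.2 ⟨hp, hd⟩
        refine ⟨p, hpr p hp, (hA p hp).2.2, ?_⟩
        rw [hw2 p (hdvd n hnS p hpT), hwr0 n hnS p hp hd, sub_zero]
        exact_mod_cast hd
      · have hf' : Fr A n := fun p hp hd => hf ⟨p, hp, hd⟩
        obtain ⟨p, e1, -, -⟩ := free_single (S := S) π (fun p : ℕ => Real.log p) hf'
        have hpT : p ∈ TT A S n := by rw [e1]; exact mem_singleton_self p
        refine ⟨p, hpr p (hT hpT), (hA p (hT hpT)).2.2, ?_⟩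
        rw [hw2 p (hdvd n hnS p hpT), hwr1 n hnS hf' p hpT]
        exact hTd p hpT
    · unfold SurvF at hsn
      push Not at hsn
      obtain ⟨p, hp, hpx, hpA, hd⟩ := hsn
      exact ⟨p, hp, hpx, by rw [hw1 p hpA]; exact hd⟩
  · intro p
    unfold wr
    split_ifs
    · exact ss_sgn _
    · decide
  · intro p hp
    obtain ⟨n, hn, -, e1, -⟩ := hKr p hp
    exact hdvd n hn p (by rw [e1]; exact mem_singleton_self p)
  · -- the cost
    refine le_trans ?_ (sum_cc_le (π := π) (c := fun p : ℕ => Real.log p) (A := A) (S := S) ?_ hk)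
    · choose! nn h1 h2 h3 h4 h5 h6 using hKr
      have hinj : Set.InjOn nn (Kr A S : Finset ℕ) := by
        intro p hp q hq he
        have e1 := h3 p hp
        have e2 := h3 q hq
        rw [he, e2] at e1
        exact (singleton_injective e1).symm
      calc ∑ p ∈ Kr A S, Real.log p = ∑ p ∈ Kr A S, cc π (fun p : ℕ => Real.log p) A S (nn p) :=
            sum_congr rfl fun p hp => (h6 p hp).symm
        _ = ∑ n ∈ (Kr A S).image nn, cc π (fun p : ℕ => Real.log p) A S n :=
            (sum_image hinj).symm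
        _ ≤ ∑ n ∈ S, cc π (fun p : ℕ => Real.log p) A S n := by
            apply sum_le_sum_of_subset_of_nonneg
            · intro n hn
              rw [mem_image] at hn
              obtain ⟨p, hp, rfl⟩ := hn
              exact h1 p hp
            · intro n hn _
              exact cc_nonneg hπ (fun p hp => Real.log_nonneg
                (by exact_mod_cast (hpr p hp).one_le)) hk hpr hn (hn0 n hn)
    · intro p hp
      exact Real.log_nonneg (by exact_mod_cast (hpr p hp).one_le)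
  · -- the injection
    choose! nn h1 h2 h3 h4 h5 h6 using hKr
    refine ⟨nn, ?_, ?_⟩
    · intro p hp q hq he
      have e1 := h3 p hp
      have e2 := h3 q hq
      rw [he, e2] at e1
      exact (singleton_injective e1).symm
    · intro p hp
      refine ⟨h1 p hp, h2 p hp, ?_⟩
      have hpT : p ∈ TT A S (nn p) := by rw [h3 p hp]; exact mem_singleton_self p
      obtain ⟨hT, hTd⟩ := TT_spec hk hpr (h1 p hp) (hn0 _ (h1 p hp))
      have d1 := hTd p hpT
      have e : (nn p + 1) * (nn p - 1) = nn p ^ 2 - 1 := by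
        have := Nat.sq_sub_sq (nn p) 1
        simpa using this.symm
      rw [← e]
      rcases h5 p hp with h | h
      · rw [h, dvd_nat_sub (hn0 _ (h1 p hp))] at d1
        exact Dvd.dvd.mul_left d1 _
      · rw [h, dvd_nat_add] at d1
        exact Dvd.dvd.mul_right d1 _

end Pool.Agent.Work.MP_b0c12c_nt_sparse
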