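import Pool.Agent.Work.MP_b0c12c_nt_shift.WSCL

/-! Tools for the sparse theorem: the weighted sieve at level `W0`, and the masses. -/

set_option autoImplicit false

namespace Pool.Agent.Work.MP_b0c12c_nt_shift

open Finset

/-- the sieving primes -/
noncomputable def PW (D z x : ℕ) : Finset ℕ := (Ioc z (W0 D x)).filter Nat.Prime

theorem mem_PW {D z x p : ℕ} : p ∈ PW D z x ↔ (z < p ∧ p ≤ W0 D x) ∧ p.Prime := by
  unfold PW
  rw [mem_filter, mem_Ioc]

/-- The weighted sieve and the masses, for all parameters at once. `y` is a threshold. -/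
theorem ktools (hWS : Stmt_WS) : ∃ C : ℝ, 0 < C ∧ ∃ D : ℕ, 2 ≤ D ∧
    ∀ κ : ℝ, 0 < κ → κ ≤ 1 / 10 → ∀ B : ℕ, 2 ≤ B → ∃ z0 : ℕ, 16 ≤ z0 ∧ ∀ z : ℕ, z0 ≤ z →
    ∀ x : ℕ, InR κ z x → ∀ p0 : ℕ,
      AA κ B z p0 ⊆ PW D z x ∧ W0 D x * W0 D x ≤ x ∧ 0 < Real.log x ∧
      (∀ (a : ℕ) (T : ℕ → Finset ℤ) (w : ℕ → ℤ → ℝ),
        (∀ p ∈ PW D z x, (T p).card ≤ 3 ∧ ∀ s ∈ T p, -3 ≤ s ∧ s ≤ 3 ∧ 0 ≤ w p s ∧ w p s ≤ 1) →
        ∀ S : Finset ℕ, (∀ n ∈ S, n ∈ Ioc x (2 * x) ∧ n ≡ a [MOD qq z p0]) →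
          ∑ n ∈ S, ∏ p ∈ PW D z x, lw T w p n ≤
            C * (x / qq z p0) * Real.exp (-∑ p ∈ PW D z x, (∑ s ∈ T p, w p s) / p)) ∧
      Real.exp (-∑ p ∈ PW D z x, 1 / (p : ℝ)) ≤ C * (Real.log z / Real.log x) ∧
      (∀ y : ℕ, z ^ B ≤ y → y ≤ w1 κ z →
        Real.exp (-∑ p ∈ (AA κ B z p0).filter (fun p => p ≤ y), 1 / (p : ℝ)) ≤
          C * (B * Real.log z / Real.log y)) := by
  classical
  obtain ⟨C, hC, D, hD2, hws⟩ := ws_cl hWS
  obtain ⟨C2, hC2, hmer⟩ := Pool.Agent.Work.MP_b0c12c_nt_helper41.mertens2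
  have hD' : (2 : ℝ) ≤ D := by exact_mod_cast hD2
  refine ⟨C + Real.exp C2 * (4 * D) + Real.exp (C2 + 1), by positivity, D, hD2, ?_⟩
  intro κ hκ hκ1 B hB
  obtain ⟨zs, hzs16, hscale⟩ := scale D hD2 κ hκ
  refine ⟨zs, hzs16, ?_⟩
  intro z hz x hx p0
  obtain ⟨hw1, hWq, hW3, hWW, hlogW, hzW, hlx⟩ := hscale z hz x hx p0
  have hz16 : 16 ≤ z := le_trans hzs16 hz
  have hzB : z ^ 2 ≤ z ^ B := Nat.pow_le_pow_right (by omega) hB
  have hz2 : z ≤ z ^ 2 := Nat.le_self_pow (by norm_num) z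
  have hlz : 1 ≤ Real.log z := by
    have h1 : (3 : ℝ) ≤ z := by exact_mod_cast (by omega : 3 ≤ z)
    have h2 : Real.exp 1 ≤ z := by
      have := Real.exp_one_lt_d9
      linarith
    have := Real.log_le_log (Real.exp_pos _) h2
    rwa [Real.log_exp] at this
  have hlW : 0 < Real.log (W0 D x) := by
    refine lt_of_lt_of_le ?_ hlogW
    positivity
  refine ⟨?_, hWW, hlx, ?_, ?_, ?_⟩
  · intro p hp
    obtain ⟨h1, h2, -, h3, -⟩ := mem_AA hB hp
    rw [mem_PW]
    exact ⟨⟨h2, h3.trans hw1⟩, h1⟩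
  · intro a T w hT S hS
    have hmain := hws (qq z p0) a x (W0 D x) (PW D z x) T w (qq_pos z p0) hW3
      (fun p hp => by
        rw [mem_PW] at hp
        exact ⟨hp.2, by omega, hp.1.2, coprime_qq p0 hp.2 hp.1.1⟩) hWq hT S hS
    refine hmain.trans ?_
    apply mul_le_mul_of_nonneg_right _ (Real.exp_pos _).le
    apply mul_le_mul_of_nonneg_right _ (by positivity)
    have h1 : 0 ≤ Real.exp C2 * (4 * D) + Real.exp (C2 + 1) := by positivity
    linarith
  · have h1 := (abs_le.mp (hmer z (W0 D x) (by omega) hzW.le)).1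
    have h2 : C2 / Real.log z ≤ C2 := div_le_self hC2.le hlz
    have h3 : Real.log (Real.log (W0 D x)) - Real.log (Real.log z) - C2 ≤
        ∑ p ∈ PW D z x, 1 / (p : ℝ) := by
      unfold PW
      linarith
    calc Real.exp (-∑ p ∈ PW D z x, 1 / (p : ℝ)) ≤
        Real.exp (C2 + Real.log (Real.log z) + -Real.log (Real.log (W0 D x))) := by
          apply Real.exp_le_exp.mpr
          linarith
      _ = Real.exp C2 * Real.log z * (Real.log (W0 D x))⁻¹ := by
          rw [Real.exp_add, Real.exp_add, Real.exp_log (by linarith), Real.exp_neg,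
            Real.exp_log hlW]
      _ ≤ Real.exp C2 * Real.log z * (Real.log x / (4 * D))⁻¹ := by
          gcongr
      _ = Real.exp C2 * (4 * D) * (Real.log z / Real.log x) := by
          rw [inv_div]
          ring
      _ ≤ _ := by
          apply mul_le_mul_of_nonneg_right _ (by positivity)
          have h4 : 0 ≤ Real.exp (C2 + 1) := (Real.exp_pos _).le
          linarith
  · intro y hzy hyw
    have hB' : (2 : ℝ) ≤ B := by exact_mod_cast hB
    have hlogzB : Real.log ((z ^ B : ℕ) : ℝ) = B * Real.log z := by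
      push_cast
      rw [Real.log_pow]
    have hlt : B * Real.log z ≤ Real.log y := by
      rw [← hlogzB]
      apply Real.log_le_log
      · exact_mod_cast (by omega : 0 < z ^ B)
      · exact_mod_cast hzy
    have hBlz : 0 < B * Real.log z := by positivity
    have hltpos : 0 < Real.log y := lt_of_lt_of_le hBlz hlt
    have h1 := (abs_le.mp (hmer (z ^ B) y (by omega) hzy)).1
    rw [hlogzB] at h1
    have h2 : C2 / (B * Real.log z) ≤ C2 := div_le_self hC2.le (by nlinarith)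
    have h3 : (Ioc (z ^ B) y).filter Nat.Prime ⊆
        insert p0 ((AA κ B z p0).filter (fun p => p ≤ y)) := by
      intro p hp
      rw [mem_filter, mem_Ioc] at hp
      rw [mem_insert]
      by_cases h : p = p0
      · exact Or.inl h
      · right
        rw [mem_filter]
        unfold AA
        rw [mem_erase, mem_filter, mem_Ioc]
        exact ⟨⟨h, ⟨hp.1.1, hp.1.2.trans hyw⟩, hp.2⟩, hp.1.2⟩
    have h4 : ∑ p ∈ (Ioc (z ^ B) y).filter Nat.Prime, 1 / (p : ℝ) ≤
        ∑ p ∈ insert p0 ((AA κ B z p0).filter (fun p => p ≤ y)), 1 / (p : ℝ) :=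
      sum_le_sum_of_subset_of_nonneg h3 fun p _ _ => by positivity
    have h5 : ∑ p ∈ insert p0 ((AA κ B z p0).filter (fun p => p ≤ y)), 1 / (p : ℝ) ≤
        1 + ∑ p ∈ (AA κ B z p0).filter (fun p => p ≤ y), 1 / (p : ℝ) := by
      by_cases h : p0 ∈ (AA κ B z p0).filter (fun p => p ≤ y)
      · rw [insert_eq_of_mem h]; linarith
      · rw [sum_insert h]
        have h6 : 1 / (p0 : ℝ) ≤ 1 := by
          rcases Nat.eq_zero_or_pos p0 with h0 | h0
          · rw [h0]; norm_num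
          · rw [div_le_one (by exact_mod_cast h0)]
            exact_mod_cast h0
        linarith
    calc Real.exp (-∑ p ∈ (AA κ B z p0).filter (fun p => p ≤ y), 1 / (p : ℝ)) ≤
        Real.exp (C2 + 1 + Real.log (B * Real.log z) + -Real.log (Real.log y)) := by
          apply Real.exp_le_exp.mpr
          linarith
      _ = Real.exp (C2 + 1) * (B * Real.log z / Real.log y) := by
          rw [Real.exp_add, Real.exp_add (C2 + 1), Real.exp_log hBlz, Real.exp_neg,
            Real.exp_log hltpos]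
          ring
      _ ≤ _ := by
          apply mul_le_mul_of_nonneg_right _ (by positivity)
          have h6 : 0 ≤ Real.exp C2 * (4 * D) := by positivity
          linarith

end Pool.Agent.Work.MP_b0c12c_nt_shift
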