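import Pool.Agent.Work.MP_b0c12c_nt_sparse.V2
import Pool.Agent.Work.MP_b0c12c_nt_sparse.K

/-! Tools for version 2 of the sparse theorem: general lower cut `y`. -/

set_option autoImplicit false

namespace Pool.Agent.Work.MP_b0c12c_nt_sparse

open Finset
open Pool.Agent.Work.MP_b0c12c_nt_shift

theorem mem_AY {κ : ℝ} {y z p : ℕ} (hz : 1 ≤ z) (hy : z ^ 2 ≤ y) (h : p ∈ AY κ y z) :
    p.Prime ∧ z < p ∧ y < p ∧ p ≤ w1 κ z := by
  unfold AY at h
  rw [mem_filter, mem_Ioc] at h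
  have h1 : z ≤ z ^ 2 := Nat.le_self_pow (by norm_num) z
  exact ⟨h.2, by omega, h.1.1, h.1.2⟩

/-- The weighted sieve and the masses, for all parameters at once. `y` is a threshold. -/
theorem ktoolsY (hWS : Stmt_WS) : ∃ C : ℝ, 0 < C ∧ ∃ D : ℕ, 2 ≤ D ∧
    ∀ κ : ℝ, 0 < κ → κ ≤ 1 / 10 → ∃ z0 : ℕ, 16 ≤ z0 ∧ ∀ z : ℕ, z0 ≤ z →
    ∀ x : ℕ, InR κ z x → ∀ y : ℕ, z ^ 2 ≤ y →
      AY κ y z ⊆ PW D z x ∧ W0 D x * W0 D x ≤ x ∧ 0 < Real.log x ∧
      (∀ (a : ℕ) (T : ℕ → Finset ℤ) (w : ℕ → ℤ → ℝ),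
        (∀ p ∈ PW D z x, (T p).card ≤ 3 ∧ ∀ s ∈ T p, -3 ≤ s ∧ s ≤ 3 ∧ 0 ≤ w p s ∧ w p s ≤ 1) →
        ∀ S : Finset ℕ, (∀ n ∈ S, n ∈ Ioc x (2 * x) ∧ n ≡ a [MOD qq z 0]) →
          ∑ n ∈ S, ∏ p ∈ PW D z x, lw T w p n ≤
            C * (x / qq z 0) * Real.exp (-∑ p ∈ PW D z x, (∑ s ∈ T p, w p s) / p)) ∧
      Real.exp (-∑ p ∈ PW D z x, 1 / (p : ℝ)) ≤ C * (Real.log z / Real.log x) ∧
      (∀ w : ℕ, y ≤ w → w ≤ w1 κ z →
        Real.exp (-∑ p ∈ (AY κ y z).filter (fun p => p ≤ w), 1 / (p : ℝ)) ≤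
          C * (Real.log y / Real.log w)) := by
  classical
  obtain ⟨C, hC, D, hD2, hws⟩ := ws_cl hWS
  obtain ⟨C2, hC2, hmer⟩ := Pool.Agent.Work.MP_b0c12c_nt_helper41.mertens2
  have hD' : (2 : ℝ) ≤ D := by exact_mod_cast hD2
  refine ⟨C + Real.exp C2 * (4 * D) + Real.exp C2, by positivity, D, hD2, ?_⟩
  intro κ hκ hκ1
  obtain ⟨zs, hzs16, hscale⟩ := scale D hD2 κ hκ
  refine ⟨zs, hzs16, ?_⟩
  intro z hz x hx y hy
  obtain ⟨hw1, hWq, hW3, hWW, hlogW, hzW, hlx⟩ := hscale z hz x hx 0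
  have hz16 : 16 ≤ z := le_trans hzs16 hz
  have hz2 : z ≤ z ^ 2 := Nat.le_self_pow (by norm_num) z
  have hlz : 1 ≤ Real.log z := by
    have h1 : (3 : ℝ) ≤ z := by exact_mod_cast (by omega : 3 ≤ z)
    have h2 : Real.exp 1 ≤ z := by
      have := Real.exp_one_lt_d9
      linarith
    have := Real.log_le_log (Real.exp_pos _) h2
    rwa [Real.log_exp] at this
  have hlW : 0 < Real.log (W0 D x) := by
    refine lt_of_lt_of_le ?_ hlogW
    positivity
  refine ⟨?_, hWW, hlx, ?_, ?_, ?_⟩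
  · intro p hp
    obtain ⟨h1, h2, -, h3⟩ := mem_AY (by omega) hy hp
    rw [mem_PW]
    exact ⟨⟨h2, h3.trans hw1⟩, h1⟩
  · intro a T w hT S hS
    have hmain := hws (qq z 0) a x (W0 D x) (PW D z x) T w (qq_pos z 0) hW3
      (fun p hp => by
        rw [mem_PW] at hp
        exact ⟨hp.2, by omega, hp.1.2, coprime_qq 0 hp.2 hp.1.1⟩) hWq hT S hS
    refine hmain.trans ?_
    apply mul_le_mul_of_nonneg_right _ (Real.exp_pos _).le
    apply mul_le_mul_of_nonneg_right _ (by positivity)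
    have h1 : 0 ≤ Real.exp C2 * (4 * D) + Real.exp C2 := by positivity
    linarith
  · have h1 := (abs_le.mp (hmer z (W0 D x) (by omega) hzW.le)).1
    have h2 : C2 / Real.log z ≤ C2 := div_le_self hC2.le hlz
    have h3 : Real.log (Real.log (W0 D x)) - Real.log (Real.log z) - C2 ≤
        ∑ p ∈ PW D z x, 1 / (p : ℝ) := by
      unfold PW
      linarith
    calc Real.exp (-∑ p ∈ PW D z x, 1 / (p : ℝ)) ≤
        Real.exp (C2 + Real.log (Real.log z) + -Real.log (Real.log (W0 D x))) := by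
          apply Real.exp_le_exp.mpr
          linarith
      _ = Real.exp C2 * Real.log z * (Real.log (W0 D x))⁻¹ := by
          rw [Real.exp_add, Real.exp_add, Real.exp_log (by linarith), Real.exp_neg,
            Real.exp_log hlW]
      _ ≤ Real.exp C2 * Real.log z * (Real.log x / (4 * D))⁻¹ := by
          gcongr
      _ = Real.exp C2 * (4 * D) * (Real.log z / Real.log x) := by
          rw [inv_div]
          ring
      _ ≤ _ := by
          apply mul_le_mul_of_nonneg_right _ (by positivity)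
          have h4 : 0 ≤ Real.exp C2 := (Real.exp_pos _).le
          linarith
  · intro w hyw hww
    have hy1 : 16 ^ 2 ≤ y := le_trans (Nat.pow_le_pow_left hz16 2) hy
    have hly : 1 ≤ Real.log y := by
      refine hlz.trans (Real.log_le_log (by exact_mod_cast (by omega : 0 < z)) ?_)
      exact_mod_cast (by omega : z ≤ y)
    have hlw : Real.log y ≤ Real.log w :=
      Real.log_le_log (by exact_mod_cast (by omega : 0 < y)) (by exact_mod_cast hyw)
    have h1 := (abs_le.mp (hmer y w (by omega) hyw)).1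
    have h2 : C2 / Real.log y ≤ C2 := div_le_self hC2.le hly
    have h3 : (AY κ y z).filter (fun p => p ≤ w) = (Ioc y w).filter Nat.Prime := by
      ext p
      unfold AY
      rw [mem_filter, mem_filter, mem_filter, mem_Ioc, mem_Ioc]
      constructor
      · rintro ⟨⟨⟨g1, g2⟩, g3⟩, g4⟩
        exact ⟨⟨g1, g4⟩, g3⟩
      · rintro ⟨⟨g1, g2⟩, g3⟩
        exact ⟨⟨⟨g1, g2.trans hww⟩, g3⟩, g2⟩
    rw [h3]
    calc Real.exp (-∑ p ∈ (Ioc y w).filter Nat.Prime, 1 / (p : ℝ)) ≤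
        Real.exp (C2 + Real.log (Real.log y) + -Real.log (Real.log w)) := by
          apply Real.exp_le_exp.mpr
          linarith
      _ = Real.exp C2 * (Real.log y / Real.log w) := by
          rw [Real.exp_add, Real.exp_add, Real.exp_log (by linarith), Real.exp_neg,
            Real.exp_log (by linarith)]
          ring
      _ ≤ _ := by
          apply mul_le_mul_of_nonneg_right _ (by positivity)
          have h6 : 0 ≤ Real.exp C2 * (4 * D) := by positivity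
          linarith

end Pool.Agent.Work.MP_b0c12c_nt_sparse
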