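import Pool.Agent.Work.MP_b0c12c_nt_sparse.KToolsY

/-! Blocks K1Y, N1Y, K2Y, K3Y, N3Y of the sparse theorem, version 2. -/

set_option autoImplicit false

namespace Pool.Agent.Work.MP_b0c12c_nt_sparse

open Finset
open Pool.Agent.Work.MP_b0c12c_nt_shift

open Classical in
theorem kcountY (hWS : Stmt_WS) : ∃ C : ℝ, 0 < C ∧ ∃ D : ℕ, 2 ≤ D ∧
    ∀ κ : ℝ, 0 < κ → κ ≤ 1 / 10 → ∃ z0 : ℕ, 16 ≤ z0 ∧ ∀ z : ℕ, z0 ≤ z →
    ∀ x : ℕ, InR κ z x → ∀ y0 : ℕ, z ^ 2 ≤ y0 → AY κ y0 z ⊆ PW D z x ∧ W0 D x * W0 D x ≤ x ∧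
      0 < Real.log x ∧
      ∀ (a i j y : ℕ), y0 ≤ y → y ≤ w1 κ z → ∀ T : ℕ → Finset ℤ,
        (∀ p ∈ PW D z x, (T p).card ≤ 3 ∧ (∀ s ∈ T p, -3 ≤ s ∧ s ≤ 3) ∧ j ≤ (T p).card ∧
          (p ∈ AY κ y0 z → p ≤ y → j + i ≤ (T p).card)) →
        ∀ S : Finset ℕ, (∀ n ∈ S, n ∈ Ioc x (2 * x) ∧ n ≡ a [MOD qq z 0] ∧
          ∀ p ∈ PW D z x, ∀ s ∈ T p, ¬ cl p s n) →
          (S.card : ℝ) ≤ C * (x / qq z 0) * (C * (Real.log z / Real.log x)) ^ j *
            (C * (Real.log y0 / Real.log y)) ^ i := by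
  obtain ⟨C, hC, D, hD2, hk⟩ := ktoolsY hWS
  refine ⟨C, hC, D, hD2, ?_⟩
  intro κ hκ hκ1
  obtain ⟨z0, hz016, hz0⟩ := hk κ hκ hκ1
  refine ⟨z0, hz016, ?_⟩
  intro z hz x hx y0 hy0
  obtain ⟨hAP, hWW, hlx, hsieve, hm1, hm2⟩ := hz0 z hz x hx y0 hy0
  refine ⟨hAP, hWW, hlx, ?_⟩
  intro a i j y hzy hyw T hT S hS
  have h1 := hsieve a T (fun _ _ => 1) (fun p hp => ⟨(hT p hp).1, fun s hs =>
    ⟨((hT p hp).2.1 s hs).1, ((hT p hp).2.1 s hs).2, by norm_num, le_rfl⟩⟩) S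
    (fun n hn => ⟨(hS n hn).1, (hS n hn).2.1⟩)
  have h2 : (S.card : ℝ) = ∑ n ∈ S, ∏ p ∈ PW D z x, lw T (fun _ _ => 1) p n := by
    rw [card_eq_sum_ones, Nat.cast_sum]
    apply sum_congr rfl
    intro n hn
    rw [Nat.cast_one]
    symm
    apply prod_eq_one
    intro p hp
    unfold lw
    rw [sum_eq_zero, sub_zero]
    intro s hs'
    rw [if_neg]
    exact (hS n hn).2.2 p hp s hs'
  rw [h2]
  refine h1.trans ?_
  rw [mul_assoc (C * (x / qq z 0 : ℝ))]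
  apply mul_le_mul_of_nonneg_left _ (by positivity)
  set R : Finset ℕ := (AY κ y0 z).filter (fun p => p ≤ y) with hR
  have hRP : R ⊆ PW D z x := (filter_subset _ _).trans hAP
  have h3 : (j : ℝ) * ∑ p ∈ PW D z x, 1 / (p : ℝ) + i * ∑ p ∈ R, 1 / (p : ℝ) ≤
      ∑ p ∈ PW D z x, (∑ s ∈ T p, (1 : ℝ)) / p := by
    have h4 : (i : ℝ) * ∑ p ∈ R, 1 / (p : ℝ) =
        ∑ p ∈ PW D z x, if p ∈ R then (i : ℝ) * (1 / (p : ℝ)) else 0 := by
      rw [← sum_filter, mul_sum]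
      have h5 : (PW D z x).filter (fun p => p ∈ R) = R := by
        ext p
        constructor
        · intro h
          exact (mem_filter.mp h).2
        · intro h
          exact mem_filter.mpr ⟨hRP h, h⟩
      rw [h5]
    rw [h4, mul_sum, ← sum_add_distrib]
    apply sum_le_sum
    intro p hp
    obtain ⟨-, -, g1, g2⟩ := hT p hp
    have g3 : (∑ s ∈ T p, (1 : ℝ)) = ((T p).card : ℝ) := by
      rw [sum_const, nsmul_eq_mul, mul_one]
    rw [g3]
    by_cases hpR : p ∈ R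
    · rw [if_pos hpR]
      have hpR' := mem_filter.mp hpR
      have g4 : (j : ℝ) + i ≤ ((T p).card : ℝ) := by exact_mod_cast g2 hpR'.1 hpR'.2
      calc (j : ℝ) * (1 / (p : ℝ)) + i * (1 / (p : ℝ)) = ((j : ℝ) + i) / p := by ring
        _ ≤ _ := div_le_div_of_nonneg_right g4 (Nat.cast_nonneg _)
    · rw [if_neg hpR, add_zero]
      have g4 : (j : ℝ) ≤ ((T p).card : ℝ) := by exact_mod_cast g1
      calc (j : ℝ) * (1 / (p : ℝ)) = (j : ℝ) / p := by ring
        _ ≤ _ := div_le_div_of_nonneg_right g4 (Nat.cast_nonneg _)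
  calc Real.exp (-∑ p ∈ PW D z x, (∑ s ∈ T p, (1 : ℝ)) / p) ≤
      Real.exp ((j : ℝ) * (-∑ p ∈ PW D z x, 1 / (p : ℝ)) + i * (-∑ p ∈ R, 1 / (p : ℝ))) := by
        apply Real.exp_le_exp.mpr
        linarith
    _ = Real.exp (-∑ p ∈ PW D z x, 1 / (p : ℝ)) ^ j * Real.exp (-∑ p ∈ R, 1 / (p : ℝ)) ^ i := by
        rw [Real.exp_add, Real.exp_nat_mul, Real.exp_nat_mul]
    _ ≤ (C * (Real.log z / Real.log x)) ^ j * (C * (Real.log y0 / Real.log y)) ^ i := by
        apply mul_le_mul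
        · exact pow_le_pow_left₀ (Real.exp_pos _).le hm1 j
        · exact pow_le_pow_left₀ (Real.exp_pos _).le (hm2 y hzy hyw) i
        · positivity
        · have := hm1
          have h7 : 0 ≤ C * (Real.log z / Real.log x) := le_trans (Real.exp_pos _).le hm1
          positivity

/-- the thresholds -/
noncomputable def KSY (κ : ℝ) (y z : ℕ) : Finset ℕ :=
  (range (z + 1)).filter fun k => y ^ (2 ^ k) ≤ w1 κ z

theorem two_pow_leY {κ : ℝ} {y z k : ℕ} (hκ : 0 < κ) (hz : 16 ≤ z) (hy : z ^ 2 ≤ y)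
    (h : y ^ (2 ^ k) ≤ w1 κ z) : 2 ^ k ≤ z := by
  have hz0 : (0 : ℝ) < z := by exact_mod_cast (by omega : 0 < z)
  have hz2 : z ≤ z ^ 2 := Nat.le_self_pow (by norm_num) z
  have hy0 : (0 : ℝ) < y := by exact_mod_cast (by omega : 0 < y)
  have h1 : ((y ^ (2 ^ k) : ℕ) : ℝ) ≤ Real.exp ((z : ℝ) ^ (1 - κ)) := by
    calc ((y ^ (2 ^ k) : ℕ) : ℝ) ≤ (w1 κ z : ℝ) := by exact_mod_cast h
      _ ≤ _ := Nat.floor_le (Real.exp_pos _).le
  have hypos : (0 : ℝ) < ((y ^ (2 ^ k) : ℕ) : ℝ) := by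
    rw [Nat.cast_pow]
    exact pow_pos hy0 _
  have h2 := Real.log_le_log hypos h1
  rw [Real.log_exp] at h2
  push_cast at h2
  rw [Real.log_pow] at h2
  push_cast at h2
  have h3 : (z : ℝ) ^ (1 - κ) ≤ z := by
    calc (z : ℝ) ^ (1 - κ) ≤ (z : ℝ) ^ (1 : ℝ) :=
          Real.rpow_le_rpow_of_exponent_le (by exact_mod_cast (by omega : 1 ≤ z)) (by linarith)
      _ = z := Real.rpow_one _
  have hly : 1 ≤ Real.log y := by
    have h1 : (3 : ℝ) ≤ y := by exact_mod_cast (by omega : 3 ≤ y)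
    have h2 : Real.exp 1 ≤ y := by
      have := Real.exp_one_lt_d9
      linarith
    have := Real.log_le_log (Real.exp_pos _) h2
    rwa [Real.log_exp] at this
  have h4 : (2 : ℝ) ^ k ≤ 2 ^ k * Real.log y := by
    have h5 : (0 : ℝ) < 2 ^ k := by positivity
    nlinarith
  have h5 : (2 : ℝ) ^ k ≤ z := by linarith
  exact_mod_cast h5

open Classical in
theorem log_lp_leY {κ : ℝ} {y z : ℕ} (hκ : 0 < κ) (hz : 16 ≤ z) (hy : z ^ 2 ≤ y) (m l : ℕ)
    (hl : IsLp (AY κ y z) m l) :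
    Real.log l ≤ ∑ k ∈ KSY κ y z, 2 ^ (k + 1) * Real.log y *
      (if ∀ p ∈ AY κ y z, p ≤ y ^ (2 ^ k) → ¬ p ∣ m then (1 : ℝ) else 0) := by
  have hz2 : z ≤ z ^ 2 := Nat.le_self_pow (by norm_num) z
  have hnn : ∀ k ∈ KSY κ y z, (0 : ℝ) ≤ 2 ^ (k + 1) * Real.log y *
      (if ∀ p ∈ AY κ y z, p ≤ y ^ (2 ^ k) → ¬ p ∣ m then (1 : ℝ) else 0) := by
    intro k _
    have : 0 ≤ Real.log y := Real.log_natCast_nonneg y
    split_ifs <;> positivity
  rcases hl.1 with h1 | h1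
  · rw [h1, Nat.cast_one, Real.log_one]
    exact sum_nonneg hnn
  · obtain ⟨g1, g2, hlB, g3⟩ := mem_AY (by omega) hy h1
    have hex : ∃ j, l ≤ y ^ (2 ^ j) := by
      refine ⟨l, ?_⟩
      calc l ≤ 2 ^ l := (Nat.lt_two_pow_self (n := l)).le
        _ ≤ y ^ l := Nat.pow_le_pow_left (by omega) l
        _ ≤ y ^ (2 ^ l) := Nat.pow_le_pow_right (by omega) (Nat.lt_two_pow_self (n := l)).le
    set j := Nat.find hex with hj
    have hj1 : l ≤ y ^ (2 ^ j) := Nat.find_spec hex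
    have hj0 : j ≠ 0 := by
      intro h0
      rw [h0, pow_zero, pow_one] at hj1
      omega
    obtain ⟨k, hk⟩ := Nat.exists_eq_succ_of_ne_zero hj0
    have hk1 : y ^ (2 ^ k) < l := by
      have := Nat.find_min hex (m := k) (by omega)
      omega
    have hkw : y ^ (2 ^ k) ≤ w1 κ z := by omega
    have hkz := two_pow_leY hκ hz hy hkw
    have hkK : k ∈ KSY κ y z := by
      unfold KSY
      rw [mem_filter, mem_range]
      refine ⟨?_, hkw⟩
      have := Nat.lt_two_pow_self (n := k)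
      omega
    refine le_trans ?_ (single_le_sum hnn hkK)
    rw [if_pos, mul_one]
    · have h2 : ((l : ℕ) : ℝ) ≤ (y : ℝ) ^ (2 ^ (k + 1)) := by
        rw [← Nat.succ_eq_add_one, ← hk]
        exact_mod_cast hj1
      have h3 := Real.log_le_log (by exact_mod_cast g1.pos) h2
      rw [Real.log_pow] at h3
      push_cast at h3
      linarith
    · intro p hp hpk hpm
      have := hl.2 p hp hpm
      omega

theorem card_KSY {κ : ℝ} {y z : ℕ} (hκ : 0 < κ) (hz : 16 ≤ z) (hy : z ^ 2 ≤ y) :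
    ((KSY κ y z).card : ℝ) ≤ 2 * Real.log z := by
  have hl2 := Real.log_two_gt_d9
  have hl2' := Real.log_two_lt_d9
  have hlz : 4 * Real.log 2 ≤ Real.log z := by
    have h1 : Real.log ((2 : ℝ) ^ 4) ≤ Real.log z := by
      apply Real.log_le_log (by norm_num)
      have : (16 : ℝ) ≤ z := by exact_mod_cast hz
      norm_num
      linarith
    rw [Real.log_pow] at h1
    push_cast at h1
    exact h1
  have hsub : KSY κ y z ⊆ range (⌊Real.log z / Real.log 2⌋₊ + 1) := by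
    intro k hk
    unfold KSY at hk
    rw [mem_filter] at hk
    have h1 := two_pow_leY hκ hz hy hk.2
    rw [mem_range, Nat.lt_add_one_iff]
    apply Nat.le_floor
    rw [le_div_iff₀ (by linarith)]
    have h2 : Real.log ((2 : ℝ) ^ k) ≤ Real.log z := by
      apply Real.log_le_log (by positivity)
      exact_mod_cast h1
    rwa [Real.log_pow] at h2
  have h1 : ((KSY κ y z).card : ℝ) ≤ (⌊Real.log z / Real.log 2⌋₊ : ℝ) + 1 := by
    have := card_le_card hsub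
    rw [card_range] at this
    exact_mod_cast this
  have h2 : (⌊Real.log z / Real.log 2⌋₊ : ℝ) ≤ Real.log z / Real.log 2 :=
    Nat.floor_le (by positivity)
  have h3 : Real.log z / Real.log 2 ≤ 3 / 2 * Real.log z := by
    rw [div_le_iff₀ (by linarith)]
    nlinarith
  linarith

/-- members without a killer up to `y` -/
theorem N1_gen (hWS : Stmt_WS) : ∃ C : ℝ, 0 < C ∧ ∀ κ : ℝ, 0 < κ → κ ≤ 1 / 10 →
    ∃ z0 : ℕ, 16 ≤ z0 ∧ ∀ z : ℕ, z0 ≤ z → ∀ x : ℕ, InR κ z x → 0 < Real.log x ∧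
    ∀ y0 : ℕ, z ^ 2 ≤ y0 → ∀ v : ℕ → ℤ, (∀ p, v p ∈ sgn) →
    ∀ y : ℕ, y0 ≤ y → y ≤ w1 κ z → ∀ a : ℕ, ∀ S : Finset ℕ,
      (∀ n ∈ S, n ∈ Ioc x (2 * x) ∧ n ≡ a [MOD qq z 0] ∧ SurvF v (AY κ y0 z) x n ∧
        (∀ p ∈ AY κ y0 z, ¬ p ∣ n) ∧ ∀ p ∈ AY κ y0 z, p ≤ y → ¬ p ∣ n ^ 2 - 1) →
      (S.card : ℝ) ≤ C * (x * Real.log z / (qq z 0 * Real.log x)) *
        (Real.log y0 / Real.log y) ^ 2 := by
  classical
  obtain ⟨C, hC, D, hD2, hk⟩ := kcountY hWS
  refine ⟨C ^ 4, by positivity, ?_⟩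
  intro κ hκ hκ1
  obtain ⟨z0, hz016, hz0⟩ := hk κ hκ hκ1
  refine ⟨z0, hz016, ?_⟩
  intro z hz x hx
  have hlx0 := (hz0 z hz x hx (z ^ 2) le_rfl).2.2.1
  refine ⟨hlx0, ?_⟩
  intro y0 hy0 v hv y hyy hyw a S hS
  obtain ⟨hAP, hWW, hlx, hcount⟩ := hz0 z hz x hx y0 hy0
  set A : Finset ℕ := AY κ y0 z with hA
  set q : ℕ := qq z 0 with hq
  have hz16 : 16 ≤ z := le_trans hz016 hz
  have hlz : 0 < Real.log z := Real.log_pos (by exact_mod_cast (by omega : 1 < z))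
  have hqpos : (0 : ℝ) < q := by exact_mod_cast qq_pos z 0
  have hsg : ∀ s ∈ sgn, -3 ≤ s ∧ s ≤ 3 := by
    intro s hs
    unfold sgn at hs
    rw [mem_insert, mem_insert, mem_singleton] at hs
    omega
  set T : ℕ → Finset ℤ := fun p => if p ∈ A ∧ p ≤ y then sgn else if p ∈ A then {0} else {v p}
    with hT
  have h1 := hcount a 2 1 y hyy hyw T (fun p hp => by
    by_cases hpR : p ∈ A ∧ p ≤ y
    · have e1 : T p = sgn := by rw [hT]; simp only [hpR, if_true, and_self]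
      rw [e1]
      exact ⟨by decide, hsg, by decide, fun _ _ => by decide⟩
    · by_cases hpA : p ∈ A
      · have e1 : T p = {0} := by
          rw [hT]
          show (if p ∈ A ∧ p ≤ y then sgn else if p ∈ A then {0} else {v p}) = _
          rw [if_neg hpR, if_pos hpA]
        rw [e1]
        exact ⟨by simp, by simp, by simp, fun _ h => absurd ⟨hpA, h⟩ hpR⟩
      · have e1 : T p = {v p} := by
          rw [hT]
          show (if p ∈ A ∧ p ≤ y then sgn else if p ∈ A then {0} else {v p}) = _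
          rw [if_neg hpR, if_neg hpA]
        rw [e1]
        refine ⟨by simp, ?_, by simp, fun h => absurd h hpA⟩
        intro s hs
        rw [mem_singleton] at hs
        rw [hs]
        exact hsg _ (hv p))
    S (fun n hn => by
      obtain ⟨hn1, hn1', hn2, hn3, hn4⟩ := hS n hn
      refine ⟨hn1, hn1', ?_⟩
      intro p hp s hs hcl
      rw [mem_Ioc] at hn1
      rw [mem_PW] at hp
      have h0 : cl p 0 n → p ∣ n := by
        intro h
        unfold cl at h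
        rw [sub_zero] at h
        exact_mod_cast h
      by_cases hpR : p ∈ A ∧ p ≤ y
      · have e1 : T p = sgn := by rw [hT]; simp only [hpR, if_true, and_self]
        rw [e1] at hs
        unfold sgn at hs
        rw [mem_insert, mem_insert, mem_singleton] at hs
        have hn0 : 1 ≤ n ^ 2 := Nat.one_le_pow _ _ (by omega)
        have hfac : ((n ^ 2 - 1 : ℕ) : ℤ) = (n - 1) * (n - (-1)) := by
          rw [Nat.cast_sub hn0]; push_cast; ring
        rcases hs with rfl | rfl | rfl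
        · apply hn4 p hpR.1 hpR.2
          rw [← Int.natCast_dvd_natCast, hfac]
          exact Dvd.dvd.mul_left hcl _
        · exact hn3 p hpR.1 (h0 hcl)
        · apply hn4 p hpR.1 hpR.2
          rw [← Int.natCast_dvd_natCast, hfac]
          exact Dvd.dvd.mul_right hcl _
      · by_cases hpA : p ∈ A
        · have e1 : T p = {0} := by
            rw [hT]
            show (if p ∈ A ∧ p ≤ y then sgn else if p ∈ A then {0} else {v p}) = _
            rw [if_neg hpR, if_pos hpA]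
          rw [e1, mem_singleton] at hs
          rw [hs] at hcl
          exact hn3 p hpA (h0 hcl)
        · have e1 : T p = {v p} := by
            rw [hT]
            show (if p ∈ A ∧ p ≤ y then sgn else if p ∈ A then {0} else {v p}) = _
            rw [if_neg hpR, if_neg hpA]
          rw [e1, mem_singleton] at hs
          rw [hs] at hcl
          exact hn2 p hp.2 (le_trans (Nat.mul_le_mul hp.1.2 hp.1.2) hWW) hpA hcl)
  refine h1.trans (le_of_eq ?_)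
  field_simp

theorem sum_thr (κ : ℝ) (y z : ℕ) (X : ℝ) (hX : 0 ≤ X) :
    ∑ k ∈ KSY κ y z, 2 ^ (k + 1) * Real.log y * (X * ((1 / 2) ^ k * (1 / 2) ^ k)) ≤
      4 * Real.log y * X := by
  have hly : 0 ≤ Real.log (y : ℝ) := Real.log_natCast_nonneg y
  calc ∑ k ∈ KSY κ y z, 2 ^ (k + 1) * Real.log y * (X * ((1 / 2) ^ k * (1 / 2) ^ k)) =
      2 * Real.log y * X * ∑ k ∈ KSY κ y z, ((1 : ℝ) / 2) ^ k := by
        rw [mul_sum]
        apply sum_congr rfl
        intro k _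
        have e4 : (2 : ℝ) ^ k * (1 / 2) ^ k = 1 := by
          rw [← mul_pow]; norm_num
        calc (2 : ℝ) ^ (k + 1) * Real.log y * (X * ((1 / 2) ^ k * (1 / 2) ^ k)) =
            2 * ((2 : ℝ) ^ k * (1 / 2) ^ k) * (Real.log y * X * (1 / 2) ^ k) := by ring
          _ = _ := by rw [e4]; ring
    _ ≤ 2 * Real.log y * X * 2 := by
        apply mul_le_mul_of_nonneg_left (sum_half _)
        positivity
    _ = _ := by ring

theorem log_thr {y k : ℕ} (hly : 0 < Real.log (y : ℝ)) :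
    Real.log y / Real.log ((y ^ (2 ^ k) : ℕ) : ℝ) = (1 / 2) ^ k := by
  push_cast
  rw [Real.log_pow, one_div, inv_pow]
  push_cast
  field_simp

theorem YOk.hy1 {κ : ℝ} {y z : ℕ} (h : YOk κ y z) : z ^ 2 ≤ y := h.1

/-- sizes of the cut and of `w1` -/
theorem yok_sizes {κ : ℝ} {y z : ℕ} (hκ : 0 < κ) (hκ1 : κ ≤ 1 / 50) (hz : 16 ≤ z)
    (h : YOk κ y z) : 0 < Real.log (y : ℝ) ∧ y ≤ w1 κ z ∧ (z : ℝ) ^ (1 - κ) / 2 ≤ Real.log (w1 κ z) ∧
      0 < (z : ℝ) ^ (1 - κ) := by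
  have hz0 : (0 : ℝ) < z := by exact_mod_cast (by omega : 0 < z)
  have hz1 : (1 : ℝ) ≤ z := by exact_mod_cast (by omega : 1 ≤ z)
  have hz2 : z ≤ z ^ 2 := Nat.le_self_pow (by norm_num) z
  have hy16 : 16 ≤ y := by have := h.1; omega
  have hy0 : (0 : ℝ) < y := by exact_mod_cast (by omega : 0 < y)
  have hly : 0 < Real.log (y : ℝ) := Real.log_pos (by exact_mod_cast (by omega : 1 < y))
  have h1 : (z : ℝ) ^ (1 - 2 * κ) ≤ (z : ℝ) ^ (1 - κ) :=
    Real.rpow_le_rpow_of_exponent_le hz1 (by linarith)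
  have h2 : (y : ℝ) ≤ Real.exp ((z : ℝ) ^ (1 - κ)) := by
    calc (y : ℝ) = Real.exp (Real.log y) := (Real.exp_log hy0).symm
      _ ≤ _ := Real.exp_le_exp.mpr (h.2.trans h1)
  have h3 : y ≤ w1 κ z := by
    unfold w1
    exact Nat.le_floor h2
  have h4 : (2 : ℝ) ≤ (z : ℝ) ^ (1 - κ) / 2 := by
    have h5 : (16 : ℝ) ^ (1 / 2 : ℝ) ≤ (z : ℝ) ^ (1 - κ) := by
      calc (16 : ℝ) ^ (1 / 2 : ℝ) ≤ (z : ℝ) ^ (1 / 2 : ℝ) :=
            Real.rpow_le_rpow (by norm_num) (by exact_mod_cast hz) (by norm_num)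
        _ ≤ _ := Real.rpow_le_rpow_of_exponent_le hz1 (by linarith)
    have h6 : (16 : ℝ) ^ (1 / 2 : ℝ) = 4 := by
      rw [show (16 : ℝ) = 4 ^ (2 : ℝ) by norm_num, ← Real.rpow_mul (by norm_num)]
      norm_num
    linarith
  refine ⟨hly, h3, ?_, by linarith⟩
  have h5 : Real.exp ((z : ℝ) ^ (1 - κ) / 2) ≤ w1 κ z := by
    have h6 : Real.exp ((z : ℝ) ^ (1 - κ)) - 1 < (w1 κ z : ℝ) := Nat.sub_one_lt_floor _
    have h7 : Real.exp ((z : ℝ) ^ (1 - κ)) = Real.exp ((z : ℝ) ^ (1 - κ) / 2) *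
        Real.exp ((z : ℝ) ^ (1 - κ) / 2) := by
      rw [← Real.exp_add]; congr 1; ring
    have h8 : (2 : ℝ) ≤ Real.exp ((z : ℝ) ^ (1 - κ) / 2) := by
      have := Real.add_one_le_exp ((z : ℝ) ^ (1 - κ) / 2)
      linarith
    nlinarith
  have h6 := Real.log_le_log (Real.exp_pos _) h5
  rwa [Real.log_exp] at h6

theorem stmt_K1Y (hWS : Stmt_WS) : Stmt_K1Y := by
  classical
  obtain ⟨C, hC, hgen⟩ := N1_gen hWS
  refine ⟨4 * C, by positivity, ?_⟩
  intro κ hκ hκ1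
  obtain ⟨z0, hz016, hz0⟩ := hgen κ hκ (by linarith)
  refine ⟨z0, ?_⟩
  intro z hz x hx y hy v hv a S hS
  have hz16 : 16 ≤ z := le_trans hz016 hz
  obtain ⟨hly, -⟩ := yok_sizes hκ hκ1 hz16 hy
  obtain ⟨hlx, hcnt⟩ := hz0 z hz x hx
  set A : Finset ℕ := AY κ y z with hA
  have hlz : 0 < Real.log z := Real.log_pos (by exact_mod_cast (by omega : 1 < z))
  have hqpos : (0 : ℝ) < qq z 0 := by exact_mod_cast qq_pos z 0
  have hone : ∀ k ∈ KSY κ y z,
      (((S.filter fun n => ∀ p ∈ A, p ≤ y ^ (2 ^ k) → ¬ p ∣ n ^ 2 - 1).card : ℕ) : ℝ) ≤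
        C * (x * Real.log z / (qq z 0 * Real.log x)) * ((1 / 2) ^ k * (1 / 2) ^ k) := by
    intro k hk
    unfold KSY at hk
    rw [mem_filter] at hk
    have h1 := hcnt y hy.1 v hv (y ^ (2 ^ k)) (Nat.le_self_pow (by positivity) y) hk.2 a
      (S.filter fun n => ∀ p ∈ A, p ≤ y ^ (2 ^ k) → ¬ p ∣ n ^ 2 - 1) (fun n hn => by
        rw [mem_filter] at hn
        obtain ⟨h1, h2, h3, h4⟩ := hS n hn.1
        exact ⟨h1, h2, h3, h4, hn.2⟩)
    rw [log_thr hly] at h1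
    refine h1.trans (le_of_eq ?_)
    ring
  calc ∑ n ∈ S, Real.log (lp A (n ^ 2 - 1)) ≤ ∑ n ∈ S, ∑ k ∈ KSY κ y z, 2 ^ (k + 1) * Real.log y *
      (if ∀ p ∈ A, p ≤ y ^ (2 ^ k) → ¬ p ∣ n ^ 2 - 1 then (1 : ℝ) else 0) :=
        sum_le_sum fun n hn => log_lp_leY hκ hz16 hy.1 _ _ (lp_isLp _ _)
    _ = ∑ k ∈ KSY κ y z, 2 ^ (k + 1) * Real.log y *
        (((S.filter fun n => ∀ p ∈ A, p ≤ y ^ (2 ^ k) → ¬ p ∣ n ^ 2 - 1).card : ℕ) : ℝ) := by
        rw [sum_comm]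
        apply sum_congr rfl
        intro k _
        rw [← mul_sum, sum_boole]
    _ ≤ ∑ k ∈ KSY κ y z, 2 ^ (k + 1) * Real.log y *
        (C * (x * Real.log z / (qq z 0 * Real.log x)) * ((1 / 2) ^ k * (1 / 2) ^ k)) := by
        apply sum_le_sum
        intro k hk
        exact mul_le_mul_of_nonneg_left (hone k hk) (by positivity)
    _ ≤ 4 * Real.log y * (C * (x * Real.log z / (qq z 0 * Real.log x))) :=
        sum_thr κ y z _ (by positivity)
    _ = _ := by ring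

theorem stmt_N1Y (hWS : Stmt_WS) : Stmt_N1Y := by
  obtain ⟨C, hC, hgen⟩ := N1_gen hWS
  refine ⟨4 * C, by positivity, ?_⟩
  intro κ hκ hκ1
  obtain ⟨z0, hz016, hz0⟩ := hgen κ hκ (by linarith)
  refine ⟨z0, ?_⟩
  intro z hz x hx y hy v hv a S hS
  have hz16 : 16 ≤ z := le_trans hz016 hz
  obtain ⟨hly, hyw, hlw, hzk⟩ := yok_sizes hκ hκ1 hz16 hy
  obtain ⟨hlx, hcnt⟩ := hz0 z hz x hx
  have hlz : 0 < Real.log z := Real.log_pos (by exact_mod_cast (by omega : 1 < z))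
  have hqpos : (0 : ℝ) < qq z 0 := by exact_mod_cast qq_pos z 0
  have h1 := hcnt y hy.1 v hv (w1 κ z) hyw le_rfl a S (fun n hn => by
    obtain ⟨h1, h2, h3, h4⟩ := hS n hn
    exact ⟨h1, h2, h3, fun p hp => (h4 p hp).1, fun p hp _ => (h4 p hp).2⟩)
  refine h1.trans ?_
  have h2 : Real.log y / Real.log (w1 κ z) ≤ 2 * (Real.log y / (z : ℝ) ^ (1 - κ)) := by
    calc Real.log y / Real.log (w1 κ z) ≤ Real.log y / ((z : ℝ) ^ (1 - κ) / 2) := by gcongr
      _ = _ := by field_simp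
  have h3 : 0 < Real.log (w1 κ z) := lt_of_lt_of_le (by positivity) hlw
  calc C * (x * Real.log z / (qq z 0 * Real.log x)) * (Real.log y / Real.log (w1 κ z)) ^ 2 ≤
      C * (x * Real.log z / (qq z 0 * Real.log x)) *
        (2 * (Real.log y / (z : ℝ) ^ (1 - κ))) ^ 2 := by gcongr
    _ = _ := by ring

theorem stmt_K2Y (hWS : Stmt_WS) : Stmt_K2Y := by
  classical
  obtain ⟨C, hC, D, hD2, hk⟩ := ktoolsY hWS
  refine ⟨C * C, by positivity, ?_⟩
  intro κ hκ hκ1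
  obtain ⟨z0, hz016, hz0⟩ := hk κ hκ (by linarith)
  refine ⟨z0, ?_⟩
  intro z hz x hx y hy v hv e m he hm a S hS
  obtain ⟨hAP, hWW, hlx, hsieve, hm1, -⟩ := hz0 z hz x hx y hy.1
  set A : Finset ℕ := AY κ y z with hA
  set q : ℕ := qq z 0 with hq
  have hqpos : (0 : ℝ) < q := by exact_mod_cast qq_pos z 0
  set T : ℕ → Finset ℤ := fun p => if p ∈ A then {0} else {v p} with hT
  set w : ℕ → ℤ → ℝ := fun p _ => if p ∈ A then 1 - e p else 1 with hw
  have hsg : ∀ s ∈ sgn, -3 ≤ s ∧ s ≤ 3 := by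
    intro s hs
    unfold sgn at hs
    rw [mem_insert, mem_insert, mem_singleton] at hs
    omega
  have hTA : ∀ p, p ∈ A → T p = {0} := fun p hp => if_pos hp
  have hTn : ∀ p, p ∉ A → T p = {v p} := fun p hp => if_neg hp
  have hwA : ∀ p s, p ∈ A → w p s = 1 - e p := fun p s hp => if_pos hp
  have hwn : ∀ p s, p ∉ A → w p s = 1 := fun p s hp => if_neg hp
  have h1 := hsieve a T w (fun p hp => by
    by_cases hpA : p ∈ A
    · rw [hTA p hpA]
      refine ⟨by simp, fun s hs => ?_⟩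
      rw [mem_singleton] at hs
      rw [hs, hwA p 0 hpA]
      have := he p hpA
      exact ⟨by norm_num, by norm_num, by linarith, by linarith⟩
    · rw [hTn p hpA]
      refine ⟨by simp, fun s hs => ?_⟩
      rw [mem_singleton] at hs
      rw [hs, hwn p (v p) hpA]
      exact ⟨(hsg _ (hv p)).1, (hsg _ (hv p)).2, by norm_num, le_rfl⟩)
    S (fun n hn => ⟨(hS n hn).1, (hS n hn).2.1⟩)
  have h2 : ∑ n ∈ S, VV e A n = ∑ n ∈ S, ∏ p ∈ PW D z x, lw T w p n := by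
    apply sum_congr rfl
    intro n hn
    rw [← prod_sdiff hAP]
    have h3 : ∏ p ∈ PW D z x \ A, lw T w p n = 1 := by
      apply prod_eq_one
      intro p hp
      rw [mem_sdiff, mem_PW] at hp
      obtain ⟨hpP, hpA⟩ := hp
      unfold lw
      rw [hTn p hpA, sum_singleton, if_neg, sub_zero]
      exact (hS n hn).2.2 p hpP.2 (le_trans (Nat.mul_le_mul hpP.1.2 hpP.1.2) hWW) hpA
    rw [h3, one_mul]
    unfold VV
    apply prod_congr rfl
    intro p hp
    unfold lw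
    rw [hTA p hp, sum_singleton, hwA p 0 hp]
    have h4 : cl p 0 n ↔ p ∣ n := by
      unfold cl
      rw [sub_zero]
      exact Int.natCast_dvd_natCast
    by_cases h5 : p ∣ n
    · rw [if_pos h5, if_pos (h4.mpr h5)]; ring
    · rw [if_neg h5, if_neg (fun h => h5 (h4.mp h))]; ring
  rw [h2]
  refine h1.trans ?_
  have h3 : ∑ p ∈ PW D z x, 1 / (p : ℝ) - m ≤ ∑ p ∈ PW D z x, (∑ s ∈ T p, w p s) / p := by
    have h4 : ∑ p ∈ A, e p / (p : ℝ) = ∑ p ∈ PW D z x, if p ∈ A then e p / (p : ℝ) else 0 := by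
      rw [← sum_filter]
      have h5 : (PW D z x).filter (fun p => p ∈ A) = A := by
        ext p
        constructor
        · intro h
          exact (mem_filter.mp h).2
        · intro h
          exact mem_filter.mpr ⟨hAP h, h⟩
      rw [h5]
    have h5 : ∑ p ∈ PW D z x, 1 / (p : ℝ) - ∑ p ∈ A, e p / (p : ℝ) =
        ∑ p ∈ PW D z x, (∑ s ∈ T p, w p s) / p := by
      rw [h4, ← sum_sub_distrib]
      apply sum_congr rfl
      intro p _
      by_cases hpA : p ∈ A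
      · rw [if_pos hpA, hTA p hpA, sum_singleton, hwA p 0 hpA]; ring
      · rw [if_neg hpA, hTn p hpA, sum_singleton, hwn p (v p) hpA]; ring
    linarith
  have h4 : Real.exp (-∑ p ∈ PW D z x, (∑ s ∈ T p, w p s) / p) ≤
      C * (Real.log z / Real.log x) * Real.exp m := by
    calc Real.exp (-∑ p ∈ PW D z x, (∑ s ∈ T p, w p s) / p) ≤
        Real.exp (-∑ p ∈ PW D z x, 1 / (p : ℝ) + m) := by
          apply Real.exp_le_exp.mpr
          linarith
      _ = Real.exp (-∑ p ∈ PW D z x, 1 / (p : ℝ)) * Real.exp m := Real.exp_add _ _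
      _ ≤ _ := mul_le_mul_of_nonneg_right hm1 (Real.exp_pos _).le
  calc C * ((x : ℝ) / q) * Real.exp (-∑ p ∈ PW D z x, (∑ s ∈ T p, w p s) / p) ≤
      C * ((x : ℝ) / q) * (C * (Real.log z / Real.log x) * Real.exp m) := by gcongr
    _ = _ := by field_simp

/-- twins without a killer (of one kind) up to `y` -/
theorem N3_gen (hWS : Stmt_WS) : ∃ C : ℝ, 0 < C ∧ ∀ κ : ℝ, 0 < κ → κ ≤ 1 / 10 →
    ∃ z0 : ℕ, 16 ≤ z0 ∧ ∀ z : ℕ, z0 ≤ z → ∀ x : ℕ, InR κ z x → 0 < Real.log x ∧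
    ∀ y0 : ℕ, z ^ 2 ≤ y0 → ∀ v : ℕ → ℤ, (∀ p, v p ∈ sgn) →
    ∀ y : ℕ, y0 ≤ y → y ≤ w1 κ z → ∀ a : ℕ, ∀ S : Finset ℕ, ∀ (s0 : ℤ) (g : ℕ → ℕ),
      (s0 = 1 ∨ s0 = -3) → (∀ n ∈ S, ∀ p : ℕ, cl p s0 n → p ∣ g n) →
      (∀ n ∈ S, n ∈ Ioc x (2 * x) ∧ n ≡ a [MOD qq z 0] ∧ SurvF v (AY κ y0 z) x n ∧
        SurvF v (AY κ y0 z) x (n + 2) ∧ (∀ p ∈ AY κ y0 z, ¬ p ∣ n ∧ ¬ p ∣ n + 2) ∧
        ∀ p ∈ AY κ y0 z, p ≤ y → ¬ p ∣ g n) →
      (S.card : ℝ) ≤ C * (x * Real.log z ^ 2 / (qq z 0 * Real.log x ^ 2)) *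
        (Real.log y0 / Real.log y) := by
  classical
  obtain ⟨C, hC, D, hD2, hk⟩ := kcountY hWS
  refine ⟨C ^ 4, by positivity, ?_⟩
  intro κ hκ hκ1
  obtain ⟨z0, hz016, hz0⟩ := hk κ hκ hκ1
  refine ⟨z0, hz016, ?_⟩
  intro z hz x hx
  have hlx0 := (hz0 z hz x hx (z ^ 2) le_rfl).2.2.1
  refine ⟨hlx0, ?_⟩
  intro y0 hy0 v hv y hyy hyw a S s0 g hs0 hg hS
  obtain ⟨hAP, hWW, hlx, hcount⟩ := hz0 z hz x hx y0 hy0
  set A : Finset ℕ := AY κ y0 z with hA
  set q : ℕ := qq z 0 with hq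
  have hz16 : 16 ≤ z := le_trans hz016 hz
  have hlz : 0 < Real.log z := Real.log_pos (by exact_mod_cast (by omega : 1 < z))
  have hqpos : (0 : ℝ) < q := by exact_mod_cast qq_pos z 0
  have hsg : ∀ s ∈ sgn, -1 ≤ s ∧ s ≤ 1 := by
    intro s hs
    unfold sgn at hs
    rw [mem_insert, mem_insert, mem_singleton] at hs
    omega
  set T : ℕ → Finset ℤ := fun p => if p ∈ A ∧ p ≤ y then {0, -2, s0} else
    if p ∈ A then {0, -2} else {v p, v p - 2} with hT
  have hT1 : ∀ p, p ∈ A ∧ p ≤ y → T p = {0, -2, s0} := fun p hp => if_pos hp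
  have hT2 : ∀ p, ¬ (p ∈ A ∧ p ≤ y) → p ∈ A → T p = {0, -2} := fun p hp hpA => by
    rw [hT]
    show (if p ∈ A ∧ p ≤ y then ({0, -2, s0} : Finset ℤ) else
      if p ∈ A then {0, -2} else {v p, v p - 2}) = _
    rw [if_neg hp, if_pos hpA]
  have hT3 : ∀ p, ¬ (p ∈ A ∧ p ≤ y) → p ∉ A → T p = {v p, v p - 2} := fun p hp hpA => by
    rw [hT]
    show (if p ∈ A ∧ p ≤ y then ({0, -2, s0} : Finset ℤ) else
      if p ∈ A then {0, -2} else {v p, v p - 2}) = _
    rw [if_neg hp, if_neg hpA]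
  have h1 := hcount a 1 2 y hyy hyw T (fun p hp => by
    by_cases hpR : p ∈ A ∧ p ≤ y
    · rw [hT1 p hpR]
      rcases hs0 with rfl | rfl
      · refine ⟨by decide, ?_, by decide, fun _ _ => by decide⟩
        intro s hs
        rw [mem_insert, mem_insert, mem_singleton] at hs
        omega
      · refine ⟨by decide, ?_, by decide, fun _ _ => by decide⟩
        intro s hs
        rw [mem_insert, mem_insert, mem_singleton] at hs
        omega
    · by_cases hpA : p ∈ A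
      · rw [hT2 p hpR hpA]
        refine ⟨by decide, ?_, by decide, fun _ h => absurd ⟨hpA, h⟩ hpR⟩
        intro s hs
        rw [mem_insert, mem_singleton] at hs
        omega
      · rw [hT3 p hpR hpA]
        have hne : v p ≠ v p - 2 := by omega
        have hc : ({v p, v p - 2} : Finset ℤ).card = 2 := card_pair hne
        refine ⟨by omega, ?_, by omega, fun h => absurd h hpA⟩
        intro s hs
        rw [mem_insert, mem_singleton] at hs
        have := hsg _ (hv p)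
        omega)
    S (fun n hn => by
      obtain ⟨hn1, hn1', hn2, hn2', hn3, hn4⟩ := hS n hn
      refine ⟨hn1, hn1', ?_⟩
      intro p hp s hs hcl
      rw [mem_PW] at hp
      have h0 : cl p 0 n → p ∣ n := by
        intro h
        unfold cl at h
        rw [sub_zero] at h
        exact_mod_cast h
      have h2 : cl p (-2) n → p ∣ n + 2 := by
        intro h
        unfold cl at h
        rw [sub_neg_eq_add] at h
        exact_mod_cast h
      by_cases hpR : p ∈ A ∧ p ≤ y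
      · rw [hT1 p hpR, mem_insert, mem_insert, mem_singleton] at hs
        rcases hs with h | h | h
        · rw [h] at hcl
          exact (hn3 p hpR.1).1 (h0 hcl)
        · rw [h] at hcl
          exact (hn3 p hpR.1).2 (h2 hcl)
        · rw [h] at hcl
          exact hn4 p hpR.1 hpR.2 (hg n hn p hcl)
      · by_cases hpA : p ∈ A
        · rw [hT2 p hpR hpA, mem_insert, mem_singleton] at hs
          rcases hs with h | h
          · rw [h] at hcl
            exact (hn3 p hpA).1 (h0 hcl)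
          · rw [h] at hcl
            exact (hn3 p hpA).2 (h2 hcl)
        · rw [hT3 p hpR hpA, mem_insert, mem_singleton] at hs
          have hpp : p * p ≤ x := le_trans (Nat.mul_le_mul hp.1.2 hp.1.2) hWW
          rcases hs with h | h
          · rw [h] at hcl
            exact hn2 p hp.2 hpp hpA hcl
          · rw [h] at hcl
            apply hn2' p hp.2 hpp hpA
            unfold cl at hcl
            have e : ((n + 2 : ℕ) : ℤ) - v p = (n : ℤ) - (v p - 2) := by push_cast; ring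
            rw [e]
            exact hcl)
  refine h1.trans (le_of_eq ?_)
  field_simp

theorem K3Y_gen (hWS : Stmt_WS) : ∃ C : ℝ, 0 < C ∧ ∀ κ : ℝ, 0 < κ → κ ≤ 1 / 50 →
    ∃ z0 : ℕ, ∀ z : ℕ, z0 ≤ z →
    ∀ x : ℕ, InR κ z x → ∀ y : ℕ, YOk κ y z → ∀ v : ℕ → ℤ, (∀ p, v p ∈ sgn) →
    ∀ a : ℕ, ∀ S : Finset ℕ,
      (∀ n ∈ S, n ∈ Ioc x (2 * x) ∧ n ≡ a [MOD qq z 0] ∧ SurvF v (AY κ y z) x n ∧
        SurvF v (AY κ y z) x (n + 2) ∧ ∀ p ∈ AY κ y z, ¬ p ∣ n ∧ ¬ p ∣ n + 2) →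
      ∀ (s0 : ℤ) (g : ℕ → ℕ), (s0 = 1 ∨ s0 = -3) →
      (∀ n ∈ S, ∀ p : ℕ, cl p s0 n → p ∣ g n) →
      ∑ n ∈ S, Real.log (lp (AY κ y z) (g n)) ≤
        C * Real.log y * Real.log z ^ 3 * (x / (qq z 0 * Real.log x ^ 2)) := by
  classical
  obtain ⟨C, hC, hgen⟩ := N3_gen hWS
  refine ⟨4 * C, by positivity, ?_⟩
  intro κ hκ hκ1
  obtain ⟨z0, hz016, hz0⟩ := hgen κ hκ (by linarith)
  refine ⟨z0, ?_⟩
  intro z hz x hx y hy v hv a S hS s0 g hs0 hg
  have hz16 : 16 ≤ z := le_trans hz016 hz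
  obtain ⟨hly, -⟩ := yok_sizes hκ hκ1 hz16 hy
  obtain ⟨hlx, hcnt⟩ := hz0 z hz x hx
  set A : Finset ℕ := AY κ y z with hA
  have hlz : 0 < Real.log z := Real.log_pos (by exact_mod_cast (by omega : 1 < z))
  have hqpos : (0 : ℝ) < qq z 0 := by exact_mod_cast qq_pos z 0
  set X : ℝ := C * (x * Real.log z ^ 2 / (qq z 0 * Real.log x ^ 2)) with hX
  have hX0 : 0 ≤ X := by positivity
  have hone : ∀ k ∈ KSY κ y z,
      (((S.filter fun n => ∀ p ∈ A, p ≤ y ^ (2 ^ k) → ¬ p ∣ g n).card : ℕ) : ℝ) ≤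
        X * (1 / 2) ^ k := by
    intro k hk
    unfold KSY at hk
    rw [mem_filter] at hk
    have h1 := hcnt y hy.1 v hv (y ^ (2 ^ k)) (Nat.le_self_pow (by positivity) y) hk.2 a
      (S.filter fun n => ∀ p ∈ A, p ≤ y ^ (2 ^ k) → ¬ p ∣ g n) s0 g hs0
      (fun n hn => hg n (mem_filter.mp hn).1) (fun n hn => by
        rw [mem_filter] at hn
        obtain ⟨h1, h2, h3, h4, h5⟩ := hS n hn.1
        exact ⟨h1, h2, h3, h4, h5, hn.2⟩)
    rw [log_thr hly] at h1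
    exact h1
  calc ∑ n ∈ S, Real.log (lp A (g n)) ≤ ∑ n ∈ S, ∑ k ∈ KSY κ y z, 2 ^ (k + 1) * Real.log y *
      (if ∀ p ∈ A, p ≤ y ^ (2 ^ k) → ¬ p ∣ g n then (1 : ℝ) else 0) :=
        sum_le_sum fun n hn => log_lp_leY hκ hz16 hy.1 _ _ (lp_isLp _ _)
    _ = ∑ k ∈ KSY κ y z, 2 ^ (k + 1) * Real.log y *
        (((S.filter fun n => ∀ p ∈ A, p ≤ y ^ (2 ^ k) → ¬ p ∣ g n).card : ℕ) : ℝ) := by
        rw [sum_comm]
        apply sum_congr rfl
        intro k _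
        rw [← mul_sum, sum_boole]
    _ ≤ ∑ k ∈ KSY κ y z, 2 ^ (k + 1) * Real.log y * (X * (1 / 2) ^ k) := by
        apply sum_le_sum
        intro k hk
        exact mul_le_mul_of_nonneg_left (hone k hk) (by positivity)
    _ = 2 * Real.log y * X * (KSY κ y z).card := by
        have e5 : 2 * Real.log y * X * (KSY κ y z).card = ∑ k ∈ KSY κ y z,
              2 * Real.log y * X := by
          rw [sum_const, nsmul_eq_mul]; ring
        rw [e5]
        apply sum_congr rfl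
        intro k _
        have e4 : (2 : ℝ) ^ k * (1 / 2) ^ k = 1 := by
          rw [← mul_pow]; norm_num
        calc (2 : ℝ) ^ (k + 1) * Real.log y * (X * (1 / 2) ^ k) =
            2 * ((2 : ℝ) ^ k * (1 / 2) ^ k) * (Real.log y * X) := by ring
          _ = _ := by rw [e4]; ring
    _ ≤ 2 * Real.log y * X * (2 * Real.log z) := by
        apply mul_le_mul_of_nonneg_left (card_KSY hκ hz16 hy.1)
        positivity
    _ = _ := by rw [hX]; ring

theorem stmt_K3Y (hWS : Stmt_WS) : Stmt_K3Y := by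
  obtain ⟨C, hC, h⟩ := K3Y_gen hWS
  refine ⟨2 * C, by positivity, ?_⟩
  intro κ hκ hκ1
  obtain ⟨z0, hz0⟩ := h κ hκ hκ1
  refine ⟨z0, ?_⟩
  intro z hz x hx y hy v hv a S hS
  have h1 := hz0 z hz x hx y hy v hv a S hS 1 (fun n => n - 1) (Or.inl rfl) (fun n hn p hcl => by
    obtain ⟨hn1, -⟩ := hS n hn
    rw [mem_Ioc] at hn1
    unfold cl at hcl
    rw [← Int.natCast_dvd_natCast, Nat.cast_sub (by omega)]
    push_cast
    exact hcl)
  have h2 := hz0 z hz x hx y hy v hv a S hS (-3) (fun n => n + 3) (Or.inr rfl) (fun n hn p hcl => by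
    unfold cl at hcl
    rw [← Int.natCast_dvd_natCast]
    push_cast
    rw [sub_neg_eq_add] at hcl
    exact hcl)
  rw [sum_add_distrib]
  linarith

theorem stmt_N3Y (hWS : Stmt_WS) : Stmt_N3Y := by
  classical
  obtain ⟨C, hC, hgen⟩ := N3_gen hWS
  refine ⟨4 * C, by positivity, ?_⟩
  intro κ hκ hκ1
  obtain ⟨z0, hz016, hz0⟩ := hgen κ hκ (by linarith)
  refine ⟨z0, ?_⟩
  intro z hz x hx y hy v hv a S hS
  have hz16 : 16 ≤ z := le_trans hz016 hz
  obtain ⟨hly, hyw, hlw, hzk⟩ := yok_sizes hκ hκ1 hz16 hy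
  obtain ⟨hlx, hcnt⟩ := hz0 z hz x hx
  have hlz : 0 < Real.log z := Real.log_pos (by exact_mod_cast (by omega : 1 < z))
  have hqpos : (0 : ℝ) < qq z 0 := by exact_mod_cast qq_pos z 0
  have hn0 : ∀ n ∈ S, 1 ≤ n := by
    intro n hn
    have := (hS n hn).1
    rw [mem_Ioc] at this
    omega
  have h1 := hcnt y hy.1 v hv (w1 κ z) hyw le_rfl a
    (S.filter fun n => ∀ p ∈ AY κ y z, ¬ p ∣ n - 1) 1 (fun n => n - 1) (Or.inl rfl)
    (fun n hn p hcl => by
      have := hn0 n (mem_filter.mp hn).1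
      unfold cl at hcl
      rw [← Int.natCast_dvd_natCast, Nat.cast_sub (by omega)]
      push_cast
      exact hcl)
    (fun n hn => by
      rw [mem_filter] at hn
      obtain ⟨h1, h2, h3, h4, h5, -⟩ := hS n hn.1
      exact ⟨h1, h2, h3, h4, h5, fun p hp _ => hn.2 p hp⟩)
  have h2 := hcnt y hy.1 v hv (w1 κ z) hyw le_rfl a
    (S.filter fun n => ∀ p ∈ AY κ y z, ¬ p ∣ n + 3) (-3) (fun n => n + 3) (Or.inr rfl)
    (fun n hn p hcl => by
      unfold cl at hcl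
      rw [← Int.natCast_dvd_natCast]
      push_cast
      rw [sub_neg_eq_add] at hcl
      exact hcl)
    (fun n hn => by
      rw [mem_filter] at hn
      obtain ⟨h1, h2, h3, h4, h5, -⟩ := hS n hn.1
      exact ⟨h1, h2, h3, h4, h5, fun p hp _ => hn.2 p hp⟩)
  have hcov : S ⊆ (S.filter fun n => ∀ p ∈ AY κ y z, ¬ p ∣ n - 1) ∪
      (S.filter fun n => ∀ p ∈ AY κ y z, ¬ p ∣ n + 3) := by
    intro n hn
    rw [mem_union, mem_filter, mem_filter]
    rcases (hS n hn).2.2.2.2.2 with h | h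
    · exact Or.inl ⟨hn, h⟩
    · exact Or.inr ⟨hn, h⟩
  have h3 := (card_le_card hcov).trans (card_union_le _ _)
  have h4 : (S.card : ℝ) ≤ ((S.filter fun n => ∀ p ∈ AY κ y z, ¬ p ∣ n - 1).card : ℝ) +
      ((S.filter fun n => ∀ p ∈ AY κ y z, ¬ p ∣ n + 3).card : ℝ) := by exact_mod_cast h3
  have h5 : Real.log y / Real.log (w1 κ z) ≤ 2 * (Real.log y / (z : ℝ) ^ (1 - κ)) := by
    calc Real.log y / Real.log (w1 κ z) ≤ Real.log y / ((z : ℝ) ^ (1 - κ) / 2) := by gcongr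
      _ = _ := by field_simp
  have h6 : C * (x * Real.log z ^ 2 / (qq z 0 * Real.log x ^ 2)) *
      (Real.log y / Real.log (w1 κ z)) ≤ C * (x * Real.log z ^ 2 / (qq z 0 * Real.log x ^ 2)) *
      (2 * (Real.log y / (z : ℝ) ^ (1 - κ))) := by gcongr
  calc (S.card : ℝ) ≤ 2 * (C * (x * Real.log z ^ 2 / (qq z 0 * Real.log x ^ 2)) *
      (2 * (Real.log y / (z : ℝ) ^ (1 - κ)))) := by linarith
    _ = _ := by ring

end Pool.Agent.Work.MP_b0c12c_nt_sparse
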