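import Mathlib
import Pool.Agent.Work.MP_b0c12c_nt_sparse.Interface

/-!
# Version 2: general lower cut `y` for the random primes (polylogarithmically many moved primes)
-/

set_option autoImplicit false

namespace Pool.Agent.Work.MP_b0c12c_nt_sparse

open Finset Filter
open Pool.Agent.Work.MP_b0c12c_nt_shift

/-- The random primes `y < p ≤ exp (z ^ (1 - κ))`. -/
noncomputable def AY (κ : ℝ) (y z : ℕ) : Finset ℕ := (Ioc y (w1 κ z)).filter Nat.Prime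

/-- admissible cut -/
def YOk (κ : ℝ) (y z : ℕ) : Prop := z ^ 2 ≤ y ∧ Real.log y ≤ (z : ℝ) ^ (1 - 2 * κ)

/-- the cost function `lam` -/
structure LamOk (lam : ℝ → ℝ) (u0 K : ℝ) : Prop where
  u0_ge : 1 ≤ u0
  K_ge : 1 ≤ K
  one_le : ∀ u : ℝ, u0 ≤ u → 1 ≤ lam u
  mono : ∀ u v : ℝ, u0 ≤ u → u ≤ v → lam u ≤ lam v
  sub : ∀ t u : ℝ, 1 ≤ t → u0 ≤ u → lam (t * u) ≤ K * (t * lam u)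

/-- the law of the shifts -/
structure PiOk (π : ℕ → ℤ → ℝ) (lam : ℝ → ℝ) : Prop where
  nonneg : ∀ p s, 0 ≤ π p s
  sum_one : ∀ p, π p (-1) + π p 0 + π p 1 = 1
  half : ∃ P : ℕ, ∀ p : ℕ, p.Prime → P ≤ p → 1 / 2 ≤ π p 0
  low : ∃ P : ℕ, ∀ p : ℕ, p.Prime → P ≤ p →
    Real.exp (-lam (Real.log p)) ≤ π p 1 ∧ Real.exp (-lam (Real.log p)) ≤ π p (-1)
  mass : Summable fun p : ℕ => if p.Prime then ep π p / p else 0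

/-- the logarithm `ell t` of the smallest killers used at `log log x = t` -/
structure EllOk (lam ell : ℝ → ℝ) (u0 δ t0 : ℝ) : Prop where
  δ_pos : 0 < δ
  δ_le : δ ≤ 1
  ge : ∀ t : ℝ, t0 ≤ t → u0 ≤ ell t
  mono : ∀ t t' : ℝ, t0 ≤ t → t ≤ t' → ell t ≤ ell t' ∧ ell t' ≤ Real.exp (t' - t) * ell t
  size : ∀ t : ℝ, t0 ≤ t → ell t ^ 2 ≤ lam (ell t) * Real.exp ((1 - δ) * t)
  room : ∀ t : ℝ, t0 ≤ t → ∀ u : ℝ, ell t ≤ u →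
    4 * t - 2 * Real.log (lam (ell t)) + δ * t ≤ u - lam u

/-- Block K1Y. -/
def Stmt_K1Y : Prop :=
  ∃ C : ℝ, 0 < C ∧ ∀ κ : ℝ, 0 < κ → κ ≤ 1 / 50 → ∃ z0 : ℕ, ∀ z : ℕ, z0 ≤ z →
    ∀ x : ℕ, InR κ z x → ∀ y : ℕ, YOk κ y z → ∀ v : ℕ → ℤ, (∀ p, v p ∈ sgn) →
    ∀ a : ℕ, ∀ S : Finset ℕ,
      (∀ n ∈ S, n ∈ Ioc x (2 * x) ∧ n ≡ a [MOD qq z 0] ∧ SurvF v (AY κ y z) x n ∧
        ∀ p ∈ AY κ y z, ¬ p ∣ n) →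
      ∑ n ∈ S, Real.log (lp (AY κ y z) (n ^ 2 - 1)) ≤
        C * Real.log y * (x * Real.log z / (qq z 0 * Real.log x))

/-- Block N1Y. Members without killers. -/
def Stmt_N1Y : Prop :=
  ∃ C : ℝ, 0 < C ∧ ∀ κ : ℝ, 0 < κ → κ ≤ 1 / 50 → ∃ z0 : ℕ, ∀ z : ℕ, z0 ≤ z →
    ∀ x : ℕ, InR κ z x → ∀ y : ℕ, YOk κ y z → ∀ v : ℕ → ℤ, (∀ p, v p ∈ sgn) →
    ∀ a : ℕ, ∀ S : Finset ℕ,
      (∀ n ∈ S, n ∈ Ioc x (2 * x) ∧ n ≡ a [MOD qq z 0] ∧ SurvF v (AY κ y z) x n ∧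
        ∀ p ∈ AY κ y z, ¬ p ∣ n ∧ ¬ p ∣ n ^ 2 - 1) →
      (S.card : ℝ) ≤ C * (Real.log y / (z : ℝ) ^ (1 - κ)) ^ 2 *
        (x * Real.log z / (qq z 0 * Real.log x))

/-- Block K2Y. -/
def Stmt_K2Y : Prop :=
  ∃ C : ℝ, 0 < C ∧ ∀ κ : ℝ, 0 < κ → κ ≤ 1 / 50 → ∃ z0 : ℕ, ∀ z : ℕ, z0 ≤ z →
    ∀ x : ℕ, InR κ z x → ∀ y : ℕ, YOk κ y z → ∀ v : ℕ → ℤ, (∀ p, v p ∈ sgn) →
    ∀ (e : ℕ → ℝ) (m : ℝ),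
      (∀ p ∈ AY κ y z, 0 ≤ e p ∧ e p ≤ 1) → ∑ p ∈ AY κ y z, e p / p ≤ m →
      ∀ a : ℕ, ∀ S : Finset ℕ,
      (∀ n ∈ S, n ∈ Ioc x (2 * x) ∧ n ≡ a [MOD qq z 0] ∧ SurvF v (AY κ y z) x n) →
      ∑ n ∈ S, VV e (AY κ y z) n ≤
        C * Real.exp m * (x * Real.log z / (qq z 0 * Real.log x))

/-- Block K3Y. Twins. -/
def Stmt_K3Y : Prop :=
  ∃ C : ℝ, 0 < C ∧ ∀ κ : ℝ, 0 < κ → κ ≤ 1 / 50 → ∃ z0 : ℕ, ∀ z : ℕ, z0 ≤ z →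
    ∀ x : ℕ, InR κ z x → ∀ y : ℕ, YOk κ y z → ∀ v : ℕ → ℤ, (∀ p, v p ∈ sgn) →
    ∀ a : ℕ, ∀ S : Finset ℕ,
      (∀ n ∈ S, n ∈ Ioc x (2 * x) ∧ n ≡ a [MOD qq z 0] ∧ SurvF v (AY κ y z) x n ∧
        SurvF v (AY κ y z) x (n + 2) ∧ ∀ p ∈ AY κ y z, ¬ p ∣ n ∧ ¬ p ∣ n + 2) →
      ∑ n ∈ S, (Real.log (lp (AY κ y z) (n - 1)) + Real.log (lp (AY κ y z) (n + 3))) ≤
        C * Real.log y * Real.log z ^ 3 * (x / (qq z 0 * Real.log x ^ 2))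

/-- Block N3Y. Twins without killers. -/
def Stmt_N3Y : Prop :=
  ∃ C : ℝ, 0 < C ∧ ∀ κ : ℝ, 0 < κ → κ ≤ 1 / 50 → ∃ z0 : ℕ, ∀ z : ℕ, z0 ≤ z →
    ∀ x : ℕ, InR κ z x → ∀ y : ℕ, YOk κ y z → ∀ v : ℕ → ℤ, (∀ p, v p ∈ sgn) →
    ∀ a : ℕ, ∀ S : Finset ℕ,
      (∀ n ∈ S, n ∈ Ioc x (2 * x) ∧ n ≡ a [MOD qq z 0] ∧ SurvF v (AY κ y z) x n ∧
        SurvF v (AY κ y z) x (n + 2) ∧ (∀ p ∈ AY κ y z, ¬ p ∣ n ∧ ¬ p ∣ n + 2) ∧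
        ((∀ p ∈ AY κ y z, ¬ p ∣ n - 1) ∨ ∀ p ∈ AY κ y z, ¬ p ∣ n + 3)) →
      (S.card : ℝ) ≤ C * (Real.log y / (z : ℝ) ^ (1 - κ)) * Real.log z ^ 2 *
        (x / (qq z 0 * Real.log x ^ 2))

/-- Block ROWSY (assembly of K1Y, N1Y, K2Y, K3Y, N3Y, COL). -/
def Stmt_ROWSY : Prop :=
  ∀ (π : ℕ → ℤ → ℝ) (lam : ℝ → ℝ) (u0 K : ℝ), LamOk lam u0 K → PiOk π lam →
    ∀ κ : ℝ, 0 < κ → κ ≤ 1 / 50 → ∀ τ : ℝ, 0 < τ → ∃ g : ℝ, 0 < g ∧ g ≤ 1 ∧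
    ∃ z0 : ℕ, ∀ z : ℕ, z0 ≤ z → ∀ x U y : ℕ, InR κ z x → YOk κ y z → z ≤ U →
    (U : ℝ) * lam (Real.log y) ≤ g * Real.log x ^ 2 →
    (U : ℝ) * Real.log y ^ 2 ≤ (z : ℝ) ^ (2 - 3 * κ) * Real.log x →
    ∀ v : ℕ → ℤ, (∀ p, v p ∈ sgn) → ∀ b : ℕ, IsB v z 0 b →
    ∃ R : Finset ℕ, R ⊆ rows x (qq z 0) b U ∧ (x : ℝ) / qq z 0 / 4 ≤ R.card ∧ ∀ r ∈ R,
      cost π (fun p => lam (Real.log p)) (AY κ y z)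
        (Sur v (AY κ y z) x U (r * qq z 0 + b)) ≤ τ * Real.log x ∧
      HasKillers (AY κ y z) (Sur v (AY κ y z) x U (r * qq z 0 + b))

/-- Block PCY. Pairs of rows with common primes. -/
def Stmt_PCY : Prop :=
  ∀ κ η : ℝ, 0 < κ → κ ≤ 1 / 50 → 0 < η → η ≤ 1 / 2 → ∃ C : ℝ, 0 < C ∧ ∃ z0 : ℕ, ∀ z : ℕ, z0 ≤ z →
    ∀ x U y b : ℕ, InR κ z x → b < qq z 0 → z ≤ y →
    (∀ p ∈ AY κ y z, ((U : ℝ) + 2) ^ 2 ≤ (p : ℝ) ^ (1 - η)) →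
    ∀ Lam : ℕ → ℝ, (∀ p ∈ AY κ y z, 1 ≤ Lam p) →
    ∑ rr ∈ (rows x (qq z 0) b U ×ˢ rows x (qq z 0) b U).filter (fun rr =>
        ((∏ p ∈ Dset (AY κ y z) U (rr.1 * qq z 0 + b) ∩
          Dset (AY κ y z) U (rr.2 * qq z 0 + b), p : ℕ) : ℝ) ≤ x / qq z 0),
      ((∏ p ∈ Dset (AY κ y z) U (rr.1 * qq z 0 + b) ∩
          Dset (AY κ y z) U (rr.2 * qq z 0 + b), Lam p) - 1) ≤
      C * (x / qq z 0) ^ 2 *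
        (Real.exp (∑ p ∈ AY κ y z, Lam p * ((U : ℝ) + 2) ^ 2 / (p : ℝ) ^ 2) - 1) ∧
    (((rows x (qq z 0) b U ×ˢ rows x (qq z 0) b U).filter (fun rr => (x : ℝ) / qq z 0 <
        ((∏ p ∈ Dset (AY κ y z) U (rr.1 * qq z 0 + b) ∩
          Dset (AY κ y z) U (rr.2 * qq z 0 + b), p : ℕ) : ℝ))).card : ℝ) ≤
      (x / qq z 0) ^ 2 * (x : ℝ) ^ (-(η / 3))

/-- Block SCSY (assembly of ROWSY, CLS, SMG, PCY). -/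
def Stmt_SCSY : Prop :=
  ∀ (π : ℕ → ℤ → ℝ) (lam ell : ℝ → ℝ) (u0 K δ t0 : ℝ), LamOk lam u0 K → PiOk π lam →
    EllOk lam ell u0 δ t0 → ∃ c : ℝ, 0 < c ∧
    ∀ ε : ℝ, 0 < ε → ∀ x0 : ℕ, ∃ x U : ℕ, x0 ≤ x ∧
      c * Real.log x ^ 2 / lam (ell (Real.log (Real.log x))) + 1 ≤ U ∧
      EA π (PX x) (ind {w | ∀ N : ℕ, x ≤ N → N + U ≤ 2 * x → w ∉ Emp x U N}) 0 ≤ ε

end Pool.Agent.Work.MP_b0c12c_nt_sparse
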