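import Mathlib
import Pool.Agent.Work.MP_b0c12c_nt_sparse.ROWS
import Pool.Agent.Work.MP_b0c12c_nt_sparse.V2

/-!
# Block ROWSY: good rows, general lower cut
-/

set_option autoImplicit false

namespace Pool.Agent.Work.MP_b0c12c_nt_sparse

open Finset Filter
open Pool.Agent.Work.MP_b0c12c_nt_shift

namespace ROWSYaux

open RWaux MTaux ROWSaux

lemma mem_AY {κ : ℝ} {y z p : ℕ} : p ∈ AY κ y z ↔ (y < p ∧ p ≤ w1 κ z) ∧ p.Prime := by
  unfold AY
  rw [mem_filter, mem_Ioc]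

lemma ep_nonneg {π : ℕ → ℤ → ℝ} {lam : ℝ → ℝ} (h : PiOk π lam) (p : ℕ) :
    0 ≤ ep π p := add_nonneg (h.nonneg p _) (h.nonneg p _)

lemma ep_le_one {π : ℕ → ℤ → ℝ} {lam : ℝ → ℝ} (h : PiOk π lam) (p : ℕ) :
    ep π p ≤ 1 := by
  have h1 := h.sum_one p
  have h2 := h.nonneg p 0
  unfold ep
  linarith

/-- the total moved mass bounds the mass of every finite set of primes -/
lemma mass_le {π : ℕ → ℤ → ℝ} {lam : ℝ → ℝ} (h : PiOk π lam) :
    ∃ m : ℝ, ∀ A : Finset ℕ, (∀ p ∈ A, p.Prime) → ∑ p ∈ A, ep π p / p ≤ m := by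
  refine ⟨∑' p : ℕ, (if p.Prime then ep π p / p else 0), fun A hA => ?_⟩
  have h1 : ∑ p ∈ A, ep π p / (p : ℝ) = ∑ p ∈ A, (if p.Prime then ep π p / (p : ℝ) else 0) :=
    sum_congr rfl fun p hp => by rw [if_pos (hA p hp)]
  rw [h1]
  exact h.mass.sum_le_tsum _ fun p _ => by
    split_ifs
    · exact div_nonneg (ep_nonneg h p) (Nat.cast_nonneg p)
    · exact le_rfl

lemma col_memY {A : Finset ℕ} {z x U b r n : ℕ} {v : ℕ → ℤ} (hA : ∀ p ∈ A, z < p)
    (hzx : z * z ≤ x) (hb : IsB v z 0 b)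
    (hn : n ∈ Sur v A x U (r * qq z 0 + b)) :
    n - (r * qq z 0 + b) ∈ (Icc 2 U).filter (fun j => j.Coprime (qq z 0)) := by
  classical
  unfold Sur at hn
  rw [mem_filter, mem_Ioc] at hn
  obtain ⟨⟨h1, h2⟩, h3⟩ := hn
  rw [mem_filter, mem_Icc]
  refine ⟨⟨by omega, by omega⟩, ?_⟩
  by_contra hcon
  rw [Nat.Prime.not_coprime_iff_dvd] at hcon
  obtain ⟨p, hp, h4, h5⟩ := hcon
  obtain ⟨h6, h7⟩ := mem_qq hp h5
  have h8 : p * p ≤ x := (Nat.mul_le_mul h6 h6).trans hzx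
  have h9 : p ∉ A := by
    intro h
    have := hA p h
    omega
  apply h3 p hp h8 h9
  have h10 := hb.2 p hp h6 h7
  have h11 : (n : ℤ) - v p = ((n - (r * qq z 0 + b) : ℕ) : ℤ) + r * (qq z 0 : ℕ) +
      ((b : ℤ) - v p) := by
    rw [Nat.cast_sub (by omega)]
    push_cast
    ring
  rw [h11]
  exact dvd_add (dvd_add (by exact_mod_cast h4) (Dvd.dvd.mul_left (by exact_mod_cast h5) _)) h10

/-- the cost of a prime of `A` against its logarithm -/
lemma lam_leY {lam : ℝ → ℝ} {u0 K : ℝ} (h : LamOk lam u0 K) {y p : ℕ} (hy : 1 ≤ y)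
    (hy0 : u0 ≤ Real.log y) (hp : y ≤ p) :
    lam (Real.log p) ≤ K * lam (Real.log y) / Real.log y * Real.log p := by
  have hyR : (1 : ℝ) ≤ y := by exact_mod_cast hy
  have hpR : (y : ℝ) ≤ p := by exact_mod_cast hp
  have h1 : 1 ≤ Real.log y := h.u0_ge.trans hy0
  have h2 : Real.log y ≤ Real.log p := Real.log_le_log (by linarith) hpR
  have h3 := h.sub (Real.log p / Real.log y) (Real.log y) (by rwa [one_le_div (by linarith)]) hy0
  rw [div_mul_cancel₀ _ (by linarith)] at h3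
  calc lam (Real.log p) ≤ K * (Real.log p / Real.log y * lam (Real.log y)) := h3
    _ = _ := by ring

/-- sizes -/
lemma sizes3 {κ ρ : ℝ} (hκ : 0 < κ) (hρ : 0 < ρ) :
    ∀ᶠ z : ℕ in atTop, (z : ℝ) ^ (-κ) ≤ ρ ∧ Real.log z * (z : ℝ) ^ (-(3 * κ)) ≤ ρ := by
  have t1 : Tendsto (fun z : ℕ => (z : ℝ) ^ (-κ)) atTop (nhds 0) :=
    (tendsto_rpow_neg_atTop hκ).comp tendsto_natCast_atTop_atTop
  have t2 : ∀ᶠ z : ℕ in atTop, Real.log z ≤ (z : ℝ) ^ (2 * κ) := by
    have h := (isLittleO_log_rpow_atTop (show 0 < 2 * κ by linarith)).bound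
      (show (0 : ℝ) < 1 by norm_num)
    filter_upwards [tendsto_natCast_atTop_atTop.eventually h, eventually_ge_atTop 1] with z hz hz1
    rw [one_mul, Real.norm_eq_abs, Real.norm_of_nonneg (by positivity)] at hz
    exact (le_abs_self _).trans hz
  filter_upwards [t1.eventually_le_const hρ, t2, eventually_ge_atTop 1] with z h1 h2 h3
  have hz0 : (0 : ℝ) < z := by exact_mod_cast h3
  refine ⟨h1, ?_⟩
  calc Real.log z * (z : ℝ) ^ (-(3 * κ)) ≤ (z : ℝ) ^ (2 * κ) * (z : ℝ) ^ (-(3 * κ)) :=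
        mul_le_mul_of_nonneg_right h2 (by positivity)
    _ = (z : ℝ) ^ (-κ) := by
        rw [← Real.rpow_add hz0]; congr 1; ring
    _ ≤ ρ := h1

end ROWSYaux

open RWaux MTaux ROWSYaux
open ROWSaux (sizes2 VV_nonneg lp_mem lp_pos log_lp_nonneg)

set_option maxHeartbeats 4000000

/-- Block ROWSY. -/
theorem stmt_ROWSY (hK1 : Stmt_K1Y) (hN1 : Stmt_N1Y) (hK2 : Stmt_K2Y) (hK3 : Stmt_K3Y)
    (hN3 : Stmt_N3Y) (hCOL : Stmt_COL) : Stmt_ROWSY := by
  classical
  obtain ⟨C1, hC1, hK1⟩ := hK1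
  obtain ⟨C2, hC2, hK2⟩ := hK2
  obtain ⟨C3, hC3, hK3⟩ := hK3
  obtain ⟨C4, hC4, hN1⟩ := hN1
  obtain ⟨C5, hC5, hN3⟩ := hN3
  obtain ⟨C0, hC0, zC, hCOL⟩ := hCOL
  intro π lam u0 K hlam hπ κ hκ hκ1 τ hτ
  have hK := hlam.K_ge
  have hK0 : 0 < K := by linarith
  obtain ⟨m, hm⟩ := mass_le hπ
  have hm0 : 0 ≤ m := by simpa using hm ∅ (by simp)
  obtain ⟨CC, hCC⟩ : ∃ CC, CC = C0 * (2 * C2 * Real.exp m + C1 * K + C3 * K) := ⟨_, rfl⟩
  have hCC0 : 0 < CC := by
    rw [hCC]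
    have := Real.exp_pos m
    positivity
  obtain ⟨g, hg⟩ : ∃ g, g = min 1 (τ / (4 * CC)) := ⟨_, rfl⟩
  have hg0 : 0 < g := by rw [hg]; positivity
  have hg1 : g ≤ 1 := by rw [hg]; exact min_le_left _ _
  have hg2 : CC * g ≤ τ / 4 := by
    have h1 : g ≤ τ / (4 * CC) := by rw [hg]; exact min_le_right _ _
    calc CC * g ≤ CC * (τ / (4 * CC)) := mul_le_mul_of_nonneg_left h1 hCC0.le
      _ = τ / 4 := by field_simp
  refine ⟨g, hg0, hg1, ?_⟩
  obtain ⟨z1, hz1⟩ := hK1 κ hκ hκ1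
  obtain ⟨z2, hz2⟩ := hK2 κ hκ hκ1
  obtain ⟨z3, hz3⟩ := hK3 κ hκ hκ1
  obtain ⟨z4, hz4⟩ := hN1 κ hκ hκ1
  obtain ⟨z5, hz5⟩ := hN3 κ hκ hκ1
  obtain ⟨z6, hz6⟩ := eventually_atTop.1 (sizes2 hκ hκ1 (show (0 : ℝ) < 1 / 10 by norm_num))
  obtain ⟨z7, hz7⟩ := eventually_atTop.1 ((sizes3 hκ
    (show 0 < min (1 / (10 * (C0 * C4))) (1 / (10 * (C0 * C5))) by positivity)).and
    ((Real.tendsto_log_atTop.comp tendsto_natCast_atTop_atTop).eventually_ge_atTop u0))
  refine ⟨max (max (max z1 z2) (max z3 zC)) (max (max z4 z5) (max z6 z7)), ?_⟩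
  intro z hz x U y hx hy hzU hUg hUy v hv b hb
  have g1 : z1 ≤ z := le_trans (by simp) hz
  have g2 : z2 ≤ z := le_trans (by simp) hz
  have g3 : z3 ≤ z := le_trans (by simp) hz
  have gC : zC ≤ z := le_trans (by simp) hz
  have g4 : z4 ≤ z := le_trans (by simp) hz
  have g5 : z5 ≤ z := le_trans (by simp) hz
  have g6 : z6 ≤ z := le_trans (by simp) hz
  have g7 : z7 ≤ z := le_trans (by simp) hz
  obtain ⟨hz16, hsz⟩ := hz6 z g6
  have hzR : (16 : ℝ) ≤ z := by exact_mod_cast hz16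
  have hlz1 : 1 ≤ Real.log z := by
    rw [Real.le_log_iff_exp_le (by linarith)]
    have := Real.exp_one_lt_d9
    linarith
  have hlz : 0 < Real.log z := by linarith
  obtain ⟨hy1, hy2⟩ := hy
  have hzy : z ≤ y := le_trans (Nat.le_self_pow (by norm_num) z) hy1
  have hyR : (z : ℝ) ≤ y := by exact_mod_cast hzy
  have hlzy : Real.log z ≤ Real.log y := Real.log_le_log (by linarith) hyR
  obtain ⟨l, hl⟩ : ∃ l, l = Real.log y := ⟨_, rfl⟩
  have hl1 : 1 ≤ l := by rw [hl]; linarith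
  have hl0 : 0 < l := by linarith
  have hyu0 : u0 ≤ Real.log y := by
    have : u0 ≤ Real.log z := (hz7 z g7).2
    linarith
  obtain ⟨Λ, hΛ⟩ : ∃ Λ, Λ = lam (Real.log y) := ⟨_, rfl⟩
  have hΛ1 : 1 ≤ Λ := by rw [hΛ]; exact hlam.one_le _ hyu0
  rw [← hΛ] at hUg
  have hU2 : (U : ℝ) ≤ Real.log x ^ 2 := by
    have h1 : (U : ℝ) * 1 ≤ U * Λ := mul_le_mul_of_nonneg_left hΛ1 (Nat.cast_nonneg U)
    have h2 : g * Real.log x ^ 2 ≤ 1 * Real.log x ^ 2 :=
      mul_le_mul_of_nonneg_right hg1 (sq_nonneg _)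
    linarith
  obtain ⟨s1, s2, s4, s5, s6, s7⟩ := hsz x U hx hU2
  obtain ⟨q, hq⟩ : ∃ q, q = qq z 0 := ⟨_, rfl⟩
  have hq0 : 0 < q := by rw [hq]; exact qq_pos z 0
  have hqR : (0 : ℝ) < q := by exact_mod_cast hq0
  have hq4 : (q : ℝ) ≤ 4 ^ z := by
    have h1 : q ≤ primorial z := by
      rw [hq]
      exact Nat.le_of_dvd (primorial_pos z) (qq_dvd z 0)
    have h2 := h1.trans (primorial_le_four_pow z)
    exact_mod_cast h2
  have hUx : U + 1 ≤ x := by
    have h1 : (U : ℝ) + 1 ≤ x := by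
      have : (0 : ℝ) < 4 ^ z := by positivity
      linarith
    exact_mod_cast h1
  have hbq : b < q := by rw [hq]; exact hb.1
  have hbx : b ≤ x := by
    have h1 : (q : ℝ) ≤ x := by
      have : (0 : ℝ) ≤ (U : ℝ) := Nat.cast_nonneg U
      linarith
    have h2 : q ≤ x := by exact_mod_cast h1
    omega
  have hzx : z * z ≤ x := by exact_mod_cast s2
  have hx0 : (0 : ℝ) < x := by
    have : (0 : ℝ) < (z : ℝ) * z := by positivity
    linarith
  -- the rows and the columns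
  obtain ⟨A, hA⟩ : ∃ A, A = AY κ y z := ⟨_, rfl⟩
  have hAp : ∀ p ∈ A, p.Prime ∧ y ≤ p := by
    intro p hp
    rw [hA, mem_AY] at hp
    exact ⟨hp.2, by omega⟩
  have hAz : ∀ p ∈ A, z < p := by
    intro p hp
    rw [hA, mem_AY] at hp
    omega
  have hA1 : ∀ p ∈ A, 1 ≤ p := fun p hp => (hAp p hp).1.one_lt.le
  obtain ⟨R0, hR0⟩ : ∃ R0, R0 = rw0 x q b U := ⟨_, rfl⟩
  have hR0s : R0 ⊆ rows x q b U := by rw [hR0]; exact rw0_sub hq0 hbx hUx
  obtain ⟨J, hJ⟩ : ∃ J, J = (Icc 2 U).filter (fun j => j.Coprime q) := ⟨_, rfl⟩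
  have hJU : ∀ j ∈ J, j ≤ U := by
    intro j hj
    rw [hJ, mem_filter, mem_Icc] at hj
    exact hj.1.2
  have hJc : ∀ r ∈ R0, ∀ n ∈ Sur v A x U (r * q + b), n - (r * q + b) ∈ J := by
    intro r _ n hn
    rw [hJ, hq]
    rw [hq] at hn
    exact col_memY hAz hzx hb hn
  have hJcard : (J.card : ℝ) ≤ C0 * (U / Real.log z) := by
    refine le_trans ?_ (hCOL z gC U hzU)
    rw [hJ, hq]
    exact_mod_cast card_le_card (filter_subset_filter _ (Icc_subset_Icc (by norm_num) le_rfl))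
  have hJcard' : (J.card : ℝ) ≤ U := by
    have h1 : J.card ≤ (Icc 2 U).card := by rw [hJ]; exact card_filter_le _ _
    rw [Nat.card_Icc] at h1
    have h2 : J.card ≤ U := by omega
    exact_mod_cast h2
  obtain ⟨X, hX⟩ : ∃ X : ℝ, X = (x : ℝ) / q := ⟨_, rfl⟩
  have hX0 : 0 < X := by rw [hX]; positivity
  have hL0 : 0 < Real.log x := by linarith
  -- the majorant of the cost
  obtain ⟨F1, hF1⟩ : ∃ F1 : ℕ → ℝ, F1 = fun n => if ∃ p ∈ A, p ∣ n then 2 * VV (ep π) A n else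
      K * Λ / l * Real.log (lp A (n ^ 2 - 1)) := ⟨_, rfl⟩
  obtain ⟨F2, hF2⟩ : ∃ F2 : ℕ → ℝ, F2 = fun n =>
      if SurvF v A x (n + 2) ∧ ∀ p ∈ A, ¬ p ∣ n ∧ ¬ p ∣ n + 2 then
      K * Λ / l * (Real.log (lp A (n - 1)) + Real.log (lp A (n + 3))) else 0 := ⟨_, rfl⟩
  have hΛz : 0 ≤ K * Λ / l := by positivity
  have hF10 : ∀ n, 0 ≤ F1 n := by
    intro n
    rw [hF1]
    simp only
    split_ifs
    · exact mul_nonneg (by norm_num) (VV_nonneg (ep_nonneg hπ) n)
    · exact mul_nonneg hΛz (log_lp_nonneg hA1 _)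
  have hF20 : ∀ n, 0 ≤ F2 n := by
    intro n
    rw [hF2]
    simp only
    split_ifs
    · exact mul_nonneg hΛz (add_nonneg (log_lp_nonneg hA1 _) (log_lp_nonneg hA1 _))
    · exact le_rfl
  -- total of the row sums
  have hT1 : ∑ r ∈ R0, ∑ n ∈ Sur v A x U (r * q + b), F1 n ≤
      (J.card : ℝ) * (2 * (C2 * Real.exp m * (x * Real.log z / (q * Real.log x))) +
        K * Λ / l * (C1 * l * (x * Real.log z / (q * Real.log x)))) := by
    apply cols hq0 hR0s _ hF10 hJU hJc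
    intro j hj S hS
    rw [← sum_filter_add_sum_filter_not S (fun n => ∃ p ∈ A, p ∣ n)]
    apply add_le_add
    · have e1 : ∑ n ∈ S.filter (fun n => ∃ p ∈ A, p ∣ n), F1 n =
          2 * ∑ n ∈ S.filter (fun n => ∃ p ∈ A, p ∣ n), VV (ep π) A n := by
        rw [mul_sum]
        refine sum_congr rfl fun n hn => ?_
        rw [mem_filter] at hn
        rw [hF1]
        simp only
        rw [if_pos hn.2]
      rw [e1]
      apply mul_le_mul_of_nonneg_left _ (by norm_num)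
      rw [hA, hq]
      apply hz2 z g2 x hx y ⟨hy1, hy2⟩ v hv (ep π) m (fun p _ => ⟨ep_nonneg hπ p, ep_le_one hπ p⟩)
        (hm _ (fun p hp => (hAp p (hA ▸ hp)).1)) (b + j)
      intro n hn
      rw [mem_filter] at hn
      rw [← hA, ← hq]
      exact hS n hn.1
    · have e1 : ∑ n ∈ S.filter (fun n => ¬ ∃ p ∈ A, p ∣ n), F1 n =
          K * Λ / l * ∑ n ∈ S.filter (fun n => ¬ ∃ p ∈ A, p ∣ n),
            Real.log (lp A (n ^ 2 - 1)) := by
        rw [mul_sum]
        refine sum_congr rfl fun n hn => ?_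
        rw [mem_filter] at hn
        rw [hF1]
        simp only
        rw [if_neg hn.2]
      rw [e1]
      apply mul_le_mul_of_nonneg_left _ hΛz
      rw [hA, hq, hl]
      apply hz1 z g1 x hx y ⟨hy1, hy2⟩ v hv (b + j)
      intro n hn
      rw [mem_filter] at hn
      rw [← hA, ← hq]
      obtain ⟨h1, h2, h3⟩ := hS n hn.1
      refine ⟨h1, h2, h3, fun p hp hpn => ?_⟩
      apply hn.2
      rw [← hA]
      exact ⟨p, hp, hpn⟩
  have hT2 : ∑ r ∈ R0, ∑ n ∈ Sur v A x U (r * q + b), F2 n ≤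
      (J.card : ℝ) * (K * Λ / l * (C3 * l * Real.log z ^ 3 * (x / (q * Real.log x ^ 2)))) := by
    apply cols hq0 hR0s _ hF20 hJU hJc
    intro j hj S hS
    have e1 : ∑ n ∈ S, F2 n = K * Λ / l *
        ∑ n ∈ S.filter (fun n => SurvF v A x (n + 2) ∧ ∀ p ∈ A, ¬ p ∣ n ∧ ¬ p ∣ n + 2),
          (Real.log (lp A (n - 1)) + Real.log (lp A (n + 3))) := by
      rw [mul_sum, sum_filter, hF2]
    rw [e1]
    apply mul_le_mul_of_nonneg_left _ hΛz
    rw [hA, hq, hl]
    apply hz3 z g3 x hx y ⟨hy1, hy2⟩ v hv (b + j)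
    intro n hn
    rw [← hA, mem_filter] at hn
    rw [← hA, ← hq]
    obtain ⟨h1, h2, h3⟩ := hS n hn.1
    exact ⟨h1, h2, h3, hn.2.1, hn.2.2⟩
  have hT : ∑ r ∈ R0, ∑ n ∈ Sur v A x U (r * q + b), (F1 n + F2 n) ≤ (X / 4) * (τ * Real.log x) := by
    have e1 : ∑ r ∈ R0, ∑ n ∈ Sur v A x U (r * q + b), (F1 n + F2 n) =
        ∑ r ∈ R0, ∑ n ∈ Sur v A x U (r * q + b), F1 n +
        ∑ r ∈ R0, ∑ n ∈ Sur v A x U (r * q + b), F2 n := by
      simp_rw [sum_add_distrib]
    rw [e1]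
    refine (add_le_add hT1 hT2).trans ?_
    have hexp := Real.exp_pos m
    have n1 : 0 ≤ 2 * (C2 * Real.exp m * (x * Real.log z / (q * Real.log x))) +
        K * Λ / l * (C1 * l * (x * Real.log z / (q * Real.log x))) := by
      positivity
    have n2 : 0 ≤ K * Λ / l * (C3 * l * Real.log z ^ 3 * (x / (q * Real.log x ^ 2))) := by
      positivity
    refine (add_le_add (mul_le_mul_of_nonneg_right hJcard n1)
      (mul_le_mul_of_nonneg_right hJcard n2)).trans ?_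
    have e2 : C0 * (U / Real.log z) * (2 * (C2 * Real.exp m * (x * Real.log z / (q * Real.log x))) +
        K * Λ / l * (C1 * l * (x * Real.log z / (q * Real.log x)))) =
        C0 * (2 * C2 * Real.exp m) * (U * X / Real.log x) +
          C0 * (C1 * K) * ((U * Λ) * X / Real.log x) := by
      rw [hX]
      field_simp
    have e3 : C0 * (U / Real.log z) *
        (K * Λ / l * (C3 * l * Real.log z ^ 3 * (x / (q * Real.log x ^ 2)))) =
        C0 * (C3 * K) * (((U * Λ) * X / Real.log x) * (Real.log z ^ 2 / Real.log x)) := by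
      rw [hX]
      field_simp
    rw [e2, e3]
    obtain ⟨Y, hY⟩ : ∃ Y : ℝ, Y = (U * Λ) * X / Real.log x := ⟨_, rfl⟩
    have hY0 : 0 ≤ Y := by rw [hY]; positivity
    have h1 : (U : ℝ) * X / Real.log x ≤ Y := by
      rw [hY]
      apply div_le_div_of_nonneg_right _ hL0.le
      apply mul_le_mul_of_nonneg_right _ hX0.le
      have := mul_le_mul_of_nonneg_left hΛ1 (Nat.cast_nonneg (α := ℝ) U)
      linarith
    have h2 : Real.log z ^ 2 / Real.log x ≤ 1 := by
      rw [div_le_one hL0]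
      exact s7
    have h3 : Y ≤ g * Real.log x * X := by
      rw [hY, div_le_iff₀ hL0]
      calc (U * Λ) * X ≤ (g * Real.log x ^ 2) * X := mul_le_mul_of_nonneg_right hUg hX0.le
        _ = _ := by ring
    rw [← hY]
    have h4 : Y * (Real.log z ^ 2 / Real.log x) ≤ Y := by
      calc Y * (Real.log z ^ 2 / Real.log x) ≤ Y * 1 := mul_le_mul_of_nonneg_left h2 hY0
        _ = Y := mul_one Y
    have k1 : C0 * (2 * C2 * Real.exp m) * (U * X / Real.log x) ≤
        C0 * (2 * C2 * Real.exp m) * Y := mul_le_mul_of_nonneg_left h1 (by positivity)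
    have k2 : C0 * (C3 * K) * (Y * (Real.log z ^ 2 / Real.log x)) ≤ C0 * (C3 * K) * Y :=
      mul_le_mul_of_nonneg_left h4 (by positivity)
    have k3 : C0 * (2 * C2 * Real.exp m) * Y + C0 * (C1 * K) * Y + C0 * (C3 * K) * Y = CC * Y := by
      rw [hCC]; ring
    have k4 : CC * Y ≤ CC * (g * Real.log x * X) := mul_le_mul_of_nonneg_left h3 hCC0.le
    have k5 : CC * (g * Real.log x * X) = (CC * g) * (Real.log x * X) := by ring
    have k6 : (CC * g) * (Real.log x * X) ≤ (τ / 4) * (Real.log x * X) :=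
      mul_le_mul_of_nonneg_right hg2 (by positivity)
    have k7 : (τ / 4) * (Real.log x * X) = (X / 4) * (τ * Real.log x) := by ring
    linarith
  -- the three kinds of bad rows
  have hB1 : ((R0.filter (fun r => ¬ (∑ n ∈ Sur v A x U (r * q + b),
      (F1 n + F2 n)) ≤ τ * Real.log x)).card : ℝ) ≤ X / 4 := by
    have hp : 0 < τ * Real.log x := by positivity
    have h1 : ((R0.filter (fun r => ¬ (∑ n ∈ Sur v A x U (r * q + b),
      (F1 n + F2 n)) ≤ τ * Real.log x)).card : ℝ) * (τ * Real.log x) ≤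
      ∑ r ∈ R0, ∑ n ∈ Sur v A x U (r * q + b), (F1 n + F2 n) := by
      rw [← nsmul_eq_mul]
      refine (card_nsmul_le_sum _ _ _ ?_).trans (sum_le_sum_of_subset_of_nonneg (filter_subset
        (fun r => ¬ (∑ n ∈ Sur v A x U (r * q + b),
      (F1 n + F2 n)) ≤ τ * Real.log x) R0) ?_)
      · intro r hr
        rw [mem_filter, not_le] at hr
        exact hr.2.le
      · intro r _ _
        exact sum_nonneg fun n _ => add_nonneg (hF10 n) (hF20 n)
    exact le_of_mul_le_mul_right (h1.trans hT) hp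
  have hz0 : (0 : ℝ) < z := by linarith
  obtain ⟨t, ht⟩ : ∃ t, t = (z : ℝ) ^ (1 - κ) := ⟨_, rfl⟩
  have ht0 : 0 < t := by rw [ht]; positivity
  have hUl : (U : ℝ) * l ^ 2 ≤ (z : ℝ) ^ (2 - 3 * κ) * Real.log x := by rw [hl]; exact hUy
  obtain ⟨hs1, hs2⟩ := (hz7 z g7).1
  have hsmall1 : (J.card : ℝ) * (C4 * (l / t) ^ 2 * (x * Real.log z / (q * Real.log x))) ≤
      1 / 10 * X := by
    have h0 : 0 ≤ C4 * (l / t) ^ 2 * (x * Real.log z / (q * Real.log x)) := by positivity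
    have h1 : (z : ℝ) ^ (2 - 3 * κ) / t ^ 2 = (z : ℝ) ^ (-κ) := by
      rw [ht, ← Real.rpow_natCast, ← Real.rpow_mul hz0.le, ← Real.rpow_sub hz0]
      congr 1
      push_cast
      ring
    have h2 : C0 * C4 * (z : ℝ) ^ (-κ) ≤ 1 / 10 := by
      have h3 := hs1.trans (min_le_left _ _)
      calc C0 * C4 * (z : ℝ) ^ (-κ) ≤ C0 * C4 * (1 / (10 * (C0 * C4))) :=
            mul_le_mul_of_nonneg_left h3 (by positivity)
        _ = 1 / 10 := by field_simp
    calc (J.card : ℝ) * (C4 * (l / t) ^ 2 * (x * Real.log z / (q * Real.log x))) ≤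
          C0 * (U / Real.log z) * (C4 * (l / t) ^ 2 * (x * Real.log z / (q * Real.log x))) :=
          mul_le_mul_of_nonneg_right hJcard h0
      _ = C0 * C4 * (((U : ℝ) * l ^ 2) / t ^ 2 / Real.log x) * X := by
          rw [hX]
          field_simp
      _ ≤ C0 * C4 * (((z : ℝ) ^ (2 - 3 * κ) * Real.log x) / t ^ 2 / Real.log x) * X := by
          apply mul_le_mul_of_nonneg_right _ hX0.le
          apply mul_le_mul_of_nonneg_left _ (by positivity)
          apply div_le_div_of_nonneg_right _ hL0.le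
          exact div_le_div_of_nonneg_right hUl (by positivity)
      _ = C0 * C4 * ((z : ℝ) ^ (2 - 3 * κ) / t ^ 2) * X := by
          field_simp
      _ = C0 * C4 * (z : ℝ) ^ (-κ) * X := by rw [h1]
      _ ≤ 1 / 10 * X := mul_le_mul_of_nonneg_right h2 hX0.le
  have hsmall3 : (J.card : ℝ) * (C5 * (l / t) * Real.log z ^ 2 * (x / (q * Real.log x ^ 2))) ≤
      1 / 10 * X := by
    have h0 : 0 ≤ C5 * (l / t) * Real.log z ^ 2 * (x / (q * Real.log x ^ 2)) := by positivity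
    have h1 : (z : ℝ) ^ (2 - 3 * κ) / t / (z : ℝ) ^ (1 + κ) = (z : ℝ) ^ (-(3 * κ)) := by
      rw [ht, ← Real.rpow_sub hz0, ← Real.rpow_sub hz0]
      congr 1
      ring
    have h2 : C0 * C5 * (Real.log z * (z : ℝ) ^ (-(3 * κ))) ≤ 1 / 10 := by
      have h3 := hs2.trans (min_le_right _ _)
      calc C0 * C5 * (Real.log z * (z : ℝ) ^ (-(3 * κ))) ≤ C0 * C5 * (1 / (10 * (C0 * C5))) :=
            mul_le_mul_of_nonneg_left h3 (by positivity)
        _ = 1 / 10 := by field_simp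
    have h4 : (U : ℝ) * l ≤ (z : ℝ) ^ (2 - 3 * κ) * Real.log x := by
      refine le_trans ?_ hUl
      apply mul_le_mul_of_nonneg_left _ (Nat.cast_nonneg U)
      nlinarith
    have h5 : (z : ℝ) ^ (1 + κ) ≤ Real.log x := hx.1
    have h6 : 0 < (z : ℝ) ^ (1 + κ) := by positivity
    calc (J.card : ℝ) * (C5 * (l / t) * Real.log z ^ 2 * (x / (q * Real.log x ^ 2))) ≤
          C0 * (U / Real.log z) * (C5 * (l / t) * Real.log z ^ 2 * (x / (q * Real.log x ^ 2))) :=
          mul_le_mul_of_nonneg_right hJcard h0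
      _ = C0 * C5 * (Real.log z * (((U : ℝ) * l) / t / Real.log x ^ 2)) * X := by
          rw [hX]
          field_simp
      _ ≤ C0 * C5 * (Real.log z * (((z : ℝ) ^ (2 - 3 * κ) * Real.log x) / t / Real.log x ^ 2))
          * X := by
          apply mul_le_mul_of_nonneg_right _ hX0.le
          apply mul_le_mul_of_nonneg_left _ (by positivity)
          apply mul_le_mul_of_nonneg_left _ hlz.le
          apply div_le_div_of_nonneg_right _ (by positivity)
          exact div_le_div_of_nonneg_right h4 ht0.le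
      _ = C0 * C5 * (Real.log z * ((z : ℝ) ^ (2 - 3 * κ) / t / Real.log x)) * X := by
          field_simp
      _ ≤ C0 * C5 * (Real.log z * ((z : ℝ) ^ (2 - 3 * κ) / t / (z : ℝ) ^ (1 + κ))) * X := by
          apply mul_le_mul_of_nonneg_right _ hX0.le
          apply mul_le_mul_of_nonneg_left _ (by positivity)
          apply mul_le_mul_of_nonneg_left _ hlz.le
          exact div_le_div_of_nonneg_left (by positivity) h6 h5
      _ = C0 * C5 * (Real.log z * (z : ℝ) ^ (-(3 * κ))) * X := by rw [h1]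
      _ ≤ 1 / 10 * X := mul_le_mul_of_nonneg_right h2 hX0.le
  obtain ⟨P1, hP1⟩ : ∃ P1 : ℕ → Prop, P1 = fun n => ∀ p ∈ A, ¬ p ∣ n ∧ ¬ p ∣ n ^ 2 - 1 :=
    ⟨_, rfl⟩
  obtain ⟨P2, hP2⟩ : ∃ P2 : ℕ → Prop, P2 = fun n => SurvF v A x (n + 2) ∧
      (∀ p ∈ A, ¬ p ∣ n ∧ ¬ p ∣ n + 2) ∧ ((∀ p ∈ A, ¬ p ∣ n - 1) ∨ ∀ p ∈ A, ¬ p ∣ n + 3) :=
    ⟨_, rfl⟩
  have hB2 : ((R0.filter (fun r => ∃ n ∈ Sur v A x U (r * q + b), P1 n)).card : ℝ) ≤
      1 / 10 * X := by
    refine (bad_card R0 P1).trans (le_trans (cols hq0 hR0s _ ?_ hJU hJc ?_) hsmall1)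
    · intro n
      split_ifs <;> norm_num
    · intro j hj S hS
      rw [sum_boole, hq, hl, ht]
      apply hz4 z g4 x hx y ⟨hy1, hy2⟩ v hv (b + j)
      intro n hn
      rw [mem_filter] at hn
      obtain ⟨h1, h2⟩ := hn
      obtain ⟨h3, h4, h5⟩ := hS n h1
      rw [hP1] at h2
      rw [← hA, ← hq]
      exact ⟨h3, h4, h5, h2⟩
  have hB3 : ((R0.filter (fun r => ∃ n ∈ Sur v A x U (r * q + b), P2 n)).card : ℝ) ≤
      1 / 10 * X := by
    refine (bad_card R0 P2).trans (le_trans (cols hq0 hR0s _ ?_ hJU hJc ?_) hsmall3)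
    · intro n
      split_ifs <;> norm_num
    · intro j hj S hS
      rw [sum_boole, hq, hl, ht]
      apply hz5 z g5 x hx y ⟨hy1, hy2⟩ v hv (b + j)
      intro n hn
      rw [mem_filter] at hn
      obtain ⟨h1, h2⟩ := hn
      obtain ⟨h3, h4, h5⟩ := hS n h1
      rw [hP2] at h2
      rw [← hA, ← hq]
      exact ⟨h3, h4, h5, h2.1, h2.2.1, h2.2.2⟩
  -- the good rows
  obtain ⟨R, hR⟩ : ∃ R, R = R0.filter (fun r => (∑ n ∈ Sur v A x U (r * q + b),
      (F1 n + F2 n)) ≤ τ * Real.log x ∧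
      (∀ n ∈ Sur v A x U (r * q + b), ¬ P1 n) ∧ (∀ n ∈ Sur v A x U (r * q + b), ¬ P2 n)) :=
    ⟨_, rfl⟩
  have hcard : (R0.card : ℝ) ≤ R.card + (X / 4 + (1 / 10 * X + 1 / 10 * X)) := by
    have h1 : R0 ⊆ R ∪ ((R0.filter (fun r => ¬ (∑ n ∈ Sur v A x U (r * q + b),
      (F1 n + F2 n)) ≤ τ * Real.log x)) ∪
      (R0.filter (fun r => ∃ n ∈ Sur v A x U (r * q + b), P1 n) ∪
      R0.filter (fun r => ∃ n ∈ Sur v A x U (r * q + b), P2 n))) := by
      intro r hr
      rw [mem_union, mem_union, mem_union, hR, mem_filter, mem_filter, mem_filter, mem_filter]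
      by_cases k1 : (∑ n ∈ Sur v A x U (r * q + b), (F1 n + F2 n)) ≤ τ * Real.log x
      · by_cases k2 : ∃ n ∈ Sur v A x U (r * q + b), P1 n
        · exact Or.inr (Or.inr (Or.inl ⟨hr, k2⟩))
        · by_cases k3 : ∃ n ∈ Sur v A x U (r * q + b), P2 n
          · exact Or.inr (Or.inr (Or.inr ⟨hr, k3⟩))
          · push Not at k2 k3
            exact Or.inl ⟨hr, k1, k2, k3⟩
      · exact Or.inr (Or.inl ⟨hr, k1⟩)
    have h2 := (card_le_card h1).trans ((card_union_le _ _).trans (Nat.add_le_add_left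
      ((card_union_le _ _).trans (Nat.add_le_add_left (card_union_le _ _) _)) _))
    have h3 : (R0.card : ℝ) ≤ (R.card : ℝ) + (((R0.filter (fun r => ¬ (∑ n ∈ Sur v A x U (r * q + b),
      (F1 n + F2 n)) ≤ τ * Real.log x)).card : ℝ) +
      (((R0.filter (fun r => ∃ n ∈ Sur v A x U (r * q + b), P1 n)).card : ℝ) +
      ((R0.filter (fun r => ∃ n ∈ Sur v A x U (r * q + b), P2 n)).card : ℝ))) := by
      exact_mod_cast h2
    linarith
  have hR0card : (1 - 1 / 10) * X ≤ R0.card := by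
    have h1 := rw0_card (x := x) (q := q) (b := b) (U := U) hbx hUx
    rw [← hR0] at h1
    have h2 : ((x : ℝ) - U - 1) / q - 1 = X - (U + 1 + q) / q := by
      rw [hX]
      field_simp
      ring
    have h3 : ((U : ℝ) + 1 + q) / q ≤ 1 / 10 * X := by
      rw [hX, div_le_iff₀ hqR]
      have : 1 / 10 * ((x : ℝ) / q) * q = 1 / 10 * x := by field_simp
      rw [this]
      linarith
    linarith
  refine ⟨R, ?_, ?_, ?_⟩
  · rw [hR, ← hq]
    exact (filter_subset _ _).trans hR0s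
  · rw [← hq, ← hX]
    linarith
  · intro r hr
    rw [hR, mem_filter] at hr
    obtain ⟨-, k1, k2, k3⟩ := hr
    rw [← hq, ← hA]
    have hk : HasKillers A (Sur v A x U (r * q + b)) := by
      constructor
      · intro n hn
        have h1 := k2 n hn
        rw [hP1] at h1
        by_contra hcon
        rw [not_or] at hcon
        exact h1 fun p hp => ⟨fun hd => hcon.1 ⟨p, hp, hd⟩, fun hd => hcon.2 ⟨p, hp, hd⟩⟩
      · intro n hn hn2 hfree
        have h1 := k3 n hn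
        rw [hP2] at h1
        have h2 : SurvF v A x (n + 2) := by
          unfold Sur at hn2
          rw [mem_filter] at hn2
          exact hn2.2
        by_contra hcon
        apply h1
        refine ⟨h2, hfree, ?_⟩
        rw [not_and_or] at hcon
        rcases hcon with hcon | hcon
        · exact Or.inl fun p hp hd => hcon ⟨p, hp, hd⟩
        · exact Or.inr fun p hp hd => hcon ⟨p, hp, hd⟩
    refine ⟨le_trans ?_ k1, hk⟩
    have hlp : ∀ m : ℕ, (∃ p ∈ A, p ∣ m) →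
        lam (Real.log (lp A m)) ≤ K * Λ / l * Real.log (lp A m) := by
      intro m hm
      rw [hΛ, hl]
      exact lam_leY hlam (by omega) hyu0 (hAp _ (lp_mem hm).1).2
    rw [sum_add_distrib]
    unfold cost
    apply add_le_add
    · apply sum_le_sum
      intro n hn
      rw [hF1]
      simp only
      split_ifs with h1
      · exact le_rfl
      · rcases hk.1 n hn with h2 | h2
        · exact absurd h2 h1
        · exact hlp _ h2
    · rw [sum_filter]
      apply sum_le_sum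
      intro n hn
      split_ifs with h1
      · rw [hF2]
        simp only
        have h2 : SurvF v A x (n + 2) := by
          have h3 := h1.1
          unfold Sur at h3
          rw [mem_filter] at h3
          exact h3.2
        rw [if_pos ⟨h2, h1.2⟩, mul_add]
        obtain ⟨h3, h4⟩ := hk.2 n hn h1.1 h1.2
        exact add_le_add (hlp _ h3) (hlp _ h4)
      · exact hF20 n

end Pool.Agent.Work.MP_b0c12c_nt_sparse
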