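import Pool.Agent.Work.MP_b0c12c_nt_sparse.V3
import Pool.Agent.Work.MP_b0c12c_nt_sparse.ROWSY
import Pool.Agent.Work.MP_b0c12c_nt_sparse.COL
import Pool.Agent.Work.MP_b0c12c_nt_shift.WS
import Pool.Agent.Work.MP_b0c12c_nt_shift.WSCL

/-!
# Block MD: rows whose killers contain a given set (sieve of dimension `m`)
-/

set_option autoImplicit false

namespace Pool.Agent.Work.MP_b0c12c_nt_sparse

open Finset Filter
open Pool.Agent.Work.MP_b0c12c_nt_shift

namespace MDaux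

/-- The number of excluded classes. -/
theorem classes {p : ℕ} (hp : p.Prime) {I : Finset ℕ} {j : ℕ → ℤ} {a d τ : ℤ}
    (hd : ¬ (p : ℤ) ∣ d) (hj : ∀ i ∈ I, ∀ i' ∈ I, i ≠ i' → ¬ (p : ℤ) ∣ j i - j i') :
    ((range p).filter fun c : ℕ => ∃ i ∈ I, (p : ℤ) ∣ a + d * c + j i - τ).card = I.card := by
  classical
  have : Fact p.Prime := ⟨hp⟩
  have hd0 : ((d : ℤ) : ZMod p) ≠ 0 := by
    intro h
    exact hd ((ZMod.intCast_zmod_eq_zero_iff_dvd d p).1 h)
  set f : ℕ → ℕ := fun i => (((τ - a - j i : ℤ) : ZMod p) * ((d : ℤ) : ZMod p)⁻¹).val with hf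
  have key : ∀ c : ℕ, c < p → ∀ i : ℕ, ((p : ℤ) ∣ a + d * c + j i - τ ↔ f i = c) := by
    intro c hc i
    rw [← ZMod.intCast_zmod_eq_zero_iff_dvd]
    constructor
    · intro h
      have h1 : ((τ - a - j i : ℤ) : ZMod p) = ((d : ℤ) : ZMod p) * (c : ZMod p) := by
        push_cast at h ⊢
        linear_combination -h
      rw [hf]
      simp only
      rw [h1, mul_comm, ← mul_assoc, inv_mul_cancel₀ hd0, one_mul]
      exact ZMod.val_cast_of_lt hc
    · intro h
      have h1 : ((f i : ℕ) : ZMod p) = ((τ - a - j i : ℤ) : ZMod p) * ((d : ℤ) : ZMod p)⁻¹ := by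
        rw [hf]
        simp only
        exact ZMod.natCast_zmod_val _
      rw [h] at h1
      have h2 : ((d : ℤ) : ZMod p) * (c : ZMod p) = ((τ - a - j i : ℤ) : ZMod p) := by
        rw [h1, mul_comm, mul_assoc, inv_mul_cancel₀ hd0, mul_one]
      push_cast at h2 ⊢
      linear_combination h2
  have e1 : ((range p).filter fun c : ℕ => ∃ i ∈ I, (p : ℤ) ∣ a + d * c + j i - τ) =
      I.image f := by
    ext c
    simp only [mem_filter, mem_range, mem_image]
    constructor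
    · rintro ⟨hc, i, hi, h⟩
      exact ⟨i, hi, (key c hc i).1 h⟩
    · rintro ⟨i, hi, h⟩
      have hc : c < p := by rw [← h]; exact ZMod.val_lt _
      exact ⟨hc, i, hi, (key c hc i).2 h⟩
  rw [e1]
  apply card_image_of_injOn
  intro i hi i' hi' h
  by_contra hne
  apply hj i hi i' hi' hne
  have h1 := ZMod.val_injective p h
  have h2 := mul_right_cancel₀ (inv_ne_zero hd0) h1
  rw [← ZMod.intCast_zmod_eq_zero_iff_dvd]
  push_cast at h2 ⊢
  linear_combination -h2

/-- The sieve of dimension `m`. -/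
theorem sieve {m : ℕ} (hm : 1 ≤ m) {I : Finset ℕ} (hI : I.card = m) {j : ℕ → ℤ} {a d : ℤ}
    {τ : ℕ → ℤ} {P : Finset ℕ} {W N : ℕ} (hW : 3 ≤ W)
    (hP : ∀ p ∈ P, p.Prime ∧ 2 * m < p ∧ p ≤ W ∧ ¬ (p : ℤ) ∣ d)
    (hj : ∀ p ∈ P, ∀ i ∈ I, ∀ i' ∈ I, i ≠ i' → ¬ (p : ℤ) ∣ j i - j i')
    (hN : W ^ (60 * m) ≤ N) {T : Finset ℕ} (hT : T ⊆ Ioc 0 N)
    (hTs : ∀ k ∈ T, ∀ p ∈ P, ∀ i ∈ I, ¬ (p : ℤ) ∣ a + d * k + j i - τ p) :
    (T.card : ℝ) ≤ 3 * N * ∏ p ∈ P, (1 - (m : ℝ) / p) := by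
  classical
  set g : ℕ → ℕ → ℝ := fun p c => if ∃ i ∈ I, (p : ℤ) ∣ a + d * c + j i - τ p then 0 else 1
    with hg
  have hsum : ∀ p ∈ P, ∑ c ∈ range p, (1 - g p c) = m := by
    intro p hp
    obtain ⟨h1, h2, h3, h4⟩ := hP p hp
    have h5 := classes h1 (I := I) (j := j) (a := a) (d := d) (τ := τ p) h4 (hj p hp)
    rw [← hI, ← h5, card_filter]
    push_cast
    apply sum_congr rfl
    intro c _
    rw [hg]
    simp only
    split_ifs <;> simp
  have h := WS.main_pos (K := m) (W := W) (N := N) (M := 0) (P := P) (g := g) hm hW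
    (fun p hp => ⟨(hP p hp).1, (hP p hp).2.1, (hP p hp).2.2.1⟩) hN
    (fun p _ c _ => by
      rw [hg]
      simp only
      split_ifs <;> norm_num)
    (fun p hp => by rw [hsum p hp]; exact_mod_cast hm)
    (fun p hp => by rw [hsum p hp])
  have e1 : ∏ p ∈ P, (1 - WS.nuf g p) = ∏ p ∈ P, (1 - (m : ℝ) / p) := by
    apply prod_congr rfl
    intro p hp
    unfold WS.nuf
    rw [hsum p hp]
  rw [e1] at h
  refine le_trans ?_ h
  rw [zero_add]
  have hnn : ∀ k : ℕ, 0 ≤ ∏ p ∈ P, g p (k % p) := by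
    intro k
    apply prod_nonneg
    intro p _
    rw [hg]
    simp only
    split_ifs <;> norm_num
  calc (T.card : ℝ) = ∑ k ∈ T, (1 : ℝ) := by simp
    _ = ∑ k ∈ T, ∏ p ∈ P, g p (k % p) := by
        apply sum_congr rfl
        intro k hk
        rw [prod_eq_one]
        intro p hp
        rw [hg]
        simp only
        rw [if_neg]
        rintro ⟨i, hi, hd⟩
        apply hTs k hk p hp i hi
        have e2 : a + d * (k : ℤ) + j i - τ p =
            (a + d * ((k % p : ℕ) : ℤ) + j i - τ p) + d * ((k / p : ℕ) : ℤ) * p := by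
          have h3 : ((k % p : ℕ) : ℤ) + p * ((k / p : ℕ) : ℤ) = k := by
            exact_mod_cast Nat.mod_add_div k p
          linear_combination -d * h3
        rw [e2]
        exact dvd_add hd (Dvd.intro_left _ rfl)
    _ ≤ ∑ k ∈ Ioc 0 N, ∏ p ∈ P, g p (k % p) :=
        sum_le_sum_of_subset_of_nonneg hT fun k _ _ => hnn k

/-- The rows of one configuration are in one class modulo `e = ∏ E`. -/
theorem reduce {x q b U e : ℕ} {E : Finset ℕ} (hEp : ∀ p ∈ E, p.Prime ∧ ¬ p ∣ q)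
    (he : e = ∏ p ∈ E, p) (hq : 0 < q) {R : Finset ℕ} (hR : R ⊆ rows x q b U) {f : ℕ → ℕ}
    {s : ℕ → ℤ} (hdiv : ∀ r ∈ R, ∀ p ∈ E, (p : ℤ) ∣ ((r : ℤ) * q + b + f p) - s p) :
    ∃ (T : Finset ℕ) (ρ : ℤ), T ⊆ Ioc 0 (2 * x / (q * e) + 1) ∧ T.card = R.card ∧
      ∀ k ∈ T, ∃ r ∈ R, (r : ℤ) = ρ + e * ((k : ℤ) - 1) := by
  classical
  have he0 : 0 < e := by
    rw [he]
    exact prod_pos fun p hp => (hEp p hp).1.pos
  rcases R.eq_empty_or_nonempty with h0 | ⟨r0, hr0⟩
  · exact ⟨∅, 0, empty_subset _, by rw [h0], by simp⟩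
  have hmod : ∀ r ∈ R, r % e = r0 % e := by
    intro r hr
    have h1 : ∀ p ∈ E, (p : ℤ) ∣ (r : ℤ) - r0 := by
      intro p hp
      have h2 := dvd_sub (hdiv r hr p hp) (hdiv r0 hr0 p hp)
      have h3 : ((r : ℤ) * q + b + f p) - s p - (((r0 : ℤ) * q + b + f p) - s p) =
          ((r : ℤ) - r0) * q := by ring
      rw [h3] at h2
      have hpp : Prime (p : ℤ) := Nat.prime_iff_prime_int.1 (hEp p hp).1
      rcases hpp.dvd_or_dvd h2 with h4 | h4
      · exact h4
      · exact absurd (by exact_mod_cast h4) (hEp p hp).2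
    have h5 : ((∏ p ∈ E, p : ℕ) : ℤ) ∣ (r : ℤ) - r0 := by
      push_cast
      apply Finset.prod_dvd_of_coprime _ h1
      intro p hp p' hp' hne
      have := (Nat.coprime_primes (hEp p hp).1 (hEp p' hp').1).2 hne
      exact Nat.isCoprime_iff_coprime.2 this
    rw [← he] at h5
    have h6 : (r0 : ℤ) ≡ r [ZMOD e] := Int.modEq_iff_dvd.2 h5
    have h7 : r0 ≡ r [MOD e] := by exact_mod_cast h6
    exact h7.symm
  have hrec : ∀ r ∈ R, r0 % e + e * (r / e) = r := by
    intro r hr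
    rw [← hmod r hr]
    exact Nat.mod_add_div r e
  refine ⟨R.image fun r => r / e + 1, ((r0 % e : ℕ) : ℤ), ?_, ?_, ?_⟩
  · intro k hk
    rw [mem_image] at hk
    obtain ⟨r, hr, rfl⟩ := hk
    rw [mem_Ioc]
    refine ⟨Nat.succ_pos _, ?_⟩
    have h1 := hR hr
    unfold rows at h1
    rw [mem_filter] at h1
    have h2 : r * q ≤ 2 * x := by omega
    have h3 : r ≤ 2 * x / q := (Nat.le_div_iff_mul_le hq).2 h2
    have h4 : r / e ≤ 2 * x / q / e := Nat.div_le_div_right h3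
    rw [Nat.div_div_eq_div_mul] at h4
    omega
  · apply card_image_of_injOn
    intro r hr r' hr' h
    have h1 : r / e = r' / e := by simpa using h
    rw [← hrec r hr, ← hrec r' hr', h1]
  · intro k hk
    rw [mem_image] at hk
    obtain ⟨r, hr, rfl⟩ := hk
    refine ⟨r, hr, ?_⟩
    have h1 := hrec r hr
    have h2 : ((r0 % e : ℕ) : ℤ) + e * ((r / e : ℕ) : ℤ) = r := by exact_mod_cast h1
    rw [← h2]
    push_cast
    ring

/-- trivial bound -/
theorem conf_triv {x q b U e : ℕ} {E : Finset ℕ} (hEp : ∀ p ∈ E, p.Prime ∧ ¬ p ∣ q)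
    (he : e = ∏ p ∈ E, p) (hq : 0 < q) {R : Finset ℕ} (hR : R ⊆ rows x q b U) {f : ℕ → ℕ}
    {s : ℕ → ℤ} (hdiv : ∀ r ∈ R, ∀ p ∈ E, (p : ℤ) ∣ ((r : ℤ) * q + b + f p) - s p) :
    R.card ≤ 2 * x / (q * e) + 1 := by
  obtain ⟨T, ρ, h1, h2, -⟩ := reduce hEp he hq hR hdiv
  rw [← h2]
  have := card_le_card h1
  rwa [Nat.card_Ioc, Nat.sub_zero] at this

/-- sieve bound for one configuration -/
theorem conf_sieve {x q b U e m W : ℕ} {E : Finset ℕ} (hE : E.card = m) (hm : 1 ≤ m)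
    (hEp : ∀ p ∈ E, p.Prime ∧ ¬ p ∣ q)
    (he : e = ∏ p ∈ E, p) (hq : 0 < q) {R : Finset ℕ} (hR : R ⊆ rows x q b U) {f : ℕ → ℕ}
    {s : ℕ → ℤ} (hdiv : ∀ r ∈ R, ∀ p ∈ E, (p : ℤ) ∣ ((r : ℤ) * q + b + f p) - s p)
    (hf : ∀ p ∈ E, f p ≤ U) (hinj : Set.InjOn f E) {P : Finset ℕ} {τ : ℕ → ℤ}
    (hP : ∀ p ∈ P, p.Prime ∧ 2 * m < p ∧ p ≤ W ∧ U < p ∧ ¬ p ∣ q ∧ p ∉ E) (hW : 3 ≤ W)
    (hN : W ^ (60 * m) ≤ 2 * x / (q * e) + 1)
    (hsurv : ∀ r ∈ R, ∀ p ∈ P, ∀ i ∈ E, ¬ (p : ℤ) ∣ ((r : ℤ) * q + b + f i) - τ p) :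
    (R.card : ℝ) ≤ 3 * ((2 * x / (q * e) + 1 : ℕ) : ℝ) * ∏ p ∈ P, (1 - (m : ℝ) / p) := by
  classical
  obtain ⟨T, ρ, h1, h2, h3⟩ := reduce hEp he hq hR hdiv
  rw [← h2]
  refine sieve hm hE (j := fun i => (f i : ℤ)) (a := (ρ - e) * q + b) (d := (e : ℤ) * q)
    (τ := τ) hW ?_ ?_ hN h1 ?_
  · intro p hp
    obtain ⟨g1, g2, g3, g4, g5, g6⟩ := hP p hp
    refine ⟨g1, g2, g3, ?_⟩
    intro hd
    have hd' : p ∣ e * q := by exact_mod_cast hd
    rcases g1.dvd_mul.1 hd' with h | h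
    · rw [he, g1.prime.dvd_finsetProd_iff] at h
      obtain ⟨p', hp', hpp⟩ := h
      rw [Nat.prime_dvd_prime_iff_eq g1 (hEp p' hp').1] at hpp
      rw [hpp] at g6
      exact g6 hp'
    · exact g5 h
  · intro p hp i hi i' hi' hne hd
    obtain ⟨g1, g2, g3, g4, g5, g6⟩ := hP p hp
    apply hne
    apply hinj hi hi'
    have h5 := Int.eq_zero_of_abs_lt_dvd hd (by
      have := hf i hi
      have := hf i' hi'
      rw [abs_lt]
      constructor <;> omega)
    omega
  · intro k hk p hp i hi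
    obtain ⟨r, hr, h4⟩ := h3 k hk
    have h5 := hsurv r hr p hp i hi
    have h6 : (ρ - e) * q + b + (e : ℤ) * q * k + (f i : ℤ) - τ p =
        ((r : ℤ) * q + b + f i) - τ p := by
      rw [h4]
      ring
    rw [h6]
    exact h5

/-- the sieving primes -/
noncomputable def PM (z W : ℕ) (E : Finset ℕ) : Finset ℕ := ((Ioc (z ^ 3) W).filter Nat.Prime) \ E

theorem mem_PM {z W p : ℕ} {E : Finset ℕ} :
    p ∈ PM z W E ↔ ((z ^ 3 < p ∧ p ≤ W) ∧ p.Prime) ∧ p ∉ E := by
  unfold PM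
  rw [Finset.mem_sdiff, mem_filter, mem_Ioc]

/-- the density of the sieve -/
theorem prod_le : ∃ C : ℝ, 0 < C ∧ ∀ (m z W y : ℕ) (E : Finset ℕ), 3 ≤ z → z ^ 3 ≤ W →
    E.card = m → (∀ p ∈ E, y < p) → m ≤ y → m ≤ z ^ 3 →
    ∏ p ∈ PM z W E, (1 - (m : ℝ) / p) ≤ (C * (Real.log z / Real.log W)) ^ m := by
  classical
  obtain ⟨C2, hC2, hmer⟩ := Pool.Agent.Work.MP_b0c12c_nt_helper41.mertens2
  refine ⟨3 * Real.exp (C2 + 1), by positivity, ?_⟩
  intro m z W y E hz hzW hE hEy hmy hmz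
  have hzR : (3 : ℝ) ≤ z := by exact_mod_cast hz
  have hlz : 1 ≤ Real.log z := by
    rw [Real.le_log_iff_exp_le (by linarith)]
    have := Real.exp_one_lt_d9
    linarith
  have hz3 : 27 ≤ z ^ 3 := le_trans (by norm_num) (Nat.pow_le_pow_left hz 3)
  have hlz3 : Real.log ((z ^ 3 : ℕ) : ℝ) = 3 * Real.log z := by
    push_cast
    rw [Real.log_pow]
    norm_num
  have hWR : ((z ^ 3 : ℕ) : ℝ) ≤ W := by exact_mod_cast hzW
  have hlW : 3 * Real.log z ≤ Real.log W := by
    rw [← hlz3]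
    exact Real.log_le_log (by exact_mod_cast (by omega : 0 < z ^ 3)) hWR
  have hlW0 : 0 < Real.log W := by linarith
  have h1 := (abs_le.mp (hmer (z ^ 3) W (by omega) hzW)).1
  rw [hlz3] at h1
  have h2 : C2 / (3 * Real.log z) ≤ C2 := div_le_self hC2.le (by linarith)
  -- the primes of `E`
  have hEs : ∑ p ∈ E, 1 / (p : ℝ) ≤ 1 := by
    rcases Nat.eq_zero_or_pos m with h0 | h0
    · rw [h0, card_eq_zero] at hE
      rw [hE]
      simp
    · have hy0 : 0 < y := by omega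
      calc ∑ p ∈ E, 1 / (p : ℝ) ≤ ∑ _p ∈ E, 1 / (y : ℝ) := by
            apply sum_le_sum
            intro p hp
            apply one_div_le_one_div_of_le (by exact_mod_cast hy0)
            exact_mod_cast (hEy p hp).le
        _ = (m : ℝ) * (1 / y) := by rw [sum_const, hE, nsmul_eq_mul]
        _ ≤ 1 := by
            rw [mul_one_div, div_le_one (by exact_mod_cast hy0)]
            exact_mod_cast hmy
  have h3 : ∑ p ∈ (Ioc (z ^ 3) W).filter Nat.Prime, 1 / (p : ℝ) ≤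
      ∑ p ∈ PM z W E, 1 / (p : ℝ) + ∑ p ∈ E, 1 / (p : ℝ) := by
    have h4 : (Ioc (z ^ 3) W).filter Nat.Prime ⊆ PM z W E ∪ E := by
      intro p hp
      rw [mem_union]
      by_cases h : p ∈ E
      · exact Or.inr h
      · left
        unfold PM
        rw [Finset.mem_sdiff]
        exact ⟨hp, h⟩
    have h5 : Disjoint (PM z W E) E := by
      unfold PM
      exact sdiff_disjoint
    rw [← sum_union h5]
    exact sum_le_sum_of_subset_of_nonneg h4 fun p _ _ => by positivity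
  have h4 : Real.log (Real.log W) - Real.log (3 * Real.log z) - (C2 + 1) ≤
      ∑ p ∈ PM z W E, 1 / (p : ℝ) := by linarith
  calc ∏ p ∈ PM z W E, (1 - (m : ℝ) / p) ≤ ∏ p ∈ PM z W E, Real.exp (-((m : ℝ) / p)) := by
        apply Finset.prod_le_prod
        · intro p hp
          rw [mem_PM] at hp
          have hp0 : (0 : ℝ) < p := by exact_mod_cast hp.1.2.pos
          rw [sub_nonneg, div_le_one hp0]
          exact_mod_cast (by omega : m ≤ p)
        · intro p _
          have := Real.add_one_le_exp (-((m : ℝ) / p))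
          linarith
    _ = Real.exp (-((m : ℝ) * ∑ p ∈ PM z W E, 1 / (p : ℝ))) := by
        rw [← Real.exp_sum]
        congr 1
        rw [sum_neg_distrib, mul_sum]
        congr 1
        apply sum_congr rfl
        intro p _
        ring
    _ ≤ Real.exp ((m : ℝ) * (C2 + 1 + Real.log (3 * Real.log z) + -Real.log (Real.log W))) := by
        apply Real.exp_le_exp.2
        have := mul_le_mul_of_nonneg_left h4 (Nat.cast_nonneg (α := ℝ) m)
        nlinarith
    _ = (Real.exp (C2 + 1 + Real.log (3 * Real.log z) + -Real.log (Real.log W))) ^ m := by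
        rw [← Real.exp_nat_mul]
    _ = (3 * Real.exp (C2 + 1) * (Real.log z / Real.log W)) ^ m := by
        congr 1
        rw [Real.exp_add, Real.exp_add, Real.exp_log (by linarith), Real.exp_neg,
          Real.exp_log hlW0]
        ring

/-- sizes -/
theorem sizesM {κ : ℝ} (hκ : 0 < κ) (hκ1 : κ ≤ 1 / 50) : ∀ᶠ z : ℕ in atTop, 16 ≤ z ∧
    ∀ x : ℕ, InR κ z x → (4 : ℝ) ^ z ≤ (x : ℝ) ^ (1 / 4 : ℝ) ∧ z * z ≤ x ∧ 1 ≤ Real.log x ∧
      Real.log x ≤ (z : ℝ) ^ 2 := by
  have t1 : Tendsto (fun z : ℕ => (z : ℝ) ^ κ) atTop atTop :=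
    (tendsto_rpow_atTop hκ).comp tendsto_natCast_atTop_atTop
  filter_upwards [t1.eventually_ge_atTop 8, eventually_ge_atTop 16] with z h1 h2
  refine ⟨h2, fun x hx => ?_⟩
  have hz : (16 : ℝ) ≤ z := by exact_mod_cast h2
  have hz0 : (0 : ℝ) < z := by linarith
  have hlx : 8 * (z : ℝ) ≤ Real.log x := by
    refine le_trans ?_ hx.1
    rw [Real.rpow_add hz0, Real.rpow_one]
    nlinarith
  have hx0 : (0 : ℝ) < x := by
    rcases Nat.eq_zero_or_pos x with h | h
    · rw [h] at hlx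
      simp at hlx
      linarith
    · exact_mod_cast h
  have hxe : Real.exp (2 * (z : ℝ)) ≤ (x : ℝ) ^ (1 / 4 : ℝ) := by
    rw [Real.rpow_def_of_pos hx0]
    apply Real.exp_le_exp.2
    linarith
  have h5 : (4 : ℝ) ^ z ≤ Real.exp (2 * (z : ℝ)) := by
    have h6 : Real.exp (2 * (z : ℝ)) = (Real.exp 2) ^ z := by
      rw [← Real.exp_nat_mul]
      congr 1
      ring
    rw [h6]
    apply pow_le_pow_left₀ (by norm_num)
    have h7 : Real.exp 2 = Real.exp 1 * Real.exp 1 := by rw [← Real.exp_add]; norm_num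
    have := Real.exp_one_gt_d9
    rw [h7]
    nlinarith
  refine ⟨h5.trans hxe, ?_, by linarith, ?_⟩
  · have h7 := Real.add_one_le_exp (z : ℝ)
    have h8 : (z : ℝ) * z ≤ Real.exp z * Real.exp z := by
      apply mul_le_mul (by linarith) (by linarith) hz0.le (Real.exp_pos _).le
    rw [← Real.exp_add] at h8
    have h9 : Real.exp ((z : ℝ) + z) ≤ x := by
      rw [← Real.le_log_iff_exp_le hx0]
      linarith
    exact_mod_cast h8.trans h9
  · refine hx.2.trans ?_
    rw [← Real.rpow_natCast]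
    apply Real.rpow_le_rpow_of_exponent_le (by linarith)
    push_cast
    linarith

theorem pow_shuffle (a1 a2 t : ℝ) (m : ℕ) : a1 ^ m * (t * a2 ^ m) = (a1 * a2) ^ m * t := by
  rw [mul_pow]; ring

theorem arith {a b c d t m L U X e N C0 : ℝ} {k : ℕ} (hk : 1 ≤ k) (ha : 0 ≤ a) (hX : 0 ≤ X / e)
    (h : a ≤ (800 * c * d + 1200 * d) * (m * (U / L))) (hC0 : C0 = 9 * (800 * c * d + 1200 * d))
    (hN : N ≤ 3 * (X / e)) (hb : b = m * (C0 * (U / L))) (ht : t ≤ 3 * N) :
    a ^ k * t ≤ X / e * b ^ k := by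
  have h1 : 9 * a ≤ b := by
    rw [hb, hC0]
    linarith
  have h2 : a ^ k * 9 ≤ b ^ k := by
    calc a ^ k * 9 ≤ a ^ k * 9 ^ k := by
          apply mul_le_mul_of_nonneg_left _ (pow_nonneg ha k)
          exact le_self_pow₀ (by norm_num) (by omega)
      _ = (9 * a) ^ k := by rw [mul_pow, mul_comm]
      _ ≤ b ^ k := pow_le_pow_left₀ (by linarith) h1 k
  calc a ^ k * t ≤ a ^ k * (9 * (X / e)) := by
        apply mul_le_mul_of_nonneg_left _ (pow_nonneg ha k)
        linarith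
    _ = X / e * (a ^ k * 9) := by ring
    _ ≤ X / e * b ^ k := mul_le_mul_of_nonneg_left h2 hX

end MDaux

open MDaux ROWSYaux RWaux

set_option maxHeartbeats 4000000

/-- Block MD. -/
theorem stmt_MD : Stmt_MD := by
  classical
  obtain ⟨C, hC, hprod⟩ := MDaux.prod_le
  obtain ⟨d, hd, zC, hCOL⟩ := stmt_COL
  obtain ⟨C0, hC0⟩ : ∃ C0, C0 = 9 * (800 * C * d + 1200 * d) := ⟨_, rfl⟩
  have hC00 : 0 < C0 := by rw [hC0]; positivity
  refine ⟨C0, hC00, ?_⟩
  intro κ hκ hκ1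
  obtain ⟨z1, hz1⟩ := eventually_atTop.1 (MDaux.sizesM hκ hκ1)
  refine ⟨max z1 zC, ?_⟩
  intro z hz x U y hx hy hzU hUy hU3 v hv b hb R hR K hK E hE
  obtain ⟨hz16, hsz⟩ := hz1 z (le_trans (le_max_left _ _) hz)
  obtain ⟨s1, s2, s3, s4⟩ := hsz x hx
  obtain ⟨hy1, hy2⟩ := hy
  have hzR : (16 : ℝ) ≤ z := by exact_mod_cast hz16
  have hlz1 : 1 ≤ Real.log z := by
    rw [Real.le_log_iff_exp_le (by linarith)]
    have := Real.exp_one_lt_d9
    linarith
  have hlz : 0 < Real.log z := by linarith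
  have hzz : z ≤ z ^ 2 := Nat.le_self_pow (by norm_num) z
  have hzy : z ≤ y := hzz.trans hy1
  have hyR : (z : ℝ) ≤ y := by exact_mod_cast hzy
  have hly : 1 ≤ Real.log y := hlz1.trans (Real.log_le_log (by linarith) hyR)
  obtain ⟨L, hL⟩ : ∃ L, L = Real.log x := ⟨_, rfl⟩
  rw [← hL] at s3 s4
  have hL0 : 0 < L := by linarith
  have hx0 : (0 : ℝ) < x := by
    rcases Nat.eq_zero_or_pos x with h | h
    · rw [h] at hL
      simp at hL
      linarith
    · exact_mod_cast h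
  have hx1 : (1 : ℝ) ≤ x := by
    have : 1 ≤ x := by exact_mod_cast hx0
    exact_mod_cast this
  obtain ⟨q, hq⟩ : ∃ q, q = qq z 0 := ⟨_, rfl⟩
  have hq0 : 0 < q := by rw [hq]; exact RWaux.qq_pos z 0
  have hqR : (0 : ℝ) < q := by exact_mod_cast hq0
  have hq4 : (q : ℝ) ≤ (x : ℝ) ^ (1 / 4 : ℝ) := by
    refine le_trans ?_ s1
    have h1 : q ≤ primorial z := by
      rw [hq]
      exact Nat.le_of_dvd (primorial_pos z) (qq_dvd z 0)
    have h2 := h1.trans (primorial_le_four_pow z)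
    exact_mod_cast h2
  obtain ⟨A, hA⟩ : ∃ A, A = AY κ y z := ⟨_, rfl⟩
  have hAp : ∀ p ∈ A, p.Prime ∧ y < p ∧ z < p := by
    intro p hp
    rw [hA, mem_AY] at hp
    exact ⟨hp.2, by omega, by omega⟩
  rw [← hq, ← hL]
  rw [← hq] at hR
  rw [← hA, ← hq] at hK
  obtain ⟨m, hm⟩ : ∃ m, m = E.card := ⟨_, rfl⟩
  have hm1 : 1 ≤ m := by rw [hm]; exact hE.card_pos
  rw [← hm]
  obtain ⟨RE, hRE⟩ : ∃ RE, RE = R.filter (fun r => E ⊆ K r) := ⟨_, rfl⟩
  obtain ⟨e, he⟩ : ∃ e, e = ∏ p ∈ E, p := ⟨_, rfl⟩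
  have hRHS : (x : ℝ) / q * ∏ p ∈ E, ((m : ℝ) * (C0 * (U / L) / p)) =
      (x / q) / e * ((m : ℝ) * (C0 * (U / L))) ^ m := by
    have h1 : ∏ p ∈ E, ((m : ℝ) * (C0 * (U / L) / p)) =
        ((m : ℝ) * (C0 * (U / L))) ^ m / e := by
      rw [he]
      push_cast
      rw [hm, ← prod_const, ← prod_div_distrib]
      apply prod_congr rfl
      intro p _
      ring
    rw [h1]
    ring
  rw [hRHS, ← hRE]
  rcases RE.eq_empty_or_nonempty with h0 | ⟨r1, hr1⟩
  · rw [h0]
    simp only [card_empty, Nat.cast_zero]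
    positivity
  have hREm : ∀ r, r ∈ RE ↔ r ∈ R ∧ E ⊆ K r := by
    intro r
    rw [hRE, mem_filter]
  obtain ⟨hr1R, hr1E⟩ := (hREm r1).1 hr1
  have hEA : ∀ p ∈ E, p.Prime ∧ y < p ∧ z < p := fun p hp =>
    hAp p ((hK r1 hr1R).1 (hr1E hp))
  have he0 : 0 < e := by
    rw [he]
    exact prod_pos fun p hp => (hEA p hp).1.pos
  have heR : (0 : ℝ) < e := by exact_mod_cast he0
  have he4 : (e : ℝ) ≤ (x : ℝ) ^ (1 / 4 : ℝ) := by
    refine le_trans ?_ (hK r1 hr1R).2.1
    rw [he]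
    have h1 : ∏ p ∈ E, p ≤ ∏ p ∈ K r1, p := by
      apply prod_le_prod_of_subset_of_one_le' hr1E
      intro p hp _
      exact (hAp p ((hK r1 hr1R).1 hp)).1.one_lt.le
    exact_mod_cast h1
  have hym : y ^ m ≤ e := by
    rw [he, hm]
    exact Finset.pow_card_le_prod _ _ _ fun p hp => (hEA p hp).2.1.le
  have hmL : (m : ℝ) * Real.log y ≤ L / 4 := by
    have h1 : ((y : ℝ)) ^ m ≤ (x : ℝ) ^ (1 / 4 : ℝ) := le_trans (by exact_mod_cast hym) he4
    have hy0 : (0 : ℝ) < y := by linarith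
    have h2 := Real.log_le_log (pow_pos hy0 m) h1
    rw [Real.log_pow, Real.log_rpow hx0, ← hL] at h2
    linarith
  have hmz : 4 * m ≤ z ^ 2 := by
    have h1 : (m : ℝ) * 1 ≤ m * Real.log y := mul_le_mul_of_nonneg_left hly (Nat.cast_nonneg m)
    have h2 : 4 * (m : ℝ) ≤ (z : ℝ) ^ 2 := by linarith
    exact_mod_cast h2
  have hz23 : z ^ 2 ≤ z ^ 3 := Nat.pow_le_pow_right (by omega) (by norm_num)
  have hmR : (1 : ℝ) ≤ m := by exact_mod_cast hm1
  -- the columns
  obtain ⟨J, hJ⟩ : ∃ J, J = (Icc 2 U).filter (fun j => j.Coprime q) := ⟨_, rfl⟩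
  have hJcard : (J.card : ℝ) ≤ d * (U / Real.log z) := by
    refine le_trans ?_ (hCOL z (le_trans (le_max_right _ _) hz) U hzU)
    rw [hJ, hq]
    exact_mod_cast card_le_card (filter_subset_filter _ (Icc_subset_Icc (by norm_num) le_rfl))
  -- configurations
  choose! hKA hKe nn hinj hnn using hK
  have hnn' : ∀ r ∈ RE, ∀ p ∈ E, r * q + b + 2 ≤ nn r p ∧ nn r p - (r * q + b) ∈ J ∧
      SurvF v A x (nn r p) ∧ (∀ p' ∈ A, ¬ p' ∣ nn r p) ∧ p ∣ nn r p ^ 2 - 1 := by
    intro r hr p hp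
    obtain ⟨hrR, hrE⟩ := (hREm r).1 hr
    obtain ⟨h1, h2, h3⟩ := hnn r hrR p (hrE hp)
    have h4 := col_memY (z := z) (fun p hp => (hAp p hp).2.2) s2 hb (by rw [← hq]; exact h1)
    rw [← hq, ← hJ] at h4
    have h5 := h1
    unfold Sur at h5
    rw [mem_filter, mem_Ioc] at h5
    exact ⟨by omega, h4, h5.2, h2, h3⟩
  obtain ⟨φ, hφ⟩ : ∃ φ : ℕ → (↥E → ℕ × ℤ), φ = fun (r : ℕ) (p : ↥E) =>
      ((nn r (p : ℕ) - (r * q + b), if (p : ℕ) ∣ nn r (p : ℕ) - 1 then (1 : ℤ) else -1) : ℕ × ℤ) :=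
    ⟨_, rfl⟩
  obtain ⟨Φ, hΦ⟩ : ∃ Φ, Φ = Fintype.piFinset (fun _ : ↥E => J ×ˢ ({1, -1} : Finset ℤ)) := ⟨_, rfl⟩
  have hφΦ : ∀ r ∈ RE, φ r ∈ Φ := by
    intro r hr
    rw [hΦ, Fintype.mem_piFinset]
    intro p
    rw [mem_product, hφ]
    refine ⟨(hnn' r hr p p.2).2.1, ?_⟩
    simp only
    split_ifs <;> simp
  have hΦcard : (Φ.card : ℝ) = (2 * (J.card : ℝ)) ^ m := by
    rw [hΦ, Fintype.card_piFinset]
    simp only [card_product, prod_const, card_univ, Fintype.card_coe]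
    rw [← hm]
    have h1 : (({1, -1} : Finset ℤ)).card = 2 := by decide
    rw [h1]
    push_cast
    ring
  obtain ⟨N, hN⟩ : ∃ N : ℕ, N = 2 * x / (q * e) + 1 := ⟨_, rfl⟩
  have hqe : ((q * e : ℕ) : ℝ) ≤ (x : ℝ) ^ (1 / 2 : ℝ) := by
    push_cast
    calc (q : ℝ) * e ≤ (x : ℝ) ^ (1 / 4 : ℝ) * (x : ℝ) ^ (1 / 4 : ℝ) :=
          mul_le_mul hq4 he4 heR.le (by positivity)
      _ = (x : ℝ) ^ (1 / 2 : ℝ) := by rw [← Real.rpow_add hx0]; norm_num
  have hqe0 : (0 : ℝ) < ((q * e : ℕ) : ℝ) := by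
    push_cast
    positivity
  have hNR : (N : ℝ) ≤ 3 * (x / q / e) := by
    rw [hN]
    push_cast
    have h1 : ((2 * x / (q * e) : ℕ) : ℝ) ≤ ((2 * x : ℕ) : ℝ) / ((q * e : ℕ) : ℝ) := Nat.cast_div_le
    have h2 : ((2 * x : ℕ) : ℝ) / ((q * e : ℕ) : ℝ) = 2 * (x / q / e) := by
      push_cast
      field_simp
    have h3 : (1 : ℝ) ≤ x / q / e := by
      rw [div_div, one_le_div (by positivity)]
      have h4 : (x : ℝ) ^ (1 / 2 : ℝ) ≤ (x : ℝ) ^ (1 : ℝ) :=
        Real.rpow_le_rpow_of_exponent_le hx1 (by norm_num)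
      rw [Real.rpow_one] at h4
      push_cast at hqe
      linarith
    push_cast at h1 h2
    linarith
  -- sum over the configurations
  have htotal : ∀ Bd : ℝ, (∀ ψ ∈ Φ, ((RE.filter (fun r => φ r = ψ)).card : ℝ) ≤ Bd) →
      (RE.card : ℝ) ≤ (2 * (J.card : ℝ)) ^ m * Bd := by
    intro Bd hBd
    rw [card_eq_sum_card_fiberwise hφΦ]
    push_cast
    calc ∑ ψ ∈ Φ, ((RE.filter (fun r => φ r = ψ)).card : ℝ) ≤ ∑ _ψ ∈ Φ, Bd := sum_le_sum hBd
      _ = (Φ.card : ℝ) * Bd := by rw [sum_const, nsmul_eq_mul]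
      _ = _ := by rw [hΦcard]
  -- one configuration
  have hEp : ∀ p ∈ E, p.Prime ∧ ¬ p ∣ q := by
    intro p hp
    obtain ⟨h1, h2, h3⟩ := hEA p hp
    refine ⟨h1, fun h => ?_⟩
    rw [hq] at h
    have := (mem_qq h1 h).1
    omega
  have hconf : ∀ ψ ∈ Φ, (RE.filter (fun r => φ r = ψ)).Nonempty → ∃ (f : ℕ → ℕ) (s : ℕ → ℤ),
      (∀ p ∈ E, f p ≤ U) ∧ Set.InjOn f E ∧
      (∀ r ∈ RE.filter (fun r => φ r = ψ), ∀ p ∈ E, (p : ℤ) ∣ ((r : ℤ) * q + b + f p) - s p) ∧
      (∀ r ∈ RE.filter (fun r => φ r = ψ), ∀ i ∈ E, r * q + b + f i = nn r i) := by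
    intro ψ _ ⟨r0, hr0⟩
    rw [mem_filter] at hr0
    obtain ⟨hr0, hψ⟩ := hr0
    have hval : ∀ r ∈ RE.filter (fun r => φ r = ψ), ∀ p ∈ E,
        nn r p - (r * q + b) = nn r0 p - (r0 * q + b) ∧
        ((if p ∣ nn r p - 1 then (1 : ℤ) else -1) = if p ∣ nn r0 p - 1 then 1 else -1) := by
      intro r hr p hp
      rw [mem_filter] at hr
      have h1 : φ r = φ r0 := by rw [hr.2, hψ]
      have h2 := congrFun h1 ⟨p, hp⟩
      rw [hφ] at h2
      simp only [Prod.mk.injEq] at h2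
      exact h2
    refine ⟨fun p => nn r0 p - (r0 * q + b), fun p => if p ∣ nn r0 p - 1 then 1 else -1,
      ?_, ?_, ?_, ?_⟩
    · intro p hp
      have h1 := (hnn' r0 hr0 p hp).2.1
      rw [hJ, mem_filter, mem_Icc] at h1
      exact h1.1.2
    · intro p hp p' hp' h
      simp only at h
      have h1 := (hnn' r0 hr0 p hp).1
      have h2 := (hnn' r0 hr0 p' hp').1
      have hrE := (hREm r0).1 hr0
      apply hinj r0 hrE.1 (hrE.2 hp) (hrE.2 hp')
      omega
    · intro r hr p hp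
      obtain ⟨e1, e2⟩ := hval r hr p hp
      rw [mem_filter] at hr
      obtain ⟨h1, h2, h3, h4, h5⟩ := hnn' r hr.1 p hp
      simp only
      rw [← e1, ← e2]
      have h6 : ((r : ℤ) * q + b + ((nn r p - (r * q + b) : ℕ) : ℤ)) = (nn r p : ℤ) := by
        rw [Nat.cast_sub (by omega)]
        push_cast
        ring
      rw [h6]
      split_ifs with h7
      · rw [CL.dvd_nat_sub (by omega)]
        exact h7
      · rw [CL.dvd_nat_add]
        have h8 : p ∣ (nn r p + 1) * (nn r p - 1) := by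
          have e3 : (nn r p + 1) * (nn r p - 1) = nn r p ^ 2 - 1 := by
            have := Nat.sq_sub_sq (nn r p) 1
            simpa using this.symm
          rw [e3]
          exact h5
        rcases (hEp p hp).1.dvd_mul.1 h8 with h9 | h9
        · exact h9
        · exact absurd h9 h7
    · intro r hr i hi
      obtain ⟨e1, -⟩ := hval r hr i hi
      rw [mem_filter] at hr
      obtain ⟨h1, -⟩ := hnn' r hr.1 i hi
      simp only
      omega
  have hsubR : ∀ ψ, RE.filter (fun r => φ r = ψ) ⊆ rows x q b U := by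
    intro ψ r hr
    rw [mem_filter] at hr
    exact hR ((hREm r).1 hr.1).1
  have hX : 0 ≤ (x : ℝ) / q / e := by positivity
  -- the two cases
  obtain ⟨W, hW⟩ : ∃ W : ℕ, W = ⌊(x : ℝ) ^ (1 / (200 * (m : ℝ)))⌋₊ := ⟨_, rfl⟩
  have hWle : (W : ℝ) ≤ (x : ℝ) ^ (1 / (200 * (m : ℝ))) := by
    rw [hW]
    exact Nat.floor_le (by positivity)
  rcases le_or_gt (z ^ 3) W with hcase | hcase
  · -- the sieve
    have hz3 : 16 ^ 3 ≤ z ^ 3 := Nat.pow_le_pow_left hz16 3
    have hW3 : 3 ≤ W := by omega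
    have hWR : (4096 : ℝ) ≤ W := by
      have : 4096 ≤ W := by omega
      exact_mod_cast this
    have hlW : L / (400 * m) ≤ Real.log W := by
      have h1 : (x : ℝ) ^ (1 / (200 * (m : ℝ))) < W + 1 := by
        rw [hW]
        exact Nat.lt_floor_add_one _
      have h2 : (x : ℝ) ^ (1 / (200 * (m : ℝ))) ≤ (W : ℝ) ^ 2 := by nlinarith
      have h3 := Real.log_le_log (by positivity) h2
      rw [Real.log_rpow hx0, Real.log_pow, ← hL] at h3
      push_cast at h3
      have h4 : L / (400 * m) = 1 / (200 * (m : ℝ)) * L / 2 := by field_simp; norm_num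
      rw [h4]
      linarith
    have hlW0 : 0 < Real.log W := lt_of_lt_of_le (by positivity) hlW
    have hWW : W * W ≤ x := by
      have h1 : (W : ℝ) * W ≤ (x : ℝ) ^ (1 / 2 : ℝ) * (x : ℝ) ^ (1 / 2 : ℝ) := by
        have h2 : (x : ℝ) ^ (1 / (200 * (m : ℝ))) ≤ (x : ℝ) ^ (1 / 2 : ℝ) := by
          apply Real.rpow_le_rpow_of_exponent_le hx1
          apply one_div_le_one_div_of_le (by norm_num)
          linarith
        have h3 := hWle.trans h2
        exact mul_le_mul h3 h3 (Nat.cast_nonneg W) (by positivity)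
      rw [← Real.rpow_add hx0] at h1
      norm_num at h1
      exact_mod_cast h1
    have hWN : W ^ (60 * m) ≤ 2 * x / (q * e) + 1 := by
      have h1 : ((W ^ (60 * m) : ℕ) : ℝ) ≤ (x : ℝ) ^ (1 / 2 : ℝ) := by
        push_cast
        calc (W : ℝ) ^ (60 * m) ≤ ((x : ℝ) ^ (1 / (200 * (m : ℝ)))) ^ (60 * m) :=
              pow_le_pow_left₀ (Nat.cast_nonneg W) hWle _
          _ = (x : ℝ) ^ (3 / 10 : ℝ) := by
              rw [← Real.rpow_natCast, ← Real.rpow_mul hx0.le]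
              congr 1
              push_cast
              field_simp
              norm_num
          _ ≤ _ := Real.rpow_le_rpow_of_exponent_le hx1 (by norm_num)
      have h2 : ((2 * x : ℕ) : ℝ) / ((q * e : ℕ) : ℝ) < ((2 * x / (q * e) + 1 : ℕ) : ℝ) := by
        have h3 := Nat.lt_div_mul_add (a := 2 * x) (b := q * e) (Nat.mul_pos hq0 he0)
        rw [div_lt_iff₀ hqe0]
        have h4 : 2 * x < (2 * x / (q * e) + 1) * (q * e) := by
          rw [add_mul, one_mul]
          exact h3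
        exact_mod_cast h4
      have h3 : (x : ℝ) ^ (1 / 2 : ℝ) ≤ ((2 * x : ℕ) : ℝ) / ((q * e : ℕ) : ℝ) := by
        rw [le_div_iff₀ hqe0]
        calc (x : ℝ) ^ (1 / 2 : ℝ) * ((q * e : ℕ) : ℝ) ≤
              (x : ℝ) ^ (1 / 2 : ℝ) * (x : ℝ) ^ (1 / 2 : ℝ) :=
              mul_le_mul_of_nonneg_left hqe (by positivity)
          _ = x := by rw [← Real.rpow_add hx0]; norm_num
          _ ≤ _ := by push_cast; linarith
      have h4 : ((W ^ (60 * m) : ℕ) : ℝ) < ((2 * x / (q * e) + 1 : ℕ) : ℝ) :=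
        lt_of_le_of_lt (h1.trans h3) h2
      have h5 : W ^ (60 * m) < 2 * x / (q * e) + 1 := by exact_mod_cast h4
      exact h5.le
    have hpr := hprod m z W y E (by omega) hcase hm.symm (fun p hp => (hEA p hp).2.1)
      (by omega) (by omega)
    have hbd := htotal (3 * (N : ℝ) * (C * (Real.log z / Real.log W)) ^ m) (by
      intro ψ hψ
      rcases (RE.filter (fun r => φ r = ψ)).eq_empty_or_nonempty with h0 | h0
      · rw [h0]
        simp only [card_empty, Nat.cast_zero]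
        positivity
      obtain ⟨f, s, hf1, hf2, hf3, hf4⟩ := hconf ψ hψ h0
      have h1 := conf_sieve hm.symm hm1 hEp he hq0 (hsubR ψ) hf3 hf1 hf2 (P := PM z W E)
        (W := W) (τ := fun p => if p ∈ A then 0 else v p) (by
          intro p hp
          rw [mem_PM] at hp
          obtain ⟨⟨⟨g1, g2⟩, g3⟩, g4⟩ := hp
          refine ⟨g3, by omega, g2, by omega, ?_, g4⟩
          intro h
          rw [hq] at h
          have := (mem_qq g3 h).1
          have : z ≤ z ^ 3 := Nat.le_self_pow (by norm_num) z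
          omega) hW3 hWN (by
          intro r hr p hp i hi
          have g0 := hf4 r hr i hi
          rw [mem_filter] at hr
          obtain ⟨g1, g2, g3, g4, g5⟩ := hnn' r hr.1 i hi
          rw [mem_PM] at hp
          have g6 : ((r : ℤ) * q + b + f i) = (nn r i : ℤ) := by
            rw [← g0]
            push_cast
            ring
          rw [g6]
          split_ifs with h
          · rw [sub_zero]
            intro hd
            exact g4 p h (by exact_mod_cast hd)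
          · exact g3 p hp.1.2 ((Nat.mul_le_mul hp.1.1.2 hp.1.1.2).trans hWW) h)
      rw [← hN] at h1
      refine h1.trans ?_
      exact mul_le_mul_of_nonneg_left hpr (by positivity))
    have hfin := arith (a := (2 * (d * (U / Real.log z))) * (C * (Real.log z / Real.log W)))
      (b := m * (C0 * (U / L))) (c := C) (d := d) (t := 3 * (N : ℝ)) (m := m) (L := L) (U := U)
      (X := x / q) (e := e) (N := N) (C0 := C0) hm1 (by positivity) hX ?_ hC0 hNR rfl le_rfl
    · refine hbd.trans (le_trans ?_ hfin)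
      have h1 : (2 * (J.card : ℝ)) ^ m ≤ (2 * (d * (U / Real.log z))) ^ m :=
        pow_le_pow_left₀ (by positivity) (by linarith) m
      calc (2 * (J.card : ℝ)) ^ m * (3 * (N : ℝ) * (C * (Real.log z / Real.log W)) ^ m) ≤
            (2 * (d * (U / Real.log z))) ^ m *
              (3 * (N : ℝ) * (C * (Real.log z / Real.log W)) ^ m) :=
            mul_le_mul_of_nonneg_right h1 (by positivity)
        _ = _ := pow_shuffle _ _ _ _
    · have h1 : (2 * (d * (U / Real.log z))) * (C * (Real.log z / Real.log W)) =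
          2 * d * C * U * (1 / Real.log W) := by
        field_simp
      rw [h1]
      have h2 : 1 / Real.log W ≤ 400 * m / L := by
        have h3 := one_div_le_one_div_of_le (by positivity : 0 < L / (400 * m)) hlW
        rwa [one_div_div] at h3
      calc 2 * d * C * U * (1 / Real.log W) ≤ 2 * d * C * U * (400 * m / L) :=
            mul_le_mul_of_nonneg_left h2 (by positivity)
        _ = (800 * C * d) * (m * (U / L)) := by ring
        _ ≤ _ := by
            apply mul_le_mul_of_nonneg_right _ (by positivity)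
            linarith [mul_pos (show (0 : ℝ) < 1200 by norm_num) hd]
  · -- trivial bound
    have hlog : 1 / Real.log z ≤ 600 * m / L := by
      have h1 : (x : ℝ) ^ (1 / (200 * (m : ℝ))) < (z : ℝ) ^ 3 := by
        have h2 : ⌊(x : ℝ) ^ (1 / (200 * (m : ℝ)))⌋₊ < z ^ 3 := by rw [← hW]; exact hcase
        have h3 := (Nat.floor_lt (by positivity)).1 h2
        exact_mod_cast h3
      have h4 := Real.log_le_log (by positivity) h1.le
      rw [Real.log_rpow hx0, Real.log_pow, ← hL] at h4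
      push_cast at h4
      rw [div_le_div_iff₀ hlz hL0]
      have h5 : 1 / (200 * (m : ℝ)) * L * (200 * m) = L := by field_simp
      have h6 := mul_le_mul_of_nonneg_right h4 (by positivity : (0 : ℝ) ≤ 200 * m)
      rw [h5] at h6
      linarith
    have hbd := htotal (N : ℝ) (by
      intro ψ hψ
      rcases (RE.filter (fun r => φ r = ψ)).eq_empty_or_nonempty with h0 | h0
      · rw [h0]
        simp only [card_empty, Nat.cast_zero]
        positivity
      obtain ⟨f, s, hf1, hf2, hf3, hf4⟩ := hconf ψ hψ h0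
      have h1 := conf_triv hEp he hq0 (hsubR ψ) hf3
      rw [← hN] at h1
      exact_mod_cast h1)
    have hfin := arith (a := 2 * (d * (U / Real.log z)))
      (b := m * (C0 * (U / L))) (c := C) (d := d) (t := (N : ℝ)) (m := m) (L := L) (U := U)
      (X := x / q) (e := e) (N := N) (C0 := C0) hm1 (by positivity) hX ?_ hC0 hNR rfl (by
        have : (0 : ℝ) ≤ N := Nat.cast_nonneg N
        linarith)
    · refine hbd.trans (le_trans ?_ hfin)
      have h1 : (2 * (J.card : ℝ)) ^ m ≤ (2 * (d * (U / Real.log z))) ^ m :=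
        pow_le_pow_left₀ (by positivity) (by linarith) m
      exact mul_le_mul_of_nonneg_right h1 (by positivity)
    · calc 2 * (d * (U / Real.log z)) = 2 * d * U * (1 / Real.log z) := by ring
        _ ≤ 2 * d * U * (600 * m / L) := mul_le_mul_of_nonneg_left hlog (by positivity)
        _ = (1200 * d) * (m * (U / L)) := by ring
        _ ≤ _ := by
            apply mul_le_mul_of_nonneg_right _ (by positivity)
            linarith [mul_pos (mul_pos (show (0 : ℝ) < 800 by norm_num) hC) hd]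

end Pool.Agent.Work.MP_b0c12c_nt_sparse
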