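import Mathlib
import Pool.Agent.Work.MP_b0c12c_nt_shift.Op
import Pool.Agent.Work.MP_b0c12c_nt_shift.SM
import Pool.Agent.Work.MP_b0c12c_nt_shift.PCG
import Pool.Agent.Work.MP_b0c12c_nt_sparse.Interface

/-!
# Block SCS: assembly at one scale
-/

set_option autoImplicit false

namespace Pool.Agent.Work.MP_b0c12c_nt_sparse

open Finset Filter
open Pool.Agent.Work.MP_b0c12c_nt_shift

namespace SCSaux

/-- The class of the rows exists. -/
theorem exists_isB (v : ℕ → ℤ) (z : ℕ) : ∃ b, IsB v z 0 b := by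
  set P := ((Icc 1 z).filter Nat.Prime).erase 0 with hP
  have hmem : ∀ p ∈ P, p.Prime := by
    intro p hp
    rw [hP, mem_erase, mem_filter] at hp
    exact hp.2.2
  have hco : Set.Pairwise (P : Set ℕ) (Function.onFun Nat.Coprime (fun p => p)) := by
    intro p hp q hq hpq
    exact (Nat.coprime_primes (hmem p hp) (hmem q hq)).mpr hpq
  have hne : ∀ p ∈ P, p ≠ 0 := fun p hp => (hmem p hp).ne_zero
  refine ⟨(Nat.chineseRemainderOfFinset (fun p => (v p % p).toNat) (fun p => p) P hne hco).1,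
    ?_, ?_⟩
  · exact Nat.chineseRemainderOfFinset_lt_prod _ _ hne hco
  · intro p hp hpz _
    have hpP : p ∈ P := by
      rw [hP, mem_erase, mem_filter, mem_Icc]
      exact ⟨hp.ne_zero, ⟨hp.one_le, hpz⟩, hp⟩
    have h1 := (Nat.chineseRemainderOfFinset (fun p => (v p % p).toNat) (fun p => p) P hne hco).2 p
      hpP
    set k : ℕ := (Nat.chineseRemainderOfFinset (fun p => (v p % p).toNat) (fun p => p) P hne
      hco).1 with hk
    have hp0 : (0 : ℤ) < p := by exact_mod_cast hp.pos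
    have h2 : (k : ℤ) ≡ ((v p % p).toNat : ℤ) [ZMOD p] := (Int.natCast_modEq_iff).mpr h1
    rw [Int.toNat_of_nonneg (Int.emod_nonneg _ hp0.ne')] at h2
    have h3 : (k : ℤ) ≡ v p [ZMOD p] := h2.trans (Int.mod_modEq _ _)
    exact (Int.modEq_iff_dvd.mp h3.symm)

/-- The event that the window is empty, seen only through the primes which divide one of its
members up to the shift. -/
def EmpR (A D : Finset ℕ) (x U N : ℕ) : Set (ℕ → ℤ) :=
  {w | ∀ n ∈ Ioc (N + 1) (N + U), ∃ p : ℕ, p.Prime ∧ p * p ≤ x ∧ (p ∈ A → p ∈ D) ∧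
    (p : ℤ) ∣ (n : ℤ) - w p}

theorem empR_dependsOn (A D : Finset ℕ) (x U N : ℕ) :
    DependsOn (ind (EmpR A D x U N)) ((D : Set ℕ) ∪ (A : Set ℕ)ᶜ) := by
  apply ind_dependsOn
  intro v w hvw hv n hn
  obtain ⟨p, hp, hpx, hpD, hdvd⟩ := hv n hn
  refine ⟨p, hp, hpx, hpD, ?_⟩
  rw [← hvw p]
  · exact hdvd
  · by_cases hpA : p ∈ A
    · exact Or.inl (hpD hpA)
    · exact Or.inr hpA

theorem empR_sub {A D : Finset ℕ} {x U N : ℕ} {w : ℕ → ℤ} (h : w ∈ EmpR A D x U N) :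
    w ∈ Emp x U N := by
  intro n hn
  obtain ⟨p, hp, hpx, -, hdvd⟩ := h n hn
  exact ⟨p, hp, hpx, hdvd⟩

theorem mem_Dset {A : Finset ℕ} {U N p : ℕ} :
    p ∈ Dset A U N ↔ p ∈ A ∧ ∃ m ∈ Icc N (N + U + 1), p ∣ m := by
  unfold Dset
  exact @mem_filter _ _ (Classical.decPred _) _ _

theorem emp_sub {A : Finset ℕ} {x U N : ℕ} {w : ℕ → ℤ} (hw : ∀ p ∈ A, w p ∈ sgn)
    (h : w ∈ Emp x U N) : w ∈ EmpR A (Dset A U N) x U N := by
  intro n hn
  obtain ⟨p, hp, hpx, hdvd⟩ := h n hn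
  refine ⟨p, hp, hpx, fun hpA => ?_, hdvd⟩
  rw [mem_Ioc] at hn
  refine mem_Dset.2 ⟨hpA, ?_⟩
  have h1 := hw p hpA
  unfold sgn at h1
  simp only [mem_insert, mem_singleton] at h1
  rcases h1 with h1 | h1 | h1
  · refine ⟨n + 1, mem_Icc.2 ⟨by omega, by omega⟩, ?_⟩
    rw [h1] at hdvd
    have : (n : ℤ) - -1 = ((n + 1 : ℕ) : ℤ) := by push_cast; ring
    rw [this] at hdvd
    exact_mod_cast hdvd
  · refine ⟨n, mem_Icc.2 ⟨by omega, by omega⟩, ?_⟩
    rw [h1, sub_zero] at hdvd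
    exact_mod_cast hdvd
  · refine ⟨n - 1, mem_Icc.2 ⟨by omega, by omega⟩, ?_⟩
    rw [h1] at hdvd
    have : (n : ℤ) - 1 = ((n - 1 : ℕ) : ℤ) := by
      rw [Nat.cast_sub (by omega)]
      push_cast
      ring
    rw [this] at hdvd
    exact_mod_cast hdvd

theorem qq_pos (z : ℕ) : 0 < qq z 0 := by
  unfold qq
  apply Finset.prod_pos
  intro p hp
  rw [mem_erase, mem_filter] at hp
  exact hp.2.2.pos

theorem dvd_qq {z p : ℕ} (hp : p.Prime) (hpz : p ≤ z) : p ∣ qq z 0 := by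
  unfold qq
  apply Finset.dvd_prod_of_mem (fun p => p)
  rw [mem_erase, mem_filter, mem_Icc]
  exact ⟨hp.ne_zero, ⟨hp.one_le, hpz⟩, hp⟩

/-- One scale. -/
theorem scale (hCLS : Stmt_CLS) {π : ℕ → ℤ → ℝ} (hπ : ∀ p s, 0 ≤ π p s)
    (hs : ∀ p, π p (-1) + π p 0 + π p 1 = 1) {c : ℕ → ℝ} {A : Finset ℕ} {z x U : ℕ} {v : ℕ → ℤ}
    (hz : 3 ≤ z) (hx : 9 ≤ x) (hv : ∀ p, v p ∈ sgn)
    (hA : ∀ p ∈ A, p.Prime ∧ U + 6 < p ∧ p * p ≤ x ∧ 1 / 2 ≤ π p 0 ∧ 0 ≤ c p ∧
      Real.exp (-c p) ≤ π p 1 ∧ Real.exp (-c p) ≤ π p (-1)) {b : ℕ} (hb : IsB v z 0 b)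
    {R : Finset ℕ} (hR : R ⊆ rows x (qq z 0) b U) (hRcard : (x : ℝ) / qq z 0 / 4 ≤ R.card)
    (hrow : ∀ r ∈ R, cost π c A (Sur v A x U (r * qq z 0 + b)) ≤ 1 / 2 * Real.log x ∧
      HasKillers A (Sur v A x U (r * qq z 0 + b)))
    (hPC : ∑ rr ∈ (rows x (qq z 0) b U ×ˢ rows x (qq z 0) b U).filter (fun rr =>
        ((∏ p ∈ Dset A U (rr.1 * qq z 0 + b) ∩
          Dset A U (rr.2 * qq z 0 + b), p : ℕ) : ℝ) ≤ x / qq z 0),
      ((∏ p ∈ Dset A U (rr.1 * qq z 0 + b) ∩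
          Dset A U (rr.2 * qq z 0 + b), 2 * Real.exp (c p)) - 1) ≤ (x / qq z 0) ^ 2 / z ∧
    (((rows x (qq z 0) b U ×ˢ rows x (qq z 0) b U).filter (fun rr => (x : ℝ) / qq z 0 <
        ((∏ p ∈ Dset A U (rr.1 * qq z 0 + b) ∩
          Dset A U (rr.2 * qq z 0 + b), p : ℕ) : ℝ))).card : ℝ) ≤
      (x / qq z 0) ^ 2 * (x : ℝ) ^ (-(1 - 1 / 4) : ℝ)) :
    EA π A (ind {w | ∀ N : ℕ, x ≤ N → N + U ≤ 2 * x → w ∉ Emp x U N}) v ≤
      16 / z + 16 * (x : ℝ) ^ (-(1 / 4) : ℝ) := by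
  classical
  set q := qq z 0 with hq
  have hq0 : (0 : ℝ) < q := by exact_mod_cast qq_pos z
  have hx0 : (0 : ℝ) < x := by
    have : (9 : ℝ) ≤ x := by exact_mod_cast hx
    linarith
  have hz0 : (0 : ℝ) < z := by
    have : (3 : ℝ) ≤ z := by exact_mod_cast hz
    linarith
  set H : ℝ := (x : ℝ) / q with hH
  have hH0 : 0 < H := div_pos hx0 hq0
  have hRpos : 0 < (R.card : ℝ) := lt_of_lt_of_le (by positivity) hRcard
  have hRne : R.Nonempty := by
    rw [← card_pos]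
    exact_mod_cast hRpos
  set θ : ℝ := Real.exp (-(1 / 2 * Real.log x)) with hθ
  have hθ0 : 0 < θ := Real.exp_pos _
  -- the events
  set S : ℕ → Set (ℕ → ℤ) := fun r => EmpR A (Dset A U (r * q + b)) x U (r * q + b) with hS
  have hDsub : ∀ N, Dset A U N ⊆ A := fun N p hp => (mem_Dset.1 hp).1
  have hdep : ∀ r ∈ R, Dset A U (r * q + b) ⊆ A ∧
      DependsOn (ind (S r)) ((Dset A U (r * q + b) : Set ℕ) ∪ (A : Set ℕ)ᶜ) := fun r _ =>
    ⟨hDsub _, empR_dependsOn _ _ _ _ _⟩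
  have hprob : ∀ r ∈ R, θ ≤ EA π A (ind (S r)) v := by
    intro r hr
    have hr' := hR hr
    unfold rows at hr'
    rw [mem_filter] at hr'
    obtain ⟨h1, h2⟩ := hrow r hr
    have h3 := hCLS π hπ hs c A x U (r * q + b) v hx (by omega) hv hA ?_ ?_ h2
    · calc θ ≤ Real.exp (-cost π c A (Sur v A x U (r * q + b))) := by
            apply Real.exp_le_exp.2
            linarith
        _ ≤ EA π A (ind (Emp x U (r * q + b))) v := h3
        _ ≤ EA π A (ind (S r)) v := by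
            apply EA_mono_on hπ
            intro w _ hw2
            exact ind_mono (emp_sub hw2)
    · have h4 : (2 : ℤ) ∣ (q : ℤ) := by exact_mod_cast dvd_qq (z := z) Nat.prime_two (by omega)
      have h5 := hb.2 2 Nat.prime_two (by omega) (by norm_num)
      have h6 : ((r * q + b : ℕ) : ℤ) - v 2 = r * q + ((b : ℤ) - v 2) := by push_cast; ring
      rw [h6]
      exact dvd_add (h4.mul_left _) h5
    · have h4 : (3 : ℤ) ∣ (q : ℤ) := by exact_mod_cast dvd_qq (z := z) Nat.prime_three (by omega)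
      have h5 := hb.2 3 Nat.prime_three (by omega) (by norm_num)
      have h6 : ((r * q + b : ℕ) : ℤ) - v 3 = r * q + ((b : ℤ) - v 3) := by push_cast; ring
      rw [h6]
      exact dvd_add (h4.mul_left _) h5
  have hLam1 : ∀ p ∈ A, 1 ≤ 2 * Real.exp (c p) := by
    intro p hp
    have := Real.one_le_exp (hA p hp).2.2.2.2.1
    linarith
  have hLam2 : ∀ p ∈ A, ∀ s ∈ sgn, 1 / (2 * Real.exp (c p)) ≤ π p s := by
    intro p hp s hs'
    obtain ⟨-, -, -, h0, hc, h1, h2⟩ := hA p hp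
    have h3 : 1 / (2 * Real.exp (c p)) = Real.exp (-c p) / 2 := by
      rw [Real.exp_neg]
      field_simp
    rw [h3]
    have h4 : Real.exp (-c p) ≤ 1 := Real.exp_le_one_iff.2 (by linarith)
    have h5 : 0 < Real.exp (-c p) := Real.exp_pos _
    unfold sgn at hs'
    simp only [mem_insert, mem_singleton] at hs'
    rcases hs' with rfl | rfl | rfl
    · linarith
    · linarith
    · linarith
  have hSM := stmt_SMG π hπ hs A (fun p => 2 * Real.exp (c p)) hLam1 hLam2 R S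
    (fun r => Dset A U (r * q + b)) H θ v hRne hθ0 hdep hprob
  -- the event
  have hmono : EA π A (ind {w | ∀ N : ℕ, x ≤ N → N + U ≤ 2 * x → w ∉ Emp x U N}) v ≤
      EA π A (ind {w | ∀ r ∈ R, w ∉ S r}) v := by
    apply EA_mono hπ
    intro w
    apply ind_mono
    intro hw r hr hwr
    have hr' := hR hr
    unfold rows at hr'
    rw [mem_filter] at hr'
    exact hw (r * q + b) (by omega) (by omega) (empR_sub hwr)
  refine hmono.trans (hSM.trans ?_)
  have hsub : R ×ˢ R ⊆ rows x q b U ×ˢ rows x q b U := product_subset_product hR hR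
  have hT1 : ∑ rr ∈ (R ×ˢ R).filter (fun rr => ((∏ p ∈ Dset A U (rr.1 * q + b) ∩
        Dset A U (rr.2 * q + b), p : ℕ) : ℝ) ≤ H),
      ((∏ p ∈ Dset A U (rr.1 * q + b) ∩ Dset A U (rr.2 * q + b), 2 * Real.exp (c p)) - 1) ≤
      H ^ 2 / z := by
    refine le_trans (Finset.sum_le_sum_of_subset_of_nonneg ?_ ?_) hPC.1
    · intro rr hrr
      rw [mem_filter] at hrr ⊢
      exact ⟨hsub hrr.1, hrr.2⟩
    intro rr _ _
    rw [sub_nonneg]
    have h1 : ∏ p ∈ Dset A U (rr.1 * q + b) ∩ Dset A U (rr.2 * q + b), (1 : ℝ) ≤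
        ∏ p ∈ Dset A U (rr.1 * q + b) ∩ Dset A U (rr.2 * q + b), 2 * Real.exp (c p) := by
      apply Finset.prod_le_prod
      · intro p _
        exact zero_le_one
      · intro p hp
        exact hLam1 p (hDsub _ (mem_inter.1 hp).1)
    rwa [prod_const_one] at h1
  have hT2 : (((R ×ˢ R).filter (fun rr => H < ((∏ p ∈ Dset A U (rr.1 * q + b) ∩
        Dset A U (rr.2 * q + b), p : ℕ) : ℝ))).card : ℝ) ≤
      H ^ 2 * (x : ℝ) ^ (-(1 - 1 / 4) : ℝ) := by
    refine le_trans (Nat.cast_le.2 (card_le_card ?_)) hPC.2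
    intro rr hrr
    rw [mem_filter] at hrr ⊢
    exact ⟨hsub hrr.1, hrr.2⟩
  have hθinv : 1 / θ = (x : ℝ) ^ (1 / 2 : ℝ) := by
    rw [hθ, Real.exp_neg, one_div, inv_inv, Real.rpow_def_of_pos hx0, mul_comm]
  have hpow : (x : ℝ) ^ (-(1 - 1 / 4) : ℝ) * (x : ℝ) ^ (1 / 2 : ℝ) = (x : ℝ) ^ (-(1 / 4) : ℝ) := by
    rw [← Real.rpow_add hx0]
    norm_num
  have hnum : (∑ rr ∈ (R ×ˢ R).filter (fun rr => ((∏ p ∈ Dset A U (rr.1 * q + b) ∩
        Dset A U (rr.2 * q + b), p : ℕ) : ℝ) ≤ H),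
      ((∏ p ∈ Dset A U (rr.1 * q + b) ∩ Dset A U (rr.2 * q + b), 2 * Real.exp (c p)) - 1)) +
      (((R ×ˢ R).filter (fun rr => H < ((∏ p ∈ Dset A U (rr.1 * q + b) ∩
        Dset A U (rr.2 * q + b), p : ℕ) : ℝ))).card : ℝ) / θ ≤
      H ^ 2 * (1 / z + (x : ℝ) ^ (-(1 / 4) : ℝ)) := by
    have h1 : (((R ×ˢ R).filter (fun rr => H < ((∏ p ∈ Dset A U (rr.1 * q + b) ∩
        Dset A U (rr.2 * q + b), p : ℕ) : ℝ))).card : ℝ) / θ ≤
        H ^ 2 * (x : ℝ) ^ (-(1 / 4) : ℝ) := by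
      rw [← hpow, ← hθinv, div_eq_mul_one_div, ← mul_assoc]
      exact mul_le_mul_of_nonneg_right hT2 (by positivity)
    calc _ ≤ H ^ 2 / z + H ^ 2 * (x : ℝ) ^ (-(1 / 4) : ℝ) := add_le_add hT1 h1
      _ = _ := by ring
  rw [div_le_iff₀ (by positivity)]
  refine hnum.trans ?_
  have hcard2 : (H / 4) ^ 2 ≤ (R.card : ℝ) ^ 2 := pow_le_pow_left₀ (by positivity) hRcard 2
  have hnn : 0 ≤ 1 / (z : ℝ) + (x : ℝ) ^ (-(1 / 4) : ℝ) := by positivity
  calc H ^ 2 * (1 / z + (x : ℝ) ^ (-(1 / 4) : ℝ)) =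
        (16 / z + 16 * (x : ℝ) ^ (-(1 / 4) : ℝ)) * (H / 4) ^ 2 := by ring
    _ ≤ _ := mul_le_mul_of_nonneg_left hcard2 (by positivity)

/-- Members of the random set of primes. -/
theorem mem_AA {κ : ℝ} {B z p : ℕ} :
    p ∈ AA κ B z 0 ↔ p.Prime ∧ z ^ B < p ∧ (p : ℝ) ≤ Real.exp ((z : ℝ) ^ (1 - κ)) := by
  unfold AA w1
  rw [mem_erase, mem_filter, mem_Ioc]
  constructor
  · rintro ⟨-, ⟨h1, h2⟩, h3⟩
    exact ⟨h3, h1, (Nat.le_floor_iff (Real.exp_pos _).le).1 h2⟩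
  · rintro ⟨h3, h1, h2⟩
    exact ⟨h3.ne_zero, ⟨h1, (Nat.le_floor_iff (Real.exp_pos _).le).2 h2⟩, h3⟩

end SCSaux

open SCSaux in
theorem stmt_SCS (hROWS : Stmt_ROWS) (hCLS : Stmt_CLS) : Stmt_SCS := by
  classical
  intro π lam α hL
  obtain ⟨hα0, hα1, u0, hu0⟩ := hL.lt
  obtain ⟨B0, hB0⟩ := stmt_PCG (1 / 4) α (by norm_num) hα0 hα1
  set κ : ℝ := 1 / 50 with hκ
  have hκ0 : 0 < κ := by norm_num
  set B : ℕ := max B0 4 with hB
  obtain ⟨g, hg0, hg1, z1, hz1⟩ := hROWS π lam α hL κ hκ0 le_rfl B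
    ((show 3 ≤ 4 by norm_num).trans (le_max_right _ _)) (1 / 2) (by norm_num)
  obtain ⟨z2, hz2⟩ := hB0 B (le_max_left _ _) κ hκ0 le_rfl
  obtain ⟨P1, hP1⟩ := hL.half
  obtain ⟨P2, hP2⟩ := hL.low
  refine ⟨g / 2, by positivity, fun δ hδ x0 => ?_⟩
  -- the choice of `z`
  have t1 : Tendsto (fun z : ℕ => (z : ℝ) ^ κ) atTop atTop :=
    (tendsto_rpow_atTop hκ0).comp tendsto_natCast_atTop_atTop
  have t2 : Tendsto (fun z : ℕ => Real.log z) atTop atTop :=
    Real.tendsto_log_atTop.comp tendsto_natCast_atTop_atTop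
  have t3 : ∀ᶠ z : ℕ in atTop, Real.log z ≤ g * z := by
    have h := (Real.isLittleO_log_id_atTop).bound hg0
    have h2 := tendsto_natCast_atTop_atTop (R := ℝ) |>.eventually h
    filter_upwards [h2] with z hz
    simp only [id, Real.norm_eq_abs] at hz
    rw [abs_of_nonneg (Nat.cast_nonneg z : (0 : ℝ) ≤ z)] at hz
    exact (le_abs_self _).trans hz
  have t4 : Tendsto (fun z : ℕ => (z : ℝ) ^ (-(1 / 4) : ℝ)) atTop (nhds 0) :=
    (tendsto_rpow_neg_atTop (by norm_num : (0 : ℝ) < 1 / 4)).comp tendsto_natCast_atTop_atTop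
  have t5 : Tendsto (fun z : ℕ => 16 / (z : ℝ) + 16 * (z : ℝ) ^ (-(1 / 4) : ℝ)) atTop (nhds 0) := by
    have h1 : Tendsto (fun z : ℕ => 16 / (z : ℝ)) atTop (nhds 0) :=
      tendsto_const_div_atTop_nhds_zero_nat 16
    have h2 := h1.add (t4.const_mul 16)
    simpa using h2
  obtain ⟨z, ht1, ht2, ht3, ht5, hzz1, hzz2, hzP1, hzP2, hz9, hzx0, hzg⟩ :=
    ((t1.eventually_ge_atTop 2).and ((t2.eventually_ge_atTop (max u0 1)).and (t3.and
      ((t5.eventually_lt_const hδ).and ((eventually_ge_atTop z1).and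
      ((eventually_ge_atTop z2).and ((eventually_ge_atTop P1).and ((eventually_ge_atTop P2).and
      ((eventually_ge_atTop 9).and ((eventually_ge_atTop x0).and
      ((tendsto_natCast_atTop_atTop (R := ℝ)).eventually_ge_atTop (4 / g)))))))))))).exists
  have hzR : (9 : ℝ) ≤ z := by exact_mod_cast hz9
  have hz0 : (0 : ℝ) < z := by linarith
  have hlogz1 : 1 ≤ Real.log z := (le_max_right _ _).trans ht2
  have hlogzu : u0 ≤ Real.log z := (le_max_left _ _).trans ht2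
  have hlam_le : ∀ u : ℝ, u0 ≤ u → 0 ≤ u → lam u ≤ u := by
    intro u hu hu'
    refine (hu0 u hu).trans ?_
    nlinarith
  -- the choice of `x`
  have hzpow : (z : ℝ) ≤ (z : ℝ) ^ (1 + κ) := by
    rw [Real.rpow_add hz0, Real.rpow_one]
    nlinarith
  set x : ℕ := ⌈Real.exp ((z : ℝ) ^ (1 + κ))⌉₊ with hx
  have hxe : Real.exp ((z : ℝ) ^ (1 + κ)) ≤ x := Nat.le_ceil _
  have hxpos : (0 : ℝ) < x := (Real.exp_pos _).trans_le hxe
  have hxz : (z : ℝ) + 1 ≤ x := by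
    refine le_trans ?_ hxe
    exact (Real.add_one_le_exp _).trans (Real.exp_le_exp.2 hzpow)
  have hxz' : z + 1 ≤ x := by exact_mod_cast hxz
  set L := Real.log x with hLdef
  have hL1 : (z : ℝ) ^ (1 + κ) ≤ L := by
    rw [hLdef, Real.le_log_iff_exp_le hxpos]
    exact hxe
  have hL2 : L ≤ (z : ℝ) ^ (1 + 2 * κ) := by
    have h1 : (x : ℝ) ≤ Real.exp ((z : ℝ) ^ (1 + κ)) + 1 := (Nat.ceil_lt_add_one
      (Real.exp_pos _).le).le
    have h2 : (x : ℝ) ≤ Real.exp ((z : ℝ) ^ (1 + κ) + 1) := by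
      refine h1.trans ?_
      rw [Real.exp_add]
      have h3 : 1 ≤ Real.exp ((z : ℝ) ^ (1 + κ)) := Real.one_le_exp (by positivity)
      have h4 : 2 ≤ Real.exp 1 := by
        have := Real.add_one_le_exp (1 : ℝ)
        linarith
      nlinarith
    have h3 : L ≤ (z : ℝ) ^ (1 + κ) + 1 := by
      rw [hLdef, Real.log_le_iff_le_exp hxpos]
      exact h2
    refine h3.trans ?_
    have h4 : (z : ℝ) ^ (1 + 2 * κ) = (z : ℝ) ^ (1 + κ) * (z : ℝ) ^ κ := by
      rw [← Real.rpow_add hz0]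
      congr 1
      ring
    rw [h4]
    nlinarith
  have hInR : InR κ z x := ⟨hL1, hL2⟩
  have hLz : (z : ℝ) ≤ L := hzpow.trans hL1
  have hL0 : 0 < L := hz0.trans_le hLz
  -- the choice of `U`
  set l := lam (Real.log z) with hl
  have hl1 : 1 ≤ l := hL.one_le _ hlogz1
  have hl2 : l ≤ Real.log z := hlam_le _ hlogzu (by linarith)
  set y : ℝ := g * L ^ 2 / l with hy
  have hy0 : 0 ≤ y := by positivity
  set U : ℕ := ⌊y⌋₊ with hU
  have hUy : (U : ℝ) ≤ y := Nat.floor_le hy0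
  have hUl : (U : ℝ) * l ≤ g * L ^ 2 := by
    rw [hy, le_div_iff₀ (by linarith)] at hUy
    exact hUy
  have hzU : z ≤ U := by
    apply Nat.le_floor
    rw [hy, le_div_iff₀ (by linarith)]
    calc (z : ℝ) * l ≤ z * (g * z) := mul_le_mul_of_nonneg_left (hl2.trans ht3) hz0.le
      _ = g * (z : ℝ) ^ 2 := by ring
      _ ≤ g * L ^ 2 := mul_le_mul_of_nonneg_left (pow_le_pow_left₀ hz0.le hLz 2) hg0.le
  have hUz3R : (U : ℝ) ≤ (z : ℝ) ^ 3 := by
    refine hUy.trans ?_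
    have h1 : y ≤ L ^ 2 := by
      rw [hy, div_le_iff₀ (by linarith)]
      have h2 : 0 ≤ L ^ 2 := by positivity
      nlinarith
    refine h1.trans ?_
    have h2 : L ^ 2 ≤ ((z : ℝ) ^ (1 + 2 * κ)) ^ 2 := pow_le_pow_left₀ hL0.le hL2 2
    refine h2.trans ?_
    rw [← Real.rpow_natCast, ← Real.rpow_mul hz0.le, ← Real.rpow_natCast]
    apply Real.rpow_le_rpow_of_exponent_le (by linarith)
    rw [hκ]
    norm_num
  have hUz3 : U ≤ z ^ 3 := by exact_mod_cast hUz3R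
  refine ⟨x, U, by omega, ?_, ?_⟩
  · -- the size of `U`
    have h1 : y - 1 ≤ U := by
      have := Nat.lt_floor_add_one y
      linarith
    have h2 : Real.log z ≤ Real.log L := Real.log_le_log hz0 hLz
    have h3 : l ≤ lam (Real.log L) := hL.mono _ _ hlogz1 h2
    have h4 : g * L ^ 2 / lam (Real.log L) ≤ y := by
      rw [hy]
      exact div_le_div_of_nonneg_left (by positivity) (by linarith) h3
    have h5 : lam (Real.log L) ≤ L := by
      refine (hlam_le _ (hlogzu.trans h2) (by linarith)).trans ?_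
      have := Real.log_le_sub_one_of_pos hL0
      linarith
    have h6 : 2 ≤ g / 2 * L ^ 2 / lam (Real.log L) := by
      rw [le_div_iff₀ (by linarith)]
      have h7 : 4 ≤ g * L := by
        have h8 := (div_le_iff₀ hg0).1 hzg
        nlinarith
      nlinarith
    have h7 : g * L ^ 2 / lam (Real.log L) = 2 * (g / 2 * L ^ 2 / lam (Real.log L)) := by ring
    linarith
  · -- the probability
    set A := AA κ B z 0 with hA
    have hzB : z ^ 4 ≤ z ^ B := Nat.pow_le_pow_right (by omega) (le_max_right _ _)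
    have hz43 : z ^ 3 + 6 < z ^ 4 := by
      have : 9 * z ^ 3 ≤ z ^ 4 := by
        rw [pow_succ z 3, mul_comm]
        exact Nat.mul_le_mul_left _ hz9
      have h2 : 1 ≤ z ^ 3 := Nat.one_le_pow _ _ (by omega)
      omega
    have hzz4 : z ≤ z ^ 4 := Nat.le_self_pow (by norm_num) z
    have hpz : ∀ p ∈ A, z ≤ p := by
      intro p hp
      have := (mem_AA.1 hp).2.1
      omega
    have hlogp : ∀ p ∈ A, Real.log z ≤ Real.log p := by
      intro p hp
      exact Real.log_le_log hz0 (by exact_mod_cast hpz p hp)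
    have hpx : ∀ p ∈ A, p * p ≤ x := by
      intro p hp
      have h1 := (mem_AA.1 hp).2.2
      have h2 : (p : ℝ) * p ≤ x := by
        calc (p : ℝ) * p ≤ Real.exp ((z : ℝ) ^ (1 - κ)) * Real.exp ((z : ℝ) ^ (1 - κ)) :=
              mul_le_mul h1 h1 (Nat.cast_nonneg _) (Real.exp_pos _).le
          _ = Real.exp (2 * (z : ℝ) ^ (1 - κ)) := by
              rw [← Real.exp_add]
              ring_nf
          _ ≤ Real.exp ((z : ℝ) ^ (1 + κ)) := by
              apply Real.exp_le_exp.2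
              have h3 : (z : ℝ) ^ (1 + κ) = (z : ℝ) ^ κ * ((z : ℝ) ^ κ * (z : ℝ) ^ (1 - κ)) := by
                rw [← Real.rpow_add hz0, ← Real.rpow_add hz0]
                congr 1
                ring
              rw [h3]
              have h4 : 0 < (z : ℝ) ^ (1 - κ) := by positivity
              have h5 : 2 * (z : ℝ) ^ (1 - κ) ≤ (z : ℝ) ^ κ * (z : ℝ) ^ (1 - κ) :=
                mul_le_mul_of_nonneg_right ht1 h4.le
              nlinarith
          _ ≤ x := hxe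
      exact_mod_cast h2
    have hAok : ∀ p ∈ A, p.Prime ∧ U + 6 < p ∧ p * p ≤ x ∧ 1 / 2 ≤ π p 0 ∧
        0 ≤ lam (Real.log p) ∧ Real.exp (-lam (Real.log p)) ≤ π p 1 ∧
        Real.exp (-lam (Real.log p)) ≤ π p (-1) := by
      intro p hp
      have h1 := mem_AA.1 hp
      have h2 := hP2 p h1.1 (hzP2.trans (hpz p hp))
      refine ⟨h1.1, by omega, hpx p hp, hP1 p h1.1 (hzP1.trans (hpz p hp)), ?_, h2.1, h2.2⟩
      have := hL.one_le (Real.log p) (hlogz1.trans (hlogp p hp))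
      linarith
    have hLam : ∀ p ∈ A, 1 ≤ 2 * Real.exp (lam (Real.log p)) ∧
        2 * Real.exp (lam (Real.log p)) ≤ z * (p : ℝ) ^ α := by
      intro p hp
      have h1 := (hAok p hp).2.2.2.2.1
      constructor
      · have := Real.one_le_exp h1
        linarith
      · have hp0 : (0 : ℝ) < p := by exact_mod_cast (mem_AA.1 hp).1.pos
        have h2 : Real.exp (lam (Real.log p)) ≤ (p : ℝ) ^ α := by
          rw [Real.rpow_def_of_pos hp0, mul_comm]
          exact Real.exp_le_exp.2 (hu0 _ (hlogzu.trans (hlogp p hp)))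
        exact mul_le_mul (by linarith) h2 (Real.exp_pos _).le hz0.le
    have hbound : 16 / (z : ℝ) + 16 * (x : ℝ) ^ (-(1 / 4) : ℝ) ≤ δ := by
      refine le_trans ?_ ht5.le
      have h1 : (x : ℝ) ^ (-(1 / 4) : ℝ) ≤ (z : ℝ) ^ (-(1 / 4) : ℝ) :=
        Real.rpow_le_rpow_of_nonpos hz0 (by linarith) (by norm_num)
      linarith
    have hAsub : A ⊆ PX x := by
      intro p hp
      unfold PX
      rw [mem_filter, mem_Icc]
      exact ⟨⟨(mem_AA.1 hp).1.one_le, Nat.le_sqrt.2 (hpx p hp)⟩, (mem_AA.1 hp).1⟩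
    rw [EA_sdiff hAsub]
    have hfin : EA π (PX x \ A) (EA π A (ind {w | ∀ N : ℕ, x ≤ N → N + U ≤ 2 * x →
        w ∉ Emp x U N})) 0 ≤ EA π (PX x \ A) (fun _ => δ) 0 := by
      apply EA_mono_on hL.nonneg
      intro v hv1 hv2
      have hv : ∀ p, v p ∈ sgn := by
        intro p
        by_cases hp : p ∈ PX x \ A
        · exact hv2 p hp
        · rw [hv1 p hp]
          simp [sgn]
      obtain ⟨b, hb⟩ := exists_isB v z
      obtain ⟨R, hR, hRc, hrow⟩ := hz1 z hzz1 x U hInR hzU hUl v hv b hb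
      have hPC := hz2 z hzz2 0 x U b hInR hUz3 hb.1 (fun p => 2 * Real.exp (lam (Real.log p)))
        hLam
      refine (scale hCLS hL.nonneg hL.sum_one (c := fun p => lam (Real.log p)) (A := A)
        (by omega) (by omega) hv hAok hb hR hRc hrow hPC).trans hbound
    rw [EA_const hL.sum_one] at hfin
    exact hfin

end Pool.Agent.Work.MP_b0c12c_nt_sparse
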