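import Pool.Agent.Work.MP_b0c12c_nt_sparse.FINS
import Pool.Agent.Work.MP_b0c12c_nt_sparse.CLS
import Pool.Agent.Work.MP_b0c12c_nt_sparse.K
import Pool.Agent.Work.MP_b0c12c_nt_sparse.COL
import Pool.Agent.Work.MP_b0c12c_nt_sparse.ROWS
import Pool.Agent.Work.MP_b0c12c_nt_sparse.SCS
import Pool.Agent.Work.MP_b0c12c_nt_sparse.INS
import Pool.Agent.Work.MP_b0c12c_nt_shift.WS
import Pool.Agent.Work.MP_b0c12c_nt_shift.MT
import Pool.Agent.Work.MP_b0c12c_nt_shift.H12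
import Pool.Agent.Work.MP_b0c12c_nt_shift.PR

/-!
# The theorem on sparse shifts (version 1)
-/

set_option autoImplicit false

namespace Pool.Agent.Work.MP_b0c12c_nt_sparse

open Filter Finset MeasureTheory ProbabilityTheory
open Pool.Agent.Work.MP_b0c12c_nt_shift

theorem main1 {Ω : Type*} [MeasurableSpace Ω] (μ : Measure Ω) [IsProbabilityMeasure μ]
    (u : ℕ → Ω → ℤ) (hm : ∀ p, Measurable (u p)) (hi : iIndepFun u μ)
    (hsg : ∀ p : ℕ, p.Prime → ∀ᵐ ω ∂μ, u p ω ∈ sgn) (lam : ℝ → ℝ) (α : ℝ) (hα : α < 1)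
    (hone : ∀ u : ℝ, 1 ≤ u → 1 ≤ lam u) (hmono : ∀ u v : ℝ, 1 ≤ u → u ≤ v → lam u ≤ lam v)
    (hsub : ∀ t u : ℝ, 1 ≤ t → 1 ≤ u → lam (t * u) ≤ t * lam u)
    (hlin : ∀ᶠ t in atTop, lam t ≤ α * t)
    (hlow : ∀ᶠ p : ℕ in atTop, p.Prime → 1 / 2 ≤ μ.real {ω | u p ω = 0} ∧
      Real.exp (-lam (Real.log p)) ≤ μ.real {ω | u p ω = 1} ∧
      Real.exp (-lam (Real.log p)) ≤ μ.real {ω | u p ω = -1})
    (hmass : Summable fun p : ℕ => if p.Prime then μ.real {ω | u p ω ≠ 0} / p else 0) :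
    ∃ c : ℝ, 0 < c ∧ ∀ᵐ ω ∂μ, (Shifted (fun p => u p ω)).Infinite ∧
      ((c : ℝ) : EReal) ≤ gapW lam (Shifted (fun p => u p ω)) :=
  final (stmt_SCS (stmt_ROWS (stmt_K1 stmt_WS) (stmt_K2 stmt_WS) (stmt_K3 stmt_WS) stmt_COL
    (stmt_H1 stmt_WS stmt_MT) (stmt_H2 stmt_WS stmt_MT)) stmt_CLS) stmt_INS μ u hm hi hsg lam α hα
    hone hmono hsub hlin hlow hmass

end Pool.Agent.Work.MP_b0c12c_nt_sparse
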