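import Mathlib
import Pool.Agent.Work.MP_b0c12c_nt_helper41.Mert

/-!
# The number of moved primes is polylogarithmic
-/

set_option autoImplicit false

namespace Pool.Agent.Work.MP_b0c12c_nt_sparse

open Filter Finset MeasureTheory ProbabilityTheory

namespace Moved

/-- Chebyshev and Borel–Cantelli along a subsequence with geometric means. -/
theorem poly_ae {Ω : Type*} [MeasurableSpace Ω] {μ : Measure Ω} [IsProbabilityMeasure μ]
    {Y : ℕ → Ω → ℝ} (hmeas : ∀ i, Measurable (Y i)) (hind : iIndepFun Y μ)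
    (h0 : ∀ i ω, 0 ≤ Y i ω) (h1 : ∀ i ω, Y i ω ≤ 1) {n : ℕ → ℕ} {B ρ : ℝ} (hB : 0 ≤ B)
    (hρ : 1 < ρ) (hE : ∀ k, ∑ i ∈ range (n k), ∫ ω, Y i ω ∂μ ≤ B * ρ ^ k) :
    ∀ᵐ ω ∂μ, ∀ᶠ k : ℕ in atTop, ∑ i ∈ range (n k), Y i ω ≤ (B + 1) * ρ ^ k := by
  classical
  have hL2 : ∀ i, MemLp (Y i) 2 μ := fun i =>
    MemLp.of_bound (hmeas i).aestronglyMeasurable 1
      (Eventually.of_forall fun ω => by
        rw [Real.norm_eq_abs, abs_of_nonneg (h0 i ω)]; exact h1 i ω)
  have hint : ∀ i, Integrable (Y i) μ := fun i => (hL2 i).integrable (by norm_num)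
  set S : ℕ → Ω → ℝ := fun n ω => ∑ i ∈ range n, Y i ω with hS
  have hSL2 : ∀ n, MemLp (S n) 2 μ := fun n => by
    have h := memLp_finset_sum' (range n) (fun i _ => hL2 i)
    have e : (∑ i ∈ range n, Y i) = S n := by ext ω; simp [hS]
    rwa [e] at h
  have hSE : ∀ n, ∫ ω, S n ω ∂μ = ∑ i ∈ range n, ∫ ω, Y i ω ∂μ := fun n =>
    integral_finset_sum _ (fun i _ => hint i)
  -- variance bound
  have hvar1 : ∀ i, variance (Y i) μ ≤ ∫ ω, Y i ω ∂μ := by
    intro i
    have h2 : variance (Y i) μ ≤ ∫ ω, (Y i ω) ^ 2 ∂μ :=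
      variance_le_expectation_sq (hmeas i).aestronglyMeasurable
    refine h2.trans ?_
    apply integral_mono_of_nonneg
    · exact Eventually.of_forall fun ω => by positivity
    · exact hint i
    · exact Eventually.of_forall fun ω => by
        have a := h0 i ω
        have b := h1 i ω
        show (Y i ω) ^ 2 ≤ Y i ω
        nlinarith
  have hvar : ∀ k, variance (S (n k)) μ ≤ B * ρ ^ k := by
    intro k
    have h2 : variance (∑ i ∈ range (n k), Y i) μ = ∑ i ∈ range (n k), variance (Y i) μ :=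
      IndepFun.variance_sum (fun i _ => hL2 i) (fun i _ j _ hij => hind.indepFun hij)
    have h3 : (∑ i ∈ range (n k), Y i) = S (n k) := by
      ext ω; simp [hS]
    rw [h3] at h2
    rw [h2]
    exact (sum_le_sum fun i _ => hvar1 i).trans (hE k)
  have hρ0 : 0 < ρ := by linarith
  have hb : ∀ k : ℕ, μ {ω | ρ ^ k ≤ |S (n k) ω - ∫ ω, S (n k) ω ∂μ|} ≤
      ENNReal.ofReal (B * (ρ⁻¹) ^ k) := by
    intro k
    have h2 := meas_ge_le_variance_div_sq (hSL2 (n k)) (c := ρ ^ k) (by positivity)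
    refine h2.trans (ENNReal.ofReal_le_ofReal ?_)
    rw [div_le_iff₀ (by positivity)]
    refine (hvar k).trans (le_of_eq ?_)
    rw [inv_pow]
    field_simp
  have hsum : ∑' k : ℕ, μ {ω | ρ ^ k ≤ |S (n k) ω - ∫ ω, S (n k) ω ∂μ|} ≠ ⊤ := by
    have hs : Summable fun k : ℕ => B * (ρ⁻¹) ^ k :=
      (summable_geometric_of_lt_one (by positivity) (inv_lt_one_of_one_lt₀ hρ)).mul_left _
    refine ne_top_of_le_ne_top ?_ (ENNReal.tsum_le_tsum hb)
    rw [← ENNReal.ofReal_tsum_of_nonneg (fun k => by positivity) hs]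
    exact ENNReal.ofReal_ne_top
  filter_upwards [ae_eventually_notMem hsum] with ω hω
  filter_upwards [hω] with k hk
  have hk' : |S (n k) ω - ∫ ω, S (n k) ω ∂μ| < ρ ^ k := by
    by_contra hcon
    push Not at hcon
    exact hk hcon
  have h4 := (abs_lt.1 hk').2
  rw [hSE] at h4
  have h5 := hE k
  show S (n k) ω ≤ (B + 1) * ρ ^ k
  linarith

/-- the scales -/
noncomputable def uu (k : ℕ) : ℕ := ⌊Real.exp (2 ^ k)⌋₊

theorem uu_ge (k : ℕ) : 2 ≤ uu k ∧ (2 : ℝ) ^ k / 4 ≤ Real.log (uu k) ∧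
    Real.log (uu k) ≤ 2 ^ k := by
  have h1 : (1 : ℝ) ≤ 2 ^ k := one_le_pow₀ (by norm_num)
  have h2 : (2 : ℝ) ≤ Real.exp (2 ^ k) := by
    have := Real.add_one_le_exp ((2 : ℝ) ^ k)
    linarith
  have h3 : 2 ≤ uu k := by
    unfold uu
    exact Nat.le_floor (by exact_mod_cast h2)
  have h4 : (0 : ℝ) < uu k := by exact_mod_cast (by omega : 0 < uu k)
  refine ⟨h3, ?_, ?_⟩
  · have h5 : Real.exp (2 ^ k) / 2 ≤ uu k := by
      have := Nat.lt_floor_add_one (Real.exp ((2 : ℝ) ^ k))
      unfold uu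
      linarith
    have h6 := Real.log_le_log (by positivity) h5
    rw [Real.log_div (Real.exp_ne_zero _) (by norm_num), Real.log_exp] at h6
    have := Real.log_two_lt_d9
    linarith
  · have h5 : ((uu k : ℕ) : ℝ) ≤ Real.exp (2 ^ k) := by
      unfold uu
      exact Nat.floor_le (Real.exp_pos _).le
    have h6 := Real.log_le_log h4 h5
    rwa [Real.log_exp] at h6

theorem uu_mono {k l : ℕ} (h : k ≤ l) : uu k ≤ uu l := by
  unfold uu
  apply Nat.floor_le_floor
  apply Real.exp_le_exp.2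
  exact pow_le_pow_right₀ (by norm_num) h

/-- the sum of `(log p)^C / p` -/
theorem sum_bound {C : ℝ} (hC : 0 < C) : ∃ B : ℝ, 0 < B ∧ ∀ k : ℕ,
    ∑ p ∈ (range (uu k + 1)).filter Nat.Prime, Real.log p ^ C / p ≤ B * ((2 : ℝ) ^ C) ^ k := by
  obtain ⟨C2, hC2, hmer⟩ := Pool.Agent.Work.MP_b0c12c_nt_helper41.mertens2
  set ρ : ℝ := (2 : ℝ) ^ C with hρ
  have hρ1 : 1 < ρ := Real.one_lt_rpow (by norm_num) hC
  have hρ0 : 0 < ρ := by linarith
  set D : ℝ := 3 + 4 * C2 with hD
  have hD0 : 0 < D := by positivity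
  set B : ℝ := 2 + D * ρ / (ρ - 1) with hB
  have hρ2 : 0 < ρ - 1 := by linarith
  refine ⟨B, by positivity, ?_⟩
  intro k
  induction k with
  | zero =>
    have h1 : uu 0 = 2 := by
      unfold uu
      rw [pow_zero, Nat.floor_eq_iff (Real.exp_pos _).le]
      have := Real.exp_one_gt_d9
      have := Real.exp_one_lt_d9
      constructor <;> push_cast <;> linarith
    have h2 : (range (uu 0 + 1)).filter Nat.Prime = {2} := by
      rw [h1]
      decide
    rw [h2, sum_singleton, pow_zero, mul_one]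
    have h3 : Real.log ((2 : ℕ) : ℝ) ^ C ≤ 1 := by
      apply Real.rpow_le_one
      · exact Real.log_nonneg (by norm_num)
      · have := Real.log_two_lt_d9
        push_cast
        linarith
      · exact hC.le
    have h4 : Real.log ((2 : ℕ) : ℝ) ^ C / ((2 : ℕ) : ℝ) ≤ 1 := by
      rw [div_le_one (by norm_num)]
      push_cast at h3 ⊢
      linarith
    have h5 : 0 < D * ρ / (ρ - 1) := by positivity
    linarith
  | succ k ih =>
    obtain ⟨a1, a2, a3⟩ := uu_ge k
    obtain ⟨b1, b2, b3⟩ := uu_ge (k + 1)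
    have hle : uu k ≤ uu (k + 1) := uu_mono (Nat.le_succ k)
    have h2k : (0 : ℝ) < 2 ^ k := by positivity
    have hsplit : (range (uu (k + 1) + 1)).filter Nat.Prime =
        (range (uu k + 1)).filter Nat.Prime ∪ (Ioc (uu k) (uu (k + 1))).filter Nat.Prime := by
      ext p
      simp only [mem_union, mem_filter, mem_range, mem_Ioc]
      constructor
      · rintro ⟨h1, h2⟩
        by_cases h : p < uu k + 1
        · exact Or.inl ⟨h, h2⟩
        · exact Or.inr ⟨⟨by omega, by omega⟩, h2⟩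
      · rintro (⟨h1, h2⟩ | ⟨⟨h1, h3⟩, h2⟩)
        · exact ⟨by omega, h2⟩
        · exact ⟨by omega, h2⟩
    have hdisj : Disjoint ((range (uu k + 1)).filter Nat.Prime)
        ((Ioc (uu k) (uu (k + 1))).filter Nat.Prime) := by
      rw [disjoint_left]
      intro p h1 h2
      rw [mem_filter, mem_range] at h1
      rw [mem_filter, mem_Ioc] at h2
      omega
    rw [hsplit, sum_union hdisj]
    have hmer1 := (abs_le.1 (hmer (uu k) (uu (k + 1)) a1 hle)).2
    have hlu : 0 < Real.log (uu k) := lt_of_lt_of_le (by positivity) a2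
    have hrec : ∑ p ∈ (Ioc (uu k) (uu (k + 1))).filter Nat.Prime, 1 / (p : ℝ) ≤ D := by
      have e1 : Real.log (Real.log (uu (k + 1))) ≤ Real.log (2 ^ (k + 1)) :=
        Real.log_le_log (lt_of_lt_of_le (by positivity) b2) b3
      have e2 : Real.log ((2 : ℝ) ^ k / 4) ≤ Real.log (Real.log (uu k)) :=
        Real.log_le_log (by positivity) a2
      have e3 : Real.log ((2 : ℝ) ^ (k + 1)) - Real.log ((2 : ℝ) ^ k / 4) = 3 * Real.log 2 := by
        rw [Real.log_div (by positivity) (by norm_num), Real.log_pow, Real.log_pow]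
        have : Real.log 4 = 2 * Real.log 2 := by
          rw [show (4 : ℝ) = 2 ^ 2 by norm_num, Real.log_pow]
          push_cast
          ring
        rw [this]
        push_cast
        ring
      have e4 : C2 / Real.log (uu k) ≤ 4 * C2 := by
        have h1 : (1 : ℝ) / 4 ≤ Real.log (uu k) := by
          have : (1 : ℝ) ≤ 2 ^ k := one_le_pow₀ (by norm_num)
          linarith
        rw [div_le_iff₀ hlu]
        nlinarith
      have := Real.log_two_lt_d9
      rw [hD]
      linarith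
    have hnew : ∑ p ∈ (Ioc (uu k) (uu (k + 1))).filter Nat.Prime, Real.log p ^ C / p ≤
        ρ ^ (k + 1) * D := by
      calc ∑ p ∈ (Ioc (uu k) (uu (k + 1))).filter Nat.Prime, Real.log p ^ C / p ≤
            ∑ p ∈ (Ioc (uu k) (uu (k + 1))).filter Nat.Prime, ρ ^ (k + 1) * (1 / (p : ℝ)) := by
            apply sum_le_sum
            intro p hp
            rw [mem_filter, mem_Ioc] at hp
            have hp1 : (1 : ℝ) < p := by exact_mod_cast hp.2.one_lt
            have h1 : Real.log p ≤ 2 ^ (k + 1) :=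
              (Real.log_le_log (by linarith) (by exact_mod_cast hp.1.2)).trans b3
            have h2 : Real.log p ^ C ≤ ((2 : ℝ) ^ (k + 1)) ^ C :=
              Real.rpow_le_rpow (Real.log_nonneg hp1.le) h1 hC.le
            have h3 : ((2 : ℝ) ^ (k + 1)) ^ C = ρ ^ (k + 1) := by
              rw [hρ, ← Real.rpow_natCast, ← Real.rpow_mul (by norm_num), mul_comm,
                Real.rpow_mul (by norm_num), Real.rpow_natCast]
            rw [h3] at h2
            rw [div_eq_mul_one_div]
            exact mul_le_mul_of_nonneg_right h2 (by positivity)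
        _ = ρ ^ (k + 1) * ∑ p ∈ (Ioc (uu k) (uu (k + 1))).filter Nat.Prime, 1 / (p : ℝ) := by
            rw [mul_sum]
        _ ≤ ρ ^ (k + 1) * D := mul_le_mul_of_nonneg_left hrec (by positivity)
    have hfin : B * ρ ^ k + ρ ^ (k + 1) * D ≤ B * ρ ^ (k + 1) := by
      have h1 : D * ρ / (ρ - 1) ≤ B := by linarith
      rw [div_le_iff₀ hρ2] at h1
      have h2 : 0 < ρ ^ k := by positivity
      have h3 := mul_le_mul_of_nonneg_left h1 h2.le
      rw [pow_succ]
      nlinarith
    linarith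

end Moved

open Moved

/-- Almost surely at most `K (log N)^C` primes up to `N` are moved. -/
theorem moved_polylog {Ω : Type*} [MeasurableSpace Ω] {μ : Measure Ω} [IsProbabilityMeasure μ]
    {u : ℕ → Ω → ℤ} (hmeas : ∀ p, Measurable (u p)) (hindep : iIndepFun u μ)
    {C c : ℝ} (hC : 0 < C) (h : ∀ᶠ p : ℕ in atTop, p.Prime →
      μ.real {ω | u p ω ≠ 0} ≤ c * Real.log p ^ C / p) :
    ∀ᵐ ω ∂μ, ∃ K : ℝ, ∀ N : ℕ, 2 ≤ N →
      (((Finset.range (N + 1)).filter (fun p => p.Prime ∧ u p ω ≠ 0)).card : ℝ) ≤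
        K * Real.log N ^ C := by
  classical
  obtain ⟨P0, hP0⟩ := eventually_atTop.1 h
  obtain ⟨B0, hB0, hsum⟩ := sum_bound hC
  have hρ1 : 1 < (2 : ℝ) ^ C := Real.one_lt_rpow (by norm_num) hC
  set ρ : ℝ := (2 : ℝ) ^ C with hρ
  have hρ0 : 0 < ρ := by linarith
  set g : ℕ → ℤ → ℝ := fun p z => if p.Prime ∧ z ≠ 0 then 1 else 0 with hg
  have hgm : ∀ p, Measurable (g p) := fun p => measurable_from_top
  set Y : ℕ → Ω → ℝ := fun p ω => g p (u p ω) with hY
  have hYm : ∀ i, Measurable (Y i) := fun i => (hgm i).comp (hmeas _)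
  have hYind : iIndepFun Y μ := hindep.comp g hgm
  have hYE : ∀ p, ∫ ω, Y p ω ∂μ = if p.Prime then μ.real {ω | u p ω ≠ 0} else 0 := by
    intro p
    by_cases hp : p.Prime
    · rw [if_pos hp]
      have hm : MeasurableSet {ω | u p ω ≠ 0} :=
        (hmeas p) (MeasurableSet.of_discrete (s := {z : ℤ | z ≠ 0}))
      have e : (fun ω => Y p ω) = Set.indicator {ω | u p ω ≠ 0} (fun _ => (1 : ℝ)) := by
        ext ω
        simp only [hY, hg, Set.indicator_apply, Set.mem_ofPred_eq]
        by_cases h2 : u p ω = 0 <;> simp [h2, hp]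
      rw [e, integral_indicator hm]
      simp
    · rw [if_neg hp]
      have e : (fun ω => Y p ω) = fun _ => (0 : ℝ) := by
        ext ω
        simp [hY, hg, hp]
      rw [e]
      simp
  have hE : ∀ k : ℕ, ∑ i ∈ range (uu k + 1), ∫ ω, Y i ω ∂μ ≤ ((P0 : ℝ) + |c| * B0) * ρ ^ k := by
    intro k
    have hk1 : 1 ≤ ρ ^ k := one_le_pow₀ hρ1.le
    calc ∑ i ∈ range (uu k + 1), ∫ ω, Y i ω ∂μ ≤
          ∑ i ∈ range (uu k + 1), ((if i < P0 then 1 else 0) +
            if i.Prime then |c| * (Real.log i ^ C / i) else 0) := by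
          apply sum_le_sum
          intro p _
          rw [hYE]
          by_cases hp : p.Prime
          · rw [if_pos hp, if_pos hp]
            have hlog : 0 ≤ Real.log p := Real.log_nonneg (by exact_mod_cast hp.one_lt.le)
            have hn : 0 ≤ Real.log p ^ C / (p : ℝ) := by positivity
            by_cases hp2 : p < P0
            · rw [if_pos hp2]
              have h3 : μ.real {ω | u p ω ≠ 0} ≤ 1 := measureReal_le_one
              have h4 : 0 ≤ |c| * (Real.log p ^ C / p) := by positivity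
              linarith
            · rw [if_neg hp2, zero_add]
              refine (hP0 p (by omega) hp).trans ?_
              rw [mul_div_assoc]
              exact mul_le_mul_of_nonneg_right (le_abs_self c) hn
          · rw [if_neg hp, if_neg hp, add_zero]
            split_ifs <;> norm_num
      _ = ∑ i ∈ range (uu k + 1), (if i < P0 then (1 : ℝ) else 0) +
            |c| * ∑ p ∈ (range (uu k + 1)).filter Nat.Prime, Real.log p ^ C / p := by
          rw [sum_add_distrib, mul_sum, sum_filter]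
      _ ≤ P0 + |c| * (B0 * ρ ^ k) := by
          apply add_le_add
          · rw [← sum_filter, sum_const, nsmul_eq_mul, mul_one]
            have h3 : (range (uu k + 1)).filter (fun i => i < P0) ⊆ range P0 := by
              intro i hi
              rw [mem_filter] at hi
              exact mem_range.2 hi.2
            have h4 := card_le_card h3
            rw [card_range] at h4
            exact_mod_cast h4
          · exact mul_le_mul_of_nonneg_left (hsum k) (abs_nonneg c)
      _ ≤ ((P0 : ℝ) + |c| * B0) * ρ ^ k := by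
          have h3 : (P0 : ℝ) * 1 ≤ P0 * ρ ^ k := mul_le_mul_of_nonneg_left hk1 (Nat.cast_nonneg _)
          nlinarith
  have key := poly_ae hYm hYind (n := fun k => uu k + 1) (B := (P0 : ℝ) + |c| * B0) (ρ := ρ)
    (fun i ω => by simp only [hY, hg]; split_ifs <;> norm_num)
    (fun i ω => by simp only [hY, hg]; split_ifs <;> norm_num) (by positivity) hρ1 hE
  filter_upwards [key] with ω hω
  obtain ⟨k0, hk0⟩ := eventually_atTop.1 hω
  set B : ℝ := (P0 : ℝ) + |c| * B0 + 1 with hB
  have hBpos : 0 < B := by positivity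
  refine ⟨B * ρ ^ k0 * 6 ^ C, fun N hN => ?_⟩
  have hNR : (2 : ℝ) ≤ N := by exact_mod_cast hN
  have hlN : 1 / 2 ≤ Real.log N := by
    have h1 := Real.log_le_log (by norm_num) hNR
    have := Real.log_two_gt_d9
    linarith
  -- the scale
  set t : ℕ := ⌈Real.log N⌉₊ with ht
  have ht1 : Real.log N ≤ t := Nat.le_ceil _
  have ht2 : (t : ℝ) < Real.log N + 1 := Nat.ceil_lt_add_one (by linarith)
  have ht0 : t ≠ 0 := by
    intro h0
    rw [h0] at ht1
    simp at ht1
    linarith
  set k1 : ℕ := Nat.log 2 t + 1 with hk1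
  have h1 : t < 2 ^ k1 := Nat.lt_pow_succ_log_self (by norm_num) t
  have h2 : 2 ^ k1 ≤ 2 * t := by
    have := Nat.pow_log_le_self 2 ht0
    rw [hk1, pow_succ]
    omega
  have h1R : (t : ℝ) ≤ 2 ^ k1 := by exact_mod_cast h1.le
  have h2R : (2 : ℝ) ^ k1 ≤ 6 * Real.log N := by
    have h3 : ((2 : ℝ)) ^ k1 ≤ 2 * t := by exact_mod_cast h2
    linarith
  have hNu : N ≤ uu k1 := by
    unfold uu
    apply Nat.le_floor
    calc (N : ℝ) = Real.exp (Real.log N) := (Real.exp_log (by linarith)).symm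
      _ ≤ Real.exp (2 ^ k1) := Real.exp_le_exp.2 (ht1.trans h1R)
  have hNu2 : N ≤ uu (k0 + k1) := hNu.trans (uu_mono (Nat.le_add_left _ _))
  have h3 := hk0 (k0 + k1) (Nat.le_add_right _ _)
  have h4 : (((Finset.range (N + 1)).filter (fun p => p.Prime ∧ u p ω ≠ 0)).card : ℝ) =
      ∑ p ∈ range (N + 1), Y p ω := by
    rw [card_filter]
    push_cast
    rfl
  rw [h4]
  have h5 : ∑ p ∈ range (N + 1), Y p ω ≤ ∑ p ∈ range (uu (k0 + k1) + 1), Y p ω := by
    apply sum_le_sum_of_subset_of_nonneg (range_mono (by omega))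
    intro p _ _
    simp only [hY, hg]
    split_ifs <;> norm_num
  refine h5.trans (h3.trans ?_)
  rw [pow_add, ← mul_assoc]
  have h6 : ρ ^ k1 ≤ 6 ^ C * Real.log N ^ C := by
    have h7 : ρ ^ k1 = ((2 : ℝ) ^ k1) ^ C := by
      rw [hρ, ← Real.rpow_natCast, ← Real.rpow_mul (by norm_num), mul_comm,
        Real.rpow_mul (by norm_num), Real.rpow_natCast]
    rw [h7, ← Real.mul_rpow (by norm_num) (by linarith)]
    exact Real.rpow_le_rpow (by positivity) h2R hC.le
  calc B * ρ ^ k0 * ρ ^ k1 ≤ B * ρ ^ k0 * (6 ^ C * Real.log N ^ C) :=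
        mul_le_mul_of_nonneg_left h6 (by positivity)
    _ = _ := by ring

end Pool.Agent.Work.MP_b0c12c_nt_sparse
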