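import Pool.Agent.Work.MP_b0c12c_nt_sparse.V3

/-!
# Block PAIR3: the sum over pairs of rows
-/

set_option autoImplicit false

namespace Pool.Agent.Work.MP_b0c12c_nt_sparse

open Finset

namespace PAIR3

/-- `∑_{m ≥ 1} binom(k, m) (m a)^m ≤ 2 e a k` -/
theorem binom_sum {a : ℝ} (ha : 0 ≤ a) (k : ℕ) (h : Real.exp 1 * a * k ≤ 1 / 2) :
    ∑ m ∈ range k, (k.choose (m + 1) : ℝ) * (((m + 1 : ℕ) : ℝ) * a) ^ (m + 1) ≤
      2 * Real.exp 1 * a * k := by
  have ht0 : 0 ≤ Real.exp 1 * a * k := by positivity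
  set t := Real.exp 1 * a * k with ht
  have hterm : ∀ n : ℕ, (k.choose n : ℝ) * ((n : ℝ) * a) ^ n ≤ t ^ n := by
    intro n
    have h1 : (k.choose n : ℝ) ≤ (k : ℝ) ^ n / (n.factorial : ℝ) := Nat.choose_le_pow_div n k
    have h2 : (n : ℝ) ^ n / (n.factorial : ℝ) ≤ Real.exp n :=
      Real.pow_div_factorial_le_exp (n : ℝ) (Nat.cast_nonneg n) n
    have h3 : Real.exp (n : ℝ) = Real.exp 1 ^ n := by rw [← Real.exp_nat_mul, mul_one]
    calc (k.choose n : ℝ) * ((n : ℝ) * a) ^ n ≤ (k : ℝ) ^ n / (n.factorial : ℝ) * ((n : ℝ) * a) ^ n :=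
          mul_le_mul_of_nonneg_right h1 (by positivity)
      _ = (n : ℝ) ^ n / (n.factorial : ℝ) * (a * k) ^ n := by
          rw [mul_pow, mul_pow]
          ring
      _ ≤ Real.exp 1 ^ n * (a * k) ^ n := by
          rw [← h3]
          exact mul_le_mul_of_nonneg_right h2 (by positivity)
      _ = t ^ n := by
          rw [ht, ← mul_pow]
          ring
  calc ∑ m ∈ range k, (k.choose (m + 1) : ℝ) * (((m + 1 : ℕ) : ℝ) * a) ^ (m + 1) ≤
        ∑ m ∈ range k, t * (1 / 2 : ℝ) ^ m := by
        apply sum_le_sum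
        intro m _
        refine (hterm (m + 1)).trans ?_
        rw [pow_succ, mul_comm]
        exact mul_le_mul_of_nonneg_left (pow_le_pow_left₀ ht0 h m) ht0
    _ = t * ∑ m ∈ range k, (1 / 2 : ℝ) ^ m := by rw [mul_sum]
    _ ≤ t * 2 := mul_le_mul_of_nonneg_left (sum_geometric_two_le k) ht0
    _ = 2 * Real.exp 1 * a * k := by rw [ht]; ring

end PAIR3

theorem stmt_PAIR3 : Stmt_PAIR3 := by
  classical
  intro R K Lam g H a k1 hH ha hk1 hLam hcard hak hE
  -- one pair
  have h1 : ∀ r ∈ R, ∀ r' ∈ R, ∏ p ∈ K r ∩ K r', Lam p ≤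
      1 + ∑ E ∈ (K r).powerset.erase ∅, if E ⊆ K r' then ∏ p ∈ E, Lam p else 0 := by
    intro r hr r' hr'
    have e1 : ∏ p ∈ K r ∩ K r', Lam p = ∏ p ∈ K r ∩ K r', (1 + (Lam p - 1)) :=
      prod_congr rfl fun p _ => by ring
    rw [e1, prod_one_add]
    have e2 : (∅ : Finset ℕ) ∈ (K r ∩ K r').powerset := empty_mem_powerset _
    rw [← add_sum_erase _ _ e2, prod_empty]
    apply add_le_add le_rfl
    rw [← sum_filter]
    have e3 : (K r ∩ K r').powerset.erase ∅ ⊆ ((K r).powerset.erase ∅).filter (fun E => E ⊆ K r') := by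
      intro E hE
      rw [mem_erase, mem_powerset, subset_inter_iff] at hE
      rw [mem_filter, mem_erase, mem_powerset]
      exact ⟨⟨hE.1, hE.2.1⟩, hE.2.2⟩
    calc ∑ E ∈ (K r ∩ K r').powerset.erase ∅, ∏ p ∈ E, (Lam p - 1) ≤
          ∑ E ∈ (K r ∩ K r').powerset.erase ∅, ∏ p ∈ E, Lam p := by
          apply sum_le_sum
          intro E hE
          rw [mem_erase, mem_powerset, subset_inter_iff] at hE
          apply prod_le_prod
          · intro p hp
            have := (hLam r hr p (hE.2.1 hp)).1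
            linarith
          · intro p hp
            linarith
      _ ≤ _ := by
          apply sum_le_sum_of_subset_of_nonneg e3
          intro E hE _
          rw [mem_filter, mem_erase, mem_powerset] at hE
          apply prod_nonneg
          intro p hp
          have := (hLam r hr p (hE.1.2 hp)).1
          linarith
  -- one row
  have h2 : ∀ r ∈ R, ∑ r' ∈ R, ∏ p ∈ K r ∩ K r', Lam p ≤
      R.card + H * (2 * Real.exp 1 * a * k1) := by
    intro r hr
    refine (sum_le_sum fun r' hr' => h1 r hr r' hr').trans ?_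
    rw [sum_add_distrib, sum_const, nsmul_eq_mul, mul_one, sum_comm]
    apply add_le_add le_rfl
    have e1 : ∀ E ∈ (K r).powerset.erase ∅, ∑ r' ∈ R, (if E ⊆ K r' then ∏ p ∈ E, Lam p else 0) ≤
        H * (((E.card : ℕ) : ℝ) * a) ^ E.card := by
      intro E hEr
      rw [mem_erase, mem_powerset] at hEr
      have hne : E.Nonempty := nonempty_iff_ne_empty.2 hEr.1
      have e2 := hE E hne
      have e3 : 0 ≤ ∏ p ∈ E, Lam p := prod_nonneg fun p hp => by
        have := (hLam r hr p (hEr.2 hp)).1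
        linarith
      rw [← sum_filter, sum_const, nsmul_eq_mul]
      calc ((R.filter fun r' => E ⊆ K r').card : ℝ) * ∏ p ∈ E, Lam p ≤
            (H * ∏ p ∈ E, ((E.card : ℝ) * g p)) * ∏ p ∈ E, Lam p :=
            mul_le_mul_of_nonneg_right e2 e3
        _ = H * ∏ p ∈ E, ((E.card : ℝ) * (Lam p * g p)) := by
            rw [mul_assoc, ← prod_mul_distrib]
            congr 1
            apply prod_congr rfl
            intro p _
            ring
        _ ≤ H * ∏ _p ∈ E, ((E.card : ℝ) * a) := by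
            apply mul_le_mul_of_nonneg_left _ hH
            apply prod_le_prod
            · intro p hp
              obtain ⟨g1, g2, g3⟩ := hLam r hr p (hEr.2 hp)
              have : 0 ≤ Lam p := by linarith
              positivity
            · intro p hp
              obtain ⟨g1, g2, g3⟩ := hLam r hr p (hEr.2 hp)
              exact mul_le_mul_of_nonneg_left g3 (Nat.cast_nonneg _)
        _ = _ := by rw [prod_const]
    refine (sum_le_sum e1).trans ?_
    rw [← mul_sum]
    apply mul_le_mul_of_nonneg_left _ hH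
    set k := (K r).card with hk
    have hkk : (k : ℝ) ≤ k1 := hcard r hr
    have hek : Real.exp 1 * a * k ≤ Real.exp 1 * a * k1 :=
      mul_le_mul_of_nonneg_left hkk (by positivity)
    have e4 : ∑ E ∈ (K r).powerset.erase ∅, (((E.card : ℕ) : ℝ) * a) ^ E.card =
        ∑ m ∈ range k, (k.choose (m + 1) : ℝ) * (((m + 1 : ℕ) : ℝ) * a) ^ (m + 1) := by
      have e5 : (∅ : Finset ℕ) ∈ (K r).powerset := empty_mem_powerset _
      have e6 := add_sum_erase (K r).powerset
        (fun E => (((E.card : ℕ) : ℝ) * a) ^ E.card) e5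
      have e7 := sum_powerset_apply_card (x := K r) (fun m : ℕ => ((m : ℝ) * a) ^ m)
      rw [← hk, sum_range_succ'] at e7
      simp only [nsmul_eq_mul] at e7
      rw [e7] at e6
      simp only [card_empty, pow_zero, Nat.choose_zero_right, Nat.cast_one, one_mul] at e6
      linarith
    rw [e4]
    refine (PAIR3.binom_sum ha k (hek.trans hak)).trans ?_
    have : 2 * Real.exp 1 * a * (k : ℝ) = 2 * (Real.exp 1 * a * k) := by ring
    rw [this]
    have : 2 * Real.exp 1 * a * k1 = 2 * (Real.exp 1 * a * k1) := by ring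
    rw [this]
    linarith
  rw [sum_product]
  refine (sum_le_sum h2).trans ?_
  rw [sum_const, nsmul_eq_mul]
  apply le_of_eq
  ring

end Pool.Agent.Work.MP_b0c12c_nt_sparse
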