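import Mathlib
import Pool.Agent.Work.MP_b0c12c_nt_shift.PC
import Pool.Agent.Work.MP_b0c12c_nt_sparse.V2

/-!
# Block PCY: pairs of rows with common primes
-/

set_option autoImplicit false

namespace Pool.Agent.Work.MP_b0c12c_nt_sparse

open Finset Filter
open Pool.Agent.Work.MP_b0c12c_nt_shift

namespace PCYaux

theorem mem_AY {κ : ℝ} {y z p : ℕ} : p ∈ AY κ y z ↔ p.Prime ∧ y < p ∧ p ≤ w1 κ z := by
  unfold AY
  rw [mem_filter, mem_Ioc]
  tauto

theorem coprime_qq {κ : ℝ} {y z p : ℕ} (hzy : z ≤ y) (h : p ∈ AY κ y z) :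
    p.Coprime (qq z 0) := by
  obtain ⟨h1, h2, -⟩ := mem_AY.1 h
  unfold qq
  refine Nat.Coprime.prod_right fun l hl => ?_
  have h3 := mem_filter.mp (mem_of_mem_erase hl)
  have h4 := (mem_Icc.mp h3.1).2
  rw [Nat.coprime_primes h1 h3.2]
  rintro rfl
  omega

end PCYaux

open PC PCYaux in
theorem stmt_PCY : Stmt_PCY := by
  intro κ η hκ hκ2 hη hη2
  obtain ⟨z1, hz1⟩ : ∃ z1 : ℕ, ∀ z : ℕ, z1 ≤ z → max (10 / η) 2 ≤ (z : ℝ) ^ κ := by
    have h1 := (tendsto_rpow_atTop hκ).comp tendsto_natCast_atTop_atTop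
    obtain ⟨z1, hz1⟩ := (h1.eventually_ge_atTop (max (10 / η) 2)).exists_forall_of_atTop
    exact ⟨z1, fun z hz => hz1 z hz⟩
  refine ⟨4, by norm_num, max z1 8, fun z hz x U y b hx hb hzy hU3 Lam hLam => ?_⟩
  have hz8 : 8 ≤ z := (le_max_right _ _).trans hz
  have hzκ := hz1 z ((le_max_left _ _).trans hz)
  have hz0 : (0 : ℝ) < z := by exact_mod_cast (by omega : 0 < z)
  have hz8' : (8 : ℝ) ≤ z := by exact_mod_cast hz8
  have hz1' : (1 : ℝ) ≤ z := by linarith
  set A := AY κ y z with hAdef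
  set q := qq z 0 with hqdef
  have hq : 0 < q := qq_pos z 0
  have hqr : (0 : ℝ) < q := by exact_mod_cast hq
  have hq4 : (q : ℝ) ≤ 4 ^ z := by exact_mod_cast qq_le z 0
  have hA1 : ∀ p ∈ A, p.Prime ∧ p.Coprime q := fun p hp =>
    ⟨(mem_AY.1 hp).1, PCYaux.coprime_qq hzy hp⟩
  have hlog4 : Real.log 4 < 3 / 2 := by
    have h1 : Real.log 4 = 2 * Real.log 2 := by
      rw [show (4 : ℝ) = 2 ^ 2 by norm_num, Real.log_pow]; norm_num
    have := Real.log_two_lt_d9
    rw [h1]; linarith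
  have hzpow : (z : ℝ) ^ (1 + κ) = z * (z : ℝ) ^ κ := by
    rw [Real.rpow_add hz0, Real.rpow_one]
  have hlogx : (z : ℝ) * (z : ℝ) ^ κ ≤ Real.log x := by rw [← hzpow]; exact hx.1
  have hxpos : (0 : ℝ) < x := by
    rcases Nat.eq_zero_or_pos x with h | h
    · subst h
      simp only [Nat.cast_zero, Real.log_zero] at hlogx
      have : 0 < (z : ℝ) * (z : ℝ) ^ κ := by positivity
      linarith
    · exact_mod_cast h
  have hzκ2 : 2 ≤ (z : ℝ) ^ κ := (le_max_right _ _).trans hzκ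
  have hzκη : 10 / η ≤ (z : ℝ) ^ κ := (le_max_left _ _).trans hzκ
  have hH1 : 1 ≤ (x : ℝ) / q := by
    rw [le_div_iff₀ hqr, one_mul]
    refine hq4.trans ?_
    rw [← Real.exp_log hxpos]
    have h1 : (4 : ℝ) ^ z = Real.exp (z * Real.log 4) := by
      rw [← Real.log_pow, Real.exp_log (by positivity)]
    rw [h1, Real.exp_le_exp]
    nlinarith
  have hHpos : 0 < (x : ℝ) / q := by linarith
  constructor
  · -- first sum
    have h1 := sum_pairs (x := x) (b := b) (U := U) hq hA1 Lam hLam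
    refine h1.trans ?_
    apply mul_le_mul_of_nonneg_left _ (by positivity)
    apply sub_le_sub_right
    rw [Real.exp_sum]
    refine Finset.prod_le_prod (fun p hp => ?_) fun p hp => ?_
    · have h2 := hLam p hp
      have := mul_nonneg (by linarith : 0 ≤ Lam p - 1)
        (show (0 : ℝ) ≤ ((U : ℝ) + 2) ^ 2 / (p : ℝ) ^ 2 by positivity)
      linarith
    · have h2 : (0 : ℝ) ≤ ((U : ℝ) + 2) ^ 2 / (p : ℝ) ^ 2 := by positivity
      have h3 := Real.add_one_le_exp (Lam p * ((U : ℝ) + 2) ^ 2 / (p : ℝ) ^ 2)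
      have h4 : Lam p * ((U : ℝ) + 2) ^ 2 / (p : ℝ) ^ 2 =
          Lam p * (((U : ℝ) + 2) ^ 2 / (p : ℝ) ^ 2) := by ring
      rw [h4] at h3 ⊢
      linarith
  · -- large common product
    have hWpos : 0 < w1 κ z := by
      unfold w1
      rw [Nat.floor_pos]
      exact Real.one_le_exp (by positivity)
    have hWr : (0 : ℝ) < w1 κ z := by exact_mod_cast hWpos
    have hA2 : ∀ p ∈ A, p.Prime ∧ p.Coprime q ∧ p ≤ w1 κ z := fun p hp =>
      ⟨(hA1 p hp).1, (hA1 p hp).2, (mem_AY.1 hp).2.2⟩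
    have h1 := big_pairs (x := x) (b := b) (U := U) hq hWpos hA2 hH1 (β := 1 - η) (by linarith) hU3
    refine h1.trans ?_
    set H := (x : ℝ) / q with hHdef
    have hkey : 4 * q * (w1 κ z : ℝ) ^ 2 ≤ (x : ℝ) ^ (2 * η / 3) := by
      have hW : (w1 κ z : ℝ) ≤ Real.exp ((z : ℝ) ^ (1 - κ)) := Nat.floor_le (Real.exp_pos _).le
      have hW2 : (w1 κ z : ℝ) ≤ Real.exp z := by
        refine hW.trans (Real.exp_le_exp.mpr ?_)
        calc (z : ℝ) ^ (1 - κ) ≤ (z : ℝ) ^ (1 : ℝ) :=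
              Real.rpow_le_rpow_of_exponent_le hz1' (by linarith)
          _ = z := Real.rpow_one _
      have h4 : (4 : ℝ) = Real.exp (Real.log 4) := by rw [Real.exp_log (by norm_num)]
      have hq5 : (q : ℝ) ≤ Real.exp (z * Real.log 4) := by
        refine hq4.trans (le_of_eq ?_)
        rw [← Real.log_pow, Real.exp_log (by positivity)]
      have hxη : (x : ℝ) ^ (2 * η / 3) = Real.exp (Real.log x * (2 * η / 3)) :=
        Real.rpow_def_of_pos hxpos _
      rw [hxη]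
      calc 4 * q * (w1 κ z : ℝ) ^ 2
          ≤ Real.exp (Real.log 4) * Real.exp (z * Real.log 4) * (Real.exp z) ^ 2 := by
            apply mul_le_mul _ (pow_le_pow_left₀ hWr.le hW2 2) (by positivity) (by positivity)
            exact mul_le_mul h4.le hq5 hqr.le (Real.exp_pos _).le
        _ = Real.exp (Real.log 4 + z * Real.log 4 + 2 * z) := by
            rw [Real.exp_add, Real.exp_add, ← Real.exp_nat_mul]
            norm_cast
        _ ≤ Real.exp (Real.log x * (2 * η / 3)) := by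
            rw [Real.exp_le_exp]
            have h5 : Real.log 4 + z * Real.log 4 + 2 * z ≤ 5 * z := by nlinarith
            refine h5.trans ?_
            have h7 : 10 ≤ (z : ℝ) ^ κ * η := by
              rwa [div_le_iff₀ hη] at hzκη
            calc 5 * (z : ℝ) ≤ z * 10 * (2 / 3) := by linarith
              _ ≤ z * ((z : ℝ) ^ κ * η) * (2 / 3) := by
                  have := mul_le_mul_of_nonneg_left h7 hz0.le
                  linarith
              _ = (z * (z : ℝ) ^ κ) * (2 * η / 3) := by ring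
              _ ≤ Real.log x * (2 * η / 3) := mul_le_mul_of_nonneg_right hlogx (by linarith)
    have hpow : (H / (w1 κ z : ℝ)) ^ (1 - η - 2) ≤ H ^ (1 - η - 2) * (w1 κ z : ℝ) ^ 2 := by
      rw [Real.div_rpow hHpos.le hWr.le, div_eq_mul_inv, ← Real.rpow_neg hWr.le]
      apply mul_le_mul_of_nonneg_left _ (by positivity)
      have hW1 : (1 : ℝ) ≤ w1 κ z := by exact_mod_cast hWpos
      calc (w1 κ z : ℝ) ^ (-(1 - η - 2)) ≤ (w1 κ z : ℝ) ^ (2 : ℝ) :=
            Real.rpow_le_rpow_of_exponent_le hW1 (by linarith)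
        _ = (w1 κ z : ℝ) ^ 2 := by norm_cast
    have hHη : H * H ^ (1 - η - 2) ≤ q * (x : ℝ) ^ (-η) := by
      have e1 : H * H ^ (1 - η - 2) = H ^ (-η) := by
        rw [show -η = 1 + (1 - η - 2) by ring, Real.rpow_add hHpos, Real.rpow_one]
      rw [e1, hHdef, Real.div_rpow hxpos.le hqr.le, div_eq_mul_inv, ← Real.rpow_neg hqr.le,
        neg_neg, mul_comm]
      have hq1 : (1 : ℝ) ≤ q := by exact_mod_cast hq
      apply mul_le_mul_of_nonneg_right _ (by positivity)
      calc (q : ℝ) ^ η ≤ (q : ℝ) ^ (1 : ℝ) :=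
            Real.rpow_le_rpow_of_exponent_le hq1 (by linarith)
        _ = q := Real.rpow_one _
    have hfin : (x : ℝ) ^ (-(η / 3)) = (x : ℝ) ^ (2 * η / 3) * (x : ℝ) ^ (-η) := by
      rw [← Real.rpow_add hxpos]
      congr 1
      ring
    calc 4 * H ^ 3 * (H / (w1 κ z : ℝ)) ^ (1 - η - 2)
        ≤ 4 * H ^ 3 * (H ^ (1 - η - 2) * (w1 κ z : ℝ) ^ 2) :=
          mul_le_mul_of_nonneg_left hpow (by positivity)
      _ = H ^ 2 * (4 * (w1 κ z : ℝ) ^ 2 * (H * H ^ (1 - η - 2))) := by ring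
      _ ≤ H ^ 2 * (4 * (w1 κ z : ℝ) ^ 2 * (q * (x : ℝ) ^ (-η))) := by
          apply mul_le_mul_of_nonneg_left _ (by positivity)
          exact mul_le_mul_of_nonneg_left hHη (by positivity)
      _ = H ^ 2 * ((4 * q * (w1 κ z : ℝ) ^ 2) * (x : ℝ) ^ (-η)) := by ring
      _ ≤ H ^ 2 * ((x : ℝ) ^ (2 * η / 3) * (x : ℝ) ^ (-η)) := by
          apply mul_le_mul_of_nonneg_left _ (by positivity)
          exact mul_le_mul_of_nonneg_right hkey (by positivity)
      _ = H ^ 2 * (x : ℝ) ^ (-(η / 3)) := by rw [hfin]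

end Pool.Agent.Work.MP_b0c12c_nt_sparse
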