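import Pool.Agent.Work.MP_b0c12c_nt_sparse.FINSY

/-!
# The polylogarithmic case
-/

set_option autoImplicit false

namespace Pool.Agent.Work.MP_b0c12c_nt_sparse

open Filter Finset MeasureTheory ProbabilityTheory
open Pool.Agent.Work.MP_b0c12c_nt_shift

namespace PolyLog

/-- `lam u = u - C log u - log c₁` -/
noncomputable def lamP (C c₁ : ℝ) (u : ℝ) : ℝ := u - C * Real.log u - Real.log c₁

theorem exp_lamP {C c₁ : ℝ} (hc : 0 < c₁) {u : ℝ} (hu : 0 < u) :
    Real.exp (-lamP C c₁ u) = c₁ * u ^ C / Real.exp u := by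
  unfold lamP
  rw [show -(u - C * Real.log u - Real.log c₁) = Real.log c₁ + Real.log u * C - u by ring,
    Real.exp_sub, Real.exp_add, Real.exp_log hc, ← Real.rpow_def_of_pos hu]

/-- bounds for large arguments -/
theorem lamP_bounds (C c₁ : ℝ) : ∃ u0 : ℝ, 1 ≤ u0 ∧ ∀ u : ℝ, u0 ≤ u →
    3 / 4 * u ≤ lamP C c₁ u ∧ lamP C c₁ u ≤ 5 / 4 * u ∧ |C| ≤ u ∧ 4 ≤ u := by
  have h1 : ∀ᶠ u : ℝ in atTop, |C * Real.log u| ≤ 1 / 8 * u := by
    have h2 : (fun u : ℝ => C * Real.log u) =o[atTop] (fun u : ℝ => u) :=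
      Real.isLittleO_log_id_atTop.const_mul_left C
    filter_upwards [h2.bound (show (0 : ℝ) < 1 / 8 by norm_num), eventually_ge_atTop 0] with u hu hu0
    rw [Real.norm_eq_abs, Real.norm_of_nonneg hu0] at hu
    exact hu
  obtain ⟨a, ha⟩ := eventually_atTop.1 h1
  refine ⟨max a (max (8 * |Real.log c₁|) (max |C| 4)), ?_, ?_⟩
  · exact le_trans (by norm_num) ((le_max_right _ _).trans ((le_max_right _ _).trans (le_max_right _ _)))
  · intro u hu
    have b1 : a ≤ u := (le_max_left _ _).trans hu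
    have b2 : 8 * |Real.log c₁| ≤ u := ((le_max_left _ _).trans (le_max_right _ _)).trans hu
    have b3 : |C| ≤ u :=
      ((le_max_left _ _).trans ((le_max_right _ _).trans (le_max_right _ _))).trans hu
    have b4 : 4 ≤ u :=
      ((le_max_right _ _).trans ((le_max_right _ _).trans (le_max_right _ _))).trans hu
    have b5 := abs_le.1 (ha u b1)
    have b6 := abs_le.1 (le_refl |Real.log c₁|)
    unfold lamP
    exact ⟨by linarith, by linarith, b3, b4⟩

theorem lamOk (C c₁ : ℝ) : ∃ u0 : ℝ, LamOk (lamP C c₁) u0 2 ∧ ∀ u : ℝ, u0 ≤ u →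
    3 / 4 * u ≤ lamP C c₁ u ∧ lamP C c₁ u ≤ 5 / 4 * u := by
  obtain ⟨u0, h0, h⟩ := lamP_bounds C c₁
  refine ⟨u0, ⟨h0, by norm_num, ?_, ?_, ?_⟩, fun u hu => ⟨(h u hu).1, (h u hu).2.1⟩⟩
  · intro u hu
    obtain ⟨h1, h2, h3, h4⟩ := h u hu
    linarith
  · intro u v hu huv
    obtain ⟨h1, h2, h3, h4⟩ := h u hu
    have hu0 : 0 < u := by linarith
    have hv0 : 0 < v := by linarith
    have h5 : Real.log v - Real.log u ≤ (v - u) / u := by
      rw [← Real.log_div hv0.ne' hu0.ne']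
      have := Real.log_le_sub_one_of_pos (show 0 < v / u by positivity)
      refine this.trans (le_of_eq ?_)
      field_simp
    have h6 : 0 ≤ Real.log v - Real.log u := by
      have := Real.log_le_log hu0 huv
      linarith
    have h7 : C * (Real.log v - Real.log u) ≤ v - u := by
      calc C * (Real.log v - Real.log u) ≤ |C| * (Real.log v - Real.log u) :=
            mul_le_mul_of_nonneg_right (le_abs_self C) h6
        _ ≤ u * ((v - u) / u) := mul_le_mul h3 h5 h6 hu0.le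
        _ = v - u := by field_simp
    unfold lamP
    linarith
  · intro t u ht hu
    obtain ⟨h1, h2, h3, h4⟩ := h u hu
    have hu0 : 0 < u := by linarith
    have htu : u0 ≤ t * u := by nlinarith
    obtain ⟨h5, h6, -, -⟩ := h (t * u) htu
    have : 3 / 4 * (t * u) ≤ t * lamP C c₁ u := by
      have := mul_le_mul_of_nonneg_left h1 (by linarith : 0 ≤ t)
      linarith
    have htu0 : 0 < t * u := by positivity
    linarith

theorem ellOk {C c₁ β : ℝ} (hC : 0 < C) (hβ0 : 4 / (C + 2) < β) (hβ1 : β < 1) {u0 : ℝ}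
    (hu0 : 1 ≤ u0) (hb : ∀ u : ℝ, u0 ≤ u → 3 / 4 * u ≤ lamP C c₁ u ∧ lamP C c₁ u ≤ 5 / 4 * u) :
    ∃ δ t0 : ℝ, EllOk (lamP C c₁) (fun t => Real.exp (β * t)) u0 δ t0 := by
  have hC2 : 0 < C + 2 := by linarith
  have hβpos : 0 < β := lt_trans (by positivity) hβ0
  have hκ : 0 < (C + 2) * β - 4 := by
    rw [div_lt_iff₀ hC2] at hβ0
    linarith
  set δ := min ((1 - β) / 2) (((C + 2) * β - 4) / 2) with hδ
  have hδ1 : δ ≤ (1 - β) / 2 := min_le_left _ _
  have hδ2 : δ ≤ ((C + 2) * β - 4) / 2 := min_le_right _ _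
  have hδ0 : 0 < δ := lt_min (by linarith) (by linarith)
  have e1 : ∀ᶠ t : ℝ in atTop, u0 ≤ Real.exp (β * t) :=
    (Real.tendsto_exp_atTop.comp (tendsto_id.const_mul_atTop hβpos)).eventually_ge_atTop u0
  have e2 : ∀ᶠ t : ℝ in atTop, 2 ≤ Real.exp ((1 - β - δ) * t) :=
    (Real.tendsto_exp_atTop.comp (tendsto_id.const_mul_atTop (by linarith))).eventually_ge_atTop 2
  have e3 : ∀ᶠ t : ℝ in atTop, 2 * Real.log (4 / 3) - Real.log c₁ ≤ (((C + 2) * β - 4) - δ) * t :=
    (tendsto_id.const_mul_atTop (by linarith)).eventually_ge_atTop _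
  obtain ⟨t0, ht0⟩ := eventually_atTop.1 (e1.and (e2.and (e3.and (eventually_ge_atTop 0))))
  refine ⟨δ, t0, hδ0, by linarith, ?_, ?_, ?_, ?_⟩
  · intro t ht
    exact (ht0 t ht).1
  · intro t t' ht htt
    have h0 := (ht0 t ht).2.2.2
    refine ⟨Real.exp_le_exp.2 (by nlinarith), ?_⟩
    rw [← Real.exp_add]
    apply Real.exp_le_exp.2
    nlinarith
  · intro t ht
    obtain ⟨h1, h2, h3, h4⟩ := ht0 t ht
    obtain ⟨h5, h6⟩ := hb _ h1
    have h7 : Real.exp ((1 - δ) * t) = Real.exp (β * t) * Real.exp ((1 - β - δ) * t) := by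
      rw [← Real.exp_add]; congr 1; ring
    rw [h7]
    set E := Real.exp (β * t) with hE
    have hE0 : 0 < E := Real.exp_pos _
    calc E ^ 2 ≤ (3 / 4 * E) * (E * 2) := by nlinarith
      _ ≤ lamP C c₁ E * (E * Real.exp ((1 - β - δ) * t)) := by
          apply mul_le_mul h5 _ (by positivity) (by linarith)
          exact mul_le_mul_of_nonneg_left h2 hE0.le
  · intro t ht u hu
    obtain ⟨h1, h2, h3, h4⟩ := ht0 t ht
    obtain ⟨h5, h6⟩ := hb _ h1
    have hu' : Real.exp (β * t) ≤ u := hu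
    have hupos : 0 < u := lt_of_lt_of_le (Real.exp_pos _) hu'
    have h7 : β * t ≤ Real.log u := by
      rw [Real.le_log_iff_exp_le hupos]
      exact hu'
    have h8 : β * t - Real.log (4 / 3) ≤ Real.log (lamP C c₁ (Real.exp (β * t))) := by
      have h9 : Real.log (3 / 4 * Real.exp (β * t)) ≤ Real.log (lamP C c₁ (Real.exp (β * t))) :=
        Real.log_le_log (by positivity) h5
      rw [Real.log_mul (by norm_num) (Real.exp_ne_zero _), Real.log_exp] at h9
      have h10 : Real.log (3 / 4) = -Real.log (4 / 3) := by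
        rw [← Real.log_inv]; norm_num
      linarith
    have h11 : u - lamP C c₁ u = C * Real.log u + Real.log c₁ := by
      unfold lamP; ring
    rw [h11]
    have h12 : C * (β * t) ≤ C * Real.log u := mul_le_mul_of_nonneg_left h7 hC.le
    nlinarith

/-- `limsup (s_{k+1} - s_k) / (log s_k)^e` -/
noncomputable def gapE (e : ℝ) (Q : Set ℕ) : EReal :=
  limsup (fun k : ℕ =>
      ((((Nat.nth (· ∈ Q) (k + 1) : ℝ) - (Nat.nth (· ∈ Q) k : ℝ)) /
        Real.log (Nat.nth (· ∈ Q) k) ^ e : ℝ) : EReal)) atTop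

/-- deterministic: the exponent -/
theorem gapE_top {L : ℝ → ℝ} {β e c : ℝ} (he : e < 2 - β) (hc : 0 < c) {Q : Set ℕ}
    (hQ : Q.Infinite)
    (hL : ∀ᶠ t : ℝ in atTop, 0 < L t ∧ L t ≤ 5 / 4 * Real.exp (β * t))
    (h : ((c : ℝ) : EReal) ≤ gapW L Q) : gapE e Q = ⊤ := by
  classical
  have hQ' : (Set.ofPred (· ∈ Q)).Infinite := hQ
  rw [EReal.eq_top_iff_forall_lt]
  intro M
  have hlt : ((c / 2 : ℝ) : EReal) < gapW L Q := by
    refine lt_of_lt_of_le ?_ h
    rw [EReal.coe_lt_coe_iff]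
    linarith
  have hfr := frequently_lt_of_lt_limsup (by isBoundedDefault) hlt
  have hs : Tendsto (fun k : ℕ => ((Nat.nth (· ∈ Q) k : ℕ) : ℝ)) atTop atTop := by
    apply tendsto_natCast_atTop_atTop.comp
    exact (Nat.nth_strictMono hQ').tendsto_atTop
  have hls : Tendsto (fun k : ℕ => Real.log ((Nat.nth (· ∈ Q) k : ℕ) : ℝ)) atTop atTop :=
    Real.tendsto_log_atTop.comp hs
  have hlls : Tendsto (fun k : ℕ => Real.log (Real.log ((Nat.nth (· ∈ Q) k : ℕ) : ℝ))) atTop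
      atTop := Real.tendsto_log_atTop.comp hls
  have hbig : ∀ᶠ k : ℕ in atTop, (|M| + 1) * (5 / (2 * c)) ≤
      Real.log ((Nat.nth (· ∈ Q) k : ℕ) : ℝ) ^ (2 - β - e) :=
    ((tendsto_rpow_atTop (by linarith)).comp hls).eventually_ge_atTop _
  have hev : ∀ᶠ k : ℕ in atTop,
      ((c / 2 : ℝ) : EReal) < ((((Nat.nth (· ∈ Q) (k + 1) : ℝ) - (Nat.nth (· ∈ Q) k : ℝ)) *
        L (Real.log (Real.log (Nat.nth (· ∈ Q) k))) /
        Real.log (Nat.nth (· ∈ Q) k) ^ 2 : ℝ) : EReal) →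
      ((|M| + 1 : ℝ) : EReal) ≤ ((((Nat.nth (· ∈ Q) (k + 1) : ℝ) - (Nat.nth (· ∈ Q) k : ℝ)) /
        Real.log (Nat.nth (· ∈ Q) k) ^ e : ℝ) : EReal) := by
    filter_upwards [hbig, hlls.eventually hL, hls.eventually_gt_atTop 0] with k h1 h2 h3 h4
    rw [EReal.coe_lt_coe_iff] at h4
    rw [EReal.coe_le_coe_iff]
    set s : ℝ := ((Nat.nth (· ∈ Q) k : ℕ) : ℝ) with hs'
    set G : ℝ := (Nat.nth (· ∈ Q) (k + 1) : ℝ) - s with hG
    have h5 : Real.exp (β * Real.log (Real.log s)) = Real.log s ^ β := by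
      rw [Real.rpow_def_of_pos h3]; congr 1; ring
    rw [h5] at h2
    rw [lt_div_iff₀ (by positivity)] at h4
    have hG0 : 0 < G := by
      by_contra hneg
      push Not at hneg
      have : G * L (Real.log (Real.log s)) ≤ 0 := mul_nonpos_of_nonpos_of_nonneg hneg h2.1.le
      have : 0 < c / 2 * Real.log s ^ 2 := by positivity
      linarith
    have h6 : c / 2 * Real.log s ^ 2 < G * (5 / 4 * Real.log s ^ β) :=
      lt_of_lt_of_le h4 (mul_le_mul_of_nonneg_left h2.2 hG0.le)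
    rw [le_div_iff₀ (Real.rpow_pos_of_pos h3 e)]
    have h7 : Real.log s ^ 2 = Real.log s ^ (2 - β - e) * Real.log s ^ e * Real.log s ^ β := by
      rw [← Real.rpow_add h3, ← Real.rpow_add h3, ← Real.rpow_natCast]
      congr 1
      push_cast
      ring
    rw [h7] at h6
    have h8 : 0 < Real.log s ^ β := Real.rpow_pos_of_pos h3 β
    have h9 : c / 2 * (Real.log s ^ (2 - β - e) * Real.log s ^ e) < G * (5 / 4) := by
      by_contra hneg
      push Not at hneg
      have := mul_le_mul_of_nonneg_right hneg h8.le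
      nlinarith
    have h10 : 0 < Real.log s ^ e := Real.rpow_pos_of_pos h3 e
    have h11 : (|M| + 1) * (5 / (2 * c)) * Real.log s ^ e ≤
        Real.log s ^ (2 - β - e) * Real.log s ^ e := mul_le_mul_of_nonneg_right h1 h10.le
    have h12 : c / 2 * ((|M| + 1) * (5 / (2 * c)) * Real.log s ^ e) =
        5 / 4 * ((|M| + 1) * Real.log s ^ e) := by
      field_simp
      ring
    have h13 := mul_le_mul_of_nonneg_left h11 (by positivity : 0 ≤ c / 2)
    rw [h12] at h13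
    nlinarith
  have hfr2 := (hfr.and_eventually hev).mono fun k hk => hk.2 hk.1
  have h14 : ((|M| + 1 : ℝ) : EReal) ≤ gapE e Q := by
    unfold gapE
    exact le_limsup_of_frequently_le hfr2 (by isBoundedDefault)
  refine lt_of_lt_of_le ?_ h14
  rw [EReal.coe_lt_coe_iff]
  have := le_abs_self M
  linarith

end PolyLog

open PolyLog

/-- the polylogarithmic theorem, assuming SCSY -/
theorem polylog (hSCS : Stmt_SCSY) (hINS : Stmt_INS)
    {Ω : Type*} [MeasurableSpace Ω] (μ : Measure Ω) [IsProbabilityMeasure μ] (u : ℕ → Ω → ℤ)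
    (hm : ∀ p, Measurable (u p)) (hi : iIndepFun u μ)
    (hsg : ∀ p : ℕ, p.Prime → ∀ᵐ ω ∂μ, u p ω ∈ sgn) {C c₁ : ℝ} (hC : 2 < C) (hc₁ : 0 < c₁)
    (hlow : ∀ᶠ p : ℕ in atTop, p.Prime → 1 / 2 ≤ μ.real {ω | u p ω = 0} ∧
      c₁ * Real.log p ^ C / p ≤ μ.real {ω | u p ω = 1} ∧
      c₁ * Real.log p ^ C / p ≤ μ.real {ω | u p ω = -1})
    (hmass : Summable fun p : ℕ => if p.Prime then μ.real {ω | u p ω ≠ 0} / p else 0) :
    ∀ᵐ ω ∂μ, (Shifted (fun p => u p ω)).Infinite ∧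
      ∀ e : ℝ, e < 2 * C / (C + 2) → gapE e (Shifted (fun p => u p ω)) = ⊤ := by
  obtain ⟨u0, hlam, hb⟩ := lamOk C c₁
  have hC2 : 0 < C + 2 := by linarith
  set b0 : ℝ := 4 / (C + 2) with hb0
  have hb01 : b0 < 1 := by rw [hb0, div_lt_one hC2]; linarith
  have hlow' : ∀ᶠ p : ℕ in atTop, p.Prime → 1 / 2 ≤ μ.real {ω | u p ω = 0} ∧
      Real.exp (-lamP C c₁ (Real.log p)) ≤ μ.real {ω | u p ω = 1} ∧
      Real.exp (-lamP C c₁ (Real.log p)) ≤ μ.real {ω | u p ω = -1} := by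
    filter_upwards [hlow, eventually_ge_atTop 2] with p hp hp2 hpp
    have hp1 : (1 : ℝ) < p := by exact_mod_cast (by omega : 1 < p)
    rw [exp_lamP hc₁ (Real.log_pos hp1), Real.exp_log (by linarith)]
    exact hp hpp
  have hβ : ∀ m : ℕ, ∃ c : ℝ, 0 < c ∧ ∀ᵐ ω ∂μ, (Shifted (fun p => u p ω)).Infinite ∧
      ((c : ℝ) : EReal) ≤ gapW (fun t => lamP C c₁ (Real.exp ((b0 + (1 - b0) / (m + 2)) * t)))
        (Shifted (fun p => u p ω)) := by
    intro m
    have hm2 : (0 : ℝ) < m + 2 := by positivity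
    have h1 : b0 < b0 + (1 - b0) / (m + 2) := by
      have : 0 < (1 - b0) / (m + 2) := div_pos (by linarith) hm2
      linarith
    have h2 : b0 + (1 - b0) / (m + 2) < 1 := by
      have : (1 - b0) / (m + 2) < 1 - b0 := by
        rw [div_lt_iff₀ hm2]
        have : (0 : ℝ) ≤ m := Nat.cast_nonneg m
        nlinarith
      linarith
    obtain ⟨δ, t0, hell⟩ := ellOk (C := C) (c₁ := c₁) (by linarith) h1 h2 hlam.u0_ge hb
    exact finalY hSCS hINS μ u hm hi hsg _ _ 2 δ u0 t0 hlam hell hlow' hmass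
  choose c hc hae using hβ
  filter_upwards [ae_all_iff.2 hae] with ω hω
  refine ⟨(hω 0).1, fun e he => ?_⟩
  -- choose `m`
  have he' : 0 < 2 - b0 - e := by
    have : 2 - b0 = 2 * C / (C + 2) := by
      rw [hb0]; field_simp; ring
    linarith
  obtain ⟨m, hm1⟩ := exists_nat_gt ((1 - b0) / (2 - b0 - e))
  have hm2 : (0 : ℝ) < m + 2 := by positivity
  have h3 : (1 - b0) / (m + 2) < 2 - b0 - e := by
    rw [div_lt_iff₀ he'] at hm1
    rw [div_lt_iff₀ hm2]
    nlinarith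
  refine gapE_top (β := b0 + (1 - b0) / (m + 2)) (by linarith) (hc m) (hω m).1 ?_ (hω m).2
  have hβpos : 0 < b0 + (1 - b0) / (m + 2) := by
    have h4 : 0 < b0 := by positivity
    have : 0 < (1 - b0) / (m + 2) := div_pos (by linarith) hm2
    linarith
  have e1 : ∀ᶠ t : ℝ in atTop, u0 ≤ Real.exp ((b0 + (1 - b0) / (m + 2)) * t) :=
    (Real.tendsto_exp_atTop.comp (tendsto_id.const_mul_atTop hβpos)).eventually_ge_atTop u0
  filter_upwards [e1] with t ht
  obtain ⟨h5, h6⟩ := hb _ ht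
  have := Real.exp_pos ((b0 + (1 - b0) / (m + 2)) * t)
  exact ⟨by linarith, h6⟩

end Pool.Agent.Work.MP_b0c12c_nt_sparse
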