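import Pool.Agent.Work.MP_b0c12c_nt_sparse.V3
import Pool.Agent.Work.MP_b0c12c_nt_sparse.Poly

/-!
# The polylogarithmic case, version 3 (every exponent)
-/

set_option autoImplicit false

namespace Pool.Agent.Work.MP_b0c12c_nt_sparse

open Filter Finset MeasureTheory ProbabilityTheory
open Pool.Agent.Work.MP_b0c12c_nt_shift

namespace Poly3

theorem mass_summable {f : ℕ → ℝ} (hf : ∀ p, 0 ≤ f p) {C c : ℝ}
    (h : ∀ᶠ p : ℕ in atTop, p.Prime → f p ≤ c * Real.log p ^ C / p) :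
    Summable fun p : ℕ => if p.Prime then f p / p else 0 := by
  have h1 : (fun p : ℕ => if p.Prime then f p / p else 0) =O[atTop]
      (fun p : ℕ => (p : ℝ) ^ (-(3 / 2) : ℝ)) := by
    have h2 : ∀ᶠ p : ℕ in atTop, |Real.log p ^ C| ≤ (p : ℝ) ^ (1 / 2 : ℝ) := by
      have h3 := (isLittleO_log_rpow_rpow_atTop C (show (0 : ℝ) < 1 / 2 by norm_num)).bound
        (show (0 : ℝ) < 1 by norm_num)
      filter_upwards [tendsto_natCast_atTop_atTop.eventually h3] with p hp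
      rw [one_mul, Real.norm_eq_abs, Real.norm_of_nonneg (by positivity)] at hp
      exact hp
    refine Asymptotics.IsBigO.of_bound |c| ?_
    filter_upwards [h, h2, eventually_ge_atTop 2] with p hp hp2 hp3
    have hp0 : (0 : ℝ) < p := by exact_mod_cast (by omega : 0 < p)
    rw [Real.norm_eq_abs, Real.norm_of_nonneg (by positivity)]
    split_ifs with hpp
    · have h5 := hp hpp
      have h6 : 0 ≤ f p / p := div_nonneg (hf p) hp0.le
      rw [abs_of_nonneg h6, div_le_iff₀ hp0]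
      refine h5.trans ?_
      rw [div_le_iff₀ hp0]
      have h7 : (p : ℝ) ^ (-(3 / 2) : ℝ) * p * p = (p : ℝ) ^ (1 / 2 : ℝ) := by
        nth_rewrite 2 [← Real.rpow_one (p : ℝ)]
        nth_rewrite 3 [← Real.rpow_one (p : ℝ)]
        rw [← Real.rpow_add hp0, ← Real.rpow_add hp0]
        norm_num
      calc c * Real.log p ^ C ≤ |c * Real.log p ^ C| := le_abs_self _
        _ = |c| * |Real.log p ^ C| := abs_mul _ _
        _ ≤ |c| * (p : ℝ) ^ (1 / 2 : ℝ) := mul_le_mul_of_nonneg_left hp2 (abs_nonneg _)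
        _ = |c| * (p : ℝ) ^ (-(3 / 2) : ℝ) * p * p := by rw [← h7]; ring
    · rw [abs_zero]
      positivity
  exact summable_of_isBigO_nat (Real.summable_nat_rpow.2 (by norm_num)) h1

/-- one exponent -/
theorem one_beta (hSC : Stmt_SC3) (hINS : Stmt_INS)
    {Ω : Type*} [MeasurableSpace Ω] (μ : Measure Ω) [IsProbabilityMeasure μ] (u : ℕ → Ω → ℤ)
    (hm : ∀ p, Measurable (u p)) (hi : iIndepFun u μ)
    (hsg : ∀ p : ℕ, p.Prime → ∀ᵐ ω ∂μ, u p ω ∈ sgn) {C c₁ c₂ : ℝ} (hC : 0 < C) (hc₁ : 0 < c₁)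
    (hlaw : ∀ᶠ p : ℕ in atTop, p.Prime → ∀ s : ℤ, s = 1 ∨ s = -1 →
      c₁ * Real.log p ^ C / p ≤ μ.real {ω | u p ω = s} ∧
      μ.real {ω | u p ω = s} ≤ c₂ * Real.log p ^ C / p)
    {β : ℝ} (hβ0 : 2 / (C + 2) < β) (hβ1 : β < 1) :
    ∃ c : ℝ, 0 < c ∧ ∀ᵐ ω ∂μ, (Shifted (fun p => u p ω)).Infinite ∧
      ((c : ℝ) : EReal) ≤ gapW (fun t => Real.exp (β * t)) (Shifted (fun p => u p ω)) := by
  have hC2 : 0 < C + 2 := by linarith
  have hβpos : 0 < β := lt_trans (by positivity) hβ0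
  have hs := FINS.law_sum hm hsg
  obtain ⟨P, hP⟩ := eventually_atTop.1 hlaw
  have hpl : PLaw (FINS.law μ u) C c₁ c₂ :=
    { C_pos := hC
      c1_pos := hc₁
      nonneg := FINS.law_nonneg
      sum_one := hs
      low := ⟨P, fun p hp hpP => by
        rw [FINS.law_prime hp, FINS.law_prime hp]
        exact ⟨(hP p hpP hp 1 (Or.inl rfl)).1, (hP p hpP hp (-1) (Or.inr rfl)).1⟩⟩
      high := ⟨P, fun p hp hpP => by
        rw [FINS.law_prime hp, FINS.law_prime hp]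
        exact ⟨(hP p hpP hp 1 (Or.inl rfl)).2, (hP p hpP hp (-1) (Or.inr rfl)).2⟩⟩ }
  have hmass : Summable fun p : ℕ => if p.Prime then ep (FINS.law μ u) p / p else 0 := by
    apply mass_summable (C := C) (c := 2 * c₂)
    · intro p
      exact add_nonneg (FINS.law_nonneg _ _) (FINS.law_nonneg _ _)
    · obtain ⟨P', hP'⟩ := hpl.high
      filter_upwards [eventually_ge_atTop P'] with p hp hpp
      have := hP' p hpp hp
      unfold ep
      have e : 2 * c₂ * Real.log p ^ C / p = c₂ * Real.log p ^ C / p + c₂ * Real.log p ^ C / p := by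
        ring
      rw [e]
      exact add_le_add this.1 this.2
  obtain ⟨c, hc, hw⟩ := hSC _ C c₁ c₂ hpl β hβ0 hβ1
  have hcon := FINSY.conclude (u := u) (μ := μ) hm hi hsg
    (W := fun x U => c * Real.log x ^ (2 - β) + 1 ≤ U)
    hw (hINS _ FINS.law_nonneg hs hmass)
  refine ⟨c / (4 * 1), by positivity, ?_⟩
  filter_upwards [hcon] with ω hω
  refine ⟨hω.1, gapW_geY (L := fun t => Real.exp (β * t)) (t0 := 0) (K := 1) le_rfl ?_ ?_ hω.1 hc ?_⟩
  · intro t ht
    exact Real.one_le_exp (by positivity)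
  · intro t t' ht htt
    refine ⟨Real.exp_le_exp.2 (by nlinarith), ?_⟩
    rw [one_mul, ← Real.exp_add]
    apply Real.exp_le_exp.2
    nlinarith
  · intro X0
    obtain ⟨x, U, N, h1, h2, h3, h4, h5⟩ := hω.2 (X0 + 3)
    refine ⟨x, U, N, by omega, h2, h3, ?_, h5⟩
    have hx3 : (3 : ℝ) ≤ x := by exact_mod_cast (by omega : 3 ≤ x)
    have hlx : 0 < Real.log x := Real.log_pos (by linarith)
    have e1 : Real.exp (β * Real.log (Real.log x)) = Real.log x ^ β := by
      rw [Real.rpow_def_of_pos hlx]; congr 1; ring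
    rw [e1]
    have e2 : c * Real.log x ^ 2 / Real.log x ^ β = c * Real.log x ^ (2 - β) := by
      rw [Real.rpow_sub hlx, mul_div_assoc]
      norm_num
    rw [e2]
    exact h4

end Poly3

open Poly3 PolyLog

/-- the polylogarithmic theorem, assuming SC3 -/
theorem polylog3 (hSC : Stmt_SC3) (hINS : Stmt_INS)
    {Ω : Type*} [MeasurableSpace Ω] (μ : Measure Ω) [IsProbabilityMeasure μ] (u : ℕ → Ω → ℤ)
    (hm : ∀ p, Measurable (u p)) (hi : iIndepFun u μ)
    (hsg : ∀ p : ℕ, p.Prime → ∀ᵐ ω ∂μ, u p ω ∈ sgn) {C c₁ c₂ : ℝ} (hC : 0 < C) (hc₁ : 0 < c₁)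
    (hlaw : ∀ᶠ p : ℕ in atTop, p.Prime → ∀ s : ℤ, s = 1 ∨ s = -1 →
      c₁ * Real.log p ^ C / p ≤ μ.real {ω | u p ω = s} ∧
      μ.real {ω | u p ω = s} ≤ c₂ * Real.log p ^ C / p) :
    ∀ᵐ ω ∂μ, (Shifted (fun p => u p ω)).Infinite ∧
      ∀ e : ℝ, e < (2 * C + 2) / (C + 2) → gapE e (Shifted (fun p => u p ω)) = ⊤ := by
  have hC2 : 0 < C + 2 := by linarith
  set b0 : ℝ := 2 / (C + 2) with hb0
  have hb01 : b0 < 1 := by rw [hb0, div_lt_one hC2]; linarith
  have hβ : ∀ m : ℕ, ∃ c : ℝ, 0 < c ∧ ∀ᵐ ω ∂μ, (Shifted (fun p => u p ω)).Infinite ∧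
      ((c : ℝ) : EReal) ≤ gapW (fun t => Real.exp ((b0 + (1 - b0) / (m + 2)) * t))
        (Shifted (fun p => u p ω)) := by
    intro m
    have hm2 : (0 : ℝ) < m + 2 := by positivity
    have h1 : b0 < b0 + (1 - b0) / (m + 2) := by
      have : 0 < (1 - b0) / (m + 2) := div_pos (by linarith) hm2
      linarith
    have h2 : b0 + (1 - b0) / (m + 2) < 1 := by
      have : (1 - b0) / (m + 2) < 1 - b0 := by
        rw [div_lt_iff₀ hm2]
        have : (0 : ℝ) ≤ m := Nat.cast_nonneg m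
        nlinarith
      linarith
    exact one_beta hSC hINS μ u hm hi hsg hC hc₁ hlaw h1 h2
  choose c hc hae using hβ
  filter_upwards [ae_all_iff.2 hae] with ω hω
  refine ⟨(hω 0).1, fun e he => ?_⟩
  -- choose `m`
  have he' : 0 < 2 - b0 - e := by
    have : 2 - b0 = (2 * C + 2) / (C + 2) := by
      rw [hb0]; field_simp; ring
    linarith
  obtain ⟨m, hm1⟩ := exists_nat_gt ((1 - b0) / (2 - b0 - e))
  have hm2 : (0 : ℝ) < m + 2 := by positivity
  have h3 : (1 - b0) / (m + 2) < 2 - b0 - e := by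
    rw [div_lt_iff₀ he'] at hm1
    rw [div_lt_iff₀ hm2]
    nlinarith
  refine gapE_top (β := b0 + (1 - b0) / (m + 2)) (by linarith) (hc m) (hω m).1 ?_ (hω m).2
  filter_upwards with t
  have := Real.exp_pos ((b0 + (1 - b0) / (m + 2)) * t)
  exact ⟨this, by linarith⟩

end Pool.Agent.Work.MP_b0c12c_nt_sparse
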