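import Mathlib
import Pool.Agent.Work.MP_b0c12c_nt_sparse.V2
import Pool.Agent.Work.MP_b0c12c_nt_sparse.CLS

/-!
# Version 3: polylogarithmically many moved primes, every exponent `C > 0`
-/

set_option autoImplicit false

namespace Pool.Agent.Work.MP_b0c12c_nt_sparse

open Finset Filter
open Pool.Agent.Work.MP_b0c12c_nt_shift

/-- The law: `P(u p = 1)` and `P(u p = -1)` between `c₁ (log p)^C / p` and `c₂ (log p)^C / p`. -/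
structure PLaw (π : ℕ → ℤ → ℝ) (C c₁ c₂ : ℝ) : Prop where
  C_pos : 0 < C
  c1_pos : 0 < c₁
  nonneg : ∀ p s, 0 ≤ π p s
  sum_one : ∀ p, π p (-1) + π p 0 + π p 1 = 1
  low : ∃ P : ℕ, ∀ p : ℕ, p.Prime → P ≤ p →
    c₁ * Real.log p ^ C / p ≤ π p 1 ∧ c₁ * Real.log p ^ C / p ≤ π p (-1)
  high : ∃ P : ℕ, ∀ p : ℕ, p.Prime → P ≤ p →
    π p 1 ≤ c₂ * Real.log p ^ C / p ∧ π p (-1) ≤ c₂ * Real.log p ^ C / p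

open Classical in
/-- The shift prescribed at `p` by the set `S` of survivors: the shift of the free survivor
whose designated killer is `p`, and `0` if there is none. -/
noncomputable def wr (A S : Finset ℕ) (p : ℕ) : ℤ :=
  if h : ∃ n ∈ S, CLS.Fr A n ∧ p ∈ CLS.TT A S n then CLS.ss A S h.choose else 0

/-- the designated killers -/
noncomputable def Kr (A S : Finset ℕ) : Finset ℕ := A.filter fun p => wr A S p ≠ 0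

/-- Block KR. Properties of the designated killers. -/
def Stmt_KR : Prop :=
  ∀ (π : ℕ → ℤ → ℝ), (∀ p s, 0 ≤ π p s) →
    ∀ (A : Finset ℕ) (x U N : ℕ) (v : ℕ → ℤ), 9 ≤ x → 0 < N → (∀ p, v p ∈ sgn) →
    (∀ p ∈ A, p.Prime ∧ U + 6 < p ∧ p * p ≤ x) →
    (2 : ℤ) ∣ (N : ℤ) - v 2 → (3 : ℤ) ∣ (N : ℤ) - v 3 →
    HasKillers A (Sur v A x U N) →
    (∀ w : ℕ → ℤ, (∀ p, p ∉ A → w p = v p) →
      (∀ p ∈ Dset A U N, w p = wr A (Sur v A x U N) p) → w ∈ Emp x U N) ∧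
    (∀ p, wr A (Sur v A x U N) p ∈ sgn) ∧
    Kr A (Sur v A x U N) ⊆ Dset A U N ∧
    (∑ p ∈ Kr A (Sur v A x U N), Real.log p ≤
      cost π (fun p => Real.log p) A (Sur v A x U N)) ∧
    ∃ nn : ℕ → ℕ, Set.InjOn nn (Kr A (Sur v A x U N) : Finset ℕ) ∧
      ∀ p ∈ Kr A (Sur v A x U N), nn p ∈ Sur v A x U N ∧ (∀ p' ∈ A, ¬ p' ∣ nn p) ∧
        p ∣ nn p ^ 2 - 1

/-- Block SM3. Second moment for prescribed configurations. -/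
def Stmt_SM3 : Prop :=
  ∀ (π : ℕ → ℤ → ℝ), (∀ p s, 0 ≤ π p s) → (∀ p, π p (-1) + π p 0 + π p 1 = 1) →
    ∀ (A R : Finset ℕ) (D : ℕ → Finset ℕ) (w : ℕ → ℕ → ℤ) (Lam : ℕ → ℝ) (T : ℝ) (v : ℕ → ℤ),
    R.Nonempty → (∀ r ∈ R, D r ⊆ A) → (∀ r ∈ R, ∀ p, w r p ∈ sgn) →
    (∀ p ∈ A, 0 < Lam p ∧ 1 / Lam p ≤ π p 1 ∧ 1 / Lam p ≤ π p (-1) ∧ 0 < π p 0) →
    (∀ r ∈ R, ∀ r' ∈ R, ∏ p ∈ D r ∩ D r', (π p 0)⁻¹ ≤ T) →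
    EA π A (ind {w' | ∀ r ∈ R, ¬ ∀ p ∈ D r, w' p = w r p}) v ≤
      T * (∑ rr ∈ R ×ˢ R, ∏ p ∈ (D rr.1 ∩ D rr.2).filter
        (fun p => w rr.1 p ≠ 0 ∧ w rr.2 p ≠ 0), Lam p) / (R.card : ℝ) ^ 2 - 1

/-- Block MD. Rows whose killers contain a given set: multi-dimensional sieve. -/
def Stmt_MD : Prop :=
  ∃ C0 : ℝ, 0 < C0 ∧ ∀ κ : ℝ, 0 < κ → κ ≤ 1 / 50 → ∃ z0 : ℕ, ∀ z : ℕ, z0 ≤ z →
    ∀ x U y : ℕ, InR κ z x → YOk κ y z → z ≤ U → U + 6 < y → U ≤ z ^ 3 →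
    ∀ v : ℕ → ℤ, (∀ p, v p ∈ sgn) → ∀ b : ℕ, IsB v z 0 b →
    ∀ R : Finset ℕ, R ⊆ rows x (qq z 0) b U → ∀ K : ℕ → Finset ℕ,
    (∀ r ∈ R, K r ⊆ AY κ y z ∧ ((∏ p ∈ K r, p : ℕ) : ℝ) ≤ (x : ℝ) ^ (1 / 4 : ℝ) ∧
      ∃ nn : ℕ → ℕ, Set.InjOn nn (K r : Finset ℕ) ∧ ∀ p ∈ K r,
        nn p ∈ Sur v (AY κ y z) x U (r * qq z 0 + b) ∧ (∀ p' ∈ AY κ y z, ¬ p' ∣ nn p) ∧
        p ∣ nn p ^ 2 - 1) →
    ∀ E : Finset ℕ, E.Nonempty →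
      ((R.filter fun r => E ⊆ K r).card : ℝ) ≤
        x / qq z 0 * ∏ p ∈ E, ((E.card : ℝ) * (C0 * (U / Real.log x) / p))

/-- Block PAIR3. Sum over pairs of rows. -/
def Stmt_PAIR3 : Prop :=
  ∀ (R : Finset ℕ) (K : ℕ → Finset ℕ) (Lam g : ℕ → ℝ) (H a k1 : ℝ), 0 ≤ H → 0 ≤ a → 0 ≤ k1 →
    (∀ r ∈ R, ∀ p ∈ K r, 1 ≤ Lam p ∧ 0 ≤ g p ∧ Lam p * g p ≤ a) →
    (∀ r ∈ R, ((K r).card : ℝ) ≤ k1) → Real.exp 1 * a * k1 ≤ 1 / 2 →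
    (∀ E : Finset ℕ, E.Nonempty →
      ((R.filter fun r => E ⊆ K r).card : ℝ) ≤ H * ∏ p ∈ E, ((E.card : ℝ) * g p)) →
    ∑ rr ∈ R ×ˢ R, ∏ p ∈ K rr.1 ∩ K rr.2, Lam p ≤
      (R.card : ℝ) ^ 2 + R.card * H * (2 * Real.exp 1 * a * k1)

/-- Block SC3 (assembly of ROWSY, KR, SM3, MD, PAIR3). -/
def Stmt_SC3 : Prop :=
  ∀ (π : ℕ → ℤ → ℝ) (C c₁ c₂ : ℝ), PLaw π C c₁ c₂ → ∀ β : ℝ, 2 / (C + 2) < β → β < 1 →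
    ∃ c : ℝ, 0 < c ∧ ∀ ε : ℝ, 0 < ε → ∀ x0 : ℕ, ∃ x U : ℕ, x0 ≤ x ∧
      c * Real.log x ^ (2 - β) + 1 ≤ U ∧
      EA π (PX x) (ind {w | ∀ N : ℕ, x ≤ N → N + U ≤ 2 * x → w ∉ Emp x U N}) 0 ≤ ε

end Pool.Agent.Work.MP_b0c12c_nt_sparse
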