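import Mathlib
import Pool.Agent.Work.MP_b0c12c_nt_shift.Op
import Pool.Agent.Work.MP_b0c12c_nt_sparse.V3

/-!
# Block SC3, auxiliary facts
-/

set_option autoImplicit false

namespace Pool.Agent.Work.MP_b0c12c_nt_sparse

open Finset Filter
open Pool.Agent.Work.MP_b0c12c_nt_shift

namespace SC3aux

/-- A power of the logarithm is smaller than a root. -/
theorem log_rpow_le {C ε : ℝ} (hε : 0 < ε) :
    ∀ᶠ p : ℕ in atTop, Real.log p ^ C ≤ ε * (p : ℝ) ^ (1 / 2 : ℝ) := by
  have h1 := (isLittleO_log_rpow_rpow_atTop C (show (0 : ℝ) < 1 / 2 by norm_num)).bound hε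
  have h2 := (tendsto_natCast_atTop_atTop (R := ℝ)).eventually h1
  filter_upwards [h2] with p hp
  rw [Real.norm_eq_abs, Real.norm_of_nonneg (by positivity)] at hp
  exact (le_abs_self _).trans hp

theorem piOk {π : ℕ → ℤ → ℝ} {C c₁ c₂ : ℝ} (h : PLaw π C c₁ c₂) : PiOk π (fun u => u) := by
  obtain ⟨P1, hP1⟩ := h.low
  obtain ⟨P2, hP2⟩ := h.high
  refine ⟨h.nonneg, h.sum_one, ?_, ?_, ?_⟩
  · -- half
    have h1 := log_rpow_le (C := C) (ε := 1 / (4 * (|c₂| + 1))) (by positivity)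
    obtain ⟨P3, hP3⟩ := eventually_atTop.1 h1
    refine ⟨max P2 (max P3 1), fun p hp hpP => ?_⟩
    have hp0 : (0 : ℝ) < p := by exact_mod_cast hp.pos
    have hp1 : (1 : ℝ) ≤ p := by exact_mod_cast hp.one_le
    have h2 := hP2 p hp ((le_max_left _ _).trans hpP)
    have h3 := hP3 p (((le_max_left _ _).trans (le_max_right _ _)).trans hpP)
    have h4 : c₂ * Real.log p ^ C / p ≤ 1 / 4 := by
      rw [div_le_iff₀ hp0]
      have h5 : 0 ≤ Real.log p ^ C := Real.rpow_nonneg (Real.log_nonneg hp1) _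
      have h6 : (p : ℝ) ^ (1 / 2 : ℝ) ≤ p := by
        calc (p : ℝ) ^ (1 / 2 : ℝ) ≤ (p : ℝ) ^ (1 : ℝ) :=
              Real.rpow_le_rpow_of_exponent_le hp1 (by norm_num)
          _ = p := Real.rpow_one _
      calc c₂ * Real.log p ^ C ≤ (|c₂| + 1) * Real.log p ^ C := by
            apply mul_le_mul_of_nonneg_right _ h5
            have := le_abs_self c₂
            linarith
        _ ≤ (|c₂| + 1) * (1 / (4 * (|c₂| + 1)) * (p : ℝ) ^ (1 / 2 : ℝ)) :=
            mul_le_mul_of_nonneg_left h3 (by positivity)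
        _ = 1 / 4 * (p : ℝ) ^ (1 / 2 : ℝ) := by field_simp
        _ ≤ 1 / 4 * p := by linarith
    have h5 := h.sum_one p
    linarith
  · -- low
    have h1 : Tendsto (fun p : ℕ => Real.log p ^ C) atTop atTop :=
      (tendsto_rpow_atTop h.C_pos).comp
        (Real.tendsto_log_atTop.comp tendsto_natCast_atTop_atTop)
    obtain ⟨P3, hP3⟩ := eventually_atTop.1 (h1.eventually_ge_atTop (1 / c₁))
    refine ⟨max P1 P3, fun p hp hpP => ?_⟩
    have hp0 : (0 : ℝ) < p := by exact_mod_cast hp.pos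
    have h2 := hP1 p hp ((le_max_left _ _).trans hpP)
    have h3 := hP3 p ((le_max_right _ _).trans hpP)
    have h4 : Real.exp (-Real.log p) ≤ c₁ * Real.log p ^ C / p := by
      rw [Real.exp_neg, Real.exp_log hp0, inv_eq_one_div]
      apply div_le_div_of_nonneg_right _ hp0.le
      rw [div_le_iff₀ h.c1_pos] at h3
      linarith
    exact ⟨h4.trans h2.1, h4.trans h2.2⟩
  · -- mass
    have h1 := log_rpow_le (C := C) (ε := 1) (by positivity)
    obtain ⟨P3, hP3⟩ := eventually_atTop.1 h1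
    have hsum : Summable fun p : ℕ => 2 * |c₂| * (p : ℝ) ^ (-(3 / 2) : ℝ) :=
      (Real.summable_nat_rpow.2 (by norm_num)).mul_left _
    refine Summable.of_norm_bounded_eventually_nat hsum ?_
    filter_upwards [eventually_ge_atTop (max P2 (max P3 1))] with p hpP
    by_cases hp : p.Prime
    · rw [if_pos hp]
      have hp0 : (0 : ℝ) < p := by exact_mod_cast hp.pos
      have hp1 : (1 : ℝ) ≤ p := by exact_mod_cast hp.one_le
      have h2 := hP2 p hp ((le_max_left _ _).trans hpP)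
      have h3 := hP3 p (((le_max_left _ _).trans (le_max_right _ _)).trans hpP)
      have h5 : 0 ≤ Real.log p ^ C := Real.rpow_nonneg (Real.log_nonneg hp1) _
      have he0 : 0 ≤ ep π p := add_nonneg (h.nonneg _ _) (h.nonneg _ _)
      rw [Real.norm_of_nonneg (by positivity)]
      have h4 : ep π p ≤ 2 * |c₂| * (p : ℝ) ^ (1 / 2 : ℝ) / p := by
        unfold ep
        have h6 : c₂ * Real.log p ^ C / p ≤ |c₂| * (p : ℝ) ^ (1 / 2 : ℝ) / p := by
          apply div_le_div_of_nonneg_right _ hp0.le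
          calc c₂ * Real.log p ^ C ≤ |c₂| * Real.log p ^ C :=
                mul_le_mul_of_nonneg_right (le_abs_self _) h5
            _ ≤ |c₂| * (p : ℝ) ^ (1 / 2 : ℝ) := by
                apply mul_le_mul_of_nonneg_left _ (abs_nonneg _)
                linarith
        have h7 : 2 * |c₂| * (p : ℝ) ^ (1 / 2 : ℝ) / p =
            2 * (|c₂| * (p : ℝ) ^ (1 / 2 : ℝ) / p) := by ring
        rw [h7]
        linarith
      have h8 : 2 * |c₂| * (p : ℝ) ^ (-(3 / 2) : ℝ) = 2 * |c₂| * (p : ℝ) ^ (1 / 2 : ℝ) / p / p := by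
        rw [show (-(3 / 2) : ℝ) = 1 / 2 - 1 - 1 by norm_num, Real.rpow_sub hp0, Real.rpow_sub hp0,
          Real.rpow_one]
        ring
      rw [h8]
      exact div_le_div_of_nonneg_right h4 hp0.le
    · rw [if_neg hp, norm_zero]
      positivity

/-- the number of prime divisors -/
theorem card_primeFactors_le {m : ℕ} (hm : m ≠ 0) :
    (m.primeFactors.card : ℝ) ≤ 2 * Real.log m := by
  have h1 : 2 ^ m.primeFactors.card ≤ m := by
    calc 2 ^ m.primeFactors.card = ∏ p ∈ m.primeFactors, 2 := by rw [prod_const]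
      _ ≤ ∏ p ∈ m.primeFactors, p :=
          Finset.prod_le_prod' fun p hp => (Nat.prime_of_mem_primeFactors hp).two_le
      _ ≤ m := Nat.le_of_dvd (Nat.pos_of_ne_zero hm) (Nat.prod_primeFactors_dvd m)
  have h2 : (2 : ℝ) ^ m.primeFactors.card ≤ m := by exact_mod_cast h1
  have h3 := Real.log_le_log (by positivity) h2
  rw [Real.log_pow] at h3
  have h4 := Real.log_two_gt_d9
  have h5 : (0 : ℝ) ≤ m.primeFactors.card := Nat.cast_nonneg _
  nlinarith

theorem mem_Dset' {A : Finset ℕ} {U N p : ℕ} :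
    p ∈ Dset A U N ↔ p ∈ A ∧ ∃ m ∈ Icc N (N + U + 1), p ∣ m := by
  unfold Dset
  exact @mem_filter _ _ (Classical.decPred _) _ _

/-- the number of primes which divide a member of the window -/
theorem card_Dset_le {A : Finset ℕ} (hA : ∀ p ∈ A, p.Prime) {U N M : ℕ} (hN : 0 < N)
    (hM : N + U + 1 ≤ M) : ((Dset A U N).card : ℝ) ≤ ((U : ℝ) + 2) * (2 * Real.log M) := by
  classical
  have hsub : Dset A U N ⊆ (Icc N (N + U + 1)).biUnion fun m => m.primeFactors := by
    intro p hp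
    obtain ⟨h1, m, hm, hdvd⟩ := mem_Dset'.1 hp
    rw [mem_biUnion]
    refine ⟨m, hm, Nat.mem_primeFactors.2 ⟨hA p h1, hdvd, ?_⟩⟩
    have := (mem_Icc.1 hm).1
    omega
  have h1 : ((Dset A U N).card : ℝ) ≤ ∑ m ∈ Icc N (N + U + 1), (m.primeFactors.card : ℝ) := by
    exact_mod_cast (card_le_card hsub).trans card_biUnion_le
  refine h1.trans ?_
  have h2 : ∀ m ∈ Icc N (N + U + 1), (m.primeFactors.card : ℝ) ≤ 2 * Real.log M := by
    intro m hm
    have h3 := mem_Icc.1 hm
    refine (card_primeFactors_le (by omega)).trans ?_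
    have h4 : Real.log m ≤ Real.log M := by
      apply Real.log_le_log
      · have : 0 < m := by omega
        exact_mod_cast this
      · exact_mod_cast h3.2.trans hM
    linarith
  refine (sum_le_card_nsmul _ _ _ h2).trans (le_of_eq ?_)
  rw [nsmul_eq_mul, Nat.card_Icc]
  have : N + U + 1 + 1 - N = U + 2 := by omega
  rw [this]
  push_cast
  ring

/-- the product of the `1 / π p 0` -/
theorem prod_inv_le {π : ℕ → ℤ → ℝ} {D : Finset ℕ} {η : ℝ}
    (hs : ∀ p, π p (-1) + π p 0 + π p 1 = 1) (hπ : ∀ p s, 0 ≤ π p s)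
    (h : ∀ p ∈ D, 1 / 2 ≤ π p 0 ∧ ep π p ≤ η) :
    ∏ p ∈ D, (π p 0)⁻¹ ≤ Real.exp (2 * (D.card * η)) := by
  have h1 : ∀ p ∈ D, (π p 0)⁻¹ ≤ Real.exp (2 * η) := by
    intro p hp
    obtain ⟨h2, h3⟩ := h p hp
    have h4 : π p 0 = 1 - ep π p := by
      unfold ep
      linarith [hs p]
    have h5 : 0 ≤ ep π p := add_nonneg (hπ _ _) (hπ _ _)
    have h6 : ep π p ≤ 1 / 2 := by linarith
    have h7 : (π p 0)⁻¹ ≤ 1 + 2 * ep π p := by
      rw [inv_le_comm₀ (by linarith) (by linarith), h4, inv_eq_one_div, div_le_iff₀ (by linarith)]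
      nlinarith
    refine h7.trans ?_
    have h8 := Real.add_one_le_exp (2 * ep π p)
    have h9 : Real.exp (2 * ep π p) ≤ Real.exp (2 * η) := Real.exp_le_exp.2 (by linarith)
    linarith
  have h0 : ∀ p ∈ D, 0 ≤ (π p 0)⁻¹ := fun p hp => inv_nonneg.2 (hπ _ _)
  refine (Finset.prod_le_prod h0 h1).trans (le_of_eq ?_)
  rw [prod_const, ← Real.exp_nat_mul]
  congr 1
  ring

/-- polynomial times a stretched exponential -/
theorem tendsto_stretched {β : ℝ} (hβ : 0 < β) (s : ℝ) :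
    Tendsto (fun z : ℕ => (z : ℝ) ^ s * Real.exp (-(z : ℝ) ^ β)) atTop (nhds 0) := by
  have h1 := tendsto_rpow_mul_exp_neg_mul_atTop_nhds_zero (s / β) 1 one_pos
  have h2 : Tendsto (fun z : ℕ => (z : ℝ) ^ β) atTop atTop :=
    (tendsto_rpow_atTop hβ).comp tendsto_natCast_atTop_atTop
  refine (h1.comp h2).congr fun z => ?_
  simp only [Function.comp_apply]
  rw [← Real.rpow_mul (Nat.cast_nonneg z), mul_div_cancel₀ _ hβ.ne']
  congr 2
  ring

end SC3aux

end Pool.Agent.Work.MP_b0c12c_nt_sparse
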