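import Mathlib
import Pool.Agent.Work.MP_b0c12c_nt_shift.Op
import Pool.Agent.Work.MP_b0c12c_nt_sparse.V3

/-!
# Block SM3: second moment for prescribed configurations
-/

set_option autoImplicit false

namespace Pool.Agent.Work.MP_b0c12c_nt_sparse

open Finset Filter
open Pool.Agent.Work.MP_b0c12c_nt_shift

namespace SM3aux

variable {π : ℕ → ℤ → ℝ}

/-- the factor at `p` of the normalised indicator of the event that the shift at `p` is `c` -/
noncomputable def F (π : ℕ → ℤ → ℝ) (D : Finset ℕ) (c : ℕ → ℤ) (p : ℕ) (w : ℕ → ℤ) : ℝ :=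
  if p ∈ D then (π p (c p))⁻¹ * (if w p = c p then 1 else 0) else 1

theorem F_dependsOn (D : Finset ℕ) (c : ℕ → ℤ) (p : ℕ) : DependsOn (F π D c p) {p} := by
  intro v w h
  unfold F
  rw [h p rfl]

/-- average of a function of one coordinate -/
theorem EA_single (hs : ∀ p, π p (-1) + π p 0 + π p 1 = 1) {A : Finset ℕ} {p : ℕ} (hp : p ∈ A)
    {f : (ℕ → ℤ) → ℝ} (hf : DependsOn f {p}) (v : ℕ → ℤ) :
    EA π A f v = ∑ s ∈ sgn, π p s * f (Function.update v p s) := by
  have h1 : EA π A f = EA π {p} f := by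
    apply EA_restrict hs hf
    · exact singleton_subset_iff.2 hp
    · intro q _ hq
      exact mem_singleton.2 hq
  rw [h1, EA_singleton]
  rfl

theorem sum_sgn_ite {g : ℤ → ℝ} {c : ℤ} (hc : c ∈ sgn) :
    ∑ s ∈ sgn, (if s = c then g s else 0) = g c := by
  rw [Finset.sum_ite_eq' sgn c g, if_pos hc]

/-- the mean of the product of two factors -/
theorem mean_FF (hs : ∀ p, π p (-1) + π p 0 + π p 1 = 1) {A : Finset ℕ} {D D' : Finset ℕ}
    {c c' : ℕ → ℤ} (hc : ∀ p, c p ∈ sgn) (hc' : ∀ p, c' p ∈ sgn) {p : ℕ} (hp : p ∈ A)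
    (h0 : ∀ s ∈ sgn, 0 < π p s) (v : ℕ → ℤ) :
    EA π A (fun w => F π D c p w * F π D' c' p w) v =
      if p ∈ D ∩ D' then (if c p = c' p then (π p (c p))⁻¹ else 0) else 1 := by
  have hdep : DependsOn (fun w => F π D c p w * F π D' c' p w) {p} := by
    have := DependsOn_mul (F_dependsOn (π := π) D c p) (F_dependsOn (π := π) D' c' p)
    rwa [Set.union_self] at this
  rw [EA_single hs hp hdep]
  have hu : ∀ s : ℤ, Function.update v p s p = s := fun s => Function.update_self p s v
  have hsum : ∑ s ∈ sgn, π p s = 1 := by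
    rw [sum_sgn, hs]
  by_cases h1 : p ∈ D
  · by_cases h2 : p ∈ D'
    · rw [if_pos (mem_inter.2 ⟨h1, h2⟩)]
      have h3 : ∀ s ∈ sgn, π p s * (F π D c p (Function.update v p s) *
          F π D' c' p (Function.update v p s)) =
          if s = c p then (if c p = c' p then (π p (c p))⁻¹ else 0) else 0 := by
        intro s _
        unfold F
        rw [if_pos h1, if_pos h2, hu]
        by_cases h4 : s = c p
        · subst h4
          rw [if_pos rfl, if_pos rfl]
          by_cases h5 : c p = c' p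
          · rw [if_pos h5, if_pos h5, ← h5]
            have := (h0 (c p) (hc p)).ne'
            field_simp
          · rw [if_neg h5, if_neg h5]
            ring
        · rw [if_neg h4, if_neg h4]
          ring
      rw [sum_congr rfl h3, sum_sgn_ite (g := fun _ => if c p = c' p then (π p (c p))⁻¹ else 0)
        (hc p)]
    · rw [if_neg (fun h => h2 (mem_inter.1 h).2)]
      have h3 : ∀ s ∈ sgn, π p s * (F π D c p (Function.update v p s) *
          F π D' c' p (Function.update v p s)) = if s = c p then π p s * (π p (c p))⁻¹ else 0 := by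
        intro s _
        unfold F
        rw [if_pos h1, if_neg h2, hu]
        by_cases h4 : s = c p
        · rw [if_pos h4, if_pos h4]
          ring
        · rw [if_neg h4, if_neg h4]
          ring
      rw [sum_congr rfl h3, sum_sgn_ite (g := fun s => π p s * (π p (c p))⁻¹) (hc p)]
      exact mul_inv_cancel₀ (h0 _ (hc p)).ne'
  · rw [if_neg (fun h => h1 (mem_inter.1 h).1)]
    by_cases h2 : p ∈ D'
    · have h3 : ∀ s ∈ sgn, π p s * (F π D c p (Function.update v p s) *
          F π D' c' p (Function.update v p s)) =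
          if s = c' p then π p s * (π p (c' p))⁻¹ else 0 := by
        intro s _
        unfold F
        rw [if_neg h1, if_pos h2, hu]
        by_cases h4 : s = c' p
        · rw [if_pos h4, if_pos h4]
          ring
        · rw [if_neg h4, if_neg h4]
          ring
      rw [sum_congr rfl h3, sum_sgn_ite (g := fun s => π p s * (π p (c' p))⁻¹) (hc' p)]
      exact mul_inv_cancel₀ (h0 _ (hc' p)).ne'
    · have h3 : ∀ s ∈ sgn, π p s * (F π D c p (Function.update v p s) *
          F π D' c' p (Function.update v p s)) = π p s := by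
        intro s _
        unfold F
        rw [if_neg h1, if_neg h2]
        ring
      rw [sum_congr rfl h3, hsum]

end SM3aux

open SM3aux in
theorem stmt_SM3 : Stmt_SM3 := by
  classical
  intro π hπ hs A R D w Lam T v hR hD hw hA hT
  have hpos : ∀ p ∈ A, ∀ s ∈ sgn, 0 < π p s := by
    intro p hp s hs'
    obtain ⟨h1, h2, h3, h4⟩ := hA p hp
    have h5 : 0 < 1 / Lam p := one_div_pos.2 h1
    unfold sgn at hs'
    simp only [mem_insert, mem_singleton] at hs'
    rcases hs' with rfl | rfl | rfl
    · linarith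
    · exact h4
    · linarith
  have hπ01 : ∀ p ∈ A, 1 ≤ (π p 0)⁻¹ := by
    intro p hp
    have h1 := hs p
    have h2 := hπ p 1
    have h3 := hπ p (-1)
    exact (one_le_inv₀ (hA p hp).2.2.2).2 (by linarith)
  set f : ℕ → (ℕ → ℤ) → ℝ := fun r w' => ∏ p ∈ A, F π (D r) (w r) p w' with hf
  set M : ℝ := (R.card : ℝ) with hM
  have hMpos : 0 < M := by
    rw [hM]
    exact_mod_cast Finset.card_pos.2 hR
  -- independence
  have hprod : ∀ r r' : ℕ, EA π A (fun w' => f r w' * f r' w') v =
      ∏ p ∈ A, EA π A (fun w' => F π (D r) (w r) p w' * F π (D r') (w r') p w') v := by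
    intro r r'
    have e1 : (fun w' => f r w' * f r' w') =
        fun w' => ∏ p ∈ A, (F π (D r) (w r) p w' * F π (D r') (w r') p w') := by
      funext w'
      rw [hf]
      simp only
      rw [prod_mul_distrib]
    rw [e1, EA_prod_indep hs A (f := fun p w' => F π (D r) (w r) p w' * F π (D r') (w r') p w')
      (s := fun p => {p})]
    · intro p _
      have := DependsOn_mul (F_dependsOn (π := π) (D r) (w r) p)
        (F_dependsOn (π := π) (D r') (w r') p)
      rwa [Set.union_self] at this
    · intro i _ j _ hij p _ hpi hpj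
      exact hij (hpi.symm.trans hpj)
  have hEf : ∀ r ∈ R, EA π A (f r) v = 1 := by
    intro r hr
    have e1 : f r = fun w' => ∏ p ∈ A, F π (D r) (w r) p w' := rfl
    rw [e1, EA_prod_indep hs A (f := fun p w' => F π (D r) (w r) p w') (s := fun p => {p})]
    · apply prod_eq_one
      intro p hp
      have h1 := mean_FF (π := π) hs (D := D r) (D' := ∅) (hw r hr) (hw r hr) hp (hpos p hp) v
      rw [if_neg (by simp)] at h1
      rw [← h1]
      congr 1
      funext w'
      have : F π ∅ (w r) p w' = 1 := by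
        unfold F
        rw [if_neg (notMem_empty p)]
      rw [this, mul_one]
    · intro p _
      exact F_dependsOn (D r) (w r) p
    · intro i _ j _ hij p _ hpi hpj
      exact hij (hpi.symm.trans hpj)
  -- correlations
  have hcorr : ∀ rr ∈ R ×ˢ R, EA π A (fun w' => f rr.1 w' * f rr.2 w') v ≤
      T * ∏ p ∈ (D rr.1 ∩ D rr.2).filter (fun p => w rr.1 p ≠ 0 ∧ w rr.2 p ≠ 0), Lam p := by
    intro rr hrr
    obtain ⟨hr1, hr2⟩ := Finset.mem_product.1 hrr
    have hsub : D rr.1 ∩ D rr.2 ⊆ A := inter_subset_left.trans (hD _ hr1)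
    rw [hprod]
    have h1 : ∏ p ∈ A, EA π A (fun w' => F π (D rr.1) (w rr.1) p w' *
        F π (D rr.2) (w rr.2) p w') v ≤
        ∏ p ∈ A, (if p ∈ D rr.1 ∩ D rr.2 then
          (π p 0)⁻¹ * (if w rr.1 p ≠ 0 ∧ w rr.2 p ≠ 0 then Lam p else 1) else 1) := by
      apply Finset.prod_le_prod
      · intro p hp
        rw [mean_FF hs (hw _ hr1) (hw _ hr2) hp (hpos p hp)]
        split_ifs
        · exact (inv_pos.2 (hpos p hp _ (hw _ hr1 p))).le
        · exact le_rfl
        · exact zero_le_one
      · intro p hp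
        rw [mean_FF hs (hw _ hr1) (hw _ hr2) hp (hpos p hp)]
        have hL := hA p hp
        have h01 := hπ01 p hp
        by_cases h2 : p ∈ D rr.1 ∩ D rr.2
        · rw [if_pos h2, if_pos h2]
          by_cases h3 : w rr.1 p = w rr.2 p
          · rw [if_pos h3]
            by_cases h4 : w rr.1 p = 0
            · rw [if_neg (by rintro ⟨h5, -⟩; exact h5 h4), h4, mul_one]
            · rw [if_pos ⟨h4, by rwa [← h3]⟩]
              have h5 : (π p (w rr.1 p))⁻¹ ≤ Lam p := by
                have h6 : 1 / Lam p ≤ π p (w rr.1 p) := by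
                  have h7 := hw _ hr1 p
                  unfold sgn at h7
                  simp only [mem_insert, mem_singleton] at h7
                  rcases h7 with h7 | h7 | h7
                  · rw [h7]; exact hL.2.2.1
                  · exact absurd h7 h4
                  · rw [h7]; exact hL.2.1
                rw [← one_div]
                exact (one_div_le (hpos p hp _ (hw _ hr1 p)) hL.1).2 h6
              calc (π p (w rr.1 p))⁻¹ ≤ Lam p := h5
                _ = 1 * Lam p := (one_mul _).symm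
                _ ≤ (π p 0)⁻¹ * Lam p := mul_le_mul_of_nonneg_right h01 hL.1.le
          · rw [if_neg h3]
            apply mul_nonneg (by linarith)
            split_ifs
            · exact hL.1.le
            · exact zero_le_one
        · rw [if_neg h2, if_neg h2]
    refine h1.trans ?_
    rw [← prod_filter, filter_mem_eq_inter, inter_eq_right.2 hsub, prod_mul_distrib,
      ← prod_filter (s := D rr.1 ∩ D rr.2) (p := fun p => w rr.1 p ≠ 0 ∧ w rr.2 p ≠ 0)]
    apply mul_le_mul_of_nonneg_right (hT _ hr1 _ hr2)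
    apply prod_nonneg
    intro p hp
    exact (hA p (hsub (mem_filter.1 hp).1)).1.le
  -- pointwise Chebyshev
  set Bad : Set (ℕ → ℤ) := {w' | ∀ r ∈ R, ¬ ∀ p ∈ D r, w' p = w r p} with hBad
  have hpt : ∀ w', M ^ 2 * ind Bad w' ≤
      ∑ rr ∈ R ×ˢ R, f rr.1 w' * f rr.2 w' - 2 * M * (∑ r ∈ R, f r w') + M ^ 2 := by
    intro w'
    have h1 : ∑ rr ∈ R ×ˢ R, f rr.1 w' * f rr.2 w' = (∑ r ∈ R, f r w') ^ 2 := by
      rw [Finset.sum_product, sq, Finset.sum_mul_sum]
    rw [h1]
    by_cases hw' : w' ∈ Bad
    · have h2 : ∑ r ∈ R, f r w' = 0 := by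
        apply Finset.sum_eq_zero
        intro r hr
        have h3 := hw' r hr
        push Not at h3
        obtain ⟨p, hp, hpw⟩ := h3
        rw [hf]
        apply prod_eq_zero (hD r hr hp)
        unfold F
        rw [if_pos hp, if_neg hpw, mul_zero]
      rw [h2, ind_of_mem hw']
      nlinarith
    · rw [ind_of_not_mem hw']
      nlinarith [sq_nonneg (∑ r ∈ R, f r w' - M)]
  have hE := EA_mono hπ A hpt v
  have hE1 : EA π A (fun w' => M ^ 2 * ind Bad w') v = M ^ 2 * EA π A (ind Bad) v := by
    rw [EA_const_mul]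
  have hE2 : EA π A (fun w' => ∑ rr ∈ R ×ˢ R, f rr.1 w' * f rr.2 w' -
      2 * M * (∑ r ∈ R, f r w') + M ^ 2) v =
      ∑ rr ∈ R ×ˢ R, EA π A (fun w' => f rr.1 w' * f rr.2 w') v - M ^ 2 := by
    have e1 : (fun w' => ∑ rr ∈ R ×ˢ R, f rr.1 w' * f rr.2 w' - 2 * M * (∑ r ∈ R, f r w') +
        M ^ 2) =
        ((fun w' => ∑ rr ∈ R ×ˢ R, f rr.1 w' * f rr.2 w') - (fun w' => 2 * M * (∑ r ∈ R, f r w'))) +
        (fun _ => M ^ 2) := by
      funext w'
      simp only [Pi.add_apply, Pi.sub_apply]
    rw [e1, EA_add, EA_sub, EA_const_mul, EA_const hs]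
    simp only [Pi.add_apply, Pi.sub_apply]
    rw [EA_sum A (R ×ˢ R) (fun rr w' => f rr.1 w' * f rr.2 w'), EA_sum A R f]
    simp only
    rw [Finset.sum_congr rfl hEf, Finset.sum_const, nsmul_eq_mul, ← hM]
    ring
  rw [hE1, hE2] at hE
  have hfin : M ^ 2 * EA π A (ind Bad) v ≤ T * (∑ rr ∈ R ×ˢ R, ∏ p ∈ (D rr.1 ∩ D rr.2).filter
        (fun p => w rr.1 p ≠ 0 ∧ w rr.2 p ≠ 0), Lam p) - M ^ 2 := by
    refine hE.trans ?_
    rw [mul_sum]
    linarith [sum_le_sum hcorr]
  have hM2 : 0 < M ^ 2 := by positivity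
  rw [le_sub_iff_add_le, le_div_iff₀ hM2]
  linarith

end Pool.Agent.Work.MP_b0c12c_nt_sparse
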