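import Mathlib
import Pool.Agent.Work.MP_b0c12c_nt_sparse.SCS
import Pool.Agent.Work.MP_b0c12c_nt_sparse.PCY
import Pool.Agent.Work.MP_b0c12c_nt_sparse.SM3
import Pool.Agent.Work.MP_b0c12c_nt_sparse.SC3a

/-!
# Block SC3: assembly at one scale, all exponents `C > 0`
-/

set_option autoImplicit false

namespace Pool.Agent.Work.MP_b0c12c_nt_sparse

open Finset Filter
open Pool.Agent.Work.MP_b0c12c_nt_shift

namespace SC3aux

open SCSaux

/-- One scale. -/
theorem scale3 (hKR : Stmt_KR) (hPAIR3 : Stmt_PAIR3) {π : ℕ → ℤ → ℝ} (hπ : ∀ p s, 0 ≤ π p s)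
    (hs : ∀ p, π p (-1) + π p 0 + π p 1 = 1) {A : Finset ℕ} {z x U : ℕ} {v : ℕ → ℤ}
    (hz : 3 ≤ z) (hx : 9 ≤ x) (hv : ∀ p, v p ∈ sgn)
    (hA : ∀ p ∈ A, p.Prime ∧ U + 6 < p ∧ p * p ≤ x ∧ 1 / 2 ≤ π p 0) {b : ℕ} (hb : IsB v z 0 b)
    {R : Finset ℕ} (hR : R ⊆ rows x (qq z 0) b U) (hRcard : (x : ℝ) / qq z 0 / 4 ≤ R.card)
    (hrow : ∀ r ∈ R, cost π (fun p => Real.log p) A (Sur v A x U (r * qq z 0 + b)) ≤
        1 / 4 * Real.log x ∧
      HasKillers A (Sur v A x U (r * qq z 0 + b)))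
    {Lam g : ℕ → ℝ} {η T1 a k1 : ℝ}
    (hLam : ∀ p ∈ A, 0 < Lam p ∧ 1 / Lam p ≤ π p 1 ∧ 1 / Lam p ≤ π p (-1) ∧ 1 ≤ Lam p ∧
      0 ≤ g p ∧ Lam p * g p ≤ a ∧ ep π p ≤ η)
    (hη : 0 ≤ η) (hT1 : ((U : ℝ) + 2) * (2 * Real.log ((2 * x : ℕ) : ℝ)) * η ≤ T1)
    (ha : 0 ≤ a) (hk1 : 0 ≤ k1) (hak : Real.exp 1 * a * k1 ≤ 1 / 2)
    (hcard : ∀ K : Finset ℕ, K ⊆ A → ∑ p ∈ K, Real.log p ≤ 1 / 4 * Real.log x → (K.card : ℝ) ≤ k1)
    (hMD : ∀ K : ℕ → Finset ℕ,
      (∀ r ∈ R, K r ⊆ A ∧ ((∏ p ∈ K r, p : ℕ) : ℝ) ≤ (x : ℝ) ^ (1 / 4 : ℝ) ∧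
        ∃ nn : ℕ → ℕ, Set.InjOn nn (K r : Finset ℕ) ∧ ∀ p ∈ K r,
          nn p ∈ Sur v A x U (r * qq z 0 + b) ∧ (∀ p' ∈ A, ¬ p' ∣ nn p) ∧
          p ∣ nn p ^ 2 - 1) →
      ∀ E : Finset ℕ, E.Nonempty →
        ((R.filter fun r => E ⊆ K r).card : ℝ) ≤ x / qq z 0 * ∏ p ∈ E, ((E.card : ℝ) * g p)) :
    EA π A (ind {w | ∀ N : ℕ, x ≤ N → N + U ≤ 2 * x → w ∉ Emp x U N}) v ≤
      (Real.exp (2 * T1) - 1) + Real.exp (2 * T1) * (8 * (Real.exp 1 * a * k1)) := by
  classical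
  set q := qq z 0 with hq
  have hq0 : (0 : ℝ) < q := by exact_mod_cast qq_pos z
  have hx0 : (0 : ℝ) < x := by
    have : (9 : ℝ) ≤ x := by exact_mod_cast hx
    linarith
  set H : ℝ := (x : ℝ) / q with hH
  have hH0 : 0 < H := div_pos hx0 hq0
  have hRpos : 0 < (R.card : ℝ) := lt_of_lt_of_le (by positivity) hRcard
  have hRne : R.Nonempty := by
    rw [← card_pos]
    exact_mod_cast hRpos
  -- the rows
  have hrows : ∀ r ∈ R, x < r * q + b ∧ r * q + b + U + 1 ≤ 2 * x := by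
    intro r hr
    have hr' := hR hr
    unfold rows at hr'
    rw [mem_filter] at hr'
    exact hr'.2
  have hKRr : ∀ r ∈ R, _ := fun r hr => hKR π hπ A x U (r * q + b) v hx
    (by have := (hrows r hr).1; omega) hv (fun p hp => ⟨(hA p hp).1, (hA p hp).2.1,
      (hA p hp).2.2.1⟩) (by
      have h4 : (2 : ℤ) ∣ (q : ℤ) := by exact_mod_cast dvd_qq (z := z) Nat.prime_two (by omega)
      have h5 := hb.2 2 Nat.prime_two (by omega) (by norm_num)
      have h6 : ((r * q + b : ℕ) : ℤ) - v 2 = r * q + ((b : ℤ) - v 2) := by push_cast; ring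
      rw [h6]
      exact dvd_add (h4.mul_left _) h5) (by
      have h4 : (3 : ℤ) ∣ (q : ℤ) := by exact_mod_cast dvd_qq (z := z) Nat.prime_three (by omega)
      have h5 := hb.2 3 Nat.prime_three (by omega) (by norm_num)
      have h6 : ((r * q + b : ℕ) : ℤ) - v 3 = r * q + ((b : ℤ) - v 3) := by push_cast; ring
      rw [h6]
      exact dvd_add (h4.mul_left _) h5) (hrow r hr).2
  set D : ℕ → Finset ℕ := fun r => Dset A U (r * q + b) with hD
  set w : ℕ → ℕ → ℤ := fun r => wr A (Sur v A x U (r * q + b)) with hw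
  set K : ℕ → Finset ℕ := fun r => Kr A (Sur v A x U (r * q + b)) with hK
  have hDA : ∀ r, D r ⊆ A := fun r p hp => (mem_Dset'.1 hp).1
  have hKmem : ∀ r p, p ∈ K r ↔ p ∈ A ∧ w r p ≠ 0 := by
    intro r p
    rw [hK, hw]
    simp only
    unfold Kr
    rw [mem_filter]
  -- the product of the probabilities of no shift
  set T : ℝ := Real.exp (2 * T1) with hT
  have hTle : ∀ r ∈ R, ∀ r' ∈ R, ∏ p ∈ D r ∩ D r', (π p 0)⁻¹ ≤ T := by
    intro r hr r' hr'
    have h1 := prod_inv_le (π := π) (D := D r ∩ D r') (η := η) hs hπ (by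
      intro p hp
      have hpA := hDA r (mem_inter.1 hp).1
      exact ⟨(hA p hpA).2.2.2, (hLam p hpA).2.2.2.2.2.2⟩)
    refine h1.trans ?_
    rw [hT]
    apply Real.exp_le_exp.2
    have h2 : ((D r ∩ D r').card : ℝ) ≤ ((U : ℝ) + 2) * (2 * Real.log ((2 * x : ℕ) : ℝ)) := by
      refine le_trans ?_ (card_Dset_le (fun p hp => (hA p hp).1) (U := U) (N := r * q + b)
        (M := 2 * x) (by have := (hrows r hr).1; omega) (hrows r hr).2)
      exact_mod_cast card_le_card inter_subset_left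
    have h3 := mul_le_mul_of_nonneg_right h2 hη
    linarith
  have hSM := stmt_SM3 π hπ hs A R D w Lam T v hRne (fun r _ => hDA r)
    (fun r hr p => (hKRr r hr).2.1 p)
    (fun p hp => ⟨(hLam p hp).1, (hLam p hp).2.1, (hLam p hp).2.2.1, by
      have := (hA p hp).2.2.2
      linarith⟩) hTle
  -- the event
  have hmono : EA π A (ind {w | ∀ N : ℕ, x ≤ N → N + U ≤ 2 * x → w ∉ Emp x U N}) v ≤
      EA π A (ind {w' | ∀ r ∈ R, ¬ ∀ p ∈ D r, w' p = w r p}) v := by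
    apply EA_mono_on hπ
    intro w' hw1 _
    apply ind_mono
    intro hw' r hr hall
    have h1 := hrows r hr
    exact hw' (r * q + b) (by omega) (by omega) ((hKRr r hr).1 w' hw1 hall)
  refine hmono.trans (hSM.trans ?_)
  -- the killers
  have hfil : ∀ rr ∈ R ×ˢ R, (D rr.1 ∩ D rr.2).filter (fun p => w rr.1 p ≠ 0 ∧ w rr.2 p ≠ 0) =
      K rr.1 ∩ K rr.2 := by
    intro rr hrr
    obtain ⟨hr1, hr2⟩ := Finset.mem_product.1 hrr
    ext p
    rw [mem_filter, mem_inter, mem_inter, hKmem, hKmem]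
    constructor
    · rintro ⟨⟨h1, h2⟩, h3, h4⟩
      exact ⟨⟨hDA _ h1, h3⟩, ⟨hDA _ h2, h4⟩⟩
    · rintro ⟨h1, h2⟩
      exact ⟨⟨(hKRr _ hr1).2.2.1 ((hKmem _ _).2 h1), (hKRr _ hr2).2.2.1 ((hKmem _ _).2 h2)⟩,
        h1.2, h2.2⟩
  have hsumeq : ∑ rr ∈ R ×ˢ R, ∏ p ∈ (D rr.1 ∩ D rr.2).filter
        (fun p => w rr.1 p ≠ 0 ∧ w rr.2 p ≠ 0), Lam p =
      ∑ rr ∈ R ×ˢ R, ∏ p ∈ K rr.1 ∩ K rr.2, Lam p :=
    sum_congr rfl fun rr hrr => by rw [hfil rr hrr]
  have hKA : ∀ r, K r ⊆ A := fun r p hp => ((hKmem r p).1 hp).1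
  have hlogK : ∀ r ∈ R, ∑ p ∈ K r, Real.log p ≤ 1 / 4 * Real.log x := fun r hr =>
    (hKRr r hr).2.2.2.1.trans (hrow r hr).1
  have hE := hMD K (by
    intro r hr
    refine ⟨hKA r, ?_, (hKRr r hr).2.2.2.2⟩
    have h1 : Real.log ((∏ p ∈ K r, p : ℕ) : ℝ) = ∑ p ∈ K r, Real.log p := by
      rw [Nat.cast_prod, Real.log_prod]
      intro p hp
      exact_mod_cast (hA p (hKA r hp)).1.ne_zero
    have h2 : (0 : ℝ) < ((∏ p ∈ K r, p : ℕ) : ℝ) := by
      exact_mod_cast Finset.prod_pos fun p hp => (hA p (hKA r hp)).1.pos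
    rw [← Real.exp_log h2, h1, Real.rpow_def_of_pos hx0]
    apply Real.exp_le_exp.2
    have := hlogK r hr
    linarith)
  have hP := hPAIR3 R K Lam g H a k1 hH0.le ha hk1
    (fun r _ p hp => by
      have := hLam p (hKA r hp)
      exact ⟨this.2.2.2.1, this.2.2.2.2.1, this.2.2.2.2.2.1⟩)
    (fun r hr => hcard (K r) (hKA r) (hlogK r hr)) hak hE
  rw [hsumeq]
  have hM2 : (0 : ℝ) < (R.card : ℝ) ^ 2 := by positivity
  have hT0 : 0 < T := Real.exp_pos _
  have h4 : H ≤ 4 * R.card := by linarith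
  have h5 : 0 ≤ 2 * Real.exp 1 * a * k1 := by positivity
  have h6 : ∑ rr ∈ R ×ˢ R, ∏ p ∈ K rr.1 ∩ K rr.2, Lam p ≤
      (R.card : ℝ) ^ 2 * (1 + 8 * (Real.exp 1 * a * k1)) := by
    refine hP.trans ?_
    have h7 : R.card * H * (2 * Real.exp 1 * a * k1) ≤
        R.card * (4 * R.card) * (2 * Real.exp 1 * a * k1) := by
      apply mul_le_mul_of_nonneg_right _ h5
      exact mul_le_mul_of_nonneg_left h4 hRpos.le
    calc (R.card : ℝ) ^ 2 + R.card * H * (2 * Real.exp 1 * a * k1)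
        ≤ (R.card : ℝ) ^ 2 + R.card * (4 * R.card) * (2 * Real.exp 1 * a * k1) := by linarith
      _ = _ := by ring
  have h7 : T * (∑ rr ∈ R ×ˢ R, ∏ p ∈ K rr.1 ∩ K rr.2, Lam p) / (R.card : ℝ) ^ 2 ≤
      T * (1 + 8 * (Real.exp 1 * a * k1)) := by
    rw [div_le_iff₀ hM2]
    calc T * (∑ rr ∈ R ×ˢ R, ∏ p ∈ K rr.1 ∩ K rr.2, Lam p) ≤
          T * ((R.card : ℝ) ^ 2 * (1 + 8 * (Real.exp 1 * a * k1))) :=
          mul_le_mul_of_nonneg_left h6 hT0.le
      _ = _ := by ring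
  linarith

/-- The final bound tends to zero. -/
theorem tendsto_bound3 {β γ A1 A2 s : ℝ} (hβ : 0 < β) (hγ : 0 < γ) :
    Tendsto (fun z : ℕ => (Real.exp (2 * (A1 * ((z : ℝ) ^ s * Real.exp (-(z : ℝ) ^ β)))) - 1) +
      Real.exp (2 * (A1 * ((z : ℝ) ^ s * Real.exp (-(z : ℝ) ^ β)))) *
        (8 * (A2 * (z : ℝ) ^ (-γ)))) atTop (nhds 0) := by
  have h1 := ((tendsto_stretched hβ s).const_mul A1).const_mul 2
  have h2 : Tendsto (fun z : ℕ => (z : ℝ) ^ (-γ)) atTop (nhds 0) :=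
    (tendsto_rpow_neg_atTop hγ).comp tendsto_natCast_atTop_atTop
  have h3 := (Real.continuous_exp.tendsto _).comp h1
  have h4 := (h3.sub_const 1).add (h3.mul ((h2.const_mul A2).const_mul 8))
  simpa using h4

end SC3aux

open SCSaux SC3aux PCYaux in
theorem stmt_SC3 (hROWSY : Stmt_ROWSY) (hKR : Stmt_KR) (hMD : Stmt_MD) (hPAIR3 : Stmt_PAIR3) :
    Stmt_SC3 := by
  classical
  intro π C c₁ c₂ hlaw β hβ hβ1
  have hC := hlaw.C_pos
  have hc1 := hlaw.c1_pos
  have hπok := piOk hlaw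
  have hlamok : LamOk (fun u => u) 1 1 :=
    ⟨le_rfl, le_rfl, fun u hu => hu, fun u v _ h => h, fun t u _ _ => by simp⟩
  have hβ0 : 0 < β := lt_trans (by positivity) hβ
  have hβC : 2 < β * (C + 2) := by rwa [div_lt_iff₀ (by linarith)] at hβ
  set γ : ℝ := β * (C + 2) - 2 with hγ
  have hγ0 : 0 < γ := by linarith
  set κ : ℝ := min (1 / 50) ((1 - β) / 20) with hκ
  have hκ0 : 0 < κ := lt_min (by norm_num) (by linarith)
  have hκ1 : κ ≤ 1 / 50 := min_le_left _ _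
  have hκβ : κ ≤ (1 - β) / 20 := min_le_right _ _
  obtain ⟨g, hg0, hg1, z1, hz1⟩ := hROWSY π (fun u => u) 1 1 hlamok hπok κ hκ0 hκ1 (1 / 4)
    (by norm_num)
  obtain ⟨C0, hC0, hMD'⟩ := hMD
  obtain ⟨z2, hz2⟩ := hMD' κ hκ0 hκ1
  obtain ⟨P1, hP1⟩ := hπok.half
  obtain ⟨P2, hP2⟩ := hlaw.low
  obtain ⟨P3, hP3⟩ := hlaw.high
  refine ⟨g / 4, by positivity, fun ε hε x0 => ?_⟩
  set A1 : ℝ := 16 * |c₂| with hA1
  have hA10 : 0 ≤ A1 := by positivity
  set A2 : ℝ := Real.exp 1 * (C0 / (4 * c₁)) with hA2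
  have hA20 : 0 ≤ A2 := by positivity
  -- the choice of `z`
  have hcast := tendsto_natCast_atTop_atTop (R := ℝ)
  have t1 : Tendsto (fun z : ℕ => (z : ℝ) ^ (κ / 2)) atTop atTop :=
    (tendsto_rpow_atTop (by positivity)).comp hcast
  have t2 : Tendsto (fun z : ℕ => Real.log z) atTop atTop :=
    Real.tendsto_log_atTop.comp hcast
  have t3 : Tendsto (fun z : ℕ => (z : ℝ) ^ (1 - β)) atTop atTop :=
    (tendsto_rpow_atTop (by linarith)).comp hcast
  have t4 := tendsto_stretched hβ0 3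
  have t5 := tendsto_bound3 (β := β) (γ := γ) (A1 := A1) (A2 := A2) (s := C + 5) hβ0 hγ0
  have t6 : Tendsto (fun z : ℕ => A2 * (z : ℝ) ^ (-γ)) atTop (nhds 0) := by
    have := ((tendsto_rpow_neg_atTop hγ0).comp hcast).const_mul A2
    simpa using this
  obtain ⟨z, ht1, ht2, ht3, ht4, ht5, ht6, hzz1, hzz2, hzP1, hzP2, hzP3, hz9, hzx0⟩ :=
    ((t1.eventually_ge_atTop 2).and ((t2.eventually_ge_atTop 1).and
      ((t3.eventually_ge_atTop (8 / g)).and
      ((t4.eventually_lt_const (show (0 : ℝ) < 1 / 8 by norm_num)).and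
      ((t5.eventually_lt_const hε).and
      ((t6.eventually_lt_const (show (0 : ℝ) < 1 / 2 by norm_num)).and
      ((eventually_ge_atTop z1).and
      ((eventually_ge_atTop z2).and ((eventually_ge_atTop P1).and ((eventually_ge_atTop P2).and
      ((eventually_ge_atTop P3).and
      ((eventually_ge_atTop 16).and (eventually_ge_atTop x0))))))))))))).exists
  have hzR : (16 : ℝ) ≤ z := by exact_mod_cast hz9
  have hz0 : (0 : ℝ) < z := by linarith
  have hzge1 : (1 : ℝ) ≤ z := by linarith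
  -- the choice of `x`
  have hzκ : (z : ℝ) ^ (κ / 2) ≤ (z : ℝ) ^ κ :=
    Real.rpow_le_rpow_of_exponent_le hzge1 (by linarith)
  have hzκ2 : 2 ≤ (z : ℝ) ^ κ := ht1.trans hzκ
  have hzpow : (z : ℝ) ≤ (z : ℝ) ^ (1 + 3 * κ / 2) := by
    calc (z : ℝ) = (z : ℝ) ^ (1 : ℝ) := (Real.rpow_one _).symm
      _ ≤ _ := Real.rpow_le_rpow_of_exponent_le hzge1 (by linarith)
  set x : ℕ := ⌈Real.exp ((z : ℝ) ^ (1 + 3 * κ / 2))⌉₊ with hx
  have hxe : Real.exp ((z : ℝ) ^ (1 + 3 * κ / 2)) ≤ x := Nat.le_ceil _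
  have hxpos : (0 : ℝ) < x := (Real.exp_pos _).trans_le hxe
  have hxz : (z : ℝ) + 1 ≤ x := by
    refine le_trans ?_ hxe
    exact (Real.add_one_le_exp _).trans (Real.exp_le_exp.2 hzpow)
  have hxz' : z + 1 ≤ x := by exact_mod_cast hxz
  set L := Real.log x with hLdef
  have hL1' : (z : ℝ) ^ (1 + 3 * κ / 2) ≤ L := by
    rw [hLdef, Real.le_log_iff_exp_le hxpos]
    exact hxe
  have hL1 : (z : ℝ) ^ (1 + κ) ≤ L :=
    (Real.rpow_le_rpow_of_exponent_le hzge1 (by linarith)).trans hL1'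
  have hL2 : L ≤ (z : ℝ) ^ (1 + 2 * κ) := by
    have h1 : (x : ℝ) ≤ Real.exp ((z : ℝ) ^ (1 + 3 * κ / 2)) + 1 := (Nat.ceil_lt_add_one
      (Real.exp_pos _).le).le
    have h2 : (x : ℝ) ≤ Real.exp ((z : ℝ) ^ (1 + 3 * κ / 2) + 1) := by
      refine h1.trans ?_
      rw [Real.exp_add]
      have h3 : 1 ≤ Real.exp ((z : ℝ) ^ (1 + 3 * κ / 2)) := Real.one_le_exp (by positivity)
      have h4 : 2 ≤ Real.exp 1 := by
        have := Real.add_one_le_exp (1 : ℝ)
        linarith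
      have h5 := mul_le_mul_of_nonneg_left h4 (Real.exp_pos ((z : ℝ) ^ (1 + 3 * κ / 2))).le
      linarith
    have h3 : L ≤ (z : ℝ) ^ (1 + 3 * κ / 2) + 1 := by
      rw [hLdef, Real.log_le_iff_le_exp hxpos]
      exact h2
    refine h3.trans ?_
    have h4 : (z : ℝ) ^ (1 + 2 * κ) = (z : ℝ) ^ (1 + 3 * κ / 2) * (z : ℝ) ^ (κ / 2) := by
      rw [← Real.rpow_add hz0]
      congr 1
      ring
    rw [h4]
    have h6 := mul_le_mul_of_nonneg_left ht1
      (Real.rpow_nonneg hz0.le (1 + 3 * κ / 2))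
    linarith
  have hInR : InR κ z x := ⟨hL1, hL2⟩
  have hLz : (z : ℝ) ≤ L := hzpow.trans hL1'
  have hL0 : 0 < L := hz0.trans_le hLz
  have hLge1 : 1 ≤ L := hzge1.trans hLz
  -- the choice of `y`
  set E : ℝ := L ^ β with hE
  have hEz : (z : ℝ) ^ β ≤ E := Real.rpow_le_rpow hz0.le hLz hβ0.le
  have hE1 : 1 ≤ E := Real.one_le_rpow hLge1 hβ0.le
  have hE2 : E ≤ (z : ℝ) ^ (1 - 18 * κ) := by
    calc E ≤ ((z : ℝ) ^ (1 + 2 * κ)) ^ β := Real.rpow_le_rpow hL0.le hL2 hβ0.le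
      _ = (z : ℝ) ^ ((1 + 2 * κ) * β) := (Real.rpow_mul hz0.le _ _).symm
      _ ≤ (z : ℝ) ^ (1 - 18 * κ) := by
          apply Real.rpow_le_rpow_of_exponent_le hzge1
          have h1 : β ≤ 1 - 20 * κ := by linarith
          have h2 : (1 + 2 * κ) * β ≤ (1 + 2 * κ) * (1 - 20 * κ) :=
            mul_le_mul_of_nonneg_left h1 (by linarith)
          have h3 : (1 + 2 * κ) * (1 - 20 * κ) = 1 - 18 * κ - 40 * κ ^ 2 := by ring
          have h4 : 0 ≤ κ ^ 2 := by positivity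
          linarith
  set y : ℕ := ⌈Real.exp E⌉₊ with hy
  have hye : Real.exp E ≤ y := Nat.le_ceil _
  have hypos : (0 : ℝ) < y := (Real.exp_pos _).trans_le hye
  have hyz : Real.exp ((z : ℝ) ^ β) ≤ y := (Real.exp_le_exp.2 hEz).trans hye
  have hylog1 : E ≤ Real.log y := by
    rw [Real.le_log_iff_exp_le hypos]
    exact hye
  have hylog2 : Real.log y ≤ E + 1 := by
    rw [Real.log_le_iff_le_exp hypos, Real.exp_add]
    have h1 : (y : ℝ) ≤ Real.exp E + 1 := (Nat.ceil_lt_add_one (Real.exp_pos _).le).le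
    have h3 : 1 ≤ Real.exp E := Real.one_le_exp (by linarith)
    have h4 : 2 ≤ Real.exp 1 := by
      have := Real.add_one_le_exp (1 : ℝ)
      linarith
    have h5 := mul_le_mul_of_nonneg_left h4 (Real.exp_pos E).le
    linarith
  have hy8 : 8 * (z : ℝ) ^ 3 < y := by
    have h1 : (z : ℝ) ^ (3 : ℝ) * Real.exp (-(z : ℝ) ^ β) * Real.exp ((z : ℝ) ^ β) =
        (z : ℝ) ^ (3 : ℝ) := by
      rw [mul_assoc, ← Real.exp_add, neg_add_cancel, Real.exp_zero, mul_one]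
    have h2 := mul_lt_mul_of_pos_right ht4 (Real.exp_pos ((z : ℝ) ^ β))
    rw [h1] at h2
    have h3 : (z : ℝ) ^ (3 : ℝ) = (z : ℝ) ^ 3 := by norm_cast
    rw [h3] at h2
    linarith
  have hz1le3 : (1 : ℝ) ≤ (z : ℝ) ^ 3 := one_le_pow₀ hzge1
  have hzz3 : (z : ℝ) ^ 2 ≤ (z : ℝ) ^ 3 := pow_le_pow_right₀ hzge1 (by norm_num)
  have hly1 : 1 ≤ Real.log y := hE1.trans hylog1
  have hly2 : Real.log y ≤ 2 * E := by linarith
  have hz18 : 1 ≤ (z : ℝ) ^ (1 - 18 * κ) := Real.one_le_rpow hzge1 (by linarith)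
  have hlyz : Real.log y ≤ 2 * (z : ℝ) ^ (1 - 18 * κ) := by linarith
  have hYOk : YOk κ y z := by
    constructor
    · have h1 : (z : ℝ) ^ 2 ≤ y := by linarith
      exact_mod_cast h1
    · calc Real.log y ≤ 2 * (z : ℝ) ^ (1 - 18 * κ) := hlyz
        _ ≤ (z : ℝ) ^ κ * (z : ℝ) ^ (1 - 18 * κ) :=
            mul_le_mul_of_nonneg_right hzκ2 (by linarith)
        _ = (z : ℝ) ^ (κ + (1 - 18 * κ)) := (Real.rpow_add hz0 _ _).symm
        _ ≤ (z : ℝ) ^ (1 - 2 * κ) := Real.rpow_le_rpow_of_exponent_le hzge1 (by linarith)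
  -- the choice of `U`
  set Y : ℝ := g * L ^ 2 / Real.log y with hY
  have hY0 : 0 ≤ Y := by positivity
  set U : ℕ := ⌊Y⌋₊ with hU
  have hUY : (U : ℝ) ≤ Y := Nat.floor_le hY0
  have hUl : (U : ℝ) * Real.log y ≤ g * L ^ 2 := by
    rw [hY, le_div_iff₀ (by linarith)] at hUY
    exact hUY
  have hLpow : L ^ (2 - β) = L * L ^ (1 - β) := by
    rw [show 2 - β = 1 + (1 - β) by ring, Real.rpow_add hL0, Real.rpow_one]
  have hLE : L ^ (2 - β) * E = L ^ 2 := by
    rw [hE, ← Real.rpow_add hL0, show 2 - β + β = (2 : ℕ) by norm_num, Real.rpow_natCast]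
  have hYlow : g / 2 * L ^ (2 - β) ≤ Y := by
    rw [hY, le_div_iff₀ (by linarith)]
    have hLp : 0 ≤ L ^ (2 - β) := by positivity
    calc g / 2 * L ^ (2 - β) * Real.log y ≤ g / 2 * L ^ (2 - β) * (2 * E) :=
          mul_le_mul_of_nonneg_left hly2 (by positivity)
      _ = g * (L ^ (2 - β) * E) := by ring
      _ = g * L ^ 2 := by rw [hLE]
  have hLbig : 8 * (z : ℝ) / g ≤ L ^ (2 - β) := by
    rw [hLpow]
    have h1 : (z : ℝ) ^ (1 - β) ≤ L ^ (1 - β) := Real.rpow_le_rpow hz0.le hLz (by linarith)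
    calc 8 * (z : ℝ) / g = z * (8 / g) := by ring
      _ ≤ L * L ^ (1 - β) := mul_le_mul hLz (ht3.trans h1) (by positivity) hL0.le
  have hgL : 2 * (z : ℝ) ≤ g / 4 * L ^ (2 - β) := by
    rw [div_le_iff₀ hg0] at hLbig
    linarith
  have hzU : z ≤ U := by
    apply Nat.le_floor
    linarith
  have hUL2 : (U : ℝ) * Real.log y ≤ L ^ 2 := by
    have : 0 ≤ L ^ 2 := by positivity
    have h2 := mul_le_mul_of_nonneg_right hg1 this
    linarith
  have hUL : (U : ℝ) ≤ L ^ 2 := by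
    have h1 : (U : ℝ) * 1 ≤ U * Real.log y := mul_le_mul_of_nonneg_left hly1 (Nat.cast_nonneg _)
    linarith
  have hUz3R : (U : ℝ) ≤ (z : ℝ) ^ 3 := by
    refine hUL.trans ?_
    have h2 : L ^ 2 ≤ ((z : ℝ) ^ (1 + 2 * κ)) ^ 2 := pow_le_pow_left₀ hL0.le hL2 2
    refine h2.trans ?_
    rw [← Real.rpow_natCast, ← Real.rpow_mul hz0.le, ← Real.rpow_natCast]
    apply Real.rpow_le_rpow_of_exponent_le hzge1
    push_cast
    linarith
  have hUz3 : U ≤ z ^ 3 := by exact_mod_cast hUz3R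
  have hUy : U + 6 < y := by
    have h1 : (U : ℝ) + 6 < y := by linarith
    exact_mod_cast h1
  have hUy2 : (U : ℝ) * Real.log y ^ 2 ≤ (z : ℝ) ^ (2 - 3 * κ) * L := by
    have h1 : L * Real.log y ≤ (z : ℝ) ^ (2 - 3 * κ) := by
      calc L * Real.log y ≤ (z : ℝ) ^ (1 + 2 * κ) * (2 * (z : ℝ) ^ (1 - 18 * κ)) :=
            mul_le_mul hL2 hlyz (by linarith) (by positivity)
        _ ≤ (z : ℝ) ^ (1 + 2 * κ) * ((z : ℝ) ^ κ * (z : ℝ) ^ (1 - 18 * κ)) := by
            apply mul_le_mul_of_nonneg_left _ (by positivity)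
            exact mul_le_mul_of_nonneg_right hzκ2 (by linarith)
        _ = (z : ℝ) ^ (1 + 2 * κ + (κ + (1 - 18 * κ))) := by
            rw [Real.rpow_add hz0 (1 + 2 * κ) (κ + (1 - 18 * κ)),
              Real.rpow_add hz0 κ (1 - 18 * κ)]
        _ ≤ (z : ℝ) ^ (2 - 3 * κ) := Real.rpow_le_rpow_of_exponent_le hzge1 (by linarith)
    calc (U : ℝ) * Real.log y ^ 2 = (U * Real.log y) * Real.log y := by ring
      _ ≤ L ^ 2 * Real.log y := mul_le_mul_of_nonneg_right hUL2 (by linarith)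
      _ = (L * Real.log y) * L := by ring
      _ ≤ (z : ℝ) ^ (2 - 3 * κ) * L := mul_le_mul_of_nonneg_right h1 hL0.le
  refine ⟨x, U, by omega, ?_, ?_⟩
  · have h1 : Y - 1 ≤ U := by
      have := Nat.lt_floor_add_one Y
      linarith
    have h2 : g / 2 * L ^ (2 - β) = 2 * (g / 4 * L ^ (2 - β)) := by ring
    rw [h2] at hYlow
    linarith
  · -- the probability
    set A := AY κ y z with hA
    have hpy : ∀ p ∈ A, (y : ℝ) ≤ p := by
      intro p hp
      exact_mod_cast (mem_AY.1 hp).2.1.le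
    have hpprime : ∀ p ∈ A, p.Prime := fun p hp => (mem_AY.1 hp).1
    have hzy : z ≤ y := by
      have h1 : (z : ℝ) ≤ y := by
        have : (z : ℝ) ≤ (z : ℝ) ^ 3 := le_self_pow₀ hzge1 (by norm_num)
        linarith
      exact_mod_cast h1
    have hpz : ∀ p ∈ A, z ≤ p := fun p hp => hzy.trans (mem_AY.1 hp).2.1.le
    have hlogp : ∀ p ∈ A, Real.log y ≤ Real.log p := fun p hp =>
      Real.log_le_log hypos (hpy p hp)
    have hpexp : ∀ p ∈ A, (p : ℝ) ≤ Real.exp ((z : ℝ) ^ (1 - κ)) := by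
      intro p hp
      have := (mem_AY.1 hp).2.2
      unfold w1 at this
      exact (Nat.le_floor_iff (Real.exp_pos _).le).1 this
    have hpx : ∀ p ∈ A, p * p ≤ x := by
      intro p hp
      have h1 := hpexp p hp
      have h2 : (p : ℝ) * p ≤ x := by
        calc (p : ℝ) * p ≤ Real.exp ((z : ℝ) ^ (1 - κ)) * Real.exp ((z : ℝ) ^ (1 - κ)) :=
              mul_le_mul h1 h1 (Nat.cast_nonneg _) (Real.exp_pos _).le
          _ = Real.exp (2 * (z : ℝ) ^ (1 - κ)) := by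
              rw [← Real.exp_add]
              ring_nf
          _ ≤ Real.exp ((z : ℝ) ^ (1 + 3 * κ / 2)) := by
              apply Real.exp_le_exp.2
              calc 2 * (z : ℝ) ^ (1 - κ) ≤ (z : ℝ) ^ κ * (z : ℝ) ^ (1 - κ) :=
                    mul_le_mul_of_nonneg_right (by linarith) (by positivity)
                _ = (z : ℝ) ^ (κ + (1 - κ)) := (Real.rpow_add hz0 _ _).symm
                _ ≤ (z : ℝ) ^ (1 + 3 * κ / 2) :=
                    Real.rpow_le_rpow_of_exponent_le hzge1 (by linarith)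
          _ ≤ x := hxe
      exact_mod_cast h2
    have hAok : ∀ p ∈ A, p.Prime ∧ U + 6 < p ∧ p * p ≤ x ∧ 1 / 2 ≤ π p 0 := fun p hp =>
      ⟨hpprime p hp, hUy.trans (mem_AY.1 hp).2.1, hpx p hp,
        hP1 p (hpprime p hp) (hzP1.trans (hpz p hp))⟩
    -- the weights
    set Lam : ℕ → ℝ := fun p => p / (c₁ * Real.log p ^ C) with hLam
    set gg : ℕ → ℝ := fun p => C0 * (U / L) / p with hgg
    set a : ℝ := C0 * (U / L) / (c₁ * Real.log y ^ C) with ha
    set k1 : ℝ := L / (4 * Real.log y) with hk1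
    set η : ℝ := 2 * |c₂| * ((z : ℝ) ^ C * Real.exp (-(z : ℝ) ^ β)) with hη
    have hlyC : 0 < Real.log y ^ C := Real.rpow_pos_of_pos (by linarith) _
    have ha0 : 0 ≤ a := by positivity
    have hk10 : 0 ≤ k1 := by
      rw [hk1]
      exact div_nonneg hL0.le (by linarith)
    have hη0 : 0 ≤ η := by positivity
    have hLamok : ∀ p ∈ A, 0 < Lam p ∧ 1 / Lam p ≤ π p 1 ∧ 1 / Lam p ≤ π p (-1) ∧ 1 ≤ Lam p ∧
        0 ≤ gg p ∧ Lam p * gg p ≤ a ∧ ep π p ≤ η := by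
      intro p hp
      have hp0 : (0 : ℝ) < p := by exact_mod_cast (hpprime p hp).pos
      have hlp1 : 1 ≤ Real.log p := hly1.trans (hlogp p hp)
      have hlpC : 0 < Real.log p ^ C := Real.rpow_pos_of_pos (by linarith) _
      have h1 : 1 / Lam p = c₁ * Real.log p ^ C / p := by
        rw [hLam]
        simp only
        rw [one_div_div]
      have hlow := hP2 p (hpprime p hp) (hzP2.trans (hpz p hp))
      have hhigh := hP3 p (hpprime p hp) (hzP3.trans (hpz p hp))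
      have hπ1 : π p 1 ≤ 1 := by
        have h2 := hlaw.sum_one p
        have h3 := hlaw.nonneg p 0
        have h4 := hlaw.nonneg p (-1)
        linarith
      have hL0' : 0 < Lam p := by
        rw [hLam]
        positivity
      refine ⟨hL0', ?_, ?_, ?_, ?_, ?_, ?_⟩
      · rw [h1]; exact hlow.1
      · rw [h1]; exact hlow.2
      · have h2 : 1 / Lam p ≤ 1 := by rw [h1]; exact hlow.1.trans hπ1
        rw [div_le_one hL0'] at h2
        exact h2
      · rw [hgg]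
        positivity
      · have h2 : Lam p * gg p = C0 * (U / L) / (c₁ * Real.log p ^ C) := by
          rw [hLam, hgg]
          simp only
          field_simp
        rw [h2, ha]
        apply div_le_div_of_nonneg_left (by positivity) (by positivity)
        apply mul_le_mul_of_nonneg_left _ hc1.le
        exact Real.rpow_le_rpow (by linarith) (hlogp p hp) hC.le
      · have h2 : c₂ * Real.log p ^ C / p ≤ |c₂| * ((z : ℝ) ^ C * Real.exp (-(z : ℝ) ^ β)) := by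
          have h3 : Real.log p ≤ z := by
            rw [Real.log_le_iff_le_exp hp0]
            refine (hpexp p hp).trans (Real.exp_le_exp.2 ?_)
            calc (z : ℝ) ^ (1 - κ) ≤ (z : ℝ) ^ (1 : ℝ) :=
                  Real.rpow_le_rpow_of_exponent_le hzge1 (by linarith)
              _ = z := Real.rpow_one _
          have h4 : Real.log p ^ C ≤ (z : ℝ) ^ C := Real.rpow_le_rpow (by linarith) h3 hC.le
          have h5 : 1 / (p : ℝ) ≤ Real.exp (-(z : ℝ) ^ β) := by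
            rw [Real.exp_neg, ← one_div]
            exact one_div_le_one_div_of_le (Real.exp_pos _) (hyz.trans (hpy p hp))
          calc c₂ * Real.log p ^ C / p = c₂ * (Real.log p ^ C * (1 / p)) := by ring
            _ ≤ |c₂| * (Real.log p ^ C * (1 / p)) :=
                mul_le_mul_of_nonneg_right (le_abs_self _) (by positivity)
            _ ≤ |c₂| * ((z : ℝ) ^ C * Real.exp (-(z : ℝ) ^ β)) := by
                apply mul_le_mul_of_nonneg_left _ (abs_nonneg _)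
                exact mul_le_mul h4 h5 (by positivity) (by positivity)
        unfold ep
        rw [hη]
        linarith
    have hT1 : ((U : ℝ) + 2) * (2 * Real.log ((2 * x : ℕ) : ℝ)) * η ≤
        A1 * ((z : ℝ) ^ (C + 5) * Real.exp (-(z : ℝ) ^ β)) := by
      have h1 : Real.log ((2 * x : ℕ) : ℝ) ≤ 2 * (z : ℝ) ^ 2 := by
        push_cast
        rw [Real.log_mul (by norm_num) hxpos.ne']
        have h2 : Real.log 2 ≤ 1 := by
          have := Real.log_two_lt_d9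
          linarith
        have h3 : L ≤ (z : ℝ) ^ 2 := by
          refine hL2.trans ?_
          calc (z : ℝ) ^ (1 + 2 * κ) ≤ (z : ℝ) ^ (2 : ℝ) :=
                Real.rpow_le_rpow_of_exponent_le hzge1 (by linarith)
            _ = (z : ℝ) ^ 2 := by norm_cast
        have h4 : (1 : ℝ) ≤ (z : ℝ) ^ 2 := one_le_pow₀ hzge1
        rw [← hLdef]
        linarith
      have h1' : 0 ≤ Real.log ((2 * x : ℕ) : ℝ) := Real.log_natCast_nonneg _
      have h2 : (U : ℝ) + 2 ≤ 2 * (z : ℝ) ^ 3 := by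
        have h3 : (2 : ℝ) ≤ (z : ℝ) ^ 3 := by
          have : (z : ℝ) ≤ (z : ℝ) ^ 3 := le_self_pow₀ hzge1 (by norm_num)
          linarith
        linarith
      have h3 : ((U : ℝ) + 2) * (2 * Real.log ((2 * x : ℕ) : ℝ)) ≤
          (2 * (z : ℝ) ^ 3) * (2 * (2 * (z : ℝ) ^ 2)) := by
        apply mul_le_mul h2 _ (by positivity) (by positivity)
        linarith
      calc ((U : ℝ) + 2) * (2 * Real.log ((2 * x : ℕ) : ℝ)) * η ≤
            (2 * (z : ℝ) ^ 3) * (2 * (2 * (z : ℝ) ^ 2)) * η := mul_le_mul_of_nonneg_right h3 hη0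
        _ = A1 * (((z : ℝ) ^ C * (z : ℝ) ^ 5) * Real.exp (-(z : ℝ) ^ β)) := by
            rw [hη, hA1]
            ring
        _ = A1 * ((z : ℝ) ^ (C + 5) * Real.exp (-(z : ℝ) ^ β)) := by
            rw [Real.rpow_add hz0]
            norm_cast
    have hak : Real.exp 1 * a * k1 ≤ A2 * (z : ℝ) ^ (-γ) := by
      have h1 : a * k1 ≤ C0 / (4 * c₁) * (z : ℝ) ^ (-γ) := by
        have h2 : a * k1 = C0 / (4 * c₁) * ((U * Real.log y) / (Real.log y ^ C *
            Real.log y ^ 2)) := by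
          rw [ha, hk1]
          have : Real.log y ≠ 0 := by linarith
          field_simp
        have h3 : Real.log y ^ C * Real.log y ^ 2 = Real.log y ^ (C + 2) := by
          rw [Real.rpow_add (by linarith)]
          norm_cast
        have h4 : L ^ (β * (C + 2)) ≤ Real.log y ^ (C + 2) := by
          rw [Real.rpow_mul hL0.le]
          exact Real.rpow_le_rpow (by linarith) hylog1 (by linarith)
        rw [h2, h3]
        apply mul_le_mul_of_nonneg_left _ (by positivity)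
        calc (U : ℝ) * Real.log y / Real.log y ^ (C + 2) ≤ L ^ 2 / L ^ (β * (C + 2)) := by
              apply div_le_div₀ (by positivity) hUL2 (by positivity) h4
          _ = L ^ (-γ) := by
              rw [show -γ = (2 : ℕ) - β * (C + 2) by rw [hγ]; push_cast; ring,
                Real.rpow_sub hL0, Real.rpow_natCast]
          _ ≤ (z : ℝ) ^ (-γ) := Real.rpow_le_rpow_of_nonpos hz0 hLz (by linarith)
      calc Real.exp 1 * a * k1 = Real.exp 1 * (a * k1) := by ring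
        _ ≤ Real.exp 1 * (C0 / (4 * c₁) * (z : ℝ) ^ (-γ)) :=
            mul_le_mul_of_nonneg_left h1 (Real.exp_pos _).le
        _ = A2 * (z : ℝ) ^ (-γ) := by rw [hA2]; ring
    have hcardK : ∀ K : Finset ℕ, K ⊆ A → ∑ p ∈ K, Real.log p ≤ 1 / 4 * Real.log x →
        (K.card : ℝ) ≤ k1 := by
      intro K hK hsum
      rw [hk1, le_div_iff₀ (by linarith)]
      have h1 : (K.card : ℝ) * Real.log y ≤ ∑ p ∈ K, Real.log p := by
        rw [← nsmul_eq_mul]
        exact card_nsmul_le_sum _ _ _ fun p hp => hlogp p (hK hp)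
      linarith
    have hAsub : A ⊆ PX x := by
      intro p hp
      unfold PX
      rw [mem_filter, mem_Icc]
      exact ⟨⟨(hpprime p hp).one_le, Nat.le_sqrt.2 (hpx p hp)⟩, hpprime p hp⟩
    rw [EA_sdiff hAsub]
    have hfin : EA π (PX x \ A) (EA π A (ind {w | ∀ N : ℕ, x ≤ N → N + U ≤ 2 * x →
        w ∉ Emp x U N})) 0 ≤ EA π (PX x \ A) (fun _ => ε) 0 := by
      apply EA_mono_on hlaw.nonneg
      intro v hv1 hv2
      have hv : ∀ p, v p ∈ sgn := by
        intro p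
        by_cases hp : p ∈ PX x \ A
        · exact hv2 p hp
        · rw [hv1 p hp]
          simp [sgn]
      obtain ⟨b, hb⟩ := exists_isB v z
      obtain ⟨R, hR, hRc, hrow⟩ := hz1 z hzz1 x U y hInR hYOk hzU hUl hUy2 v hv b hb
      have hMDr := hz2 z hzz2 x U y hInR hYOk hzU hUy hUz3 v hv b hb R hR
      have h1 := scale3 hKR hPAIR3 hlaw.nonneg hlaw.sum_one (A := A) (by omega) (by omega) hv hAok
        hb hR hRc hrow hLamok hη0 hT1 ha0 hk10 (hak.trans ht6.le) hcardK hMDr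
      refine h1.trans (le_trans ?_ ht5.le)
      apply add_le_add le_rfl
      apply mul_le_mul_of_nonneg_left _ (Real.exp_pos _).le
      linarith
    rw [EA_const hlaw.sum_one] at hfin
    exact hfin

end Pool.Agent.Work.MP_b0c12c_nt_sparse
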