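import Mathlib
import Pool.Agent.Work.MP_b0c12c_nt_shift.MT
import Pool.Agent.Work.MP_b0c12c_nt_sparse.SCS
import Pool.Agent.Work.MP_b0c12c_nt_sparse.PCY

/-!
# Block SCSY: assembly at one scale, general lower cut
-/

set_option autoImplicit false

namespace Pool.Agent.Work.MP_b0c12c_nt_sparse

open Finset Filter
open Pool.Agent.Work.MP_b0c12c_nt_shift

namespace SCSYaux

open SCSaux

/-- One scale. -/
theorem scaleG (hCLS : Stmt_CLS) {π : ℕ → ℤ → ℝ} (hπ : ∀ p s, 0 ≤ π p s)
    (hs : ∀ p, π p (-1) + π p 0 + π p 1 = 1) {c : ℕ → ℝ} {A : Finset ℕ} {z x U : ℕ} {v : ℕ → ℤ}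
    (hz : 3 ≤ z) (hx : 9 ≤ x) (hv : ∀ p, v p ∈ sgn)
    (hA : ∀ p ∈ A, p.Prime ∧ U + 6 < p ∧ p * p ≤ x ∧ 1 / 2 ≤ π p 0 ∧ 0 ≤ c p ∧
      Real.exp (-c p) ≤ π p 1 ∧ Real.exp (-c p) ≤ π p (-1)) {b : ℕ} (hb : IsB v z 0 b)
    {R : Finset ℕ} (hR : R ⊆ rows x (qq z 0) b U) (hRcard : (x : ℝ) / qq z 0 / 4 ≤ R.card)
    {T E1 E2 : ℝ} (hE1 : 0 ≤ E1) (hE2 : 0 ≤ E2)
    (hrow : ∀ r ∈ R, cost π c A (Sur v A x U (r * qq z 0 + b)) ≤ T ∧
      HasKillers A (Sur v A x U (r * qq z 0 + b)))
    (hPC : ∑ rr ∈ (rows x (qq z 0) b U ×ˢ rows x (qq z 0) b U).filter (fun rr =>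
        ((∏ p ∈ Dset A U (rr.1 * qq z 0 + b) ∩
          Dset A U (rr.2 * qq z 0 + b), p : ℕ) : ℝ) ≤ x / qq z 0),
      ((∏ p ∈ Dset A U (rr.1 * qq z 0 + b) ∩
          Dset A U (rr.2 * qq z 0 + b), 2 * Real.exp (c p)) - 1) ≤ (x / qq z 0) ^ 2 * E1 ∧
    (((rows x (qq z 0) b U ×ˢ rows x (qq z 0) b U).filter (fun rr => (x : ℝ) / qq z 0 <
        ((∏ p ∈ Dset A U (rr.1 * qq z 0 + b) ∩
          Dset A U (rr.2 * qq z 0 + b), p : ℕ) : ℝ))).card : ℝ) ≤
      (x / qq z 0) ^ 2 * E2) :
    EA π A (ind {w | ∀ N : ℕ, x ≤ N → N + U ≤ 2 * x → w ∉ Emp x U N}) v ≤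
      16 * (E1 + E2 * Real.exp T) := by
  classical
  set q := qq z 0 with hq
  have hq0 : (0 : ℝ) < q := by exact_mod_cast qq_pos z
  have hx0 : (0 : ℝ) < x := by
    have : (9 : ℝ) ≤ x := by exact_mod_cast hx
    linarith
  have hz0 : (0 : ℝ) < z := by
    have : (3 : ℝ) ≤ z := by exact_mod_cast hz
    linarith
  set H : ℝ := (x : ℝ) / q with hH
  have hH0 : 0 < H := div_pos hx0 hq0
  have hRpos : 0 < (R.card : ℝ) := lt_of_lt_of_le (by positivity) hRcard
  have hRne : R.Nonempty := by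
    rw [← card_pos]
    exact_mod_cast hRpos
  set θ : ℝ := Real.exp (-T) with hθ
  have hθ0 : 0 < θ := Real.exp_pos _
  -- the events
  set S : ℕ → Set (ℕ → ℤ) := fun r => EmpR A (Dset A U (r * q + b)) x U (r * q + b) with hS
  have hDsub : ∀ N, Dset A U N ⊆ A := fun N p hp => (mem_Dset.1 hp).1
  have hdep : ∀ r ∈ R, Dset A U (r * q + b) ⊆ A ∧
      DependsOn (ind (S r)) ((Dset A U (r * q + b) : Set ℕ) ∪ (A : Set ℕ)ᶜ) := fun r _ =>
    ⟨hDsub _, empR_dependsOn _ _ _ _ _⟩
  have hprob : ∀ r ∈ R, θ ≤ EA π A (ind (S r)) v := by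
    intro r hr
    have hr' := hR hr
    unfold rows at hr'
    rw [mem_filter] at hr'
    obtain ⟨h1, h2⟩ := hrow r hr
    have h3 := hCLS π hπ hs c A x U (r * q + b) v hx (by omega) hv hA ?_ ?_ h2
    · calc θ ≤ Real.exp (-cost π c A (Sur v A x U (r * q + b))) := by
            apply Real.exp_le_exp.2
            linarith
        _ ≤ EA π A (ind (Emp x U (r * q + b))) v := h3
        _ ≤ EA π A (ind (S r)) v := by
            apply EA_mono_on hπ
            intro w _ hw2
            exact ind_mono (emp_sub hw2)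
    · have h4 : (2 : ℤ) ∣ (q : ℤ) := by exact_mod_cast dvd_qq (z := z) Nat.prime_two (by omega)
      have h5 := hb.2 2 Nat.prime_two (by omega) (by norm_num)
      have h6 : ((r * q + b : ℕ) : ℤ) - v 2 = r * q + ((b : ℤ) - v 2) := by push_cast; ring
      rw [h6]
      exact dvd_add (h4.mul_left _) h5
    · have h4 : (3 : ℤ) ∣ (q : ℤ) := by exact_mod_cast dvd_qq (z := z) Nat.prime_three (by omega)
      have h5 := hb.2 3 Nat.prime_three (by omega) (by norm_num)
      have h6 : ((r * q + b : ℕ) : ℤ) - v 3 = r * q + ((b : ℤ) - v 3) := by push_cast; ring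
      rw [h6]
      exact dvd_add (h4.mul_left _) h5
  have hLam1 : ∀ p ∈ A, 1 ≤ 2 * Real.exp (c p) := by
    intro p hp
    have := Real.one_le_exp (hA p hp).2.2.2.2.1
    linarith
  have hLam2 : ∀ p ∈ A, ∀ s ∈ sgn, 1 / (2 * Real.exp (c p)) ≤ π p s := by
    intro p hp s hs'
    obtain ⟨-, -, -, h0, hc, h1, h2⟩ := hA p hp
    have h3 : 1 / (2 * Real.exp (c p)) = Real.exp (-c p) / 2 := by
      rw [Real.exp_neg]
      field_simp
    rw [h3]
    have h4 : Real.exp (-c p) ≤ 1 := Real.exp_le_one_iff.2 (by linarith)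
    have h5 : 0 < Real.exp (-c p) := Real.exp_pos _
    unfold sgn at hs'
    simp only [mem_insert, mem_singleton] at hs'
    rcases hs' with rfl | rfl | rfl
    · linarith
    · linarith
    · linarith
  have hSM := stmt_SMG π hπ hs A (fun p => 2 * Real.exp (c p)) hLam1 hLam2 R S
    (fun r => Dset A U (r * q + b)) H θ v hRne hθ0 hdep hprob
  -- the event
  have hmono : EA π A (ind {w | ∀ N : ℕ, x ≤ N → N + U ≤ 2 * x → w ∉ Emp x U N}) v ≤
      EA π A (ind {w | ∀ r ∈ R, w ∉ S r}) v := by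
    apply EA_mono hπ
    intro w
    apply ind_mono
    intro hw r hr hwr
    have hr' := hR hr
    unfold rows at hr'
    rw [mem_filter] at hr'
    exact hw (r * q + b) (by omega) (by omega) (empR_sub hwr)
  refine hmono.trans (hSM.trans ?_)
  have hsub : R ×ˢ R ⊆ rows x q b U ×ˢ rows x q b U := product_subset_product hR hR
  have hT1 : ∑ rr ∈ (R ×ˢ R).filter (fun rr => ((∏ p ∈ Dset A U (rr.1 * q + b) ∩
        Dset A U (rr.2 * q + b), p : ℕ) : ℝ) ≤ H),
      ((∏ p ∈ Dset A U (rr.1 * q + b) ∩ Dset A U (rr.2 * q + b), 2 * Real.exp (c p)) - 1) ≤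
      H ^ 2 * E1 := by
    refine le_trans (Finset.sum_le_sum_of_subset_of_nonneg ?_ ?_) hPC.1
    · intro rr hrr
      rw [mem_filter] at hrr ⊢
      exact ⟨hsub hrr.1, hrr.2⟩
    intro rr _ _
    rw [sub_nonneg]
    have h1 : ∏ p ∈ Dset A U (rr.1 * q + b) ∩ Dset A U (rr.2 * q + b), (1 : ℝ) ≤
        ∏ p ∈ Dset A U (rr.1 * q + b) ∩ Dset A U (rr.2 * q + b), 2 * Real.exp (c p) := by
      apply Finset.prod_le_prod
      · intro p _
        exact zero_le_one
      · intro p hp
        exact hLam1 p (hDsub _ (mem_inter.1 hp).1)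
    rwa [prod_const_one] at h1
  have hT2 : (((R ×ˢ R).filter (fun rr => H < ((∏ p ∈ Dset A U (rr.1 * q + b) ∩
        Dset A U (rr.2 * q + b), p : ℕ) : ℝ))).card : ℝ) ≤
      H ^ 2 * E2 := by
    refine le_trans (Nat.cast_le.2 (card_le_card ?_)) hPC.2
    intro rr hrr
    rw [mem_filter] at hrr ⊢
    exact ⟨hsub hrr.1, hrr.2⟩
  have hθinv : 1 / θ = Real.exp T := by
    rw [hθ, Real.exp_neg, one_div, inv_inv]
  have hnum : (∑ rr ∈ (R ×ˢ R).filter (fun rr => ((∏ p ∈ Dset A U (rr.1 * q + b) ∩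
        Dset A U (rr.2 * q + b), p : ℕ) : ℝ) ≤ H),
      ((∏ p ∈ Dset A U (rr.1 * q + b) ∩ Dset A U (rr.2 * q + b), 2 * Real.exp (c p)) - 1)) +
      (((R ×ˢ R).filter (fun rr => H < ((∏ p ∈ Dset A U (rr.1 * q + b) ∩
        Dset A U (rr.2 * q + b), p : ℕ) : ℝ))).card : ℝ) / θ ≤
      H ^ 2 * (E1 + E2 * Real.exp T) := by
    have h1 : (((R ×ˢ R).filter (fun rr => H < ((∏ p ∈ Dset A U (rr.1 * q + b) ∩
        Dset A U (rr.2 * q + b), p : ℕ) : ℝ))).card : ℝ) / θ ≤
        H ^ 2 * (E2 * Real.exp T) := by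
      rw [← hθinv, div_eq_mul_one_div, ← mul_assoc]
      exact mul_le_mul_of_nonneg_right hT2 (by positivity)
    calc _ ≤ H ^ 2 * E1 + H ^ 2 * (E2 * Real.exp T) := add_le_add hT1 h1
      _ = _ := by ring
  rw [div_le_iff₀ (by positivity)]
  refine hnum.trans ?_
  have hcard2 : (H / 4) ^ 2 ≤ (R.card : ℝ) ^ 2 := pow_le_pow_left₀ (by positivity) hRcard 2
  have hnn : 0 ≤ E1 + E2 * Real.exp T := by positivity
  calc H ^ 2 * (E1 + E2 * Real.exp T) = (16 * (E1 + E2 * Real.exp T)) * (H / 4) ^ 2 := by ring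
    _ ≤ _ := mul_le_mul_of_nonneg_left hcard2 (by positivity)

/-- The final bound tends to zero. -/
theorem tendsto_bound {C C1 δ η : ℝ} (hδ : 0 < δ) (hη : 0 < η) :
    Tendsto (fun z : ℕ => 16 * (C * (Real.exp (18 * (z : ℝ) ^ (-δ) * (Real.log z + C1)) - 1) +
      (z : ℝ) ^ (-(η / 4)))) atTop (nhds 0) := by
  have hc := tendsto_natCast_atTop_atTop (R := ℝ)
  have h1 : Tendsto (fun z : ℕ => (z : ℝ) ^ (-δ)) atTop (nhds 0) :=
    (tendsto_rpow_neg_atTop hδ).comp hc
  have h2 : Tendsto (fun z : ℕ => Real.log z / (z : ℝ) ^ δ) atTop (nhds 0) :=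
    ((isLittleO_log_rpow_atTop hδ).tendsto_div_nhds_zero).comp hc
  have h3 : Tendsto (fun z : ℕ => (z : ℝ) ^ (-(η / 4))) atTop (nhds 0) :=
    (tendsto_rpow_neg_atTop (by positivity)).comp hc
  have h4 : Tendsto (fun z : ℕ => 18 * (z : ℝ) ^ (-δ) * (Real.log z + C1)) atTop (nhds 0) := by
    have h5 : Tendsto (fun z : ℕ => 18 * (Real.log z / (z : ℝ) ^ δ) + 18 * C1 * (z : ℝ) ^ (-δ))
        atTop (nhds 0) := by
      have := (h2.const_mul 18).add (h1.const_mul (18 * C1))
      simpa using this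
    refine h5.congr fun z => ?_
    rw [Real.rpow_neg (Nat.cast_nonneg z)]
    ring
  have h5 : Tendsto (fun z : ℕ => Real.exp (18 * (z : ℝ) ^ (-δ) * (Real.log z + C1)) - 1) atTop
      (nhds 0) := by
    have := ((Real.continuous_exp.tendsto 0).comp h4).sub_const 1
    simpa using this
  have h6 := ((h5.const_mul C).add h3).const_mul 16
  simpa using h6

end SCSYaux

open SCSaux SCSYaux PCYaux in
theorem stmt_SCSY (hROWSY : Stmt_ROWSY) (hCLS : Stmt_CLS) : Stmt_SCSY := by
  classical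
  intro π lam ell u0 K δ t0 hlam hπ hell
  have hδ0 := hell.δ_pos
  have hδ1 := hell.δ_le
  set κ : ℝ := min (1 / 50) (δ / 10) with hκ
  have hκ0 : 0 < κ := lt_min (by norm_num) (by positivity)
  have hκ1 : κ ≤ 1 / 50 := min_le_left _ _
  have hκδ : κ ≤ δ / 10 := min_le_right _ _
  set η : ℝ := δ / 20 with hη
  have hη0 : 0 < η := by positivity
  have hη1 : η ≤ 1 / 20 := by rw [hη]; linarith
  obtain ⟨g, hg0, hg1, z1, hz1⟩ := hROWSY π lam u0 K hlam hπ κ hκ0 hκ1 (η / 12) (by positivity)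
  obtain ⟨C, hC0, z2, hz2⟩ := stmt_PCY κ η hκ0 hκ1 hη0 (by linarith)
  obtain ⟨C1, hC1⟩ := stmt_MT.1 κ hκ0 (by linarith) 2 le_rfl
  obtain ⟨P1, hP1⟩ := hπ.half
  obtain ⟨P2, hP2⟩ := hπ.low
  have hK := hlam.K_ge
  have hu0 := hlam.u0_ge
  set K1 : ℝ := K * lam u0 with hK1
  have hlu0 := hlam.one_le u0 le_rfl
  have hK11 : 1 ≤ K1 := one_le_mul_of_one_le_of_one_le hK hlu0
  have hlamK : ∀ u : ℝ, u0 ≤ u → lam u ≤ K1 * u := by
    intro u hu
    have h1 := hlam.sub (u / u0) u0 ((one_le_div (by linarith)).2 hu) le_rfl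
    rw [div_mul_cancel₀ _ (by linarith)] at h1
    have h2 : u / u0 ≤ u := div_le_self (by linarith) hu0
    calc lam u ≤ K * (u / u0 * lam u0) := h1
      _ ≤ K * (u * lam u0) := by
        apply mul_le_mul_of_nonneg_left _ (by linarith)
        exact mul_le_mul_of_nonneg_right h2 (by linarith)
      _ = K1 * u := by rw [hK1]; ring
  refine ⟨g / (4 * K), by positivity, fun ε hε x0 => ?_⟩
  -- the choice of `z`
  have hcast := tendsto_natCast_atTop_atTop (R := ℝ)
  have t1 : Tendsto (fun z : ℕ => (z : ℝ) ^ (κ / 2)) atTop atTop :=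
    (tendsto_rpow_atTop (by positivity)).comp hcast
  have t2 : Tendsto (fun z : ℕ => Real.log z) atTop atTop :=
    Real.tendsto_log_atTop.comp hcast
  have t3 : Tendsto (fun z : ℕ => (z : ℝ) ^ δ) atTop atTop :=
    (tendsto_rpow_atTop hδ0).comp hcast
  have t5 := tendsto_bound (C := C) (C1 := C1) hδ0 hη0
  obtain ⟨z, ht1, ht2, ht3, ht5, hzz1, hzz2, hzP1, hzP2, hz9, hzx0⟩ :=
    ((t1.eventually_ge_atTop (K1 + 2)).and ((t2.eventually_ge_atTop (max t0 1)).and
      ((t3.eventually_ge_atTop (81 + K1 ^ 2 + 8 * K * K1 ^ 2 / g)).and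
      ((t5.eventually_lt_const hε).and ((eventually_ge_atTop z1).and
      ((eventually_ge_atTop z2).and ((eventually_ge_atTop P1).and ((eventually_ge_atTop P2).and
      ((eventually_ge_atTop 16).and (eventually_ge_atTop x0)))))))))).exists
  have hzR : (16 : ℝ) ≤ z := by exact_mod_cast hz9
  have hz0 : (0 : ℝ) < z := by linarith
  have hzge1 : (1 : ℝ) ≤ z := by linarith
  have hlogz1 : 1 ≤ Real.log z := (le_max_right _ _).trans ht2
  have hlogzt : t0 ≤ Real.log z := (le_max_left _ _).trans ht2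
  have hκhalf : 1 ≤ (z : ℝ) ^ (κ / 2) := by linarith
  -- the choice of `x`
  have hzκ : (z : ℝ) ^ (κ / 2) ≤ (z : ℝ) ^ κ :=
    Real.rpow_le_rpow_of_exponent_le hzge1 (by linarith)
  have hzpow : (z : ℝ) ≤ (z : ℝ) ^ (1 + 3 * κ / 2) := by
    calc (z : ℝ) = (z : ℝ) ^ (1 : ℝ) := (Real.rpow_one _).symm
      _ ≤ _ := Real.rpow_le_rpow_of_exponent_le hzge1 (by linarith)
  set x : ℕ := ⌈Real.exp ((z : ℝ) ^ (1 + 3 * κ / 2))⌉₊ with hx
  have hxe : Real.exp ((z : ℝ) ^ (1 + 3 * κ / 2)) ≤ x := Nat.le_ceil _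
  have hxpos : (0 : ℝ) < x := (Real.exp_pos _).trans_le hxe
  have hxz : (z : ℝ) + 1 ≤ x := by
    refine le_trans ?_ hxe
    exact (Real.add_one_le_exp _).trans (Real.exp_le_exp.2 hzpow)
  have hxz' : z + 1 ≤ x := by exact_mod_cast hxz
  set L := Real.log x with hLdef
  have hL1' : (z : ℝ) ^ (1 + 3 * κ / 2) ≤ L := by
    rw [hLdef, Real.le_log_iff_exp_le hxpos]
    exact hxe
  have hL1 : (z : ℝ) ^ (1 + κ) ≤ L :=
    (Real.rpow_le_rpow_of_exponent_le hzge1 (by linarith)).trans hL1'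
  have hL2 : L ≤ (z : ℝ) ^ (1 + 2 * κ) := by
    have h1 : (x : ℝ) ≤ Real.exp ((z : ℝ) ^ (1 + 3 * κ / 2)) + 1 := (Nat.ceil_lt_add_one
      (Real.exp_pos _).le).le
    have h2 : (x : ℝ) ≤ Real.exp ((z : ℝ) ^ (1 + 3 * κ / 2) + 1) := by
      refine h1.trans ?_
      rw [Real.exp_add]
      have h3 : 1 ≤ Real.exp ((z : ℝ) ^ (1 + 3 * κ / 2)) := Real.one_le_exp (by positivity)
      have h4 : 2 ≤ Real.exp 1 := by
        have := Real.add_one_le_exp (1 : ℝ)
        linarith
      have h5 := mul_le_mul_of_nonneg_left h4 (Real.exp_pos ((z : ℝ) ^ (1 + 3 * κ / 2))).le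
      linarith
    have h3 : L ≤ (z : ℝ) ^ (1 + 3 * κ / 2) + 1 := by
      rw [hLdef, Real.log_le_iff_le_exp hxpos]
      exact h2
    refine h3.trans ?_
    have h4 : (z : ℝ) ^ (1 + 2 * κ) = (z : ℝ) ^ (1 + 3 * κ / 2) * (z : ℝ) ^ (κ / 2) := by
      rw [← Real.rpow_add hz0]
      congr 1
      ring
    rw [h4]
    have h5 : 2 ≤ (z : ℝ) ^ (κ / 2) := by linarith
    have h6 := mul_le_mul_of_nonneg_left h5
      (Real.rpow_nonneg hz0.le (1 + 3 * κ / 2))
    linarith
  have hInR : InR κ z x := ⟨hL1, hL2⟩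
  have hLz : (z : ℝ) ≤ L := hzpow.trans hL1'
  have hL0 : 0 < L := hz0.trans_le hLz
  set t := Real.log L with ht
  have htexp : Real.exp t = L := Real.exp_log hL0
  have htz : Real.log z ≤ t := Real.log_le_log hz0 hLz
  have ht1' : 1 ≤ t := hlogz1.trans htz
  have htt0 : t0 ≤ t := hlogzt.trans htz
  have hδt : 81 + K1 ^ 2 + 8 * K * K1 ^ 2 / g ≤ Real.exp (δ * t) := by
    refine ht3.trans ?_
    rw [Real.rpow_def_of_pos hz0]
    apply Real.exp_le_exp.2
    rw [mul_comm]
    exact mul_le_mul_of_nonneg_left htz hδ0.le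
  have hKg : 0 ≤ 8 * K * K1 ^ 2 / g := by positivity
  -- the smallest killers
  set E := ell t with hE
  have hEu0 : u0 ≤ E := hell.ge t htt0
  have hE1 : 1 ≤ E := hu0.trans hEu0
  set l := lam E with hl
  have hl1 : 1 ≤ l := hlam.one_le E hEu0
  have hl0 : 0 < l := by linarith
  have hlE : l ≤ K1 * E := hlamK E hEu0
  have hEle : E ≤ K1 * Real.exp ((1 - δ) * t) := by
    have h1 : E ^ 2 ≤ l * Real.exp ((1 - δ) * t) := hell.size t htt0
    have h2 : E * E ≤ (K1 * Real.exp ((1 - δ) * t)) * E := by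
      calc E * E = E ^ 2 := by ring
        _ ≤ l * Real.exp ((1 - δ) * t) := h1
        _ ≤ (K1 * E) * Real.exp ((1 - δ) * t) :=
          mul_le_mul_of_nonneg_right hlE (Real.exp_pos _).le
        _ = _ := by ring
    exact le_of_mul_le_mul_right h2 (by linarith)
  have hlle : l ≤ K1 ^ 2 * Real.exp ((1 - δ) * t) := by
    calc l ≤ K1 * E := hlE
      _ ≤ K1 * (K1 * Real.exp ((1 - δ) * t)) := mul_le_mul_of_nonneg_left hEle (by linarith)
      _ = _ := by ring
  set W : ℝ := L ^ 2 / l with hW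
  have hW0 : 0 < W := by positivity
  have hlogl : Real.log l ≤ 2 * Real.log K1 + (1 - δ) * t := by
    have h1 := Real.log_le_log hl0 hlle
    rwa [Real.log_mul (by positivity) (Real.exp_pos _).ne', Real.log_exp, Real.log_pow] at h1
  have hδtK : 2 * Real.log K1 ≤ δ * t := by
    have h1 : K1 ^ 2 ≤ Real.exp (δ * t) := by linarith
    have h2 := Real.log_le_log (by positivity) h1
    rwa [Real.log_exp, Real.log_pow] at h2
  have hδt9 : 2 * Real.log 9 ≤ δ * t := by
    have h1 : (9 : ℝ) ^ 2 ≤ Real.exp (δ * t) := by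
      have : 0 ≤ K1 ^ 2 := by positivity
      linarith
    have h2 := Real.log_le_log (by positivity) h1
    rwa [Real.log_exp, Real.log_pow] at h2
  have hlogW : Real.log W = 2 * t - Real.log l := by
    rw [hW, Real.log_div (by positivity) hl0.ne', Real.log_pow, ← ht]
    norm_num
  have hlogl0 : 0 ≤ Real.log l := Real.log_nonneg hl1
  have hlogW0 : t ≤ Real.log W := by
    rw [hlogW]
    have h1 : (1 - δ) * t = t - δ * t := by ring
    linarith
  have hLleW : L ≤ W := by
    rw [← htexp, ← Real.exp_log hW0]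
    exact Real.exp_le_exp.2 hlogW0
  have hW1 : 1 ≤ W := by linarith
  have hWbig : L * Real.exp (δ * t) ≤ K1 ^ 2 * W := by
    rw [hW, ← mul_div_assoc, le_div_iff₀ hl0]
    calc L * Real.exp (δ * t) * l ≤ L * Real.exp (δ * t) * (K1 ^ 2 * Real.exp ((1 - δ) * t)) :=
          mul_le_mul_of_nonneg_left hlle (by positivity)
      _ = K1 ^ 2 * (L * (Real.exp (δ * t) * Real.exp ((1 - δ) * t))) := by ring
      _ = K1 ^ 2 * L ^ 2 := by
          rw [← Real.exp_add, show δ * t + (1 - δ) * t = t by ring, htexp]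
          ring
  have hroom : ∀ u : ℝ, E ≤ u → 2 * Real.log W + δ * t ≤ u - lam u := by
    intro u hu
    have := hell.room t htt0 u hu
    rw [hlogW]
    linarith
  have hroomE := hroom E le_rfl
  -- the choice of `y`
  set y : ℕ := ⌈Real.exp E⌉₊ with hy
  have hye : Real.exp E ≤ y := Nat.le_ceil _
  have hypos : (0 : ℝ) < y := (Real.exp_pos _).trans_le hye
  have hylog1 : E ≤ Real.log y := by
    rw [Real.le_log_iff_exp_le hypos]
    exact hye
  have hylog2 : Real.log y ≤ E + 1 := by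
    rw [Real.log_le_iff_le_exp hypos, Real.exp_add]
    have h1 : (y : ℝ) ≤ Real.exp E + 1 := (Nat.ceil_lt_add_one (Real.exp_pos _).le).le
    have h3 : 1 ≤ Real.exp E := Real.one_le_exp (by linarith)
    have h4 : 2 ≤ Real.exp 1 := by
      have := Real.add_one_le_exp (1 : ℝ)
      linarith
    have h5 := mul_le_mul_of_nonneg_left h4 (Real.exp_pos E).le
    linarith
  have hyL : (L : ℝ) ^ 2 ≤ y := by
    refine le_trans ?_ hye
    have h1 : L ^ 2 = Real.exp (2 * t) := by
      rw [← htexp, ← Real.exp_nat_mul]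
      norm_num
    rw [h1]
    apply Real.exp_le_exp.2
    have h2 : 0 ≤ lam E := by linarith
    have h3 : 0 ≤ δ * t := by positivity
    linarith
  have hyz : z ^ 2 ≤ y := by
    have h1 : (z : ℝ) ^ 2 ≤ y := (pow_le_pow_left₀ hz0.le hLz 2).trans hyL
    exact_mod_cast h1
  have hYOk : YOk κ y z := by
    refine ⟨hyz, ?_⟩
    have h1 : Real.exp ((1 - δ) * t) ≤ (z : ℝ) ^ (1 - 8 * κ) := by
      rw [Real.rpow_def_of_pos hz0]
      apply Real.exp_le_exp.2
      have h2 : t ≤ (1 + 2 * κ) * Real.log z := by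
        rw [ht, ← Real.log_rpow hz0]
        exact Real.log_le_log hL0 hL2
      calc (1 - δ) * t ≤ (1 - δ) * ((1 + 2 * κ) * Real.log z) :=
            mul_le_mul_of_nonneg_left h2 (by linarith)
        _ = Real.log z * (1 - 8 * κ) - Real.log z * ((δ - 10 * κ) + 2 * κ * δ) := by ring
        _ ≤ Real.log z * (1 - 8 * κ) := by
            have h3 : 0 ≤ Real.log z * ((δ - 10 * κ) + 2 * κ * δ) := by
              apply mul_nonneg (by linarith)
              have : 0 ≤ 2 * κ * δ := by positivity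
              linarith
            linarith
    have h2 : 1 ≤ (z : ℝ) ^ (1 - 8 * κ) := Real.one_le_rpow hzge1 (by linarith)
    calc Real.log y ≤ E + 1 := hylog2
      _ ≤ K1 * (z : ℝ) ^ (1 - 8 * κ) + (z : ℝ) ^ (1 - 8 * κ) := by
          have := mul_le_mul_of_nonneg_left h1 (by linarith : 0 ≤ K1)
          linarith
      _ = (K1 + 1) * (z : ℝ) ^ (1 - 8 * κ) := by ring
      _ ≤ (z : ℝ) ^ (κ / 2) * (z : ℝ) ^ (1 - 8 * κ) :=
          mul_le_mul_of_nonneg_right (by linarith) (by positivity)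
      _ = (z : ℝ) ^ (κ / 2 + (1 - 8 * κ)) := (Real.rpow_add hz0 _ _).symm
      _ ≤ (z : ℝ) ^ (1 - 2 * κ) := Real.rpow_le_rpow_of_exponent_le hzge1 (by linarith)
  -- the choice of `U`
  have hylogu0 : u0 ≤ Real.log y := hEu0.trans hylog1
  set ly := lam (Real.log y) with hly
  have hlyl : l ≤ ly := hlam.mono _ _ hEu0 hylog1
  have hly0 : 0 < ly := by linarith
  have hly2 : ly ≤ 2 * K * l := by
    have h1 : ly ≤ lam (2 * E) := hlam.mono _ _ hylogu0 (by linarith)
    have h2 := hlam.sub 2 E (by norm_num) hEu0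
    calc ly ≤ lam (2 * E) := h1
      _ ≤ K * (2 * lam E) := h2
      _ = 2 * K * l := by ring
  set Y : ℝ := g * L ^ 2 / ly with hY
  have hY0 : 0 ≤ Y := by positivity
  set U : ℕ := ⌊Y⌋₊ with hU
  have hUY : (U : ℝ) ≤ Y := Nat.floor_le hY0
  have hUl : (U : ℝ) * ly ≤ g * L ^ 2 := by
    rw [hY, le_div_iff₀ hly0] at hUY
    exact hUY
  have hYW : g / (2 * K) * W ≤ Y := by
    rw [hY, hW, le_div_iff₀ hly0]
    calc g / (2 * K) * (L ^ 2 / l) * ly ≤ g / (2 * K) * (L ^ 2 / l) * (2 * K * l) :=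
          mul_le_mul_of_nonneg_left hly2 (by positivity)
      _ = g * L ^ 2 := by field_simp
  have hYW2 : Y ≤ W := by
    rw [hY, hW]
    calc g * L ^ 2 / ly ≤ 1 * L ^ 2 / l := by
          apply div_le_div₀ (by positivity) _ hl0 hlyl
          exact mul_le_mul_of_nonneg_right hg1 (by positivity)
      _ = L ^ 2 / l := by rw [one_mul]
  have hUW : (U : ℝ) ≤ W := hUY.trans hYW2
  have hgW : 2 * (L : ℝ) ≤ g / (4 * K) * W := by
    have h1 : 8 * K * K1 ^ 2 / g ≤ Real.exp (δ * t) := by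
      have : 0 ≤ K1 ^ 2 := by positivity
      linarith
    have h2 : L * (8 * K * K1 ^ 2 / g) ≤ K1 ^ 2 * W :=
      (mul_le_mul_of_nonneg_left h1 hL0.le).trans hWbig
    have h3 : L * (8 * K * K1 ^ 2 / g) = K1 ^ 2 * (L * (8 * K) / g) := by ring
    rw [h3] at h2
    have h4 := le_of_mul_le_mul_left h2 (by positivity)
    rw [div_le_iff₀ hg0] at h4
    have h5 : g / (4 * K) * W = W * g / (4 * K) := by ring
    rw [h5, le_div_iff₀ (by positivity)]
    linarith
  have hzU : z ≤ U := by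
    apply Nat.le_floor
    have h1 : g / (4 * K) * W ≤ g / (2 * K) * W := by
      apply mul_le_mul_of_nonneg_right _ hW0.le
      apply div_le_div_of_nonneg_left hg0.le (by positivity)
      linarith
    linarith
  have hUy2 : (U : ℝ) * Real.log y ^ 2 ≤ (z : ℝ) ^ (2 - 3 * κ) * L := by
    have h1 : Real.log y ^ 2 ≤ 4 * (l * Real.exp ((1 - δ) * t)) := by
      have h2 : Real.log y ≤ 2 * E := by linarith
      have h3 : Real.log y ^ 2 ≤ (2 * E) ^ 2 := pow_le_pow_left₀ (by linarith) h2 2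
      have h4 : E ^ 2 ≤ l * Real.exp ((1 - δ) * t) := hell.size t htt0
      have h5 : (2 * E) ^ 2 = 4 * E ^ 2 := by ring
      linarith
    calc (U : ℝ) * Real.log y ^ 2 ≤ (L ^ 2 / l) * (4 * (l * Real.exp ((1 - δ) * t))) :=
          mul_le_mul hUW h1 (by positivity) hW0.le
      _ = 4 * (L * Real.exp ((1 - δ) * t)) * L := by field_simp
      _ ≤ (z : ℝ) ^ (2 - 3 * κ) * L := by
          apply mul_le_mul_of_nonneg_right _ hL0.le
          have h5 : L * Real.exp ((1 - δ) * t) = Real.exp ((2 - δ) * t) := by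
            conv_lhs => rw [← htexp]
            rw [← Real.exp_add]
            ring_nf
          have h6 : Real.exp ((2 - δ) * t) ≤ (z : ℝ) ^ (2 - 6 * κ) := by
            rw [Real.rpow_def_of_pos hz0]
            apply Real.exp_le_exp.2
            have h2 : t ≤ (1 + 2 * κ) * Real.log z := by
              rw [ht, ← Real.log_rpow hz0]
              exact Real.log_le_log hL0 hL2
            calc (2 - δ) * t ≤ (2 - δ) * ((1 + 2 * κ) * Real.log z) :=
                  mul_le_mul_of_nonneg_left h2 (by linarith)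
              _ = Real.log z * (2 - 6 * κ) - Real.log z * ((δ - 10 * κ) + 2 * κ * δ) := by ring
              _ ≤ Real.log z * (2 - 6 * κ) := by
                  have h3 : 0 ≤ Real.log z * ((δ - 10 * κ) + 2 * κ * δ) := by
                    apply mul_nonneg (by linarith)
                    have : 0 ≤ 2 * κ * δ := by positivity
                    linarith
                  linarith
          rw [h5]
          have h7 : 4 ≤ (z : ℝ) ^ κ * (z : ℝ) ^ κ := by
            have h8 : 2 ≤ (z : ℝ) ^ κ := by linarith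
            have h9 := mul_le_mul h8 h8 (by norm_num) (by linarith)
            linarith
          calc 4 * Real.exp ((2 - δ) * t) ≤ ((z : ℝ) ^ κ * (z : ℝ) ^ κ) * (z : ℝ) ^ (2 - 6 * κ) :=
                mul_le_mul h7 h6 (Real.exp_pos _).le (by positivity)
            _ = (z : ℝ) ^ (κ + κ + (2 - 6 * κ)) := by
                rw [Real.rpow_add hz0, Real.rpow_add hz0]
            _ ≤ (z : ℝ) ^ (2 - 3 * κ) :=
                Real.rpow_le_rpow_of_exponent_le hzge1 (by linarith)
  refine ⟨x, U, by omega, ?_, ?_⟩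
  · -- the size of `U`
    have h1 : Y - 1 ≤ U := by
      have := Nat.lt_floor_add_one Y
      linarith
    have h2 : g / (4 * K) * L ^ 2 / lam (ell t) = g / (4 * K) * W := by
      rw [hW]
      ring
    have h3 : g / (2 * K) * W = 2 * (g / (4 * K) * W) := by
      field_simp
      ring
    rw [h2]
    linarith
  · -- the probability
    set A := AY κ y z with hA
    have hpy : ∀ p ∈ A, (y : ℝ) ≤ p := by
      intro p hp
      exact_mod_cast (mem_AY.1 hp).2.1.le
    have hpprime : ∀ p ∈ A, p.Prime := fun p hp => (mem_AY.1 hp).1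
    have hzy : z ≤ y := (Nat.le_self_pow (by norm_num) z).trans hyz
    have hpz : ∀ p ∈ A, z ≤ p := fun p hp => hzy.trans (mem_AY.1 hp).2.1.le
    have hlogp : ∀ p ∈ A, E ≤ Real.log p := by
      intro p hp
      exact hylog1.trans (Real.log_le_log hypos (hpy p hp))
    have hpx : ∀ p ∈ A, p * p ≤ x := by
      intro p hp
      have h1 : (p : ℝ) ≤ Real.exp ((z : ℝ) ^ (1 - κ)) := by
        have := (mem_AY.1 hp).2.2
        unfold w1 at this
        exact (Nat.le_floor_iff (Real.exp_pos _).le).1 this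
      have h2 : (p : ℝ) * p ≤ x := by
        calc (p : ℝ) * p ≤ Real.exp ((z : ℝ) ^ (1 - κ)) * Real.exp ((z : ℝ) ^ (1 - κ)) :=
              mul_le_mul h1 h1 (Nat.cast_nonneg _) (Real.exp_pos _).le
          _ = Real.exp (2 * (z : ℝ) ^ (1 - κ)) := by
              rw [← Real.exp_add]
              ring_nf
          _ ≤ Real.exp ((z : ℝ) ^ (1 + 3 * κ / 2)) := by
              apply Real.exp_le_exp.2
              calc 2 * (z : ℝ) ^ (1 - κ) ≤ (z : ℝ) ^ κ * (z : ℝ) ^ (1 - κ) :=
                    mul_le_mul_of_nonneg_right (by linarith) (by positivity)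
                _ = (z : ℝ) ^ (κ + (1 - κ)) := (Real.rpow_add hz0 _ _).symm
                _ ≤ (z : ℝ) ^ (1 + 3 * κ / 2) :=
                    Real.rpow_le_rpow_of_exponent_le hzge1 (by linarith)
          _ ≤ x := hxe
      exact_mod_cast h2
    have hUp : ∀ p ∈ A, U + 6 < p := by
      intro p hp
      have h1 : (U : ℝ) + 6 < p := by
        have h2 : W + 6 < W ^ 2 * Real.exp (δ * t) := by
          have h3 : 81 ≤ Real.exp (δ * t) := by
            have : 0 ≤ K1 ^ 2 := by positivity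
            linarith
          have h5 : W ≤ W ^ 2 := le_self_pow₀ hW1 (by norm_num)
          have h6 := mul_le_mul_of_nonneg_left h3 (by linarith : 0 ≤ W ^ 2)
          linarith
        have h4 : W ^ 2 * Real.exp (δ * t) ≤ y := by
          refine le_trans ?_ hye
          have h5 : W ^ 2 * Real.exp (δ * t) = Real.exp (2 * Real.log W + δ * t) := by
            rw [Real.exp_add, show 2 * Real.log W = Real.log (W ^ 2) by
              rw [Real.log_pow]; norm_num, Real.exp_log (by positivity)]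
          rw [h5]
          apply Real.exp_le_exp.2
          linarith
        have := hpy p hp
        linarith
      exact_mod_cast h1
    have hAok : ∀ p ∈ A, p.Prime ∧ U + 6 < p ∧ p * p ≤ x ∧ 1 / 2 ≤ π p 0 ∧
        0 ≤ lam (Real.log p) ∧ Real.exp (-lam (Real.log p)) ≤ π p 1 ∧
        Real.exp (-lam (Real.log p)) ≤ π p (-1) := by
      intro p hp
      have h2 := hP2 p (hpprime p hp) (hzP2.trans (hpz p hp))
      refine ⟨hpprime p hp, hUp p hp, hpx p hp, hP1 p (hpprime p hp) (hzP1.trans (hpz p hp)), ?_,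
        h2.1, h2.2⟩
      have := hlam.one_le (Real.log p) (hEu0.trans (hlogp p hp))
      linarith
    have hLam : ∀ p ∈ A, 1 ≤ 2 * Real.exp (lam (Real.log p)) := by
      intro p hp
      have h1 := (hAok p hp).2.2.2.2.1
      have := Real.one_le_exp h1
      linarith
    have hU9 : ((U : ℝ) + 2) ^ 2 ≤ 9 * W ^ 2 := by
      have h1 : (U : ℝ) + 2 ≤ 3 * W := by linarith
      calc ((U : ℝ) + 2) ^ 2 ≤ (3 * W) ^ 2 := pow_le_pow_left₀ (by positivity) h1 2
        _ = 9 * W ^ 2 := by ring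
    have hUη : ∀ p ∈ A, ((U : ℝ) + 2) ^ 2 ≤ (p : ℝ) ^ (1 - η) := by
      intro p hp
      have hp0 : (0 : ℝ) < p := by exact_mod_cast (hpprime p hp).pos
      refine hU9.trans ?_
      have h1 : 9 * W ^ 2 = Real.exp (Real.log 9 + 2 * Real.log W) := by
        rw [Real.exp_add, Real.exp_log (by norm_num), show 2 * Real.log W = Real.log (W ^ 2) by
          rw [Real.log_pow]; norm_num, Real.exp_log (by positivity)]
      rw [h1, Real.rpow_def_of_pos hp0]
      apply Real.exp_le_exp.2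
      have h2 : Real.log 9 + 2 * Real.log W ≤ E * (1 - η) := by
        rcases le_or_gt E (10 * t) with h3 | h3
        · have h4 : η * E ≤ δ * t / 2 := by
            calc η * E ≤ η * (10 * t) := mul_le_mul_of_nonneg_left h3 hη0.le
              _ = δ * t / 2 := by rw [hη]; ring
          linarith
        · have h4 : Real.log 9 ≤ 3 := by
            rw [Real.log_le_iff_le_exp (by norm_num)]
            have h5 : Real.exp 3 = Real.exp 1 ^ 3 := by
              rw [← Real.exp_nat_mul]; norm_num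
            have h6 := Real.exp_one_gt_d9
            rw [h5]
            have h7 : (2.7 : ℝ) ^ 3 ≤ Real.exp 1 ^ 3 :=
              pow_le_pow_left₀ (by norm_num) (by linarith) 3
            norm_num at h7
            linarith
          have h5 : Real.log W ≤ 2 * t := by rw [hlogW]; linarith
          have h6 : E * η ≤ E * (1 / 20) := mul_le_mul_of_nonneg_left hη1 (by linarith)
          linarith
      exact h2.trans (mul_le_mul_of_nonneg_right (hlogp p hp) (by linarith))
    -- the sum over the primes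
    have hsum : ∑ p ∈ A, 2 * Real.exp (lam (Real.log p)) * ((U : ℝ) + 2) ^ 2 / (p : ℝ) ^ 2 ≤
        18 * (z : ℝ) ^ (-δ) * (Real.log z + C1) := by
      have h1 : ∀ p ∈ A, 2 * Real.exp (lam (Real.log p)) * ((U : ℝ) + 2) ^ 2 / (p : ℝ) ^ 2 ≤
          18 * Real.exp (-(δ * t)) * (1 / (p : ℝ)) := by
        intro p hp
        have hp0 : (0 : ℝ) < p := by exact_mod_cast (hpprime p hp).pos
        have h2 := hroom (Real.log p) (hlogp p hp)
        have h3 : Real.exp (lam (Real.log p)) ≤ p / W ^ 2 * Real.exp (-(δ * t)) := by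
          have h4 : (p : ℝ) / W ^ 2 * Real.exp (-(δ * t)) =
              Real.exp (Real.log p - 2 * Real.log W - δ * t) := by
            rw [Real.exp_sub, Real.exp_sub, Real.exp_log hp0,
              show 2 * Real.log W = Real.log (W ^ 2) by rw [Real.log_pow]; norm_num,
              Real.exp_log (by positivity), Real.exp_neg]
            rfl
          rw [h4]
          apply Real.exp_le_exp.2
          linarith
        calc 2 * Real.exp (lam (Real.log p)) * ((U : ℝ) + 2) ^ 2 / (p : ℝ) ^ 2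
            ≤ 2 * (p / W ^ 2 * Real.exp (-(δ * t))) * (9 * W ^ 2) / (p : ℝ) ^ 2 := by
              apply div_le_div_of_nonneg_right _ (by positivity)
              apply mul_le_mul _ hU9 (by positivity) (by positivity)
              linarith
          _ = 18 * Real.exp (-(δ * t)) * (1 / (p : ℝ)) := by
              field_simp
              ring
      refine (sum_le_sum h1).trans ?_
      rw [← mul_sum]
      have h2 : ∑ p ∈ A, 1 / (p : ℝ) ≤ Real.log z + C1 := by
        have h3 := (hC1 z 0 hz9 (Or.inl rfl)).2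
        have h4 : A ⊆ AA κ 2 z 0 := by
          intro p hp
          obtain ⟨a1, a2, a3⟩ := mem_AY.1 hp
          unfold AA
          rw [mem_erase, mem_filter, mem_Ioc]
          exact ⟨a1.ne_zero, ⟨by omega, a3⟩, a1⟩
        have h5 : ∑ p ∈ A, 1 / (p : ℝ) ≤ ∑ p ∈ AA κ 2 z 0, 1 / (p : ℝ) :=
          sum_le_sum_of_subset_of_nonneg h4 fun p _ _ => by positivity
        have h6 : 0 ≤ Real.log (Real.log z) := Real.log_nonneg hlogz1
        have h7 : 0 ≤ κ * Real.log z := by positivity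
        linarith
      have h3 : Real.exp (-(δ * t)) ≤ (z : ℝ) ^ (-δ) := by
        rw [Real.rpow_def_of_pos hz0]
        apply Real.exp_le_exp.2
        have h4 := mul_le_mul_of_nonneg_left htz hδ0.le
        have h5 : Real.log z * -δ = -(δ * Real.log z) := by ring
        linarith
      have h4 : 0 ≤ ∑ p ∈ A, 1 / (p : ℝ) := sum_nonneg fun p _ => by positivity
      calc 18 * Real.exp (-(δ * t)) * ∑ p ∈ A, 1 / (p : ℝ)
          ≤ 18 * (z : ℝ) ^ (-δ) * ∑ p ∈ A, 1 / (p : ℝ) := by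
            apply mul_le_mul_of_nonneg_right _ h4
            linarith
        _ ≤ _ := mul_le_mul_of_nonneg_left h2 (by positivity)
    have hAsub : A ⊆ PX x := by
      intro p hp
      unfold PX
      rw [mem_filter, mem_Icc]
      exact ⟨⟨(hpprime p hp).one_le, Nat.le_sqrt.2 (hpx p hp)⟩, hpprime p hp⟩
    rw [EA_sdiff hAsub]
    have hfin : EA π (PX x \ A) (EA π A (ind {w | ∀ N : ℕ, x ≤ N → N + U ≤ 2 * x →
        w ∉ Emp x U N})) 0 ≤ EA π (PX x \ A) (fun _ => ε) 0 := by
      apply EA_mono_on hπ.nonneg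
      intro v hv1 hv2
      have hv : ∀ p, v p ∈ sgn := by
        intro p
        by_cases hp : p ∈ PX x \ A
        · exact hv2 p hp
        · rw [hv1 p hp]
          simp [sgn]
      obtain ⟨b, hb⟩ := exists_isB v z
      obtain ⟨R, hR, hRc, hrow⟩ := hz1 z hzz1 x U y hInR hYOk hzU hUl hUy2 v hv b hb
      have hPC := hz2 z hzz2 x U y b hInR hb.1 hzy hUη
        (fun p => 2 * Real.exp (lam (Real.log p))) hLam
      set S := ∑ p ∈ A, 2 * Real.exp (lam (Real.log p)) * ((U : ℝ) + 2) ^ 2 / (p : ℝ) ^ 2 with hS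
      have hS0 : 0 ≤ S := sum_nonneg fun p _ => by positivity
      have hE1' : 0 ≤ C * (Real.exp S - 1) := by
        have := Real.one_le_exp hS0
        apply mul_nonneg hC0.le
        linarith
      have h1 := scaleG hCLS hπ.nonneg hπ.sum_one (c := fun p => lam (Real.log p)) (A := A)
        (by omega) (by omega) hv hAok hb hR hRc (T := η / 12 * L) (E1 := C * (Real.exp S - 1))
        (E2 := (x : ℝ) ^ (-(η / 3))) hE1' (by positivity) hrow
        ⟨hPC.1.trans (le_of_eq (by ring)), hPC.2⟩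
      refine h1.trans (le_trans ?_ ht5.le)
      apply mul_le_mul_of_nonneg_left _ (by norm_num)
      apply add_le_add
      · apply mul_le_mul_of_nonneg_left _ hC0.le
        apply sub_le_sub_right
        exact Real.exp_le_exp.2 hsum
      · have h2 : (x : ℝ) ^ (-(η / 3)) * Real.exp (η / 12 * L) = (x : ℝ) ^ (-(η / 4)) := by
          rw [Real.rpow_def_of_pos hxpos, Real.rpow_def_of_pos hxpos, ← Real.exp_add]
          congr 1
          ring
        rw [h2]
        exact Real.rpow_le_rpow_of_nonpos hz0 (by linarith) (by linarith)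
    rw [EA_const hπ.sum_one] at hfin
    exact hfin

end Pool.Agent.Work.MP_b0c12c_nt_sparse
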